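import Mathlib
import Pool.Agent.Lib.MP_b197b4_ntA.XPts
import Pool.Agent.Lib.MP_b197b4_ntBV.V0

/-!
# MP_b197b4_nt, project BW (Bloch's group `V(Y)` in all dimensions over function fields): definitions

`F` is the function field of the projective variety with coordinates `x` over `k`, `K₀` is the
function field of the curve `C`, `v` a place of `K₀`.
-/

set_option autoImplicit false

namespace Pool.Agent.Lib.MP_b197b4_ntBW

open IsLocalRing Pool.Agent.Lib.MP_b197b4_ntK Pool.Agent.Lib.MP_b197b4_ntA
  Pool.Agent.Lib.MP_b197b4_ntBV

/-! ## The graded ring -/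

section

variable {F : Type} [Field F] {n : ℕ}

/-- The values of the homogeneous polynomials of degree `q` with coefficients in `R`. -/
noncomputable def sq (R : Type) [CommRing R] [Algebra R F] (x : Fin (n + 1) → F) (q : ℕ) :
    Submodule R F :=
  (MvPolynomial.homogeneousSubmodule (Fin (n + 1)) R q).map (MvPolynomial.aeval x).toLinearMap

/-- The linear form with coefficients `c`. -/
noncomputable def lf {k : Type} [Field k] [Algebra k F] (x : Fin (n + 1) → F)
    (c : Fin (n + 1) → k) : F :=
  ∑ i, algebraMap k F (c i) * x i

/-- The linear form `w` does not vanish at the point with local ring `R`. -/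
def Gn (x : Fin (n + 1) → F) (w : F) (R : Subring F) : Prop := ∀ j, x j / w ∈ R

end

/-- The affine chart of the form `w`: the functions regular outside the zeros of `w`. -/
def chw (k : Type) {F : Type} [Field k] [Field F] [Algebra k F] {n : ℕ} (x : Fin (n + 1) → F)
    (w : F) : Subalgebra k F :=
  Algebra.adjoin k (Set.range fun j => x j / w)

/-! ## The fibration -/

section

variable {k : Type} {F : Type} [Field k] [Field F] [Algebra k F] {n : ℕ}

/-- The point `P` is horizontal: its local ring contains `K₀`. -/
def HorX (K₀ : IntermediateField k F) (P : LocalSubring F) : Prop := ∀ t ∈ K₀, t ∈ P.toSubring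

/-- The inclusion of `K₀` in the residue field of the horizontal point `P`. -/
noncomputable def toKap (K₀ : IntermediateField k F) (P : LocalSubring F) (h : HorX K₀ P) :
    K₀ →+* Kap P :=
  (residue P.toSubring).comp ((algebraMap K₀ F).codRestrict P.toSubring fun t => h t t.2)

open Classical in
/-- The norm from the residue field of `P` to `K₀`. -/
noncomputable def nrmX (K₀ : IntermediateField k F) (P : LocalSubring F) (u : Kap P) : K₀ :=
  if h : HorX K₀ P then @Algebra.norm K₀ (Kap P) _ _ (toKap K₀ P h).toAlgebra u else 1

/-- The regular projective variety with homogeneous coordinates `x` is fibred over the regular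
projective curve with function field `K₀`: for every closed point `O` and `t` in `K₀`, `t` or `1 / t`
is regular at `O`; `K₀` is algebraically closed in `F`. -/
structure FibX (k : Type) {F : Type} [Field k] [Field F] [Algebra k F] {n : ℕ} (D : ℕ)
    (x : Fin (n + 1) → F) (K₀ : IntermediateField k F) : Prop where
  var : Var k D x
  base : FunF k K₀ 1
  closed : ∀ u : F, IsAlgebraic K₀ u → u ∈ K₀
  mor : ∀ O ∈ Pts k x 0, ∀ t ∈ K₀, t ∈ O.toSubring ∨ t⁻¹ ∈ O.toSubring

/-- Forms on the residue fields of the closed points `P` of the generic fibre (the horizontal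
curves) which kill the boundaries of the symbols on the curves of the generic fibre (the horizontal
surfaces). -/
structure FormsH (k : Type) {F : Type} [Field k] [Field F] [Algebra k F] {n : ℕ}
    (x : Fin (n + 1) → F) (K₀ : IntermediateField k F) (l : ∀ P : LocalSubring F, Kap P → ℚ) :
    Prop where
  mul : ∀ P ∈ Pts k x 1, HorX K₀ P → ∀ a b : Kap P, a ≠ 0 → b ≠ 0 → l P (a * b) = l P a + l P b
  recip : ∀ q : Σ S : LocalSubring F, Kap S × Kap S, q.1 ∈ Pts k x 2 → HorX K₀ q.1 → q.2.1 ≠ 0 →
    q.2.2 ≠ 0 → ∑ᶠ (P : LocalSubring F) (_ : P ∈ Pts k x 1 ∧ HorX K₀ P), l P (bd q P) = 0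

/-- The components of the fibre over `v` (local rings of their generic points). -/
def Cmp (k : Type) {F : Type} [Field k] [Field F] [Algebra k F] {n : ℕ} (D : ℕ)
    (x : Fin (n + 1) → F) {K₀ : IntermediateField k F} (v : ValuationSubring K₀) :
    Set (ValuationSubring F) :=
  {V | IsDiscreteValuationRing V ∧ OverPl K₀ v V.toSubring ∧
    ∃ S ∈ Pts k x (D - 1), S.toSubring = V.toSubring}

end

end Pool.Agent.Lib.MP_b197b4_ntBW
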