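import Mathlib
import Pool.Agent.Lib.MP_b197b4_ntBW.Defs

/-!
# MP_b197b4_nt, project BW: the statement for all fibred varieties over `k`
-/

set_option autoImplicit false

namespace Pool.Agent.Lib.MP_b197b4_ntBW

open IsLocalRing Pool.Agent.Lib.MP_b197b4_ntK Pool.Agent.Lib.MP_b197b4_ntA

/-- Bloch's group `V(Y)` of the generic fibre of every regular projective variety of dimension
at least two which is fibred over a curve is torsion: families of norm one on the closed points of
the generic fibre (the horizontal curves) become, after a power, boundaries of symbols on the curves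
of the generic fibre (the horizontal surfaces). -/
def BlochX (k : Type) [Field k] : Prop :=
  ∀ (F : Type) [Field F] [Algebra k F] (n D : ℕ) (x : Fin (n + 1) → F)
    (K₀ : IntermediateField k F), 2 ≤ D → FibX k D x K₀ → ∀ a : (∀ P : LocalSubring F, Kap P),
    (∀ P ∈ Pts k x 1, HorX K₀ P → a P ≠ 0) →
    {P | (P ∈ Pts k x 1 ∧ HorX K₀ P) ∧ a P ≠ 1}.Finite →
    ∏ᶠ (P : LocalSubring F) (_ : P ∈ Pts k x 1 ∧ HorX K₀ P), nrmX K₀ P (a P) = 1 →
    ∃ N : ℕ, 0 < N ∧ ∃ s : List (Σ S : LocalSubring F, Kap S × Kap S),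
      (∀ q ∈ s, q.1 ∈ Pts k x 2 ∧ HorX K₀ q.1 ∧ q.2.1 ≠ 0 ∧ q.2.2 ≠ 0) ∧
      ∀ P ∈ Pts k x 1, HorX K₀ P → a P ^ N = (s.map fun q => bd q P).prod

end Pool.Agent.Lib.MP_b197b4_ntBW
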