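import Mathlib
import Pool.Agent.Lib.MP_b197b4_ntBW.Defs

/-!
# MP_b197b4_nt, project BW: the graded pieces `sq R x q`
-/

set_option autoImplicit false

namespace Pool.Agent.Lib.MP_b197b4_ntBW

variable {R F : Type} [CommRing R] [Field F] [Algebra R F] {n : ℕ} {x : Fin (n + 1) → F}

theorem mem_sq {q : ℕ} {y : F} : y ∈ sq R x q ↔ ∃ f : MvPolynomial (Fin (n + 1)) R,
    f.IsHomogeneous q ∧ MvPolynomial.aeval x f = y := by
  constructor
  · rintro ⟨f, hf, rfl⟩
    exact ⟨f, hf, rfl⟩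
  · rintro ⟨f, hf, rfl⟩
    exact ⟨f, hf, rfl⟩

theorem sq_mul {p q : ℕ} {y z : F} (hy : y ∈ sq R x p) (hz : z ∈ sq R x q) :
    y * z ∈ sq R x (p + q) := by
  obtain ⟨f, hf, rfl⟩ := mem_sq.1 hy
  obtain ⟨g, hg, rfl⟩ := mem_sq.1 hz
  exact mem_sq.2 ⟨f * g, hf.mul hg, map_mul _ _ _⟩

/-- PROOF: finitely many monomials. -/
theorem sq_fg (q : ℕ) : (sq R x q).FG :=
  (MvPolynomial.homogeneousSubmodule_fg _ _ q).map _

theorem sq_one : (1 : F) ∈ sq R x 0 :=
  mem_sq.2 ⟨1, MvPolynomial.isHomogeneous_one _ _, map_one _⟩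

theorem sq_coord (i : Fin (n + 1)) : x i ∈ sq R x 1 :=
  mem_sq.2 ⟨MvPolynomial.X i, MvPolynomial.isHomogeneous_X _ _, MvPolynomial.aeval_X _ _⟩

theorem sq_lf {k : Type} [Field k] [Algebra k R] [Algebra k F] [IsScalarTower k R F]
    (c : Fin (n + 1) → k) : lf x c ∈ sq R x 1 := by
  refine Submodule.sum_mem _ fun i _ => ?_
  rw [IsScalarTower.algebraMap_apply k R F, ← Algebra.smul_def]
  exact Submodule.smul_mem _ _ (sq_coord i)

theorem sq_pow {q : ℕ} {y : F} (hy : y ∈ sq R x q) (p : ℕ) : y ^ p ∈ sq R x (p * q) := by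
  induction p with
  | zero => rw [pow_zero, Nat.zero_mul]; exact sq_one
  | succ p ih =>
    rw [pow_succ, Nat.succ_mul]
    exact sq_mul ih hy

/-- Elements of the chart of the form `w` are fractions. -/
theorem sq_chart {k : Type} [Field k] [Algebra k R] [Algebra k F] [IsScalarTower k R F] {w : F}
    (hw : w ∈ sq R x 1) (hw0 : w ≠ 0) {a : F}
    (ha : a ∈ chw k x w) :
    ∃ p : ℕ, ∃ b ∈ sq R x p, a = b / w ^ p := by
  unfold chw at ha
  induction ha using Algebra.adjoin_induction with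
  | mem y hy =>
    obtain ⟨j, rfl⟩ := hy
    exact ⟨1, x j, sq_coord j, by rw [pow_one]⟩
  | algebraMap r =>
    refine ⟨0, algebraMap k F r, ?_, by rw [pow_zero, div_one]⟩
    rw [IsScalarTower.algebraMap_apply k R F, Algebra.algebraMap_eq_smul_one]
    exact Submodule.smul_mem _ _ sq_one
  | add y z _ _ hy hz =>
    obtain ⟨p, b, hb, rfl⟩ := hy
    obtain ⟨q, c, hc, rfl⟩ := hz
    refine ⟨p + q, b * w ^ q + w ^ p * c, ?_, ?_⟩
    · refine Submodule.add_mem _ ?_ ?_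
      · have h := sq_pow hw q
        rw [Nat.mul_one] at h
        exact sq_mul hb h
      · have h := sq_pow hw p
        rw [Nat.mul_one] at h
        exact sq_mul h hc
    · rw [div_add_div _ _ (pow_ne_zero _ hw0) (pow_ne_zero _ hw0), pow_add]
  | mul y z _ _ hy hz =>
    obtain ⟨p, b, hb, rfl⟩ := hy
    obtain ⟨q, c, hc, rfl⟩ := hz
    exact ⟨p + q, b * c, sq_mul hb hc, by rw [div_mul_div_comm, pow_add]⟩

end Pool.Agent.Lib.MP_b197b4_ntBW
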