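import Mathlib

/-!
# MP_b197b4_nt, project BW: a linear form which is regular in high degrees
-/

set_option autoImplicit false

namespace Pool.Agent.Lib.MP_b197b4_ntBW

open MvPolynomial

section WBaux

variable {R : Type} [CommRing R] {n : ℕ}

/-- The polynomials which all monomials of degree `c` move into `J`. -/
noncomputable def WB_sat (J : Ideal (MvPolynomial (Fin (n + 1)) R)) (c : ℕ) :
    Ideal (MvPolynomial (Fin (n + 1)) R) where
  carrier := {f | ∀ s : Fin (n + 1) →₀ ℕ, s.degree = c → monomial s 1 * f ∈ J}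
  add_mem' := fun {a b} ha hb s hs => by
    rw [mul_add]
    exact J.add_mem (ha s hs) (hb s hs)
  zero_mem' := fun s _ => by
    rw [mul_zero]
    exact J.zero_mem
  smul_mem' := fun a f hf s hs => by
    rw [smul_eq_mul, mul_left_comm]
    exact J.mul_mem_left a (hf s hs)

theorem WB_split {c : ℕ} {s : Fin (n + 1) →₀ ℕ} (hs : s.degree = c + 1) :
    ∃ (i : Fin (n + 1)) (s' : Fin (n + 1) →₀ ℕ), s'.degree = c ∧ s = s' + Finsupp.single i 1 := by
  have h0 : s ≠ 0 := by
    rintro rfl
    simp at hs
  obtain ⟨i, hi⟩ := Finsupp.support_nonempty_iff.mpr h0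
  have hi' : s i ≠ 0 := Finsupp.mem_support_iff.mp hi
  have hle : Finsupp.single i 1 ≤ s := by
    rw [Finsupp.single_le_iff]
    omega
  refine ⟨i, s - Finsupp.single i 1, ?_, (tsub_add_cancel_of_le hle).symm⟩
  have h1 : (s - Finsupp.single i 1 + Finsupp.single i 1).degree = c + 1 := by
    rw [tsub_add_cancel_of_le hle, hs]
  rw [map_add, Finsupp.degree_single] at h1
  omega

theorem WB_split' (b : ℕ) : ∀ (c : ℕ) (s : Fin (n + 1) →₀ ℕ), s.degree = c + b →
    ∃ s' t' : Fin (n + 1) →₀ ℕ, s'.degree = c ∧ s = s' + t' := by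
  induction b with
  | zero =>
    intro c s hs
    exact ⟨s, 0, hs, (add_zero s).symm⟩
  | succ b ih =>
    intro c s hs
    obtain ⟨i, s₁, h1, h2⟩ := WB_split (c := c + b) (by rw [hs]; ring)
    obtain ⟨s', t', h3, h4⟩ := ih c s₁ h1
    exact ⟨s', t' + Finsupp.single i 1, h3, by rw [h2, h4, add_assoc]⟩

theorem WB_succ (J : Ideal (MvPolynomial (Fin (n + 1)) R)) {c : ℕ} {f : MvPolynomial (Fin (n + 1)) R}
    (h : ∀ i, X i * f ∈ WB_sat J c) : f ∈ WB_sat J (c + 1) := by
  intro s hs
  obtain ⟨i, s', h1, h2⟩ := WB_split hs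
  have h3 := h i s' h1
  have h4 : (monomial s (1 : R)) = monomial s' 1 * X i := by
    rw [X, monomial_mul, h2, one_mul]
  rw [h4, mul_assoc]
  exact h3

theorem WB_le (J : Ideal (MvPolynomial (Fin (n + 1)) R)) : J ≤ WB_sat J 0 := fun _ hf _ _ =>
  J.mul_mem_left _ hf

theorem WB_mono (J : Ideal (MvPolynomial (Fin (n + 1)) R)) : Monotone (WB_sat J) :=
  monotone_nat_of_le_succ fun c _ hf => WB_succ J fun _ => (WB_sat J c).mul_mem_left _ hf

theorem WB_hom (J : Ideal (MvPolynomial (Fin (n + 1)) R))
    (hJ : ∀ f ∈ J, ∀ i, homogeneousComponent i f ∈ J) {c : ℕ} {f : MvPolynomial (Fin (n + 1)) R}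
    (hf : f ∈ WB_sat J c) (q : ℕ) : homogeneousComponent q f ∈ WB_sat J c := by
  intro s hs
  have h1 := hJ _ (hf s hs) (c + q)
  have h2 : homogeneousComponent (c + q) (monomial s (1 : R) * f) =
      monomial s 1 * homogeneousComponent q f := by
    ext d
    rw [coeff_homogeneousComponent, coeff_monomial_mul', coeff_monomial_mul']
    by_cases hsd : s ≤ d
    · simp only [hsd, if_true, one_mul, coeff_homogeneousComponent]
      have h3 : d.degree = s.degree + (d - s).degree := by
        rw [← map_add, add_tsub_cancel_of_le hsd]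
      rw [h3, hs]
      simp
    · simp [hsd]
  rw [← h2]
  exact h1

theorem WB_gen (J : Ideal (MvPolynomial (Fin (n + 1)) R)) {c j q : ℕ}
    {h : MvPolynomial (Fin (n + 1)) R} (hh : h ∈ WB_sat J c) (hj : h.IsHomogeneous j)
    (hq : c + j ≤ q) (a : MvPolynomial (Fin (n + 1)) R) : homogeneousComponent q (a * h) ∈ J := by
  induction a using MvPolynomial.induction_on' with
  | monomial t r =>
    have h1 : (monomial t r * h).IsHomogeneous (t.degree + j) :=
      (isHomogeneous_monomial r rfl).mul hj
    by_cases h2 : t.degree + j = q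
    · rw [homogeneousComponent_eq_self (h2 ▸ h1)]
      obtain ⟨s', t', h3, h4⟩ := WB_split' (t.degree - c) c t (by omega)
      have h5 : monomial t r = monomial t' r * monomial s' (1 : R) := by
        rw [monomial_mul, h4, mul_one, add_comm s' t']
      rw [h5, mul_assoc]
      exact J.mul_mem_left _ (hh s' h3)
    · rw [homogeneousComponent_of_mem h1, if_neg (Ne.symm h2)]
      exact J.zero_mem
  | add p p' hp hp' =>
    rw [add_mul, map_add]
    exact J.add_mem hp hp'

theorem WB_high [IsNoetherianRing R] (J : Ideal (MvPolynomial (Fin (n + 1)) R))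
    (hJ : ∀ f ∈ J, ∀ i, homogeneousComponent i f ∈ J) (c : ℕ) :
    ∃ q₀ : ℕ, ∀ q, q₀ ≤ q → ∀ f ∈ WB_sat J c, homogeneousComponent q f ∈ J := by
  obtain ⟨G, hG⟩ : (WB_sat J c).FG := IsNoetherian.noetherian _
  refine ⟨c + G.sup totalDegree, fun q hq f hf => ?_⟩
  have key : ∀ x ∈ Submodule.span (MvPolynomial (Fin (n + 1)) R) (G : Set _), ∀ a,
      homogeneousComponent q (a * x) ∈ J := by
    intro x hx
    induction hx using Submodule.span_induction with
    | mem x hx =>
      intro a
      have hxs : x ∈ WB_sat J c := by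
        rw [← hG]
        exact Submodule.subset_span hx
      have h1 : a * x = ∑ i ∈ Finset.range (x.totalDegree + 1), a * homogeneousComponent i x := by
        rw [← Finset.mul_sum, sum_homogeneousComponent]
      rw [h1, map_sum]
      refine J.sum_mem fun i hi => WB_gen J (WB_hom J hJ hxs i) (homogeneousComponent_isHomogeneous i x)
        ?_ a
      have h2 : x.totalDegree ≤ G.sup totalDegree := Finset.le_sup (f := totalDegree) hx
      have h3 := Finset.mem_range.mp hi
      omega
    | zero =>
      intro a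
      rw [mul_zero, map_zero]
      exact J.zero_mem
    | add x y _ _ hx hy =>
      intro a
      rw [mul_add, map_add]
      exact J.add_mem (hx a) (hy a)
    | smul b x _ hx =>
      intro a
      rw [smul_eq_mul, ← mul_assoc]
      exact hx (a * b)
  have hf' : f ∈ Ideal.span (G : Set (MvPolynomial (Fin (n + 1)) R)) := by
    rw [hG]
    exact hf
  have h := key f hf' 1
  rwa [one_mul] at h

end WBaux

/-- WB. PROOF: let `m` be the ideal of the variables and `J'` the saturation: all `f` with
`m ^ c * f ⊆ J` for some `c`. `J'` is an ideal, its own saturation (noetherian) and homogeneous.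
No associated prime `p` of `P / J'` contains all the variables (`p` is the annihilator of a nonzero
class `g`; then `m * g ⊆ J'`, so `g ∈ J'`). The vectors `c` with linear form in `p` are a proper
subspace; there are finitely many `p`: `Subspace.biUnion_ne_univ_of_top_notMem` gives `c` outside all
the `p` and all the `W i`; the linear form of `c` is a nonzerodivisor modulo `J'`. `J'` is finitely
generated, so `m ^ c₁ * J' ⊆ J` and its generators have degrees at most `c₂`: for `f` in `J'`
homogeneous of degree `q ≥ c₁ + c₂`, write `f = ∑ a_j g_j` and take the components of degree `q`. -/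
theorem reg_form {k R : Type} [Field k] [Infinite k] [CommRing R] [IsNoetherianRing R]
    [Algebra k R] {n : ℕ} (J : Ideal (MvPolynomial (Fin (n + 1)) R))
    (hJ : ∀ f ∈ J, ∀ i, homogeneousComponent i f ∈ J) {ι : Type} [Finite ι]
    (W : ι → Submodule k (Fin (n + 1) → k)) (hW : ∀ i, W i ≠ ⊤) :
    ∃ c : Fin (n + 1) → k, (∀ i, c ∉ W i) ∧ ∃ q₀ : ℕ, ∀ q, q₀ ≤ q →
      ∀ f : MvPolynomial (Fin (n + 1)) R, f.IsHomogeneous q →
        (∑ i, C (algebraMap k R (c i)) * X i) * f ∈ J → f ∈ J := by
  classical
  obtain ⟨c₁, hc₁⟩ := (monotone_stabilizes_iff_noetherian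
    (R := MvPolynomial (Fin (n + 1)) R) (M := MvPolynomial (Fin (n + 1)) R)).mpr inferInstance
    ⟨WB_sat J, WB_mono J⟩
  have hst : WB_sat J c₁ = WB_sat J (c₁ + 1) := hc₁ (c₁ + 1) (Nat.le_succ _)
  set J' := WB_sat J c₁ with hJ'
  have hsm : ∀ r g : MvPolynomial (Fin (n + 1)) R,
      r • Ideal.Quotient.mk J' g = Ideal.Quotient.mk J' (r * g) := fun _ _ => rfl
  -- the linear form as a linear map
  let Λ : (Fin (n + 1) → k) →ₗ[k] MvPolynomial (Fin (n + 1)) R :=
    { toFun := fun c => ∑ i, C (algebraMap k R (c i)) * X i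
      map_add' := fun a b => by
        rw [← Finset.sum_add_distrib]
        refine Finset.sum_congr rfl fun i _ => ?_
        rw [Pi.add_apply, map_add, map_add, add_mul]
      map_smul' := fun r a => by
        rw [RingHom.id_apply, Finset.smul_sum]
        refine Finset.sum_congr rfl fun i _ => ?_
        rw [Pi.smul_apply, smul_eq_mul, map_mul, map_mul, mul_assoc, Algebra.smul_def,
          IsScalarTower.algebraMap_apply k R (MvPolynomial (Fin (n + 1)) R), algebraMap_eq] }
  let S : Finset (Submodule k (Fin (n + 1) → k)) :=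
    ((associatedPrimes.finite (MvPolynomial (Fin (n + 1)) R)
      (MvPolynomial (Fin (n + 1)) R ⧸ J')).toFinset.image
        fun p => (p.restrictScalars k).comap Λ) ∪ (Set.finite_range W).toFinset
  have hS : ⊤ ∉ S := by
    intro h
    rcases Finset.mem_union.mp h with h | h
    · obtain ⟨p, hp, hpt⟩ := Finset.mem_image.mp h
      rw [Set.Finite.mem_toFinset, AssociatedPrimes.mem_iff, isAssociatedPrime_iff] at hp
      obtain ⟨hpp, x, hx⟩ := hp
      obtain ⟨g, rfl⟩ := Ideal.Quotient.mk_surjective x
      have hX : ∀ i, X i * g ∈ J' := by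
        intro i
        have h1 : (Pi.single i 1 : Fin (n + 1) → k) ∈ (p.restrictScalars k).comap Λ := by
          rw [hpt]; trivial
        have h2 : Λ (Pi.single i 1) = X i := by
          change ∑ j, C (algebraMap k R ((Pi.single i 1 : Fin (n + 1) → k) j)) * X j = X i
          rw [Finset.sum_eq_single i]
          · simp
          · intro j _ hj
            rw [Pi.single_eq_of_ne hj, map_zero, map_zero, zero_mul]
          · intro h
            exact absurd (Finset.mem_univ i) h
        have h3 : (X i : MvPolynomial (Fin (n + 1)) R) ∈ p := by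
          rw [← h2]
          exact h1
        rw [hx, Submodule.mem_colon_singleton] at h3
        rw [hsm, Submodule.mem_bot] at h3
        exact Ideal.Quotient.eq_zero_iff_mem.mp h3
      have hg : g ∈ J' := by
        rw [hst]
        exact WB_succ J hX
      refine hpp.ne_top ?_
      rw [hx, eq_top_iff]
      intro r _
      rw [Submodule.mem_colon_singleton, Ideal.Quotient.eq_zero_iff_mem.mpr hg, smul_zero]
      exact Submodule.zero_mem _
    · rw [Set.Finite.mem_toFinset] at h
      obtain ⟨i, hi⟩ := h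
      exact hW i hi
  have hne := Subspace.biUnion_ne_univ_of_top_notMem hS
  obtain ⟨c, hc⟩ : ∃ c : Fin (n + 1) → k, c ∉ ⋃ p ∈ S, (p : Set (Fin (n + 1) → k)) := by
    by_contra h
    push Not at h
    exact hne (Set.eq_univ_of_forall h)
  rw [Set.mem_iUnion₂] at hc
  push Not at hc
  obtain ⟨q₀, hq₀⟩ := WB_high J hJ c₁
  refine ⟨c, fun i => hc (W i) (Finset.mem_union_right _ ?_), q₀, fun q hq f hf hfJ => ?_⟩
  · rw [Set.Finite.mem_toFinset]
    exact ⟨i, rfl⟩
  · have h1 : Λ c * f ∈ J' := WB_mono J (Nat.zero_le c₁) (WB_le J hfJ)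
    have h2 : f ∈ J' := by
      by_contra hfn
      have h3 : Λ c ∈ {r : MvPolynomial (Fin (n + 1)) R |
          ∃ x : MvPolynomial (Fin (n + 1)) R ⧸ J', x ≠ 0 ∧ r • x = 0} := by
        refine ⟨Ideal.Quotient.mk J' f, fun h => hfn (Ideal.Quotient.eq_zero_iff_mem.mp h), ?_⟩
        rw [hsm]
        exact Ideal.Quotient.eq_zero_iff_mem.mpr h1
      rw [← biUnion_associatedPrimes_eq_zero_divisors, Set.mem_iUnion₂] at h3
      obtain ⟨p, hp, hcp⟩ := h3
      refine hc ((p.restrictScalars k).comap Λ) (Finset.mem_union_left _ ?_) hcp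
      exact Finset.mem_image.mpr ⟨p, (Set.Finite.mem_toFinset _).mpr hp, rfl⟩
    have h5 := hq₀ q hq f h2
    rwa [homogeneousComponent_eq_self hf] at h5

end Pool.Agent.Lib.MP_b197b4_ntBW
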