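import Mathlib
import Pool.Agent.Lib.MP_b197b4_ntBW.WA
import Pool.Agent.Lib.MP_b197b4_ntBW.WB

/-!
# MP_b197b4_nt, project BW: two linear forms
-/

set_option autoImplicit false

namespace Pool.Agent.Lib.MP_b197b4_ntBW

section WC
open MvPolynomial

variable {R F : Type} [CommRing R] [Field F] [Algebra R F] {n : ℕ}

/-- The ring homomorphism `X i ↦ x i * T`. -/
noncomputable def WC_psi (R : Type) [CommRing R] [Algebra R F] (x : Fin (n + 1) → F) :
    MvPolynomial (Fin (n + 1)) R →+* Polynomial F :=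
  MvPolynomial.eval₂Hom (Polynomial.C.comp (algebraMap R F)) fun i =>
    Polynomial.C (x i) * Polynomial.X

theorem WC_psi_hom (x : Fin (n + 1) → F) {q : ℕ} {f : MvPolynomial (Fin (n + 1)) R}
    (hf : f.IsHomogeneous q) :
    WC_psi R x f = Polynomial.C (aeval x f) * Polynomial.X ^ q := by
  have h1 : WC_psi R x f = ∑ d ∈ f.support, Polynomial.C (algebraMap R F (f.coeff d)) *
      ∏ i, (Polynomial.C (x i) * Polynomial.X) ^ d i := by
    simp [WC_psi, MvPolynomial.eval₂_eq']
  have h2 : aeval x f = ∑ d ∈ f.support, algebraMap R F (f.coeff d) * ∏ i, x i ^ d i := by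
    rw [MvPolynomial.aeval_def, MvPolynomial.eval₂_eq']
  rw [h1, h2, map_sum, Finset.sum_mul]
  refine Finset.sum_congr rfl fun d hd => ?_
  have h3 : ∑ i, d i = q := by
    have := hf (MvPolynomial.mem_support_iff.1 hd)
    rw [← this, Finsupp.weight_apply, Finsupp.sum_fintype] <;> simp
  rw [map_mul, map_prod, mul_assoc, ← h3, ← Finset.prod_pow_eq_pow_sum, ← Finset.prod_mul_distrib]
  congr 1
  refine Finset.prod_congr rfl fun i _ => ?_
  rw [mul_pow, Polynomial.C_pow]

theorem WC_coeff (x : Fin (n + 1) → F) (f : MvPolynomial (Fin (n + 1)) R) (q : ℕ) :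
    (WC_psi R x f).coeff q = aeval x (homogeneousComponent q f) := by
  have h := MvPolynomial.sum_homogeneousComponent f
  conv_lhs => rw [← h]
  rw [map_sum, Polynomial.finsetSum_coeff]
  have h1 : ∀ i ∈ Finset.range (f.totalDegree + 1),
      (WC_psi R x (homogeneousComponent i f)).coeff q =
        if i = q then aeval x (homogeneousComponent q f) else 0 := by
    intro i _
    rw [WC_psi_hom x (homogeneousComponent_isHomogeneous i f), Polynomial.coeff_C_mul,
      Polynomial.coeff_X_pow]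
    split_ifs with h1 h2 h2
    · rw [h2, mul_one]
    · exact absurd h1.symm h2
    · exact absurd h2.symm h1
    · rw [mul_zero]
  rw [Finset.sum_congr rfl h1, Finset.sum_ite_eq']
  split_ifs with h2
  · rfl
  · have : f.totalDegree < q := by
      by_contra h3
      exact h2 (Finset.mem_range.2 (by omega))
    rw [homogeneousComponent_eq_zero _ _ this, map_zero]

theorem WC_mem_ker (x : Fin (n + 1) → F) (f : MvPolynomial (Fin (n + 1)) R) :
    f ∈ RingHom.ker (WC_psi R x) ↔ ∀ q, aeval x (homogeneousComponent q f) = 0 := by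
  rw [RingHom.mem_ker, Polynomial.ext_iff]
  simp only [WC_coeff, Polynomial.coeff_zero]

theorem WC_ker_hom (x : Fin (n + 1) → F) {f : MvPolynomial (Fin (n + 1)) R}
    (hf : f ∈ RingHom.ker (WC_psi R x)) (i : ℕ) :
    homogeneousComponent i f ∈ RingHom.ker (WC_psi R x) := by
  rw [RingHom.mem_ker, WC_psi_hom x (homogeneousComponent_isHomogeneous i f),
    (WC_mem_ker x f).1 hf i, map_zero, zero_mul]

theorem WC_mem_of_hom (x : Fin (n + 1) → F) {q : ℕ} {f : MvPolynomial (Fin (n + 1)) R}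
    (hf : f.IsHomogeneous q) (h : aeval x f = 0) : f ∈ RingHom.ker (WC_psi R x) := by
  rw [RingHom.mem_ker, WC_psi_hom x hf, h, map_zero, zero_mul]

theorem WC_comp_mul {q : ℕ} {l : MvPolynomial (Fin (n + 1)) R} (hl : l.IsHomogeneous 1)
    (b : MvPolynomial (Fin (n + 1)) R) :
    homogeneousComponent (q + 1) (l * b) = l * homogeneousComponent q b := by
  have h := MvPolynomial.sum_homogeneousComponent b
  conv_lhs => rw [← h]
  rw [Finset.mul_sum, map_sum]
  have h1 : ∀ i ∈ Finset.range (b.totalDegree + 1),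
      homogeneousComponent (q + 1) (l * homogeneousComponent i b) =
        if i = q then l * homogeneousComponent q b else 0 := by
    intro i _
    have h2 : (l * homogeneousComponent i b).IsHomogeneous (1 + i) :=
      hl.mul (homogeneousComponent_isHomogeneous i b)
    rw [MvPolynomial.homogeneousComponent_of_mem h2]
    split_ifs with h3 h4 h4
    · rw [h4]
    · omega
    · omega
    · rfl
  rw [Finset.sum_congr rfl h1, Finset.sum_ite_eq']
  split_ifs with h2
  · rfl
  · have : b.totalDegree < q := by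
      by_contra h3
      exact h2 (Finset.mem_range.2 (by omega))
    rw [homogeneousComponent_eq_zero _ _ this, mul_zero]

theorem WC_comp_zero {l : MvPolynomial (Fin (n + 1)) R} (hl : l.IsHomogeneous 1)
    (b : MvPolynomial (Fin (n + 1)) R) : homogeneousComponent 0 (l * b) = 0 := by
  have h := MvPolynomial.sum_homogeneousComponent b
  conv_lhs => rw [← h]
  rw [Finset.mul_sum, map_sum]
  refine Finset.sum_eq_zero fun i _ => ?_
  have h2 : (l * homogeneousComponent i b).IsHomogeneous (1 + i) :=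
    hl.mul (homogeneousComponent_isHomogeneous i b)
  rw [MvPolynomial.homogeneousComponent_of_mem h2, if_neg (by omega)]

/-- The linear form with coefficients `c`. -/
noncomputable def WC_l {k : Type} [Field k] [Algebra k R] (c : Fin (n + 1) → k) :
    MvPolynomial (Fin (n + 1)) R :=
  ∑ i, C (algebraMap k R (c i)) * X i

theorem WC_l_hom {k : Type} [Field k] [Algebra k R] (c : Fin (n + 1) → k) :
    (WC_l (R := R) c).IsHomogeneous 1 := by
  refine MvPolynomial.IsHomogeneous.sum _ _ _ fun i _ => ?_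
  have := (isHomogeneous_C (Fin (n + 1)) (algebraMap k R (c i))).mul (isHomogeneous_X R i)
  simpa using this

theorem WC_aeval_l {k : Type} [Field k] [Algebra k R] [Algebra k F] [IsScalarTower k R F]
    (x : Fin (n + 1) → F) (c : Fin (n + 1) → k) : aeval x (WC_l (R := R) c) = lf x c := by
  rw [WC_l, lf, map_sum]
  refine Finset.sum_congr rfl fun i _ => ?_
  rw [map_mul, aeval_X, ← MvPolynomial.algebraMap_eq, AlgHom.commutes,
    ← IsScalarTower.algebraMap_apply]

/-- WC. PROOF: `I` = the polynomials `f` with `aeval x (homogeneousComponent i f) = 0` for all `i`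
(the kernel of `X i ↦ C (x i) * T`, `P → F[T]`). `reg_form` for `J₁ = I + (t)` gives `c`; `reg_form`
for `J₂ = I + (t) + (lf c)` gives `c'`; both ideals are homogeneous; take components of degree `q`. -/
theorem two_forms {k R F : Type} [Field k] [Infinite k] [CommRing R] [IsNoetherianRing R]
    [Field F] [Algebra k R] [Algebra R F] [Algebra k F] [IsScalarTower k R F] {n : ℕ}
    (x : Fin (n + 1) → F) (t : R) {ι : Type} [Finite ι] (W : ι → Submodule k (Fin (n + 1) → k))
    (hW : ∀ i, W i ≠ ⊤) :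
    ∃ c c' : Fin (n + 1) → k, (∀ i, c ∉ W i) ∧ (∀ i, c' ∉ W i) ∧ ∃ q₀ : ℕ,
      (∀ q, q₀ ≤ q → ∀ y ∈ sq R x q, (∃ z ∈ sq R x (q + 1), lf x c * y = algebraMap R F t * z) →
        ∃ z ∈ sq R x q, y = algebraMap R F t * z) ∧
      ∀ q, q₀ ≤ q → ∀ y ∈ sq R x (q + 1), (∃ z ∈ sq R x (q + 2), ∃ w ∈ sq R x (q + 1),
        lf x c' * y = algebraMap R F t * z + lf x c * w) →
        ∃ z ∈ sq R x (q + 1), ∃ w ∈ sq R x q, y = algebraMap R F t * z + lf x c * w := by
  have hCt : ∀ b : MvPolynomial (Fin (n + 1)) R, ∀ i,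
      homogeneousComponent i (C t * b) = C t * homogeneousComponent i b := fun b i =>
    homogeneousComponent_C_mul b i t
  have haC : ∀ b : MvPolynomial (Fin (n + 1)) R, aeval x (C t * b) = algebraMap R F t * aeval x b := by
    intro b
    rw [map_mul, ← MvPolynomial.algebraMap_eq, AlgHom.commutes]
  have hCth : ∀ {q : ℕ} {b : MvPolynomial (Fin (n + 1)) R}, b.IsHomogeneous q →
      (C t * b).IsHomogeneous q := by
    intro q b hb
    have := (isHomogeneous_C (Fin (n + 1)) t).mul hb
    simpa using this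
  set I := RingHom.ker (WC_psi R x) with hI
  -- the first form
  set J₁ := I ⊔ Ideal.span {C t} with hJ₁
  have hJ₁mem : ∀ f, f ∈ J₁ ↔ ∃ a ∈ I, ∃ b, f = a + C t * b := by
    intro f
    rw [hJ₁, Submodule.mem_sup]
    constructor
    · rintro ⟨a, ha, b, hb, rfl⟩
      obtain ⟨e, rfl⟩ := Ideal.mem_span_singleton'.1 hb
      exact ⟨a, ha, e, by rw [mul_comm e]⟩
    · rintro ⟨a, ha, b, rfl⟩
      exact ⟨a, ha, C t * b, Ideal.mul_mem_right _ _ (Ideal.mem_span_singleton_self _), rfl⟩
  have hJ₁h : ∀ f ∈ J₁, ∀ i, homogeneousComponent i f ∈ J₁ := by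
    intro f hf i
    obtain ⟨a, ha, b, rfl⟩ := (hJ₁mem f).1 hf
    rw [map_add, hCt]
    exact (hJ₁mem _).2 ⟨_, WC_ker_hom x ha i, _, rfl⟩
  obtain ⟨c, hcW, q₁, hc⟩ := reg_form J₁ hJ₁h W hW
  -- the second form
  set J₂ := J₁ ⊔ Ideal.span {WC_l (R := R) c} with hJ₂
  have hJ₂mem : ∀ f, f ∈ J₂ ↔ ∃ a ∈ I, ∃ b e, f = a + C t * b + WC_l (R := R) c * e := by
    intro f
    rw [hJ₂, Submodule.mem_sup]
    constructor
    · rintro ⟨a, ha, b, hb, rfl⟩
      obtain ⟨a', ha', b', rfl⟩ := (hJ₁mem a).1 ha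
      obtain ⟨e, rfl⟩ := Ideal.mem_span_singleton'.1 hb
      exact ⟨a', ha', b', e, by rw [mul_comm e]⟩
    · rintro ⟨a, ha, b, e, rfl⟩
      exact ⟨_, (hJ₁mem _).2 ⟨a, ha, b, rfl⟩, _,
        Ideal.mul_mem_right _ _ (Ideal.mem_span_singleton_self _), rfl⟩
  have hJ₂h : ∀ f ∈ J₂, ∀ i, homogeneousComponent i f ∈ J₂ := by
    intro f hf i
    obtain ⟨a, ha, b, e, rfl⟩ := (hJ₂mem f).1 hf
    rw [map_add, map_add, hCt]
    rcases i with _ | i
    · rw [WC_comp_zero (WC_l_hom c)]
      exact (hJ₂mem _).2 ⟨_, WC_ker_hom x ha 0, homogeneousComponent 0 b, 0, by rw [mul_zero]⟩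
    · rw [WC_comp_mul (WC_l_hom c)]
      exact (hJ₂mem _).2 ⟨_, WC_ker_hom x ha _, _, _, rfl⟩
  obtain ⟨c', hcW', q₂, hc'⟩ := reg_form J₂ hJ₂h W hW
  refine ⟨c, c', hcW, hcW', max q₁ q₂, ?_, ?_⟩
  · rintro q hq y hy ⟨z, hz, hyz⟩
    obtain ⟨f, hf, rfl⟩ := mem_sq.1 hy
    obtain ⟨g, hg, rfl⟩ := mem_sq.1 hz
    have h1 : WC_l (R := R) c * f - C t * g ∈ I := by
      have h2 : (WC_l (R := R) c * f - C t * g).IsHomogeneous (q + 1) := by
        have := (WC_l_hom (R := R) c).mul hf
        rw [add_comm 1 q] at this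
        exact this.sub (hCth hg)
      refine WC_mem_of_hom x h2 ?_
      rw [map_sub, map_mul, WC_aeval_l, haC, hyz, sub_self]
    have h3 : WC_l (R := R) c * f ∈ J₁ := (hJ₁mem _).2 ⟨_, h1, g, by ring⟩
    obtain ⟨a, ha, b, hfab⟩ := (hJ₁mem f).1 (hc q (le_trans (le_max_left _ _) hq) f hf h3)
    have h4 : f = homogeneousComponent q a + C t * homogeneousComponent q b := by
      have h5 : homogeneousComponent q f = f := by
        rw [MvPolynomial.homogeneousComponent_of_mem hf, if_pos rfl]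
      rw [← hCt, ← map_add, ← hfab, h5]
    refine ⟨aeval x (homogeneousComponent q b), mem_sq.2 ⟨_, homogeneousComponent_isHomogeneous q b,
      rfl⟩, ?_⟩
    conv_lhs => rw [h4]
    rw [map_add, (WC_mem_ker x a).1 ha q, zero_add, haC]
  · rintro q hq y hy ⟨z, hz, w, hw, hyz⟩
    obtain ⟨f, hf, rfl⟩ := mem_sq.1 hy
    obtain ⟨g, hg, rfl⟩ := mem_sq.1 hz
    obtain ⟨h, hh, rfl⟩ := mem_sq.1 hw
    have h1 : WC_l (R := R) c' * f - C t * g - WC_l (R := R) c * h ∈ I := by
      have h2 : (WC_l (R := R) c' * f - C t * g - WC_l (R := R) c * h).IsHomogeneous (q + 2) := by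
        have h3 := (WC_l_hom (R := R) c').mul hf
        have h4 := (WC_l_hom (R := R) c).mul hh
        rw [show 1 + (q + 1) = q + 2 by ring] at h3 h4
        exact (h3.sub (hCth hg)).sub h4
      refine WC_mem_of_hom x h2 ?_
      rw [map_sub, map_sub, haC, map_mul, map_mul, WC_aeval_l, WC_aeval_l, hyz]
      ring
    have h3 : WC_l (R := R) c' * f ∈ J₂ := (hJ₂mem _).2 ⟨_, h1, g, h, by ring⟩
    obtain ⟨a, ha, b, e, hfab⟩ := (hJ₂mem f).1
      (hc' (q + 1) (le_trans (le_max_right _ _) (le_trans hq (Nat.le_succ q))) f hf h3)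
    have h4 : f = homogeneousComponent (q + 1) a + C t * homogeneousComponent (q + 1) b +
        WC_l (R := R) c * homogeneousComponent q e := by
      have h5 : homogeneousComponent (q + 1) f = f := by
        rw [MvPolynomial.homogeneousComponent_of_mem hf, if_pos rfl]
      rw [← hCt, ← WC_comp_mul (WC_l_hom c), ← map_add, ← map_add, ← hfab, h5]
    refine ⟨aeval x (homogeneousComponent (q + 1) b), mem_sq.2 ⟨_,
      homogeneousComponent_isHomogeneous _ b, rfl⟩, aeval x (homogeneousComponent q e), mem_sq.2 ⟨_,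
      homogeneousComponent_isHomogeneous _ e, rfl⟩, ?_⟩
    conv_lhs => rw [h4]
    rw [map_add, map_add, (WC_mem_ker x a).1 ha (q + 1), zero_add, haC, map_mul, WC_aeval_l]

end WC

end Pool.Agent.Lib.MP_b197b4_ntBW
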