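import Mathlib

/-!
# MP_b197b4_nt, project BW: powers of a regular sequence
-/

set_option autoImplicit false

namespace Pool.Agent.Lib.MP_b197b4_ntBW

theorem WD_cast {R F : Type} [CommRing R] [Field F] [Algebra R F] (S : ℕ → Submodule R F)
    {a b : ℕ} (h : a = b) {y : F} (hy : y ∈ S a) : y ∈ S b := h ▸ hy

theorem WD_pow {R F : Type} [CommRing R] [Field F] [Algebra R F] (S : ℕ → Submodule R F)
    {t : F} (htS : ∀ q, ∀ y ∈ S q, t * y ∈ S q) (m q : ℕ) {y : F} (hy : y ∈ S q) :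
    t ^ m * y ∈ S q := by
  induction m with
  | zero => simpa using hy
  | succ m ih =>
    have := htS q _ ih
    rwa [← mul_assoc, ← pow_succ'] at this

theorem WD_spow {R F : Type} [CommRing R] [Field F] [Algebra R F] (S : ℕ → Submodule R F)
    {s : F} (hsS : ∀ q, ∀ y ∈ S q, s * y ∈ S (q + 1)) (p q : ℕ) {y : F} (hy : y ∈ S q) :
    s ^ p * y ∈ S (q + p) := by
  induction p with
  | zero => simpa using hy
  | succ p ih =>
    have := hsS _ _ ih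
    rw [← mul_assoc, ← pow_succ'] at this
    exact this

/-- The case `m = 1`. -/
theorem WD_one {R F : Type} [CommRing R] [Field F] [Algebra R F] (S : ℕ → Submodule R F)
    {t s : F} (hsS : ∀ q, ∀ y ∈ S q, s * y ∈ S (q + 1)) {q₀ : ℕ}
    (h1 : ∀ q, q₀ ≤ q → ∀ y ∈ S q, (∃ z ∈ S (q + 1), s * y = t * z) → ∃ z ∈ S q, y = t * z)
    (p : ℕ) : ∀ (q : ℕ), q₀ ≤ q → ∀ y ∈ S q, (∃ z ∈ S (q + p), s ^ p * y = t * z) →
      ∃ z ∈ S q, y = t * z := by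
  induction p with
  | zero =>
    rintro q hq y hy ⟨z, hz, h⟩
    exact ⟨z, hz, by simpa using h⟩
  | succ p ih =>
    rintro q hq y hy ⟨z, hz, h⟩
    have h' : s ^ p * (s * y) = t * z := by rw [← mul_assoc, ← pow_succ]; exact h
    have hz' : z ∈ S (q + 1 + p) := WD_cast S (by omega) hz
    obtain ⟨z', hz', e⟩ := ih (q + 1) (by omega) (s * y) (hsS q y hy) ⟨z, hz', h'⟩
    exact h1 q hq y hy ⟨z', hz', e⟩

/-- WD1. PROOF: `p` times `h1` for the first power of `t`, then induction on `m`. -/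
theorem div_pow_lift {R F : Type} [CommRing R] [Field F] [Algebra R F] (S : ℕ → Submodule R F)
    {t s : F} (ht : t ≠ 0) (hsS : ∀ q, ∀ y ∈ S q, s * y ∈ S (q + 1)) {q₀ : ℕ}
    (h1 : ∀ q, q₀ ≤ q → ∀ y ∈ S q, (∃ z ∈ S (q + 1), s * y = t * z) → ∃ z ∈ S q, y = t * z)
    (htS : ∀ q, ∀ y ∈ S q, t * y ∈ S q)
    (m p q : ℕ) (hq : q₀ ≤ q) {y : F} (hy : y ∈ S q)
    (h : ∃ z ∈ S (q + p), s ^ p * y = t ^ m * z) : ∃ z ∈ S q, y = t ^ m * z := by
  induction m generalizing y with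
  | zero => exact ⟨y, hy, by simp⟩
  | succ m ih =>
    obtain ⟨z, hz, e⟩ := h
    have e1 : s ^ p * y = t * (t ^ m * z) := by rw [e, pow_succ']; ring
    obtain ⟨y', hy', ey⟩ := WD_one S hsS h1 p q hq y hy ⟨_, WD_pow S htS m _ hz, e1⟩
    have e2 : s ^ p * y' = t ^ m * z := by
      have : t * (s ^ p * y') = t * (t ^ m * z) := by
        rw [← e1, ey]; ring
      exact mul_left_cancel₀ ht this
    obtain ⟨z2, hz2, e3⟩ := ih hy' ⟨z, hz, e2⟩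
    exact ⟨z2, hz2, by rw [ey, e3, pow_succ']; ring⟩

/-- The case `j = 1`, `m = 1`. -/
theorem WD_lift_one {R F : Type} [CommRing R] [Field F] [Algebra R F] (S : ℕ → Submodule R F)
    {t s s' : F}
    (hsS : ∀ q, ∀ y ∈ S q, s * y ∈ S (q + 1)) (hsS' : ∀ q, ∀ y ∈ S q, s' * y ∈ S (q + 1)) {q₀ : ℕ}
    (h1 : ∀ q, q₀ ≤ q → ∀ y ∈ S q, (∃ z ∈ S (q + 1), s * y = t * z) → ∃ z ∈ S q, y = t * z)
    (h2 : ∀ q, q₀ ≤ q → ∀ y ∈ S (q + 1), (∃ z ∈ S (q + 2), ∃ w ∈ S (q + 1),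
      s' * y = t * z + s * w) → ∃ z ∈ S (q + 1), ∃ w ∈ S q, y = t * z + s * w)
    (p : ℕ) : ∀ (q : ℕ), q₀ ≤ q → ∀ y ∈ S (q + p),
      (∃ u ∈ S (q + p + 1), ∃ w ∈ S (q + 1), s' * y = t * u + s ^ p * w) →
      ∃ u ∈ S (q + p), ∃ b ∈ S q, y = t * u + s ^ p * b := by
  induction p with
  | zero =>
    rintro q hq y hy -
    exact ⟨0, Submodule.zero_mem _, y, hy, by simp⟩
  | succ p ih =>
    rintro q hq y hy ⟨u, hu, w, hw, e⟩
    have hsw : s ^ p * w ∈ S (q + p + 1) := WD_cast S (by omega) (WD_spow S hsS p (q + 1) hw)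
    have e' : s' * y = t * u + s * (s ^ p * w) := by rw [e, pow_succ']; ring
    obtain ⟨z, hz, y₂, hy₂, ey⟩ := h2 (q + p) (by omega) y hy ⟨u, hu, _, hsw, e'⟩
    have e3 : s * (s' * y₂ - s ^ p * w) = t * (u - s' * z) := by
      have : s * (s' * y₂) = s' * y - s' * (t * z) := by rw [ey]; ring
      rw [mul_sub, this, e']; ring
    have hm : s' * y₂ - s ^ p * w ∈ S (q + p + 1) := Submodule.sub_mem _ (hsS' _ _ hy₂) hsw
    have hm2 : u - s' * z ∈ S (q + p + 1 + 1) := Submodule.sub_mem _ hu (hsS' _ _ hz)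
    obtain ⟨z₃, hz₃, e4⟩ := h1 (q + p + 1) (by omega) _ hm ⟨_, hm2, e3⟩
    obtain ⟨u', hu', b, hb, e5⟩ := ih q hq y₂ hy₂ ⟨z₃, hz₃, w, hw, by rw [← e4]; ring⟩
    refine ⟨z + s * u', Submodule.add_mem _ hz (hsS _ _ hu'), b, hb, ?_⟩
    rw [ey, e5, pow_succ']; ring

/-- WD2. PROOF: first `j = 1`, `m = 1`, induction on `p` (for all `q`): `s' y = t u + s (s ^ p w)`, so
`y = t z + s y₂` by `h2`, `s (s' y₂ - s ^ p w) = t (..)`, so `s' y₂ - s ^ p w = t z₃` by `h1`, and `y₂` is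
in the set for `p` by induction. Then `j = 1`, induction on `m`: `y = t y₁ + s ^ p b₁`,
`t (s' y₁ - t ^ m u) = s ^ p (w - s' b₁)`, so `w - s' b₁ = t w₁` (`h1`, `p` times) and
`s' y₁ = t ^ m u + s ^ p w₁`. Then induction on `j`. -/
theorem lift_pow {R F : Type} [CommRing R] [Field F] [Algebra R F] (S : ℕ → Submodule R F)
    {t s s' : F} (ht : t ≠ 0) (hs : s ≠ 0) (htS : ∀ q, ∀ y ∈ S q, t * y ∈ S q)
    (hsS : ∀ q, ∀ y ∈ S q, s * y ∈ S (q + 1)) (hsS' : ∀ q, ∀ y ∈ S q, s' * y ∈ S (q + 1)) {q₀ : ℕ}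
    (h1 : ∀ q, q₀ ≤ q → ∀ y ∈ S q, (∃ z ∈ S (q + 1), s * y = t * z) → ∃ z ∈ S q, y = t * z)
    (h2 : ∀ q, q₀ ≤ q → ∀ y ∈ S (q + 1), (∃ z ∈ S (q + 2), ∃ w ∈ S (q + 1),
      s' * y = t * z + s * w) → ∃ z ∈ S (q + 1), ∃ w ∈ S q, y = t * z + s * w)
    (m p j q : ℕ) (hq : q₀ ≤ q) {y : F} (hy : y ∈ S (q + p))
    (h : ∃ u ∈ S (q + p + j), ∃ w ∈ S (q + j), s' ^ j * y = t ^ m * u + s ^ p * w) :
    ∃ u ∈ S (q + p), ∃ b ∈ S q, y = t ^ m * u + s ^ p * b := by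
  have key : ∀ (m : ℕ) (q : ℕ), q₀ ≤ q → ∀ y ∈ S (q + p),
      (∃ u ∈ S (q + p + 1), ∃ w ∈ S (q + 1), s' * y = t ^ m * u + s ^ p * w) →
      ∃ u ∈ S (q + p), ∃ b ∈ S q, y = t ^ m * u + s ^ p * b := by
    intro m
    induction m with
    | zero =>
      rintro q hq y hy -
      exact ⟨y, hy, 0, Submodule.zero_mem _, by simp⟩
    | succ m ih =>
      rintro q hq y hy ⟨u, hu, w, hw, e⟩
      have e' : s' * y = t * (t ^ m * u) + s ^ p * w := by rw [e, pow_succ']; ring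
      have hu' := WD_pow S htS m _ hu
      obtain ⟨y₁, hy₁, b₁, hb₁, ey⟩ := WD_lift_one S hsS hsS' h1 h2 p q hq y hy
        ⟨_, hu', w, hw, e'⟩
      have e2 : s ^ p * (w - s' * b₁) = t * (s' * y₁ - t ^ m * u) := by
        have : t * (s' * y₁) = s' * y - s' * (s ^ p * b₁) := by rw [ey]; ring
        rw [mul_sub, mul_sub, this, e']; ring
      have hm : w - s' * b₁ ∈ S (q + 1) := Submodule.sub_mem _ hw (hsS' _ _ hb₁)
      have hm2 : s' * y₁ - t ^ m * u ∈ S (q + 1 + p) :=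
        WD_cast S (by omega) (Submodule.sub_mem (S (q + p + 1)) (hsS' _ _ hy₁) hu')
      obtain ⟨w₁, hw₁, e3⟩ := WD_one S hsS h1 p (q + 1) (by omega) _ hm ⟨_, hm2, e2⟩
      have e4 : s' * y₁ = t ^ m * u + s ^ p * w₁ := by
        have : t * (s' * y₁ - t ^ m * u) = t * (s ^ p * w₁) := by rw [← e2, e3]; ring
        have := mul_left_cancel₀ ht this
        rw [← this]; ring
      obtain ⟨u₂, hu₂, b₂, hb₂, e5⟩ := ih q hq y₁ hy₁ ⟨u, hu, w₁, hw₁, e4⟩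
      refine ⟨u₂, hu₂, t * b₂ + b₁, Submodule.add_mem _ (htS _ _ hb₂) hb₁, ?_⟩
      rw [ey, e5, pow_succ']; ring
  induction j generalizing q y with
  | zero =>
    obtain ⟨u, hu, w, hw, e⟩ := h
    exact ⟨u, hu, w, hw, by simpa using e⟩
  | succ j ih =>
    obtain ⟨u, hu, w, hw, e⟩ := h
    have hy' : s' * y ∈ S (q + 1 + p) := WD_cast S (by omega) (hsS' _ _ hy)
    have e' : s' ^ j * (s' * y) = t ^ m * u + s ^ p * w := by
      rw [← mul_assoc, ← pow_succ]; exact e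
    obtain ⟨u', hu', b', hb', e2⟩ := ih (q + 1) (by omega) hy'
      ⟨u, WD_cast S (by omega) hu, w, WD_cast S (by omega) hw, e'⟩
    exact key m q hq y hy ⟨u', WD_cast S (by omega) hu', b', hb', e2⟩

end Pool.Agent.Lib.MP_b197b4_ntBW
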