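import Mathlib

/-!
# MP_b197b4_nt, project BW: multiplications of a lattice modulo powers of `t`
-/

set_option autoImplicit false

namespace Pool.Agent.Lib.MP_b197b4_ntBW

/-- WE. PROOF: `Φ : (ι → S) → (ι × ι → S₂)`, `b ↦ (g j * b i - g i * b j)`, linear over the noetherian
ring `R`. Artin-Rees (`Ideal.exists_pow_inf_eq_pow_smul` for the ideal `(t)` and the range of `Φ`): for
`M` large `Φ b ∈ t ^ M` implies `Φ b = t Φ b'`, so `b - t b'` is in the kernel:
`b i - t b' i = λ g i`, `λ ∈ F` independent of `i` (some `g i ≠ 0`), `λ S ⊆ S`, so `λ` is integral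
over `R` (`S` is finitely generated and contains a nonzero element), `λ ∈ R` by `hcl`. -/
theorem lattice_lam {R F : Type} [CommRing R] [IsDomain R] [IsNoetherianRing R] [Field F]
    [Algebra R F] [FaithfulSMul R F] (hcl : ∀ u : F, IsIntegral R u → ∃ r : R, algebraMap R F r = u)
    (S S₂ : Submodule R F) (hS : S.FG) (hS₂ : S₂.FG) {ι : Type} [Finite ι] (g : ι → F)
    (hg : Submodule.span R (Set.range g) = S) (hgg : ∀ i, ∀ y ∈ S, g i * y ∈ S₂)
    (hne : ∃ i, g i ≠ 0) {t : R} (ht : t ≠ 0) :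
    ∃ M : ℕ, ∀ b : ι → F, (∀ i, b i ∈ S) →
      (∀ i j, ∃ z ∈ S₂, g j * b i - g i * b j = algebraMap R F t ^ M * z) →
      ∃ r : R, ∀ i, ∃ b' ∈ S, b i = algebraMap R F r * g i + algebraMap R F t * b' := by
  classical
  have _ : Module.Finite R S₂ := Module.Finite.iff_fg.mpr hS₂
  let Φ : (ι → S) →ₗ[R] (ι × ι → S₂) :=
    { toFun := fun b p => ⟨g p.2 * (b p.1 : F) - g p.1 * (b p.2 : F),
        S₂.sub_mem (hgg _ _ (b p.1).2) (hgg _ _ (b p.2).2)⟩
      map_add' := fun b c => by
        funext p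
        apply Subtype.ext
        show g p.2 * ((b p.1 : F) + (c p.1 : F)) - g p.1 * ((b p.2 : F) + (c p.2 : F)) =
          g p.2 * (b p.1 : F) - g p.1 * (b p.2 : F) + (g p.2 * (c p.1 : F) - g p.1 * (c p.2 : F))
        ring
      map_smul' := fun r b => by
        funext p
        apply Subtype.ext
        show g p.2 * (r • (b p.1 : F)) - g p.1 * (r • (b p.2 : F)) =
          r • (g p.2 * (b p.1 : F) - g p.1 * (b p.2 : F))
        rw [Algebra.smul_def, Algebra.smul_def, Algebra.smul_def]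
        ring }
  obtain ⟨k, hk⟩ := Ideal.exists_pow_inf_eq_pow_smul (Ideal.span {t}) (LinearMap.range Φ)
  refine ⟨k + 1, fun b hb h => ?_⟩
  choose z hz hzb using h
  let β : ι → S := fun i => ⟨b i, hb i⟩
  let ζ : ι × ι → S₂ := fun p => ⟨z p.1 p.2, hz p.1 p.2⟩
  have hβ : Φ β = t ^ (k + 1) • ζ := by
    funext p
    apply Subtype.ext
    show g p.2 * b p.1 - g p.1 * b p.2 = t ^ (k + 1) • z p.1 p.2
    rw [hzb, Algebra.smul_def, map_pow]
  have h1 : Φ β ∈ Ideal.span {t} ^ (k + 1) • (⊤ : Submodule R (ι × ι → S₂)) ⊓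
      LinearMap.range Φ := by
    refine ⟨?_, LinearMap.mem_range_self Φ β⟩
    rw [hβ]
    exact Submodule.smul_mem_smul (Ideal.pow_mem_pow (Ideal.mem_span_singleton_self t) _) trivial
  rw [hk (k + 1) (by omega), Nat.add_sub_cancel_left, pow_one,
    Submodule.ideal_span_singleton_smul] at h1
  obtain ⟨w, ⟨-, ⟨c, rfl⟩⟩, hw⟩ := (Submodule.mem_smul_pointwise_iff_exists _ _ _).mp h1
  -- the difference is in the kernel
  have h2 : ∀ i j, g j * (b i - algebraMap R F t * (c i : F)) =
      g i * (b j - algebraMap R F t * (c j : F)) := by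
    intro i j
    have h3 := congrArg Subtype.val (congrFun hw (i, j))
    have h4 : t • (g j * (c i : F) - g i * (c j : F)) = g j * b i - g i * b j := h3
    rw [Algebra.smul_def] at h4
    linear_combination -h4
  obtain ⟨i₀, hi₀⟩ := hne
  set lam : F := (b i₀ - algebraMap R F t * (c i₀ : F)) / g i₀ with hlam
  have h5 : ∀ i, b i - algebraMap R F t * (c i : F) = lam * g i := by
    intro i
    have h6 := h2 i i₀
    rw [hlam]
    field_simp
    linear_combination h6
  have h7 : ∀ y ∈ S, lam • y ∈ S := by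
    intro y hy
    rw [← hg] at hy
    refine Submodule.span_induction ?_ ?_ ?_ ?_ hy
    · rintro _ ⟨i, rfl⟩
      have h8 : lam • g i = b i - t • (c i : F) := by
        rw [Algebra.smul_def t, smul_eq_mul, ← h5]
      rw [h8]
      exact S.sub_mem (hb i) (S.smul_mem t (c i).2)
    · rw [smul_zero]
      exact S.zero_mem
    · intro u v _ _ hu hv
      rw [smul_add]
      exact S.add_mem hu hv
    · intro r u _ hu
      rw [smul_comm]
      exact S.smul_mem r hu
  have hgS : g i₀ ∈ S := by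
    rw [← hg]
    exact Submodule.subset_span ⟨i₀, rfl⟩
  have hint : IsIntegral R lam := by
    refine isIntegral_of_smul_mem_submodule S ?_ hS lam h7
    intro h0
    rw [h0] at hgS
    exact hi₀ ((Submodule.mem_bot R).mp hgS)
  obtain ⟨r, hr⟩ := hcl lam hint
  refine ⟨r, fun i => ⟨c i, (c i).2, ?_⟩⟩
  rw [hr, ← h5]
  ring

end Pool.Agent.Lib.MP_b197b4_ntBW
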