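import Mathlib
import Pool.Agent.Lib.MP_b197b4_ntBW.WC
import Pool.Agent.Lib.MP_b197b4_ntBW.WD
import Pool.Agent.Lib.MP_b197b4_ntBW.WE

/-!
# MP_b197b4_nt, project BW: connectedness, abstract form

Two linear forms `s`, `s'` such that `t`, `s`, `s'` is a regular sequence in high degrees of the graded
ring. The idempotent `e` modulo `t ^ m` multiplies the lattice `sq R x q` into itself modulo `t ^ m`.
-/

set_option autoImplicit false

namespace Pool.Agent.Lib.MP_b197b4_ntBW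

section Val

variable {k R F : Type} [Field k] [CommRing R] [Field F] [Algebra k R] [Algebra R F] [Algebra k F]
    [IsScalarTower k R F] {n : ℕ} {x : Fin (n + 1) → F}

/-- The linear forms which do not vanish at `V`. -/
theorem WF_sub (hx : ∀ i, x i ≠ 0) (V : ValuationSubring F) (hk : ∀ c : k, algebraMap k F c ∈ V) :
    ∃ W : Submodule k (Fin (n + 1) → k), W ≠ ⊤ ∧
      ∀ c, c ∉ W → lf x c ≠ 0 ∧ Gn x (lf x c) V.toSubring := by
  obtain ⟨j, hj⟩ := Finite.exists_max (fun i => V.valuation (x i))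
  have hxj := hx j
  have hvj : V.valuation (x j) ≠ 0 := (Valuation.ne_zero_iff _).2 hxj
  let W : Submodule k (Fin (n + 1) → k) :=
    { carrier := {c | V.valuation (lf x c / x j) < 1}
      zero_mem' := by
        change V.valuation (lf x (0 : Fin (n + 1) → k) / x j) < 1
        have : lf x (0 : Fin (n + 1) → k) = 0 := by simp [lf]
        rw [this, zero_div, map_zero]
        exact zero_lt_one
      add_mem' := by
        intro a b ha hb
        change V.valuation (lf x (a + b) / x j) < 1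
        have : lf x (a + b) = lf x a + lf x b := by
          simp [lf, add_mul, Finset.sum_add_distrib]
        rw [this, add_div]
        exact V.valuation.map_add_lt ha hb
      smul_mem' := by
        intro r a ha
        change V.valuation (lf x (r • a) / x j) < 1
        have : lf x (r • a) = algebraMap k F r * lf x a := by
          simp [lf, Finset.mul_sum, mul_assoc]
        rw [this, mul_div_assoc, map_mul]
        exact mul_lt_one_of_nonneg_of_lt_one_right ((V.valuation_le_one_iff _).2 (hk r))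
          zero_le ha }
  refine ⟨W, ?_, ?_⟩
  · intro h
    have h1 : (Pi.single j 1 : Fin (n + 1) → k) ∈ W := by rw [h]; trivial
    have h2 : V.valuation (lf x (Pi.single j 1 : Fin (n + 1) → k) / x j) < 1 := h1
    have h3 : lf x (Pi.single j 1 : Fin (n + 1) → k) = x j := by
      unfold lf
      rw [Finset.sum_eq_single j]
      · simp
      · intro b _ hb
        simp [hb]
      · intro h
        exact absurd (Finset.mem_univ j) h
    rw [h3, div_self hxj, map_one] at h2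
    exact lt_irrefl _ h2
  · intro c hc
    have hc' : ¬ V.valuation (lf x c / x j) < 1 := hc
    rw [not_lt] at hc'
    have h0 : lf x c ≠ 0 := by
      intro h
      rw [h, zero_div, map_zero] at hc'
      exact absurd hc' (not_le.2 zero_lt_one)
    refine ⟨h0, fun i => ?_⟩
    change x i / lf x c ∈ V
    rw [← V.valuation_le_one_iff]
    have h1 : x i / lf x c = (x i / x j) / (lf x c / x j) := by
      field_simp
    rw [h1, map_div₀, map_div₀ _ (x i)]
    have h2 : V.valuation (x i) / V.valuation (x j) ≤ 1 :=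
      (div_le_one₀ (zero_lt_iff.2 hvj)).2 (hj i)
    exact (div_le_one₀ (lt_of_lt_of_le zero_lt_one hc')).2 (h2.trans hc')

omit [Algebra k R] [IsScalarTower k R F] [Field k] [Algebra k F] in
/-- Values of homogeneous polynomials. -/
theorem WF_val {V : ValuationSubring F} (hR : ∀ r : R, algebraMap R F r ∈ V) {s : F}
    (hG : Gn x s V.toSubring) {q : ℕ} {y : F} (hy : y ∈ sq R x q) : y / s ^ q ∈ V := by
  obtain ⟨f, hf, rfl⟩ := mem_sq.1 hy
  rw [MvPolynomial.aeval_def, MvPolynomial.eval₂_eq', Finset.sum_div]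
  refine V.toSubring.sum_mem fun d hd => ?_
  have hdeg : d.degree = q := by
    have h0 := hf (MvPolynomial.mem_support_iff.1 hd)
    rw [show (1 : Fin (n + 1) → ℕ) = fun _ => 1 from rfl, ← Finsupp.degree_eq_weight_one] at h0
    exact h0
  have h2 : algebraMap R F (MvPolynomial.coeff d f) * (∏ i, x i ^ d i) / s ^ q =
      algebraMap R F (MvPolynomial.coeff d f) * ∏ i, (x i / s) ^ d i := by
    rw [mul_div_assoc]
    congr 1
    rw [Finset.prod_congr rfl fun i _ => div_pow (x i) s (d i), Finset.prod_div_distrib,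
      Finset.prod_pow_eq_pow_sum]
    congr 2
    rw [← hdeg, Finsupp.degree_eq_sum]
  rw [h2]
  exact V.toSubring.mul_mem (hR _) (V.toSubring.prod_mem fun i _ => V.toSubring.pow_mem (hG i) _)

omit [Algebra k R] [IsScalarTower k R F] [CommRing R] [Algebra R F] in
/-- Some coordinate is a unit. -/
theorem WF_unit {V : ValuationSubring F} (hk : ∀ c : k, algebraMap k F c ∈ V)
    {c : Fin (n + 1) → k} (hs : lf x c ≠ 0) (hG : Gn x (lf x c) V.toSubring) :
    ∃ j, V.valuation (x j / lf x c) = 1 := by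
  by_contra hcon
  push Not at hcon
  have h1 : ∀ j, V.valuation (x j / lf x c) < 1 := fun j =>
    lt_of_le_of_ne ((V.valuation_le_one_iff _).2 (hG j)) (hcon j)
  have h2 : (1 : F) = ∑ i, algebraMap k F (c i) * (x i / lf x c) := by
    have : ∑ i, algebraMap k F (c i) * (x i / lf x c) = lf x c / lf x c := by
      have h4 : lf x c / lf x c = (∑ i, algebraMap k F (c i) * x i) / lf x c := rfl
      rw [h4, Finset.sum_div]
      exact Finset.sum_congr rfl fun i _ => (mul_div_assoc _ _ _).symm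
    rw [this, div_self hs]
  have h3 : V.valuation (1 : F) < 1 := by
    rw [h2]
    refine V.valuation.map_sum_lt one_ne_zero fun i _ => ?_
    rw [map_mul]
    exact mul_lt_one_of_nonneg_of_lt_one_right ((V.valuation_le_one_iff _).2 (hk _)) zero_le (h1 i)
  rw [map_one] at h3
  exact lt_irrefl _ h3

end Val

/-- Two elements with the same denominators. -/
theorem WF_common {R F : Type} [CommRing R] [Field F] [Algebra R F] {n : ℕ}
    {x : Fin (n + 1) → F} {s s' : F} (hs : s ∈ sq R x 1) (hs' : s' ∈ sq R x 1) (hs0 : s ≠ 0)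
    (hs0' : s' ≠ 0) {e e' : F} (he : ∃ p : ℕ, ∃ a ∈ sq R x p, e = a / s ^ p)
    (he' : ∃ p : ℕ, ∃ a ∈ sq R x p, e' = a / s' ^ p) :
    ∃ P : ℕ, ∃ A ∈ sq R x P, ∃ A' ∈ sq R x P, e = A / s ^ P ∧ e' = A' / s' ^ P := by
  obtain ⟨p, a, ha, rfl⟩ := he
  obtain ⟨p', a', ha', rfl⟩ := he'
  have h1 := sq_pow hs p'
  have h1' := sq_pow hs' p
  rw [mul_one] at h1 h1'
  refine ⟨p + p', a * s ^ p', sq_mul ha h1, a' * s' ^ p, ?_, ?_, ?_⟩
  · rw [add_comm p p']
    exact sq_mul ha' h1'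
  · rw [pow_add, mul_div_mul_right _ _ (pow_ne_zero _ hs0)]
  · rw [add_comm p p', pow_add, mul_div_mul_right _ _ (pow_ne_zero _ hs0')]

/-- WF. The special fibre is connected. -/
theorem conn_abs {k R F : Type} [Field k] [Infinite k] [CommRing R] [IsDomain R]
    [IsNoetherianRing R] [IsLocalRing R] [Field F] [Algebra k R] [Algebra R F] [Algebra k F]
    [IsScalarTower k R F] [FaithfulSMul R F]
    (hcl : ∀ u : F, IsIntegral R u → ∃ r : R, algebraMap R F r = u) {n : ℕ}
    {x : Fin (n + 1) → F} (hx : ∀ i, x i ≠ 0) {t : R} (ht : t ≠ 0)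
    {C₁ C₂ : Set (ValuationSubring F)} (hf₁ : C₁.Finite) (hf₂ : C₂.Finite)
    (hv : ∀ V ∈ C₁ ∪ C₂, ∀ r : R, algebraMap R F r ∈ V ∧
      (V.valuation (algebraMap R F r) < 1 ↔ r ∈ IsLocalRing.maximalIdeal R))
    (htm : t ∈ IsLocalRing.maximalIdeal R)
    (he : ∀ m : ℕ, ∀ w ∈ Submodule.span k (Set.range x), w ≠ 0 → ∃ e : F,
      (∃ p : ℕ, ∃ a ∈ sq R x p, e = a / w ^ p) ∧
      (∀ V ∈ C₁, Gn x w V.toSubring → (e - 1) / algebraMap R F t ^ m ∈ V) ∧
      ∀ V ∈ C₂, Gn x w V.toSubring → e / algebraMap R F t ^ m ∈ V)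
    (hn : ∀ m : ℕ, ∀ w ∈ Submodule.span k (Set.range x), w ≠ 0 →
      ∀ w' ∈ Submodule.span k (Set.range x), w' ≠ 0 → ∀ f : F,
      (∃ p : ℕ, ∃ a ∈ sq R x (2 * p), f = a / (w * w') ^ p) →
      (∀ V ∈ C₁ ∪ C₂, Gn x w V.toSubring → Gn x w' V.toSubring →
        f / algebraMap R F t ^ m ∈ V) →
      ∃ p : ℕ, ∃ a ∈ sq R x (2 * p), f / algebraMap R F t ^ m = a / (w * w') ^ p) :
    C₁ = ∅ ∨ C₂ = ∅ := by
  classical
  by_contra hcon
  push Not at hcon
  obtain ⟨⟨V₁, hV₁⟩, ⟨V₂, hV₂⟩⟩ := hcon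
  have hinj : Function.Injective (algebraMap R F) := FaithfulSMul.algebraMap_injective R F
  obtain ⟨τ, hτ⟩ : ∃ τ : F, τ = algebraMap R F t := ⟨_, rfl⟩
  have hτ0 : τ ≠ 0 := by
    rw [hτ]
    intro h
    exact ht (hinj (h.trans (map_zero _).symm))
  have hk : ∀ V ∈ C₁ ∪ C₂, ∀ c : k, algebraMap k F c ∈ V := by
    intro V hV c
    rw [IsScalarTower.algebraMap_apply k R F]
    exact (hv V hV _).1
  -- the linear forms
  have hfin : (C₁ ∪ C₂).Finite := hf₁.union hf₂
  have : Finite (C₁ ∪ C₂ : Set (ValuationSubring F)) := hfin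
  choose W hWt hW using fun V : (C₁ ∪ C₂ : Set (ValuationSubring F)) => WF_sub hx V.1 (hk V.1 V.2)
  obtain ⟨c, c', hc, hc', q, hreg1, hreg2⟩ := two_forms (R := R) x t W hWt
  obtain ⟨s, hs⟩ : ∃ s : F, s = lf x c := ⟨_, rfl⟩
  obtain ⟨s', hs'⟩ : ∃ s' : F, s' = lf x c' := ⟨_, rfl⟩
  have hs0 : s ≠ 0 := by
    rw [hs]
    exact (hW ⟨V₁, Or.inl hV₁⟩ c (hc _)).1
  have hs0' : s' ≠ 0 := by
    rw [hs']
    exact (hW ⟨V₁, Or.inl hV₁⟩ c' (hc' _)).1
  have hsG : ∀ V ∈ C₁ ∪ C₂, Gn x s V.toSubring := by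
    intro V hV
    rw [hs]
    exact (hW ⟨V, hV⟩ c (hc _)).2
  have hs1 : s ∈ sq R x 1 := by rw [hs]; exact sq_lf c
  have hs1' : s' ∈ sq R x 1 := by rw [hs']; exact sq_lf c'
  have hmem : ∀ c : Fin (n + 1) → k, lf x c ∈ Submodule.span k (Set.range x) := by
    intro c
    unfold lf
    refine Submodule.sum_mem _ fun i _ => ?_
    rw [← Algebra.smul_def]
    exact Submodule.smul_mem _ _ (Submodule.subset_span ⟨i, rfl⟩)
  have hss : s ∈ Submodule.span k (Set.range x) := by rw [hs]; exact hmem c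
  have hss' : s' ∈ Submodule.span k (Set.range x) := by rw [hs']; exact hmem c'
  rw [← hs, ← hτ] at hreg1
  rw [← hs, ← hs', ← hτ] at hreg2
  have hτS : ∀ q, ∀ y ∈ sq R x q, τ * y ∈ sq R x q := by
    intro q y hy
    rw [hτ, ← Algebra.smul_def]
    exact Submodule.smul_mem _ _ hy
  have hsS : ∀ q, ∀ y ∈ sq R x q, s * y ∈ sq R x (q + 1) := by
    intro q y hy
    rw [add_comm q 1]
    exact sq_mul hs1 hy
  have hsS' : ∀ q, ∀ y ∈ sq R x q, s' * y ∈ sq R x (q + 1) := by
    intro q y hy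
    rw [add_comm q 1]
    exact sq_mul hs1' hy
  -- generators of the lattice
  obtain ⟨T, hT⟩ := sq_fg (R := R) (x := x) q
  let G : Finset F := T ∪ Finset.univ.image fun j => x j ^ q
  have hxq : ∀ j, x j ^ q ∈ sq R x q := by
    intro j
    have := sq_pow (sq_coord (R := R) (x := x) j) q
    rwa [mul_one] at this
  have hGsq : ∀ g ∈ G, g ∈ sq R x q := by
    intro g hg
    rcases Finset.mem_union.1 hg with h | h
    · rw [← hT]
      exact Submodule.subset_span h
    · obtain ⟨j, -, rfl⟩ := Finset.mem_image.1 h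
      exact hxq j
  have hGspan : Submodule.span R (Set.range (fun g : G => (g : F))) = sq R x q := by
    apply le_antisymm
    · rw [Submodule.span_le]
      rintro _ ⟨g, rfl⟩
      exact hGsq g g.2
    · rw [← hT]
      apply Submodule.span_mono
      intro g hg
      exact ⟨⟨g, Finset.mem_union_left _ hg⟩, rfl⟩
  have hGx : ∀ j, x j ^ q ∈ G := fun j =>
    Finset.mem_union_right _ (Finset.mem_image_of_mem _ (Finset.mem_univ j))
  obtain ⟨M, hM⟩ := lattice_lam hcl (sq R x q) (sq R x (q + q)) (sq_fg q) (sq_fg (q + q))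
    (fun g : G => (g : F)) hGspan (fun g y hy => sq_mul (hGsq g g.2) hy)
    ⟨⟨x 0 ^ q, hGx 0⟩, pow_ne_zero _ (hx 0)⟩ ht
  rw [← hτ] at hM
  -- the idempotents
  obtain ⟨e, hep, he1, he2⟩ := he (M + 1) s hss hs0
  obtain ⟨e', hep', he1', he2'⟩ := he (M + 1) s' hss' hs0'
  rw [← hτ] at he1 he2 he1' he2'
  obtain ⟨P, A, hA, A', hA', heA, heA'⟩ := WF_common hs1 hs1' hs0 hs0' hep hep'
  have hsP : ∀ {z : F}, z ∈ sq R x 1 → ∀ N, z ^ N ∈ sq R x N := by
    intro z hz N
    have := sq_pow hz N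
    rwa [mul_one] at this
  obtain ⟨c₀, b, hb, hfb⟩ := hn (M + 1) s hss hs0 s' hss' hs0' (e - e')
    ⟨P, A * s' ^ P - A' * s ^ P, by
      rw [two_mul]
      exact Submodule.sub_mem _ (sq_mul hA (hsP hs1' P)) (sq_mul hA' (hsP hs1 P)), by
      rw [heA, heA', div_sub_div _ _ (pow_ne_zero _ hs0) (pow_ne_zero _ hs0'), mul_pow,
        mul_comm (s ^ P) A']⟩ (by
      rw [← hτ]
      rintro V (hV | hV) hG hG'
      · have h1 := V.sub_mem (he1 V hV hG) (he1' V hV hG')
        have h2 : (e - 1) / τ ^ (M + 1) - (e' - 1) / τ ^ (M + 1) = (e - e') / τ ^ (M + 1) := by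
          ring
        rwa [h2] at h1
      · have h1 := V.sub_mem (he2 V hV hG) (he2' V hV hG')
        have h2 : e / τ ^ (M + 1) - e' / τ ^ (M + 1) = (e - e') / τ ^ (M + 1) := by
          ring
        rwa [h2] at h1)
  rw [← hτ] at hfb
  obtain ⟨N, hN⟩ : ∃ N, N = P + c₀ := ⟨_, rfl⟩
  obtain ⟨a, ha⟩ : ∃ a, a = A * s ^ c₀ := ⟨_, rfl⟩
  obtain ⟨a', ha'⟩ : ∃ a', a' = A' * s' ^ c₀ := ⟨_, rfl⟩
  obtain ⟨z, hz⟩ : ∃ z, z = b * (s * s') ^ P := ⟨_, rfl⟩
  have haN : a ∈ sq R x N := by rw [ha, hN]; exact sq_mul hA (hsP hs1 c₀)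
  have haN' : a' ∈ sq R x N := by rw [ha', hN]; exact sq_mul hA' (hsP hs1' c₀)
  have hzN : z ∈ sq R x (N + N) := by
    rw [hz, hN]
    have h1 := sq_mul hb (sq_pow (sq_mul hs1 hs1') P)
    have h2 : 2 * c₀ + P * (1 + 1) = P + c₀ + (P + c₀) := by ring
    rwa [h2] at h1
  have hea : e = a / s ^ N := by
    rw [ha, hN, pow_add, mul_div_mul_right _ _ (pow_ne_zero _ hs0), heA]
  have hkey : s' ^ N * a = τ ^ (M + 1) * z + s ^ N * a' := by
    have h1 : e - e' = τ ^ (M + 1) * (b / (s * s') ^ c₀) := by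
      rw [← hfb, mul_div_cancel₀ _ (pow_ne_zero _ hτ0)]
    rw [heA, heA'] at h1
    have hsne := pow_ne_zero P hs0
    have hsne' := pow_ne_zero P hs0'
    have hsc := pow_ne_zero c₀ hs0
    have hsc' := pow_ne_zero c₀ hs0'
    have h2 : A / s ^ P = τ ^ (M + 1) * (b / (s * s') ^ c₀) + A' / s' ^ P := by
      rw [← h1]; ring
    have h3 : A = s ^ P * (τ ^ (M + 1) * (b / (s * s') ^ c₀) + A' / s' ^ P) := by
      rw [← h2, mul_div_cancel₀ _ hsne]
    rw [ha, ha', hz, hN, h3]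
    field_simp
    ring
  -- lifting
  have hlift : ∀ g : G, ∃ u ∈ sq R x (q + N), ∃ b ∈ sq R x q,
      (g : F) * a = τ ^ (M + 1) * u + s ^ N * b := by
    intro g
    refine lift_pow (sq R x) hτ0 hs0 hτS hsS hsS' hreg1 hreg2 (M + 1) N N q le_rfl
      (sq_mul (hGsq g g.2) haN) ⟨g * z, ?_, g * a', sq_mul (hGsq g g.2) haN', ?_⟩
    · rw [add_assoc]
      exact sq_mul (hGsq g g.2) hzN
    · calc s' ^ N * ((g : F) * a) = g * (s' ^ N * a) := by ring
        _ = g * (τ ^ (M + 1) * z + s ^ N * a') := by rw [hkey]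
        _ = τ ^ (M + 1) * (g * z) + s ^ N * (g * a') := by ring
  choose u hu β hβ huβ using hlift
  obtain ⟨r, hr⟩ := hM β hβ (fun g g' => by
    have hy : (g' : F) * β g - g * β g' ∈ sq R x (q + q) :=
      Submodule.sub_mem _ (sq_mul (hGsq g' g'.2) (hβ g)) (sq_mul (hGsq g g.2) (hβ g'))
    have h1 : ∃ z ∈ sq R x (q + q + N), s ^ N * ((g' : F) * β g - g * β g') =
        τ ^ (M + 1) * z := by
      refine ⟨g * u g' - g' * u g, ?_, ?_⟩
      · rw [add_assoc]
        exact Submodule.sub_mem _ (sq_mul (hGsq g g.2) (hu g')) (sq_mul (hGsq g' g'.2) (hu g))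
      · have e1 := huβ g
        have e2 := huβ g'
        linear_combination (g : F) * e2 - (g' : F) * e1
    obtain ⟨z, hz, hz'⟩ := div_pow_lift (sq R x) hτ0 hsS hreg1 hτS (M + 1) N (q + q)
      (Nat.le_add_right q q) hy h1
    refine ⟨τ * z, hτS _ z hz, ?_⟩
    rw [hz', pow_succ]
    ring)
  -- the values
  have hval : ∀ V ∈ C₁ ∪ C₂, V.valuation (e - algebraMap R F r) < 1 := by
    intro V hV
    have hR : ∀ r : R, algebraMap R F r ∈ V := fun r => (hv V hV r).1
    have hτV : V.valuation τ < 1 := by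
      rw [hτ]
      exact (hv V hV t).2.2 htm
    obtain ⟨j, hj⟩ : ∃ j, V.valuation (x j / s) = 1 := by
      rw [hs]
      exact WF_unit (hk V hV) (by rw [← hs]; exact hs0) (by rw [← hs]; exact hsG V hV)
    obtain ⟨b', hb', hbb⟩ := hr ⟨x j ^ q, hGx j⟩
    have h1 := huβ ⟨x j ^ q, hGx j⟩
    have hu1 := WF_val hR (hsG V hV) (hu ⟨x j ^ q, hGx j⟩)
    have hb1 := WF_val hR (hsG V hV) hb'
    have hxj := hx j
    have hg0 : x j ^ q ≠ 0 := pow_ne_zero _ hxj
    simp only at h1 hbb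
    have h2 : e - algebraMap R F r =
        τ * ((τ ^ M * (u ⟨x j ^ q, hGx j⟩ / s ^ (q + N)) + b' / s ^ q) / (x j / s) ^ q) := by
      have h3 : x j ^ q * a = τ ^ (M + 1) * u ⟨x j ^ q, hGx j⟩ +
          s ^ N * (algebraMap R F r * x j ^ q + τ * b') := by
        rw [h1, hbb]
      have h4 : a = (τ ^ (M + 1) * u ⟨x j ^ q, hGx j⟩ +
          s ^ N * (algebraMap R F r * x j ^ q + τ * b')) / x j ^ q := by
        rw [← h3, mul_div_cancel_left₀ _ hg0]
      rw [hea, h4, div_pow, pow_add s q N]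
      have hsq := pow_ne_zero q hs0
      have hsN := pow_ne_zero N hs0
      field_simp
      ring
    rw [h2, map_mul]
    refine mul_lt_one_of_lt_of_le hτV ?_
    rw [map_div₀, map_pow, hj, one_pow, div_one, V.valuation_le_one_iff]
    refine V.add_mem _ _ (V.mul_mem _ _ (V.toSubring.pow_mem ?_ M) hu1) hb1
    rw [hτ]
    exact hR t
  have h1 : V₁.valuation (algebraMap R F (r - 1)) < 1 := by
    have h2 := hval V₁ (Or.inl hV₁)
    have h3 := he1 V₁ hV₁ (hsG V₁ (Or.inl hV₁))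
    have hτV : V₁.valuation τ < 1 := by
      rw [hτ]
      exact (hv V₁ (Or.inl hV₁) t).2.2 htm
    have h4 : V₁.valuation (e - 1) < 1 := by
      have h5 : e - 1 = τ ^ (M + 1) * ((e - 1) / τ ^ (M + 1)) := by
        rw [mul_div_cancel₀ _ (pow_ne_zero _ hτ0)]
      rw [h5, map_mul, map_pow]
      exact mul_lt_one_of_lt_of_le (pow_lt_one₀ zero_le hτV (Nat.succ_ne_zero M))
        ((V₁.valuation_le_one_iff _).2 h3)
    have h6 : algebraMap R F (r - 1) = (e - 1) - (e - algebraMap R F r) := by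
      rw [map_sub, map_one]
      ring
    rw [h6]
    exact V₁.valuation.map_sub_lt h4 h2
  have h2 : V₂.valuation (algebraMap R F r) < 1 := by
    have h2 := hval V₂ (Or.inr hV₂)
    have h3 := he2 V₂ hV₂ (hsG V₂ (Or.inr hV₂))
    have hτV : V₂.valuation τ < 1 := by
      rw [hτ]
      exact (hv V₂ (Or.inr hV₂) t).2.2 htm
    have h4 : V₂.valuation e < 1 := by
      have h5 : e = τ ^ (M + 1) * (e / τ ^ (M + 1)) := by
        rw [mul_div_cancel₀ _ (pow_ne_zero _ hτ0)]
      rw [h5, map_mul, map_pow]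
      exact mul_lt_one_of_lt_of_le (pow_lt_one₀ zero_le hτV (Nat.succ_ne_zero M))
        ((V₂.valuation_le_one_iff _).2 h3)
    have h6 : algebraMap R F r = e - (e - algebraMap R F r) := by ring
    rw [h6]
    exact V₂.valuation.map_sub_lt h4 h2
  have h3 := (hv V₁ (Or.inl hV₁) (r - 1)).2.1 h1
  have h4 := (hv V₂ (Or.inr hV₂) r).2.1 h2
  have h5 : (1 : R) ∈ IsLocalRing.maximalIdeal R := by
    have := Ideal.sub_mem _ h4 h3
    rwa [sub_sub_cancel] at this
  exact (Ideal.ne_top_iff_one _).1 (IsLocalRing.maximalIdeal.isMaximal R).ne_top h5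

end Pool.Agent.Lib.MP_b197b4_ntBW
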