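import Mathlib
import Pool.Agent.Lib.MP_b197b4_ntBW.Defs
import Pool.Agent.Lib.MP_b197b4_ntA.XCen

/-!
# MP_b197b4_nt, project BW: closed points of the chart of a linear form
-/

set_option autoImplicit false
set_option linter.style.haveILetI false

namespace Pool.Agent.Lib.MP_b197b4_ntBW

open IsLocalRing Pool.Agent.Lib.MP_b197b4_ntK Pool.Agent.Lib.MP_b197b4_ntA

variable {k F : Type} [Field k] [Field F] [Algebra k F] {n : ℕ} {x : Fin (n + 1) → F}

theorem WG_mem {w : F} (hw : w ∈ Submodule.span k (Set.range x)) (i : Fin (n + 1)) :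
    w / x i ∈ cht k x i := by
  induction hw using Submodule.span_induction with
  | mem y hy =>
    obtain ⟨j, rfl⟩ := hy
    exact XP_gen i j
  | zero =>
    rw [zero_div]
    exact zero_mem _
  | add y z _ _ hy hz =>
    rw [add_div]
    exact add_mem hy hz
  | smul c y _ hy =>
    rw [smul_div_assoc]
    exact Subalgebra.smul_mem _ hy c

/-- Elements of the chart `w` are elements of the chart `i` after multiplication by a power of
`w / x i`. -/
theorem WG_pow {w : F} (hw : w ∈ Submodule.span k (Set.range x)) (hw0 : w ≠ 0)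
    (i : Fin (n + 1)) {a : F} (ha : a ∈ chw k x w) :
    ∃ N : ℕ, ∀ M, N ≤ M → a * (w / x i) ^ M ∈ cht k x i := by
  induction ha using Algebra.adjoin_induction with
  | mem a ha =>
    obtain ⟨l, rfl⟩ := ha
    refine ⟨1, fun M hM => ?_⟩
    obtain ⟨M, rfl⟩ := Nat.exists_eq_add_of_le hM
    have h1 : x l / w * (w / x i) ^ (1 + M) = x l / x i * (w / x i) ^ M := by
      rw [pow_add, pow_one, ← mul_assoc, div_mul_div_cancel₀ hw0]
    rw [h1]
    exact mul_mem (XP_gen i l) (pow_mem (WG_mem hw i) M)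
  | algebraMap c =>
    exact ⟨0, fun M _ => mul_mem (algebraMap_mem _ c) (pow_mem (WG_mem hw i) M)⟩
  | add a b _ _ ha hb =>
    obtain ⟨N, hN⟩ := ha
    obtain ⟨N', hN'⟩ := hb
    refine ⟨max N N', fun M hM => ?_⟩
    rw [add_mul]
    exact add_mem (hN M ((le_max_left _ _).trans hM)) (hN' M ((le_max_right _ _).trans hM))
  | mul a b _ _ ha hb =>
    obtain ⟨N, hN⟩ := ha
    obtain ⟨N', hN'⟩ := hb
    refine ⟨N + N', fun M hM => ?_⟩
    obtain ⟨L, rfl⟩ := Nat.exists_eq_add_of_le hM
    have h1 : a * b * (w / x i) ^ (N + N' + L) =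
        (a * (w / x i) ^ N) * (b * (w / x i) ^ (N' + L)) := by
      rw [add_assoc, pow_add]; ring
    rw [h1]
    exact mul_mem (hN N le_rfl) (hN' _ (Nat.le_add_right _ _))

theorem WG_gen (w : F) (j : Fin (n + 1)) : x j / w ∈ (chw k x w).toSubring :=
  Algebra.subset_adjoin ⟨j, rfl⟩

/-- Some coordinate does not vanish. -/
theorem WG_exists {w : F} (hw : w ∈ Submodule.span k (Set.range x))
    (hw0 : w ≠ 0) (M : Ideal (chw k x w).toSubring) (hM : M ≠ ⊤) :
    ∃ i, (⟨x i / w, WG_gen w i⟩ : (chw k x w).toSubring) ∉ M := by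
  by_contra hcon
  push Not at hcon
  apply hM
  have key : ∀ y ∈ Submodule.span k (Set.range x), ∃ h : y / w ∈ (chw k x w).toSubring,
      (⟨y / w, h⟩ : (chw k x w).toSubring) ∈ M := by
    intro y hy
    induction hy using Submodule.span_induction with
    | mem y hy =>
      obtain ⟨j, rfl⟩ := hy
      exact ⟨WG_gen w j, hcon j⟩
    | zero =>
      have h0 : (0 : F) / w ∈ (chw k x w).toSubring := by
        rw [zero_div]
        exact zero_mem _
      refine ⟨h0, ?_⟩
      have h1 : (⟨0 / w, h0⟩ : (chw k x w).toSubring) = 0 := Subtype.ext (zero_div w)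
      rw [h1]
      exact zero_mem _
    | add y z _ _ hy hz =>
      obtain ⟨h1, h2⟩ := hy
      obtain ⟨h3, h4⟩ := hz
      have h0 : (y + z) / w ∈ (chw k x w).toSubring := by
        rw [add_div]
        exact add_mem h1 h3
      refine ⟨h0, ?_⟩
      have h5 : (⟨(y + z) / w, h0⟩ : (chw k x w).toSubring) = ⟨y / w, h1⟩ + ⟨z / w, h3⟩ :=
        Subtype.ext (add_div y z w)
      rw [h5]
      exact add_mem h2 h4
    | smul c y _ hy =>
      obtain ⟨h1, h2⟩ := hy
      have h0 : (c • y) / w ∈ (chw k x w).toSubring := by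
        rw [smul_div_assoc]
        exact Subalgebra.smul_mem (chw k x w) h1 c
      refine ⟨h0, ?_⟩
      have h5 : (⟨(c • y) / w, h0⟩ : (chw k x w).toSubring) =
          ⟨algebraMap k F c, (chw k x w).algebraMap_mem c⟩ * ⟨y / w, h1⟩ := by
        apply Subtype.ext
        change (c • y) / w = algebraMap k F c * (y / w)
        rw [smul_div_assoc, Algebra.smul_def]
      rw [h5]
      exact M.mul_mem_left _ h2
  obtain ⟨h1, h2⟩ := key w hw
  rw [Ideal.eq_top_iff_one]
  have h3 : (1 : (chw k x w).toSubring) = ⟨w / w, h1⟩ := Subtype.ext (div_self hw0).symm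
  rw [h3]
  exact h2

/-- The local ring of the chart `w` at the prime `M` is a local ring of the chart `i` if the `i`-th
coordinate does not vanish at `M`. -/
theorem WG_loc (hne : ∀ i, x i ≠ 0) {w : F} (hw : w ∈ Submodule.span k (Set.range x))
    (hw0 : w ≠ 0) (M : Ideal (chw k x w).toSubring) [M.IsPrime] {i : Fin (n + 1)}
    (hi : (⟨x i / w, WG_gen w i⟩ : (chw k x w).toSubring) ∉ M) :
    ∃ h : (cht k x i).toSubring ≤ (LocalSubring.ofPrime _ M).toSubring,
      LocalSubring.ofPrime _ M = LocalSubring.ofPrime _ (XP_ker h) ∧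
      ∀ y ∈ (LocalSubring.ofPrime _ M).toSubring, ∃ (a b : F) (_ : a ∈ (cht k x i).toSubring)
        (hb : b ∈ (cht k x i).toSubring),
        IsUnit (⟨b, h hb⟩ : (LocalSubring.ofPrime _ M).toSubring) ∧ y = a / b := by
  have hc : ∀ c : k, algebraMap k F c ∈ (LocalSubring.ofPrime _ M).toSubring := fun c =>
    LocalSubring.le_ofPrime _ M ((chw k x w).algebraMap_mem c)
  have hgen : ∀ j, x j / x i ∈ (LocalSubring.ofPrime _ M).toSubring := by
    intro j
    rw [xcen_mem]
    refine ⟨⟨x j / w, WG_gen w j⟩, ⟨x i / w, WG_gen w i⟩, hi, ?_⟩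
    change x j / x i = (x j / w) / (x i / w)
    rw [div_div_div_cancel_right₀ hw0]
  have h : (cht k x i).toSubring ≤ (LocalSubring.ofPrime _ M).toSubring := by
    intro y hy
    induction (show y ∈ cht k x i from hy) using Algebra.adjoin_induction with
    | mem a ha =>
      obtain ⟨l, rfl⟩ := ha
      exact hgen l
    | algebraMap c => exact hc c
    | add a b ha' hb' ha hb => exact add_mem (ha ha') (hb hb')
    | mul a b ha' hb' ha hb => exact mul_mem (ha ha') (hb hb')
  have hu0 : w / x i ≠ 0 := div_ne_zero hw0 (hne i)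
  have hunit : IsUnit (⟨w / x i, h (WG_mem hw i)⟩ : (LocalSubring.ofPrime _ M).toSubring) := by
    refine IsUnit.of_mul_eq_one ⟨x i / w, LocalSubring.le_ofPrime _ M (WG_gen w i)⟩ (Subtype.ext ?_)
    change w / x i * (x i / w) = 1
    rw [div_mul_div_cancel₀ (hne i), div_self hw0]
  have hfr : ∀ y ∈ (LocalSubring.ofPrime _ M).toSubring, ∃ (a b : F)
      (_ : a ∈ (cht k x i).toSubring) (hb : b ∈ (cht k x i).toSubring),
        IsUnit (⟨b, h hb⟩ : (LocalSubring.ofPrime _ M).toSubring) ∧ y = a / b := by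
    intro y hy
    obtain ⟨a, s, hs, rfl⟩ := (xcen_mem _ _ _).1 hy
    obtain ⟨N, hN⟩ := WG_pow hw hw0 i (a := (a : F)) a.2
    obtain ⟨N', hN'⟩ := WG_pow hw hw0 i (a := (s : F)) s.2
    refine ⟨a * (w / x i) ^ max N N', s * (w / x i) ^ max N N', hN _ (le_max_left _ _),
      hN' _ (le_max_right _ _), ?_, ?_⟩
    · have h3 := (xcen_unit _ M s).2 hs
      have h4 := h3.mul (hunit.pow (max N N'))
      have h5 : (⟨(s : F), LocalSubring.le_ofPrime _ _ s.2⟩ *
          (⟨w / x i, h (WG_mem hw i)⟩ : (LocalSubring.ofPrime _ M).toSubring) ^ (max N N')) =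
          ⟨(s : F) * (w / x i) ^ (max N N'), h (hN' _ (le_max_right _ _))⟩ := by
        apply Subtype.ext
        push_cast
        rfl
      rw [h5] at h4
      exact h4
    · rw [mul_div_mul_right _ _ (pow_ne_zero _ hu0)]
  refine ⟨h, ?_, hfr⟩
  apply LocalSubring.toSubring_injective
  ext y
  constructor
  · intro hy
    obtain ⟨a, b, ha, hb, hub, rfl⟩ := hfr y hy
    rw [xcen_mem]
    refine ⟨⟨a, ha⟩, ⟨b, hb⟩, ?_, rfl⟩
    rw [XP_mem_ker, not_not]
    exact hub
  · intro hy
    obtain ⟨a, s, hs, rfl⟩ := (xcen_mem _ _ _).1 hy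
    rw [XP_mem_ker, not_not] at hs
    have h1 : (s : F)⁻¹ ∈ (LocalSubring.ofPrime _ M).toSubring := xcen_inv_mem _ _ hs
    rw [div_eq_mul_inv]
    exact mul_mem (h a.2) h1

/-- WG. PROOF: `w = ∑ c i * x i`, so `x i / w ∉ M` for some `i`. `O = (chw k x w)_M` contains
`cht k x i` (`x j / x i = (x j / w) / (x i / w)`); `Q` = the elements of `cht k x i` which are not
units of `O` (`XP_ker`). `O` is the local ring of `cht k x i` at `Q`: for `a ∈ chw k x w` there is `N`
with `a * (w / x i) ^ N ∈ cht k x i`. The quotient of `cht k x i` by `Q` is a subring of the residue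
field of `O`, which is the finite extension `chw k x w / M` of `k` (Nullstellensatz): it is a field,
of dimension zero. -/
theorem pt_form (hne : ∀ i, x i ≠ 0) {w : F} (hw : w ∈ Submodule.span k (Set.range x))
    (hw0 : w ≠ 0) (M : Ideal (chw k x w).toSubring) (hM : M.IsMaximal) :
    @LocalSubring.ofPrime F _ _ M hM.isPrime ∈ Pts k x 0 := by
  haveI := hM.isPrime
  obtain ⟨i, hi⟩ := WG_exists hw hw0 M hM.ne_top
  obtain ⟨h, h1, h2⟩ := WG_loc hne hw hw0 M hi
  refine ⟨i, XP_ker h, inferInstance, ?_, h1⟩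
  letI : Algebra k (Kap (LocalSubring.ofPrime _ M)) := XP_alg (XP_const h)
  let φ : cht k x i →ₐ[k] Kap (LocalSubring.ofPrime _ M) :=
    { toRingHom := (residue _).comp (Subring.inclusion h)
      commutes' := fun c => rfl }
  haveI : Algebra.FiniteType k (cht k x i) := (Subalgebra.fg_iff_finiteType _).1 (XP_fg i)
  obtain ⟨s, h3, h4⟩ := XP_dim_ker φ (by
    intro z
    obtain ⟨⟨y, hy⟩, rfl⟩ := residue_surjective z
    obtain ⟨a, b, ha, hb, hu, rfl⟩ := h2 y hy
    refine ⟨⟨a, ha⟩, ⟨b, hb⟩, ?_⟩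
    exact XP_residue_div (h ha) (h hb) hu hy)
  let ψ : chw k x w →ₐ[k] Kap (LocalSubring.ofPrime _ M) :=
    { toRingHom := (residue _).comp (Subring.inclusion (LocalSubring.le_ofPrime _ M))
      commutes' := fun c => rfl }
  haveI : Algebra.FiniteType k (chw k x w) := (Subalgebra.fg_iff_finiteType _).1
    ⟨(Set.finite_range fun j => x j / w).toFinset, by rw [Set.Finite.coe_toFinset]; rfl⟩
  have hψ : Function.Surjective ψ := by
    intro z
    obtain ⟨⟨y, hy⟩, rfl⟩ := residue_surjective z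
    obtain ⟨a, s, hs, rfl⟩ := (xcen_mem _ _ _).1 hy
    obtain ⟨t, m, hm, ht⟩ := hM.exists_inv hs
    have hu := (xcen_unit _ M s).2 hs
    have hm0 : residue (LocalSubring.ofPrime _ M).toSubring ⟨m, LocalSubring.le_ofPrime _ M m.2⟩
        = 0 := by
      rw [residue_eq_zero_iff, mem_maximalIdeal, mem_nonunits_iff, xcen_unit, not_not]
      exact hm
    have h3 : residue (LocalSubring.ofPrime _ M).toSubring ⟨t, LocalSubring.le_ofPrime _ M t.2⟩ *
        residue (LocalSubring.ofPrime _ M).toSubring ⟨s, LocalSubring.le_ofPrime _ M s.2⟩ = 1 := by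
      have h4 : (⟨t, LocalSubring.le_ofPrime _ M t.2⟩ : (LocalSubring.ofPrime _ M).toSubring) *
          ⟨s, LocalSubring.le_ofPrime _ M s.2⟩ + ⟨m, LocalSubring.le_ofPrime _ M m.2⟩ = 1 := by
        apply Subtype.ext
        exact congrArg (Subtype.val : (chw k x w).toSubring → F) ht
      rw [← map_mul, ← add_zero (residue _ _), ← hm0, ← map_add, h4, map_one]
    refine ⟨⟨a * t, (chw k x w).mul_mem a.2 t.2⟩, ?_⟩
    change residue (LocalSubring.ofPrime _ M).toSubring ⟨(a : F) * t, _⟩ = _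
    rw [XP_residue_div (LocalSubring.le_ofPrime _ M a.2) (LocalSubring.le_ofPrime _ M s.2) hu hy,
      eq_div_iff (fun h0 => by rw [h0, mul_zero] at h3; exact zero_ne_one h3)]
    have h5 : (⟨(a : F) * t, LocalSubring.le_ofPrime _ M ((chw k x w).mul_mem a.2 t.2)⟩ :
        (LocalSubring.ofPrime _ M).toSubring) = ⟨a, LocalSubring.le_ofPrime _ M a.2⟩ *
        ⟨t, LocalSubring.le_ofPrime _ M t.2⟩ := rfl
    rw [h5, map_mul, mul_assoc, h3, mul_one]
  haveI : Algebra.FiniteType k (Kap (LocalSubring.ofPrime _ M)) :=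
    Algebra.FiniteType.of_surjective ψ hψ
  haveI : Module.Finite k (Kap (LocalSubring.ofPrime _ M)) :=
    finite_of_finite_type_of_isJacobsonRing _ _
  have h5 : Algebra.trdeg k (Kap (LocalSubring.ofPrime _ M)) = 0 := by
    exact trdeg_eq_zero_iff.2 inferInstance
  rw [h5] at h3
  have h6 : s = 0 := by exact_mod_cast h3.symm
  rw [h6] at h4
  exact h4

end Pool.Agent.Lib.MP_b197b4_ntBW
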