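import Mathlib
import Pool.Agent.Lib.MP_b197b4_ntBW.WG

/-!
# MP_b197b4_nt, project BW: idempotents modulo `t`
-/

set_option autoImplicit false

namespace Pool.Agent.Lib.MP_b197b4_ntBW

open IsLocalRing Pool.Agent.Lib.MP_b197b4_ntK Pool.Agent.Lib.MP_b197b4_ntA

variable {k F : Type} [Field k] [Field F] [Algebra k F] {n : ℕ} {x : Fin (n + 1) → F}

/-- The ideal of the functions divisible by `t` along the divisors in `C`. -/
def WH_J (A : Subring F) (C : Set (ValuationSubring F)) (hC : ∀ V ∈ C, ∀ a ∈ A, a ∈ V)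
    (t : F) : Ideal A where
  carrier := {a | ∀ V ∈ C, (a : F) / t ∈ V}
  zero_mem' := fun V _ => by
    change ((0 : A) : F) / t ∈ V
    rw [ZeroMemClass.coe_zero, zero_div]
    exact V.zero_mem
  add_mem' := fun {a b} ha hb V hV => by
    change ((a + b : A) : F) / t ∈ V
    rw [AddMemClass.coe_add, add_div]
    exact V.add_mem _ _ (ha V hV) (hb V hV)
  smul_mem' := fun c a ha V hV => by
    change ((c * a : A) : F) / t ∈ V
    rw [MulMemClass.coe_mul, mul_div_assoc]
    exact V.mul_mem _ _ (hC V hV c c.2) (ha V hV)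

/-- A power of a function vanishing along `V` is divisible by `t` along `V`. -/
theorem WH_pow {V : ValuationSubring F} (hV : IsDiscreteValuationRing V) {a t : F} (ha0 : a ≠ 0)
    (ht : t ≠ 0) (ha : V.valuation a < 1) : ∃ N : ℕ, a ^ N / t ∈ V := by
  refine ⟨(ord V t).toNat, ?_⟩
  rw [← ord_nonneg_iff hV (div_ne_zero (pow_ne_zero _ ha0) ht), ord_div hV (pow_ne_zero _ ha0) ht,
    ord_pow hV ha0]
  have h1 : 1 ≤ ord V a := (ord_pos_iff hV ha0).2 ha
  have h2 : ord V t ≤ ((ord V t).toNat : ℤ) := Int.self_le_toNat _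
  nlinarith [Int.natCast_nonneg (ord V t).toNat]

/-- A prime ideal which contains the functions divisible by `t` along the divisors in `C` contains
the functions vanishing along one of them. -/
theorem WH_prime {A : Subring F} {C : Set (ValuationSubring F)} (hfin : C.Finite)
    (hC : ∀ V ∈ C, IsDiscreteValuationRing V ∧ ∀ a ∈ A, a ∈ V) {t : F} (ht : t ≠ 0)
    (M : Ideal A) [hM : M.IsPrime] (h : ∀ a : A, (∀ V ∈ C, (a : F) / t ∈ V) → a ∈ M) :
    ∃ V ∈ C, ∀ a : A, V.valuation (a : F) < 1 → a ∈ M := by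
  classical
  by_contra hcon
  push Not at hcon
  have h1 : ∀ V : ValuationSubring F, ∃ b : A, V ∈ C → (b : F) / t ∈ V ∧ b ∉ M := by
    intro V
    by_cases hVC : V ∈ C
    · obtain ⟨a, haP, haM⟩ := hcon V hVC
      have ha0 : (a : F) ≠ 0 := fun h3 => haM (by
        have h4 : a = 0 := Subtype.ext h3
        rw [h4]
        exact M.zero_mem)
      obtain ⟨N, hN⟩ := WH_pow (hC V hVC).1 ha0 ht haP
      refine ⟨a ^ N, fun _ => ⟨?_, fun h4 => haM (hM.mem_of_pow_mem N h4)⟩⟩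
      rw [SubmonoidClass.coe_pow]
      exact hN
    · exact ⟨0, fun h2 => absurd h2 hVC⟩
  choose b hb using h1
  have h2 : (∏ V ∈ hfin.toFinset, b V) ∈ M := by
    refine h _ fun V hV => ?_
    rw [← Finset.mul_prod_erase _ _ (hfin.mem_toFinset.2 hV), MulMemClass.coe_mul, mul_comm,
      mul_div_assoc]
    exact V.mul_mem _ _ ((hC V hV).2 _ (Subtype.property _)) (hb V hV).1
  obtain ⟨V, hV, hVM⟩ := (Ideal.IsPrime.prod_mem_iff (hp := hM)).1 h2
  exact (hb V (hfin.mem_toFinset.1 hV)).2 hVM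

/-- The local ring at a prime ideal containing the functions which vanish along `V` is contained
in `V`. -/
theorem WH_le {A : Subring F} {V : ValuationSubring F} (hAV : ∀ a ∈ A, a ∈ V) (M : Ideal A)
    [hM : M.IsPrime] (h : ∀ a : A, V.valuation (a : F) < 1 → a ∈ M) :
    (LocalSubring.ofPrime A M).toSubring ≤ V.toSubring := by
  intro y hy
  obtain ⟨a, s, hs, rfl⟩ := XP_mem A M hy
  have h1 : V.valuation (s : F) = 1 := by
    rcases lt_or_eq_of_le ((ValuationSubring.valuation_le_one_iff V _).2 (hAV s s.2)) with h2 | h2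
    · exact absurd (h s h2) hs
    · exact h2
  have h2 : (a : F) / (s : F) ∈ V := by
    rw [← ValuationSubring.valuation_le_one_iff, map_div₀, h1, div_one]
    exact (ValuationSubring.valuation_le_one_iff V _).2 (hAV a a.2)
  exact h2

/-- The chart of `w` is contained in the divisors along which `w` does not vanish. -/
theorem WH_sub {w : F} {V : ValuationSubring F} (hV : Over k V) (hg : Gn x w V.toSubring)
    {a : F} (ha : a ∈ chw k x w) : a ∈ V := by
  unfold chw at ha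
  induction ha using Algebra.adjoin_induction with
  | mem a ha =>
    obtain ⟨l, rfl⟩ := ha
    exact hg l
  | algebraMap c => exact hV c
  | add a b _ _ iha ihb => exact V.add_mem _ _ iha ihb
  | mul a b _ _ iha ihb => exact V.mul_mem _ _ iha ihb

/-- WH. MODEL: `ntBV/VI` (`VI_J`, `VI_pow`, `VI_prime`, `exists_e`). PROOF: in `A = chw k x w` let
`J₁` be the ideal of the `a` with `a / t ∈ V` for all `V ∈ C₁` with `Gn x w V` (so `A ⊆ V`), `J₂` the
same for `C₂`. If `J₁ + J₂ ≤ M`, `M` maximal, then `M` contains the prime of some `V ∈ C₁` and of some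
`V' ∈ C₂` (otherwise `a ∉ M` with `V.valuation a < 1` for all `V`, and a power of `a` is in `J₁`), the
local ring `O` of `A` at `M` is in `V` and in `V'`, and `O ∈ Pts k x 0` (`pt_form`): contradiction to
`hd`. So `e + e' = 1`. -/
theorem exists_eX (hne : ∀ i, x i ≠ 0) {w : F} (hw : w ∈ Submodule.span k (Set.range x))
    (hw0 : w ≠ 0) {t : F} (ht : t ≠ 0) {C₁ C₂ : Set (ValuationSubring F)} (h1 : C₁.Finite)
    (h2 : C₂.Finite) (h1c : ∀ V ∈ C₁, IsDiscreteValuationRing V ∧ Over k V)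
    (h2c : ∀ V ∈ C₂, IsDiscreteValuationRing V ∧ Over k V)
    (hd : ∀ V ∈ C₁, ∀ V' ∈ C₂, ∀ O ∈ Pts k x 0, O.toSubring ≤ V.toSubring →
      ¬ O.toSubring ≤ V'.toSubring) :
    ∃ e ∈ chw k x w, (∀ V ∈ C₁, Gn x w V.toSubring → (e - 1) / t ∈ V) ∧
      ∀ V ∈ C₂, Gn x w V.toSubring → e / t ∈ V := by
  let A : Subring F := (chw k x w).toSubring
  let D₁ : Set (ValuationSubring F) := {V | V ∈ C₁ ∧ Gn x w V.toSubring}
  let D₂ : Set (ValuationSubring F) := {V | V ∈ C₂ ∧ Gn x w V.toSubring}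
  have hD1 : ∀ V ∈ D₁, IsDiscreteValuationRing V ∧ ∀ a ∈ A, a ∈ V :=
    fun V hV => ⟨(h1c V hV.1).1, fun _ ha => WH_sub (h1c V hV.1).2 hV.2 ha⟩
  have hD2 : ∀ V ∈ D₂, IsDiscreteValuationRing V ∧ ∀ a ∈ A, a ∈ V :=
    fun V hV => ⟨(h2c V hV.1).1, fun _ ha => WH_sub (h2c V hV.1).2 hV.2 ha⟩
  let J₁ : Ideal A := WH_J A D₁ (fun V hV => (hD1 V hV).2) t
  let J₂ : Ideal A := WH_J A D₂ (fun V hV => (hD2 V hV).2) t
  have htop : J₁ ⊔ J₂ = ⊤ := by
    by_contra hne'
    obtain ⟨M, hM, hle⟩ := Ideal.exists_le_maximal _ hne'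
    have hMp := hM.isPrime
    obtain ⟨V, hV, hVM⟩ := WH_prime (h1.subset fun V hV => hV.1) hD1 ht M
      fun a ha => hle (Ideal.mem_sup_left (show a ∈ J₁ from ha))
    obtain ⟨V', hV', hVM'⟩ := WH_prime (h2.subset fun V hV => hV.1) hD2 ht M
      fun a ha => hle (Ideal.mem_sup_right (show a ∈ J₂ from ha))
    exact hd V hV.1 V' hV'.1 _ (pt_form hne hw hw0 M hM) (WH_le (hD1 V hV).2 M hVM)
      (WH_le (hD2 V' hV').2 M hVM')
  obtain ⟨a, ha, b, hb, hab⟩ := Submodule.mem_sup.1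
    (show (1 : A) ∈ J₁ ⊔ J₂ by rw [htop]; exact Submodule.mem_top)
  have hab' : (a : F) + (b : F) = 1 := congrArg Subtype.val hab
  refine ⟨b, b.2, fun V hV hg => ?_, fun V hV hg => hb V ⟨hV, hg⟩⟩
  have h3 : ((b : F) - 1) / t = -((a : F) / t) := by
    rw [← hab']
    ring
  rw [h3]
  exact V.neg_mem _ (ha V ⟨hV, hg⟩)

end Pool.Agent.Lib.MP_b197b4_ntBW
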