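import Mathlib

/-!
# MP_b197b4_nt, project BW: normal domains are intersections of discrete valuation rings
-/

set_option autoImplicit false

namespace Pool.Agent.Lib.MP_b197b4_ntBW

/-- The local ring of `A` at `P` in the field `F`, as a set. -/
def WI_loc {A F : Type} [CommRing A] [Field F] [Algebra A F] (P : Ideal A) : Set F :=
  {y | ∃ a s : A, s ∉ P ∧ y = algebraMap A F a / algebraMap A F s}

theorem WI_ne {A F : Type} [CommRing A] [IsDomain A] [Field F] [Algebra A F] [IsFractionRing A F]
    {P : Ideal A} {s : A} (hs : s ∉ P) : algebraMap A F s ≠ 0 := by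
  intro h
  rw [← map_zero (algebraMap A F)] at h
  exact hs (IsFractionRing.injective A F h ▸ P.zero_mem)

theorem WI_add {A F : Type} [CommRing A] [IsDomain A] [Field F] [Algebra A F] [IsFractionRing A F]
    {P : Ideal A} [P.IsPrime] {y z : F} (hy : y ∈ WI_loc P) (hz : z ∈ WI_loc P) :
    y + z ∈ WI_loc P := by
  obtain ⟨a, s, hs, rfl⟩ := hy
  obtain ⟨b, t, ht, rfl⟩ := hz
  refine ⟨a * t + s * b, s * t, fun h => (Ideal.IsPrime.mem_or_mem ‹_› h).elim hs ht, ?_⟩
  have h1 : algebraMap A F s ≠ 0 := WI_ne hs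
  have h2 : algebraMap A F t ≠ 0 := WI_ne ht
  rw [map_add, map_mul, map_mul, map_mul, div_add_div _ _ h1 h2]

theorem WI_mul {A F : Type} [CommRing A] [IsDomain A] [Field F] [Algebra A F] [IsFractionRing A F]
    {P : Ideal A} [P.IsPrime] {y z : F} (hy : y ∈ WI_loc P) (hz : z ∈ WI_loc P) :
    y * z ∈ WI_loc P := by
  obtain ⟨a, s, hs, rfl⟩ := hy
  obtain ⟨b, t, ht, rfl⟩ := hz
  refine ⟨a * b, s * t, fun h => (Ideal.IsPrime.mem_or_mem ‹_› h).elim hs ht, ?_⟩
  rw [map_mul, map_mul, div_mul_div_comm]

theorem WI_map {A F : Type} [CommRing A] [IsDomain A] [Field F] [Algebra A F] [IsFractionRing A F]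
    {P : Ideal A} [hP : P.IsPrime] (a : A) : algebraMap A F a ∈ WI_loc (F := F) P :=
  ⟨a, 1, fun h => hP.ne_top ((Ideal.eq_top_iff_one P).2 h), by rw [map_one, div_one]⟩

/-- The ideal of the `d` with `d z` in the local ring. -/
def WI_I {A F : Type} [CommRing A] [IsDomain A] [Field F] [Algebra A F] [IsFractionRing A F]
    (P : Ideal A) [P.IsPrime] (z : F) : Ideal A where
  carrier := {d | algebraMap A F d * z ∈ WI_loc (F := F) P}
  add_mem' := fun {a b} ha hb => by
    simp only [Set.mem_ofPred_eq, map_add, add_mul] at ha hb ⊢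
    exact WI_add ha hb
  zero_mem' := by
    simp only [Set.mem_ofPred_eq, map_zero, zero_mul]
    have := WI_map (F := F) (P := P) (0 : A)
    rwa [map_zero] at this
  smul_mem' := fun c a ha => by
    simp only [Set.mem_ofPred_eq, smul_eq_mul, map_mul, mul_assoc] at ha ⊢
    exact WI_mul (WI_map c) ha

theorem WI_mem {A F : Type} [CommRing A] [IsDomain A] [Field F] [Algebra A F] [IsFractionRing A F]
    {P : Ideal A} [P.IsPrime] {z : F} {d : A} :
    d ∈ WI_I P z ↔ algebraMap A F d * z ∈ WI_loc (F := F) P := Iff.rfl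

theorem WI_le {A F : Type} [CommRing A] [IsDomain A] [Field F] [Algebra A F] [IsFractionRing A F]
    {P : Ideal A} [P.IsPrime] {z : F} (hz : z ∉ WI_loc (F := F) P) : WI_I P z ≤ P := by
  intro d hd
  by_contra h
  refine hz ?_
  have h1 : algebraMap A F d ≠ 0 := WI_ne h
  have h2 : (algebraMap A F 1 / algebraMap A F d) ∈ WI_loc (F := F) P := ⟨1, d, h, rfl⟩
  have h3 := WI_mul h2 (WI_mem.1 hd)
  rwa [map_one, ← mul_assoc, one_div, inv_mul_cancel₀ h1, one_mul] at h3

/-- Common denominator. -/
theorem WI_den {A F : Type} [CommRing A] [IsDomain A] [Field F] [Algebra A F] [IsFractionRing A F]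
    {Q : Ideal A} [hQ : Q.IsPrime] {z : F} (J : Ideal A) (hJ : J.FG)
    (h : ∀ d ∈ J, algebraMap A F d * z ∈ WI_loc (F := F) Q) :
    ∃ s : A, s ∉ Q ∧ ∀ d ∈ J, ∃ a : A, algebraMap A F s * algebraMap A F d * z = algebraMap A F a := by
  classical
  obtain ⟨T, rfl⟩ := hJ
  have key : ∀ U : Finset A, (∀ d ∈ U, algebraMap A F d * z ∈ WI_loc (F := F) Q) →
      ∃ s : A, s ∉ Q ∧ ∀ d ∈ U, ∃ a : A,
        algebraMap A F s * algebraMap A F d * z = algebraMap A F a := by
    intro U
    induction U using Finset.induction_on with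
    | empty =>
      exact fun _ => ⟨1, fun h => hQ.ne_top ((Ideal.eq_top_iff_one Q).2 h), fun d hd => by simp at hd⟩
    | insert e U he ih =>
      intro hU
      obtain ⟨s, hs, H⟩ := ih fun d hd => hU d (Finset.mem_insert_of_mem hd)
      obtain ⟨a, t, ht, hat⟩ := hU e (Finset.mem_insert_self _ _)
      refine ⟨s * t, fun h => (hQ.mem_or_mem h).elim hs ht, fun d hd => ?_⟩
      rcases Finset.mem_insert.1 hd with rfl | hd
      · refine ⟨s * a, ?_⟩
        rw [mul_assoc, hat, map_mul, map_mul]
        have := WI_ne (F := F) ht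
        field_simp
      · obtain ⟨b, hb⟩ := H d hd
        refine ⟨t * b, ?_⟩
        rw [map_mul, map_mul, ← hb]
        ring
  obtain ⟨s, hs, H⟩ := key T fun d hd => h d (Ideal.subset_span hd)
  refine ⟨s, hs, fun d hd => ?_⟩
  induction hd using Submodule.span_induction with
  | mem d hd => exact H d hd
  | zero => exact ⟨0, by rw [map_zero, mul_zero, zero_mul]⟩
  | add d e _ _ hd he =>
    obtain ⟨a, ha⟩ := hd
    obtain ⟨b, hb⟩ := he
    exact ⟨a + b, by rw [map_add, map_add, ← ha, ← hb]; ring⟩
  | smul c d _ hd =>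
    obtain ⟨a, ha⟩ := hd
    exact ⟨c * a, by rw [smul_eq_mul, map_mul, map_mul, ← ha]; ring⟩

/-- WI1. PROOF: `y = a / b`. The annihilator of the class of `a` in `A / (b)` is contained in `P`; let
`Q` be maximal among the annihilators of the classes of the `c a` which are contained in `P`... (an
associated prime of the module `A a / (b)` localised at `P`): `Q = (b : c a)` is prime, `Q ≤ P`. `z =
c a / b`: `Q z ⊆ A`, `z` is not in `A_Q`; if `Q z ⊆ Q` in `A_Q` then `z` is integral over `A_Q`, so in
`A_Q` (integrally closed): contradiction. So `Q A_Q = (1 / z) A_Q` is principal, the height of `Q` is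
one (Krull; `Q ≠ 0`). `d * a ∈ (b)` implies `d ∈ Q`. -/
theorem exists_height_one {A F : Type} [CommRing A] [IsDomain A] [IsNoetherianRing A]
    [IsIntegrallyClosed A] [Field F] [Algebra A F] [IsFractionRing A F] (P : Ideal A) [P.IsPrime]
    (y : F) (hy : ∀ a s : A, s ∉ P → y ≠ algebraMap A F a / algebraMap A F s) :
    ∃ Q : Ideal A, Q.IsPrime ∧ Q ≤ P ∧ Q.height = 1 ∧
      ∀ a s : A, s ∉ Q → y ≠ algebraMap A F a / algebraMap A F s := by
  classical
  have hyP : y ∉ WI_loc (F := F) P := by
    rintro ⟨a, s, hs, h⟩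
    exact hy a s hs h
  -- a maximal element
  let C : Set (Ideal A) := {J | ∃ c : A, algebraMap A F c * y ∉ WI_loc (F := F) P ∧
    J = WI_I P (algebraMap A F c * y)}
  have hC : C.Nonempty := ⟨_, 1, by rwa [map_one, one_mul], rfl⟩
  obtain ⟨Q₀, ⟨c, hc, hQc⟩, hmax⟩ :=
    set_has_maximal_iff_noetherian.2 (inferInstance : IsNoetherian A A) C hC
  obtain ⟨Q, rfl⟩ : ∃ Q : Ideal A, Q = Q₀ := ⟨Q₀, rfl⟩
  set z : F := algebraMap A F c * y with hz
  have hQP : Q ≤ P := by rw [hQc]; exact WI_le hc
  have hmem : ∀ d : A, d ∈ Q ↔ algebraMap A F d * z ∈ WI_loc (F := F) P := by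
    intro d
    rw [hQc]
    exact WI_mem
  have hQ : Q.IsPrime := by
    refine ⟨fun h => ?_, fun {d e} hde => ?_⟩
    · have h1 : (1 : A) ∈ Q := h ▸ Submodule.mem_top
      rw [hmem, map_one, one_mul] at h1
      exact hc h1
    · by_cases he : e ∈ Q
      · exact Or.inr he
      · left
        have h1 : algebraMap A F (e * c) * y ∉ WI_loc (F := F) P := by
          intro h
          refine he ((hmem e).2 ?_)
          rw [hz, ← mul_assoc, ← map_mul]
          exact h
        have h2 : Q ≤ WI_I P (algebraMap A F (e * c) * y) := by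
          intro f hf
          rw [WI_mem, map_mul]
          have := WI_mul (WI_map (F := F) (P := P) e) ((hmem f).1 hf)
          have e1 : algebraMap A F e * (algebraMap A F f * z) =
              algebraMap A F f * (algebraMap A F e * algebraMap A F c * y) := by
            rw [hz]; ring
          rwa [e1] at this
        have h3 : ¬ Q < WI_I P (algebraMap A F (e * c) * y) := hmax _ ⟨e * c, h1, rfl⟩
        have h4 : Q = WI_I P (algebraMap A F (e * c) * y) := by
          by_contra h
          exact h3 (lt_of_le_of_ne h2 h)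
        rw [h4, WI_mem, map_mul]
        have e1 : algebraMap A F d * (algebraMap A F e * algebraMap A F c * y) =
            algebraMap A F (d * e) * z := by
          rw [hz, map_mul]; ring
        rw [e1]
        exact (hmem _).1 hde
  have hzQ : z ∉ WI_loc (F := F) Q := by
    rintro ⟨a, s, hs, h⟩
    refine hs ((hmem s).2 ?_)
    rw [h, mul_div_cancel₀ _ (WI_ne hs)]
    exact WI_map a
  have hPQ : ∀ u : F, u ∈ WI_loc (F := F) P → u ∈ WI_loc (F := F) Q := by
    rintro u ⟨a, s, hs, h⟩
    exact ⟨a, s, fun h' => hs (hQP h'), h⟩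
  have hyQ : y ∉ WI_loc (F := F) Q := by
    intro h
    exact hzQ (WI_mul (WI_map c) h)
  have hQ0 : Q ≠ ⊥ := by
    obtain ⟨a, b, hb, rfl⟩ := IsFractionRing.div_surjective (A := A) y
    have hb0 : b ≠ 0 := nonZeroDivisors.ne_zero hb
    intro h
    refine hb0 ?_
    have h1 : b ∈ Q := by
      rw [hmem]
      have hb1 : algebraMap A F b ≠ 0 := by
        intro h'
        rw [← map_zero (algebraMap A F)] at h'
        exact hb0 (IsFractionRing.injective A F h')
      have e1 : algebraMap A F b * z = algebraMap A F (c * a) := by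
        rw [hz, map_mul]
        field_simp
      rw [e1]
      exact WI_map _
    rw [h] at h1
    exact h1
  refine ⟨Q, hQ, hQP, ?_, fun a s hs h => hyQ ⟨a, s, hs, h⟩⟩
  -- there is `d` in `Q` with `d z` a unit
  have hunit : ∃ d ∈ Q, ∃ u s : A, u ∉ Q ∧ s ∉ Q ∧
      algebraMap A F s * algebraMap A F d * z = algebraMap A F u := by
    by_contra hno
    push Not at hno
    obtain ⟨s, hs, H⟩ := WI_den Q (IsNoetherian.noetherian Q)
      fun d hd => hPQ _ ((hmem d).1 hd)
    refine hzQ ?_
    have hint : IsIntegral A (algebraMap A F s * z) := by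
      refine isIntegral_of_smul_mem_submodule (M := F)
        (Submodule.map (Algebra.linearMap A F) Q) ?_
        ((IsNoetherian.noetherian Q).map _) _ ?_
      · intro h
        obtain ⟨d, hd, hd0⟩ := Submodule.exists_mem_ne_zero_of_ne_bot hQ0
        have h1 : algebraMap A F d ∈ Submodule.map (Algebra.linearMap A F) Q := ⟨d, hd, rfl⟩
        rw [h, Submodule.mem_bot, ← map_zero (algebraMap A F)] at h1
        exact hd0 (IsFractionRing.injective A F h1)
      · rintro _ ⟨d, hd, rfl⟩
        obtain ⟨a, ha⟩ := H d hd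
        have ha' : a ∈ Q := by
          by_contra h
          exact hno d hd a s h hs ha
        refine ⟨a, ha', ?_⟩
        rw [Algebra.linearMap_apply, Algebra.linearMap_apply, ← ha, smul_eq_mul]
        ring
    obtain ⟨a, ha⟩ := IsIntegrallyClosed.isIntegral_iff.1 hint
    exact ⟨a, s, hs, by rw [ha, mul_div_cancel_left₀ _ (WI_ne hs)]⟩
  obtain ⟨d, hd, u, s, hu, hs, hdz⟩ := hunit
  have hmin : Q ∈ (Ideal.span {d}).minimalPrimes := by
    refine ⟨⟨hQ, (Ideal.span_singleton_le_iff_mem _).2 hd⟩, ?_⟩
    rintro Q' ⟨hQ', hd'⟩ hle e he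
    obtain ⟨a, t, ht, hat⟩ := hPQ _ ((hmem e).1 he)
    -- e u t = a s d
    have h1 : e * (u * t) = a * s * d := by
      refine IsFractionRing.injective A F ?_
      have ht0 := WI_ne (F := F) ht
      rw [map_mul, map_mul, map_mul, map_mul, ← hdz]
      have e2 : algebraMap A F a = algebraMap A F e * z * algebraMap A F t := by
        rw [hat]; field_simp
      rw [e2]
      ring
    have h2 : e * (u * t) ∈ Q' := by
      rw [h1]
      exact Q'.mul_mem_left _ ((Ideal.span_singleton_le_iff_mem _).1 hd')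
    rcases hQ'.mem_or_mem h2 with h | h
    · exact h
    · exact absurd (hle h) fun h' => (hQ.mem_or_mem h').elim hu ht
  refine le_antisymm (Ideal.height_le_one_of_isPrincipal_of_mem_minimalPrimes _ _ hmin) ?_
  rw [Order.one_le_iff_ne_zero]
  intro h
  rw [Ideal.height_eq_zero_iff, IsDomain.minimalPrimes_eq_singleton_bot] at h
  exact hQ0 h

/-- WI2. PROOF: the local ring is noetherian, integrally closed, of dimension one. -/
theorem dvr_height_one {F : Type} [Field F] (A : Subring F) [IsNoetherianRing A]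
    (hA : IsIntegrallyClosed A) (hf : IsFractionRing A F) (Q : Ideal A) [Q.IsPrime]
    (hQ : Q.height = 1) : ∃ V : ValuationSubring F, IsDiscreteValuationRing V ∧
      V.toSubring = (LocalSubring.ofPrime A Q).toSubring := by
  classical
  have hLoc : IsLocalization.AtPrime (LocalSubring.ofPrime A Q).toSubring Q := inferInstance
  set R := (LocalSubring.ofPrime A Q).toSubring with hR
  have hN : IsNoetherianRing R := by
    exact IsLocalization.isNoetherianRing Q.primeCompl _ inferInstance
  have hI : IsIntegrallyClosed R := by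
    exact isIntegrallyClosed_of_isLocalization (R := A) _ Q.primeCompl
      (Ideal.primeCompl_le_nonZeroDivisors Q)
  have hL : IsLocalRing R := IsLocalization.AtPrime.isLocalRing R Q
  have hdim : ringKrullDim R = 1 := by
    rw [IsLocalization.AtPrime.ringKrullDim_eq_height Q R, hQ]
    rfl
  have hnf : ¬ IsField R := by
    intro h
    have := ringKrullDim_eq_zero_of_isField h
    rw [hdim] at this
    exact one_ne_zero this
  have hprime : ∀ P : Ideal R, P ≠ ⊥ → P.IsPrime → P = IsLocalRing.maximalIdeal R := by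
    intro P hP hP'
    have : Ring.KrullDimLE 1 R := by
      rw [Ring.krullDimLE_iff, hdim]
      rfl
    have := (Ring.krullDimLE_one_iff_of_isPrime_bot (R := R)).1 inferInstance P hP hP'
    exact IsLocalRing.eq_maximalIdeal this
  have hDV : IsDiscreteValuationRing R := by
    have H := (IsDiscreteValuationRing.TFAE R hnf).out 0 3
    refine H.2 ⟨hI, IsLocalRing.maximalIdeal R, ⟨?_, inferInstance⟩, fun P hP => hprime P hP.1 hP.2⟩
    exact IsLocalRing.isField_iff_maximalIdeal_eq.not.1 hnf
  have hfr : IsFractionRing R F :=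
    IsFractionRing.isFractionRing_of_isDomain_of_isLocalization Q.primeCompl _ F
  have hV : ValuationRing R := inferInstance
  refine ⟨⟨R, fun x => ?_⟩, hDV, rfl⟩
  rcases ValuationRing.isInteger_or_isInteger R x with h | h
  · left
    obtain ⟨a, ha⟩ := h
    rw [← ha]
    exact a.2
  · right
    obtain ⟨a, ha⟩ := h
    rw [← ha]
    exact a.2

end Pool.Agent.Lib.MP_b197b4_ntBW
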