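import Mathlib
import Pool.Agent.Lib.MP_b197b4_ntBW.Defs
import Pool.Agent.Lib.MP_b197b4_ntA.XG2

/-!
# MP_b197b4_nt, project BW: points, components of the fibres and places of `K₀`
-/

set_option autoImplicit false

namespace Pool.Agent.Lib.MP_b197b4_ntBW

open IsLocalRing Pool.Agent.Lib.MP_b197b4_ntK Pool.Agent.Lib.MP_b197b4_ntA
  Pool.Agent.Lib.MP_b197b4_ntBV

variable {k F : Type} [Field k] [Field F] [Algebra k F] {n D : ℕ} {x : Fin (n + 1) → F}
  {K₀ : IntermediateField k F} {v : ValuationSubring K₀}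

/-- The constants are regular at every point. -/
theorem WK2_const {e : ℕ} {P : LocalSubring F} (hP : P ∈ Pts k x e) (c : k) :
    algebraMap k F c ∈ P.toSubring := by
  obtain ⟨i, Q, hQ, _, rfl⟩ := hP
  exact LocalSubring.le_ofPrime _ Q ((cht k x i).algebraMap_mem c)

/-- Every function regular at a closed point is a constant plus a function which vanishes there. -/
theorem WK2_residue [IsAlgClosed k] (hne : ∀ i, x i ≠ 0) {O : LocalSubring F}
    (hO : O ∈ Pts k x 0) {y : F} (hy : y ∈ O.toSubring) :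
    ∃ c : k, ∀ h : y - algebraMap k F c ∈ O.toSubring,
      ¬ IsUnit (⟨y - algebraMap k F c, h⟩ : O.toSubring) := by
  have hc := fun c : k => WK2_const hO c
  let A0 : Algebra k (Kap O) := XP_alg hc
  have hO' := hO
  obtain ⟨i, Q, hQ, hd, hOe⟩ := hO'
  have hi : (cht k x i).toSubring ≤ O.toSubring := by
    rw [hOe]
    exact LocalSubring.le_ofPrime _ Q
  obtain ⟨ψ, hψ⟩ := xg_exists (k := k) (x := x) (P := O) (fun c h => rfl) hi
  have hfun := hψ.fun1 hne hO
  have h0 : Algebra.trdeg k (Kap O) = 0 := by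
    rw [hfun.2]
    exact Nat.cast_zero
  have halg : Algebra.IsAlgebraic k (Kap O) := trdeg_eq_zero_iff.1 h0
  have hint : Algebra.IsIntegral k (Kap O) := Algebra.isAlgebraic_iff_isIntegral.1 halg
  obtain ⟨c, hcy⟩ := (IsAlgClosed.algebraMap_bijective_of_isIntegral (k := k) (K := Kap O)).2
    (residue O.toSubring ⟨y, hy⟩)
  refine ⟨c, fun h hu => ?_⟩
  have h1 := (residue_ne_zero_iff_isUnit _).2 hu
  apply h1
  have h2 : (⟨y - algebraMap k F c, h⟩ : O.toSubring) =
      ⟨y, hy⟩ - ⟨algebraMap k F c, hc c⟩ := rfl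
  rw [h2, map_sub, sub_eq_zero]
  exact hcy.symm

/-- WK2. Every closed point lies over a place of `K₀`. MODEL: `ntBV/V0`, `point_place` (`V0_inter`,
`C1_dvr`, `C1_sep`). -/
theorem point_placeX [IsAlgClosed k] (hF : FibX k D x K₀) {O : LocalSubring F}
    (hO : O ∈ Pts k x 0) : ∃ v : ValuationSubring K₀, Place k v ∧ OverPl K₀ v O.toSubring := by
  obtain ⟨v, hvk, hvO⟩ := V0_inter (hF.mor O hO) (fun c => WK2_const hO c)
  refine ⟨v, ⟨C1_dvr hF.base v hvk ?_, hvk⟩, hvO⟩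
  rintro rfl
  obtain ⟨t, ht, -, -⟩ := C1_sep hF.base
  have htO : (t : F) ∈ O.toSubring := (hvO t).1 trivial
  obtain ⟨c, hc⟩ := WK2_residue hF.var.ne hO htO
  have hne : t - algebraMap k K₀ c ≠ 0 := by
    intro h0
    apply ht
    rw [sub_eq_zero] at h0
    rw [h0]
    exact isAlgebraic_algebraMap c
  have h1 : (((t - algebraMap k K₀ c)⁻¹ : K₀) : F) ∈ O.toSubring := (hvO _).1 trivial
  refine hc (sub_mem htO (WK2_const hO c)) (IsUnit.of_mul_eq_one ⟨_, h1⟩ (Subtype.ext ?_))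
  change ((t - algebraMap k K₀ c : K₀) : F) * (((t - algebraMap k K₀ c)⁻¹ : K₀) : F) = 1
  rw [← MulMemClass.coe_mul, mul_inv_cancel₀ hne]
  rfl

/-- Every point contains a closed point. PROOF: `Ideal.exists_le_maximal`, `xg_pt_of_max`. -/
theorem exists_closed {e : ℕ} {P : LocalSubring F} (hP : P ∈ Pts k x e) :
    ∃ O ∈ Pts k x 0, O.toSubring ≤ P.toSubring := by
  obtain ⟨i, Q, hQ, _, rfl⟩ := hP
  obtain ⟨M, hM, hle⟩ := Ideal.exists_le_maximal Q hQ.ne_top
  refine ⟨@LocalSubring.ofPrime F _ (cht k x i).toSubring M hM.isPrime,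
    xg_pt_of_max (k := k) (x := x) (i := i) (m := M) hM, ?_⟩
  intro y hy
  obtain ⟨a, s, hs, rfl⟩ := (@xcen_mem F _ (cht k x i).toSubring M hM.isPrime y).1 hy
  exact (xcen_mem (cht k x i).toSubring Q _).2 ⟨a, s, fun h => hs (hle h), rfl⟩

/-- WK3. Every vertical point lies over a place of `K₀`. MODEL: `ntBV/V0`, `curve_place`; `P` contains
a closed point. -/
theorem pt_placeX [IsAlgClosed k] (hF : FibX k D x K₀) {e : ℕ} {P : LocalSubring F}
    (hP : P ∈ Pts k x e) (hn : ¬ HorX K₀ P) :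
    ∃ v : ValuationSubring K₀, Place k v ∧ OverPl K₀ v P.toSubring := by
  obtain ⟨O, hO, hOP⟩ := exists_closed hP
  obtain ⟨v, hvk, hvP⟩ := V0_inter (K₀ := K₀) (R := P.toSubring)
    (fun t ht => (hF.mor O hO t ht).imp (fun h => hOP h) (fun h => hOP h))
    (fun c => WK2_const hP c)
  refine ⟨v, ⟨C1_dvr hF.base v hvk ?_, hvk⟩, hvP⟩
  rintro rfl
  exact hn fun t ht => (hvP ⟨t, ht⟩).1 trivial

end Pool.Agent.Lib.MP_b197b4_ntBW
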