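import Mathlib
import Pool.Agent.Lib.MP_b197b4_ntBW.WA
import Pool.Agent.Lib.MP_b197b4_ntBW.WG
import Pool.Agent.Lib.MP_b197b4_ntBW.WK2

/-!
# MP_b197b4_nt, project BW: functions regular at all the components of the fibre
-/

set_option autoImplicit false
set_option linter.style.haveILetI false

namespace Pool.Agent.Lib.MP_b197b4_ntBW

open IsLocalRing Pool.Agent.Lib.MP_b197b4_ntK Pool.Agent.Lib.MP_b197b4_ntA
  Pool.Agent.Lib.MP_b197b4_ntBV

variable {k F : Type} [Field k] [Field F] [Algebra k F] {n D : ℕ} {x : Fin (n + 1) → F}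
  {K₀ : IntermediateField k F} {v : ValuationSubring K₀}

theorem WJ1_const (hk : Over k v) (c : k) : ∃ r : v, algebraMap v F r = algebraMap k F c :=
  ⟨⟨algebraMap k K₀ c, hk c⟩, rfl⟩

theorem WJ1_lin (hk : Over k v) {w : F} (hw : w ∈ Submodule.span k (Set.range x)) :
    w ∈ sq v x 1 := by
  induction hw using Submodule.span_induction with
  | mem y hy =>
    obtain ⟨j, rfl⟩ := hy
    exact sq_coord j
  | zero => exact zero_mem _
  | add y z _ _ hy hz => exact add_mem hy hz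
  | smul c y _ hy =>
    obtain ⟨r, hr⟩ := WJ1_const hk c
    rw [Algebra.smul_def, ← hr, ← Algebra.smul_def]
    exact Submodule.smul_mem _ _ hy

theorem WJ1_prod (hk : Over k v) {w w' : F} (hw : w ∈ Submodule.span k (Set.range x))
    (hw' : w' ∈ Submodule.span k (Set.range x)) (p : ℕ) : (w * w') ^ p ∈ sq v x (2 * p) := by
  have h1 := sq_pow (sq_mul (WJ1_lin hk hw) (WJ1_lin hk hw')) p
  rw [mul_comm 2 p]
  exact h1

/-- The ring `v [x i x j / (w w')]`. PROOF (closed under sums): multiply by powers of `w w'`. -/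
def bring (x : Fin (n + 1) → F) (v : ValuationSubring K₀) (w w' : F)
    (hw : w ∈ Submodule.span k (Set.range x)) (hw0 : w ≠ 0)
    (hw' : w' ∈ Submodule.span k (Set.range x)) (hw0' : w' ≠ 0) (hk : Over k v) : Subring F where
  carrier := {y | ∃ p : ℕ, ∃ a ∈ sq v x (2 * p), y = a / (w * w') ^ p}
  mul_mem' := by
    rintro _ _ ⟨p, a, ha, rfl⟩ ⟨q, b, hb, rfl⟩
    refine ⟨p + q, a * b, ?_, ?_⟩
    · rw [mul_add]
      exact sq_mul ha hb
    · rw [div_mul_div_comm, pow_add]
  one_mem' := ⟨0, 1, sq_one, by rw [pow_zero, div_one]⟩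
  add_mem' := by
    rintro _ _ ⟨p, a, ha, rfl⟩ ⟨q, b, hb, rfl⟩
    refine ⟨p + q, a * (w * w') ^ q + (w * w') ^ p * b, ?_, ?_⟩
    · rw [mul_add]
      exact add_mem (sq_mul ha (WJ1_prod hk hw hw' q)) (sq_mul (WJ1_prod hk hw hw' p) hb)
    · rw [div_add_div _ _ (pow_ne_zero _ (mul_ne_zero hw0 hw0'))
        (pow_ne_zero _ (mul_ne_zero hw0 hw0')), pow_add]
  zero_mem' := ⟨0, 0, zero_mem _, by rw [zero_div]⟩
  neg_mem' := by
    rintro _ ⟨p, a, ha, rfl⟩
    exact ⟨p, -a, neg_mem ha, by rw [neg_div]⟩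

theorem WJ1_div {R : Type} [CommRing R] [Algebra R F] {O : Subring F} {i : Fin (n + 1)}
    (hR : ∀ r : R, algebraMap R F r ∈ O) (hx : ∀ j, x j / x i ∈ O) {q : ℕ} {a : F}
    (ha : a ∈ sq R x q) : a / x i ^ q ∈ O := by
  obtain ⟨f, hf, rfl⟩ := mem_sq.1 ha
  rw [MvPolynomial.aeval_def, MvPolynomial.eval₂_eq', Finset.sum_div]
  refine sum_mem fun d hd => ?_
  have h1 : ∑ j, d j = q := by
    have h2 := hf (MvPolynomial.mem_support_iff.1 hd)
    rw [← h2, ← Finsupp.degree_eq_sum, Finsupp.degree_eq_weight_one]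
    rfl
  have h2 : (∏ j, x j ^ d j) / x i ^ q = ∏ j, (x j / x i) ^ d j := by
    simp only [div_pow]
    rw [Finset.prod_div_distrib, Finset.prod_pow_eq_pow_sum, h1]
  rw [mul_div_assoc, h2]
  exact mul_mem (hR _) (prod_mem fun j _ => pow_mem (hx j) _)

theorem WJ1_gen {w w' : F}
    (hw : w ∈ Submodule.span k (Set.range x)) (hw0 : w ≠ 0)
    (hw' : w' ∈ Submodule.span k (Set.range x)) (hw0' : w' ≠ 0) (hk : Over k v) {y z : F}
    (hy : y ∈ Submodule.span k (Set.range x)) (hz : z ∈ Submodule.span k (Set.range x)) :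
    y * z / (w * w') ∈ bring x v w w' hw hw0 hw' hw0' hk :=
  ⟨1, y * z, sq_mul (p := 1) (q := 1) (WJ1_lin hk hy) (WJ1_lin hk hz), by rw [pow_one]⟩

theorem WJ1_base {w w' : F}
    (hw : w ∈ Submodule.span k (Set.range x)) (hw0 : w ≠ 0)
    (hw' : w' ∈ Submodule.span k (Set.range x)) (hw0' : w' ≠ 0) (hk : Over k v) (r : v) :
    algebraMap v F r ∈ bring x v w w' hw hw0 hw' hw0' hk := by
  refine ⟨0, algebraMap v F r, ?_, by rw [pow_zero, div_one]⟩
  rw [Algebra.algebraMap_eq_smul_one]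
  exact Submodule.smul_mem _ _ sq_one

theorem WJ1_span (x : Fin (n + 1) → F) (i : Fin (n + 1)) : x i ∈ Submodule.span k (Set.range x) :=
  Submodule.subset_span ⟨i, rfl⟩

/-- Some square of a coordinate is a unit at `𝔫`. -/
theorem WJ1_exists {w w' : F}
    (hw : w ∈ Submodule.span k (Set.range x)) (hw0 : w ≠ 0)
    (hw' : w' ∈ Submodule.span k (Set.range x)) (hw0' : w' ≠ 0) (hk : Over k v)
    (𝔫 : Ideal (bring x v w w' hw hw0 hw' hw0' hk)) [h𝔫 : 𝔫.IsPrime] :
    ∃ i, (⟨x i * x i / (w * w'), WJ1_gen hw hw0 hw' hw0' hk (WJ1_span x i) (WJ1_span x i)⟩ :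
      bring x v w w' hw hw0 hw' hw0' hk) ∉ 𝔫 := by
  by_contra hcon
  push Not at hcon
  have h1 : ∀ i j, (⟨x i * x j / (w * w'),
      WJ1_gen hw hw0 hw' hw0' hk (WJ1_span x i) (WJ1_span x j)⟩ :
      bring x v w w' hw hw0 hw' hw0' hk) ∈ 𝔫 := by
    intro i j
    apply h𝔫.mem_of_pow_mem 2
    have h2 := 𝔫.mul_mem_left (⟨x j * x j / (w * w'),
      WJ1_gen hw hw0 hw' hw0' hk (WJ1_span x j) (WJ1_span x j)⟩) (hcon i)
    have h3 : (⟨x i * x j / (w * w'),
        WJ1_gen hw hw0 hw' hw0' hk (WJ1_span x i) (WJ1_span x j)⟩ :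
        bring x v w w' hw hw0 hw' hw0' hk) ^ 2 = ⟨x j * x j / (w * w'),
        WJ1_gen hw hw0 hw' hw0' hk (WJ1_span x j) (WJ1_span x j)⟩ * ⟨x i * x i / (w * w'),
        WJ1_gen hw hw0 hw' hw0' hk (WJ1_span x i) (WJ1_span x i)⟩ := by
      apply Subtype.ext
      change (x i * x j / (w * w')) ^ 2 = x j * x j / (w * w') * (x i * x i / (w * w'))
      ring
    rw [h3]
    exact h2
  have h2 : ∀ y (hy : y ∈ Submodule.span k (Set.range x)) (i : Fin (n + 1)),
      (⟨x i * y / (w * w'), WJ1_gen hw hw0 hw' hw0' hk (WJ1_span x i) hy⟩ :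
        bring x v w w' hw hw0 hw' hw0' hk) ∈ 𝔫 := by
    intro y hy i
    induction hy using Submodule.span_induction with
    | mem y hy =>
      obtain ⟨j, rfl⟩ := hy
      exact h1 i j
    | zero =>
      have h3 : (⟨x i * 0 / (w * w'), WJ1_gen hw hw0 hw' hw0' hk (WJ1_span x i) (zero_mem _)⟩ :
        bring x v w w' hw hw0 hw' hw0' hk) = 0 := by
        apply Subtype.ext
        change x i * 0 / (w * w') = 0
        rw [mul_zero, zero_div]
      rw [h3]
      exact zero_mem _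
    | add y z hy' hz' hy hz =>
      have h3 : (⟨x i * (y + z) / (w * w'),
          WJ1_gen hw hw0 hw' hw0' hk (WJ1_span x i) (add_mem hy' hz')⟩ :
          bring x v w w' hw hw0 hw' hw0' hk) =
          ⟨x i * y / (w * w'), WJ1_gen hw hw0 hw' hw0' hk (WJ1_span x i) hy'⟩ +
          ⟨x i * z / (w * w'), WJ1_gen hw hw0 hw' hw0' hk (WJ1_span x i) hz'⟩ := by
        apply Subtype.ext
        change x i * (y + z) / (w * w') = x i * y / (w * w') + x i * z / (w * w')
        ring
      rw [h3]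
      exact add_mem hy hz
    | smul c y hy' hy =>
      obtain ⟨r, hr⟩ := WJ1_const hk c
      have h3 : (⟨x i * (c • y) / (w * w'),
          WJ1_gen hw hw0 hw' hw0' hk (WJ1_span x i) (Submodule.smul_mem _ c hy')⟩ :
          bring x v w w' hw hw0 hw' hw0' hk) =
          ⟨algebraMap v F r, WJ1_base hw hw0 hw' hw0' hk r⟩ *
          ⟨x i * y / (w * w'), WJ1_gen hw hw0 hw' hw0' hk (WJ1_span x i) hy'⟩ := by
        apply Subtype.ext
        change x i * (c • y) / (w * w') = algebraMap v F r * (x i * y / (w * w'))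
        rw [hr, Algebra.smul_def]
        ring
      rw [h3]
      exact 𝔫.mul_mem_left _ hy
  have h3 : ∀ z (hz : z ∈ Submodule.span k (Set.range x)),
      (⟨z * w' / (w * w'), WJ1_gen hw hw0 hw' hw0' hk hz hw'⟩ :
        bring x v w w' hw hw0 hw' hw0' hk) ∈ 𝔫 := by
    intro y hy
    induction hy using Submodule.span_induction with
    | mem y hy =>
      obtain ⟨j, rfl⟩ := hy
      exact h2 w' hw' j
    | zero =>
      have h3 : (⟨0 * w' / (w * w'), WJ1_gen hw hw0 hw' hw0' hk (zero_mem _) hw'⟩ :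
        bring x v w w' hw hw0 hw' hw0' hk) = 0 := by
        apply Subtype.ext
        change 0 * w' / (w * w') = 0
        rw [zero_mul, zero_div]
      rw [h3]
      exact zero_mem _
    | add y z hy' hz' hy hz =>
      have h3 : (⟨(y + z) * w' / (w * w'),
          WJ1_gen hw hw0 hw' hw0' hk (add_mem hy' hz') hw'⟩ :
          bring x v w w' hw hw0 hw' hw0' hk) =
          ⟨y * w' / (w * w'), WJ1_gen hw hw0 hw' hw0' hk hy' hw'⟩ +
          ⟨z * w' / (w * w'), WJ1_gen hw hw0 hw' hw0' hk hz' hw'⟩ := by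
        apply Subtype.ext
        change (y + z) * w' / (w * w') = y * w' / (w * w') + z * w' / (w * w')
        ring
      rw [h3]
      exact add_mem hy hz
    | smul c y hy' hy =>
      obtain ⟨r, hr⟩ := WJ1_const hk c
      have h3 : (⟨(c • y) * w' / (w * w'),
          WJ1_gen hw hw0 hw' hw0' hk (Submodule.smul_mem _ c hy') hw'⟩ :
          bring x v w w' hw hw0 hw' hw0' hk) =
          ⟨algebraMap v F r, WJ1_base hw hw0 hw' hw0' hk r⟩ *
          ⟨y * w' / (w * w'), WJ1_gen hw hw0 hw' hw0' hk hy' hw'⟩ := by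
        apply Subtype.ext
        change (c • y) * w' / (w * w') = algebraMap v F r * (y * w' / (w * w'))
        rw [hr, Algebra.smul_def]
        ring
      rw [h3]
      exact 𝔫.mul_mem_left _ hy
  apply h𝔫.ne_top
  rw [Ideal.eq_top_iff_one]
  have h4 := h3 w hw
  have h5 : (⟨w * w' / (w * w'), WJ1_gen hw hw0 hw' hw0' hk hw hw'⟩ :
      bring x v w w' hw hw0 hw' hw0' hk) = 1 := Subtype.ext (div_self (mul_ne_zero hw0 hw0'))
  rw [← h5]
  exact h4

/-- A factor of a unit in the big ring. -/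
theorem WJ1_unit {L : LocalSubring F} {y z : F} (hy : y ∈ L.toSubring) (hz : z ∈ L.toSubring)
    (h : y * z = 1) : IsUnit (⟨y, hy⟩ : L.toSubring) :=
  IsUnit.of_mul_eq_one ⟨z, hz⟩ (Subtype.ext h)

/-- WJ1. The local rings of `bring` over `v` are local rings of the variety. PROOF: `𝔫` does not
contain `x i ^ 2 / (w w')` for some `i` (`1 = ∑ c i c' j (x i x j / (w w'))`). `P` = `𝔫` intersected with
`cht k x i`, contained in the local ring of `𝔫`. `O = (cht k x i)_P` is dominated by it. `O` contains a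
closed point `O'`; for `u ∈ v`: `u ∈ O'` or `u⁻¹ ∈ O' ⊆ O`, and then `u⁻¹` is a unit of `(..)_𝔫`, so of
`O`: `v ⊆ O`. `w / x i`, `w' / x i` are in `cht k x i` and units of `O`. So `bring ≤ O`, and both local
rings are equal. -/
theorem bring_loc (hF : FibX k D x K₀) (hv : Place k v) {w w' : F}
    (hw : w ∈ Submodule.span k (Set.range x)) (hw0 : w ≠ 0)
    (hw' : w' ∈ Submodule.span k (Set.range x)) (hw0' : w' ≠ 0)
    (𝔫 : Ideal (bring x v w w' hw hw0 hw' hw0' hv.2)) [𝔫.IsPrime] :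
    ∃ (i : Fin (n + 1)) (P : Ideal (cht k x i).toSubring) (_ : P.IsPrime),
      LocalSubring.ofPrime _ P = LocalSubring.ofPrime _ 𝔫 ∧ Gn x w (LocalSubring.ofPrime _ P).toSubring ∧
        Gn x w' (LocalSubring.ofPrime _ P).toSubring := by
  have hne := hF.var.ne
  have hk := hv.2
  obtain ⟨i, hi⟩ := WJ1_exists hw hw0 hw' hw0' hv.2 𝔫
  set L := LocalSubring.ofPrime _ 𝔫 with hL
  have hBL : bring x v w w' hw hw0 hw' hw0' hv.2 ≤ L.toSubring := LocalSubring.le_ofPrime _ 𝔫
  have hc : ∀ c : k, algebraMap k F c ∈ L.toSubring := by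
    intro c
    obtain ⟨r, hr⟩ := WJ1_const hk c
    rw [← hr]
    exact hBL (WJ1_base hw hw0 hw' hw0' hv.2 r)
  have hww : w * w' ≠ 0 := mul_ne_zero hw0 hw0'
  have hxi := hne i
  have hgen : ∀ j, x j / x i ∈ L.toSubring := by
    intro j
    rw [xcen_mem]
    refine ⟨⟨x j * x i / (w * w'), WJ1_gen hw hw0 hw' hw0' hk (WJ1_span x j) (WJ1_span x i)⟩,
      _, hi, ?_⟩
    change x j / x i = (x j * x i / (w * w')) / (x i * x i / (w * w'))
    field_simp
  have h : (cht k x i).toSubring ≤ L.toSubring := by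
    intro y hy
    induction (show y ∈ cht k x i from hy) using Algebra.adjoin_induction with
    | mem a ha =>
      obtain ⟨l, rfl⟩ := ha
      exact hgen l
    | algebraMap c => exact hc c
    | add a b ha' hb' ha hb => exact add_mem (ha ha') (hb hb')
    | mul a b ha' hb' ha hb => exact mul_mem (ha ha') (hb hb')
  set O := LocalSubring.ofPrime _ (XP_ker h) with hO
  have hOL : O.toSubring ≤ L.toSubring := by
    intro y hy
    obtain ⟨a, s, hs, rfl⟩ := (xcen_mem _ _ _).1 hy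
    rw [XP_mem_ker, not_not] at hs
    rw [div_eq_mul_inv]
    exact mul_mem (h a.2) (xcen_inv_mem _ _ hs)
  -- units of `L` in `O` are units of `O`
  have hinv : ∀ y ∈ O.toSubring, y⁻¹ ∈ L.toSubring → y⁻¹ ∈ O.toSubring := by
    intro y hy hyL
    by_cases hy0 : y = 0
    · rw [hy0, inv_zero]
      exact zero_mem _
    obtain ⟨a, s, hs, rfl⟩ := (xcen_mem _ _ _).1 hy
    have ha0 : (a : F) ≠ 0 := fun h0 => hy0 (by rw [h0, zero_div])
    have hs0 : (s : F) ≠ 0 := xcen_ne _ _ hs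
    rw [xcen_mem]
    refine ⟨s, a, ?_, inv_div _ _⟩
    rw [XP_mem_ker, not_not]
    rw [XP_mem_ker, not_not] at hs
    refine WJ1_unit (h a.2) (mul_mem hyL (xcen_inv_mem _ _ hs)) ?_
    change (a : F) * (((a : F) / (s : F))⁻¹ * (s : F)⁻¹) = 1
    field_simp
  have hvO : ∀ t ∈ v, (t : F) ∈ O.toSubring := by
    intro t ht
    obtain ⟨m, hm, hPm⟩ := Ideal.exists_le_maximal (XP_ker h) (inferInstance : (XP_ker h).IsPrime).ne_top
    haveI := hm.isPrime
    have hO' : LocalSubring.ofPrime _ m ∈ Pts k x 0 :=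
      ⟨i, m, hm.isPrime, ringKrullDim_eq_zero_of_isField
        ((Ideal.Quotient.maximal_ideal_iff_isField_quotient m).1 hm), rfl⟩
    have hO'O : (LocalSubring.ofPrime _ m).toSubring ≤ O.toSubring := by
      intro y hy
      obtain ⟨a, s, hs, rfl⟩ := (xcen_mem _ _ _).1 hy
      exact (xcen_mem _ _ _).2 ⟨a, s, fun h0 => hs (hPm h0), rfl⟩
    rcases hF.mor _ hO' t t.2 with h1 | h1
    · exact hO'O h1
    · have h2 := hinv _ (hO'O h1)
      rw [inv_inv] at h2
      exact h2 (hBL (WJ1_base hw hw0 hw' hw0' hk ⟨t, ht⟩))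
  have hwi : w / x i ∈ O.toSubring := LocalSubring.le_ofPrime _ _ (WG_mem hw i)
  have hwi' : w' / x i ∈ O.toSubring := LocalSubring.le_ofPrime _ _ (WG_mem hw' i)
  have huL : x i * x i / (w * w') ∈ L.toSubring :=
    hBL (WJ1_gen hw hw0 hw' hw0' hk (WJ1_span x i) (WJ1_span x i))
  have hw1 : x i / w ∈ O.toSubring := by
    have h1 := hinv _ hwi
    rw [inv_div] at h1
    apply h1
    have h2 : x i / w = x i * x i / (w * w') * (w' / x i) := by field_simp
    rw [h2]
    exact mul_mem huL (hOL hwi')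
  have hw1' : x i / w' ∈ O.toSubring := by
    have h1 := hinv _ hwi'
    rw [inv_div] at h1
    apply h1
    have h2 : x i / w' = x i * x i / (w * w') * (w / x i) := by field_simp
    rw [h2]
    exact mul_mem huL (hOL hwi)
  have hgO : ∀ j, x j / x i ∈ O.toSubring := fun j => LocalSubring.le_ofPrime _ _ (XP_gen i j)
  have hG : Gn x w O.toSubring := by
    intro j
    have h1 : x j / w = x j / x i * (x i / w) := by field_simp
    rw [h1]
    exact mul_mem (hgO j) hw1
  have hG' : Gn x w' O.toSubring := by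
    intro j
    have h1 : x j / w' = x j / x i * (x i / w') := by field_simp
    rw [h1]
    exact mul_mem (hgO j) hw1'
  have hBO : bring x v w w' hw hw0 hw' hw0' hv.2 ≤ O.toSubring := by
    rintro _ ⟨p, a, ha, rfl⟩
    have h1 := WJ1_div (O := O.toSubring) (i := i) (fun r : v => hvO r r.2) hgO ha
    have h2 : a / (w * w') ^ p = a / x i ^ (2 * p) * (x i / w * (x i / w')) ^ p := by
      have h3 : x i / w * (x i / w') = x i ^ 2 / (w * w') := by rw [div_mul_div_comm, pow_two]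
      rw [h3, div_pow, ← pow_mul, div_mul_div_cancel₀ (pow_ne_zero _ hxi)]
    rw [h2]
    exact mul_mem h1 (pow_mem (mul_mem hw1 hw1') p)
  refine ⟨i, XP_ker h, inferInstance, ?_, hG, hG'⟩
  apply LocalSubring.toSubring_injective
  refine le_antisymm hOL ?_
  intro y hy
  obtain ⟨a, s, hs, rfl⟩ := (xcen_mem _ _ _).1 hy
  rw [div_eq_mul_inv]
  refine mul_mem (hBO a.2) (hinv _ (hBO s.2) ?_)
  exact xcen_inv_mem _ _ ((xcen_unit _ 𝔫 s).2 hs)

end Pool.Agent.Lib.MP_b197b4_ntBW
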