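import Mathlib
import Pool.Agent.Lib.MP_b197b4_ntBW.WJ1
import Pool.Agent.Lib.MP_b197b4_ntBW.WA
import Pool.Agent.Lib.MP_b197b4_ntBW.WK

/-!
# MP_b197b4_nt, project BW: functions regular at all the components of the fibre
-/

set_option autoImplicit false

namespace Pool.Agent.Lib.MP_b197b4_ntBW

open IsLocalRing Pool.Agent.Lib.MP_b197b4_ntK Pool.Agent.Lib.MP_b197b4_ntA
  Pool.Agent.Lib.MP_b197b4_ntBV

variable {k F : Type} [Field k] [Field F] [Algebra k F] {n D : ℕ} {x : Fin (n + 1) → F}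
  {K₀ : IntermediateField k F} {v : ValuationSubring K₀}

/-- The elements of `v` are in the ring. -/
theorem WJ2_const (hk : Over k v) {w w' : F} (hw : w ∈ Submodule.span k (Set.range x))
    (hw0 : w ≠ 0) (hw' : w' ∈ Submodule.span k (Set.range x)) (hw0' : w' ≠ 0) {u : K₀}
    (hu : u ∈ v) : (u : F) ∈ bring x v w w' hw hw0 hw' hw0' hk := by
  refine ⟨0, (u : F), ?_, by rw [pow_zero, div_one]⟩
  rw [mul_zero, mem_sq]
  exact ⟨MvPolynomial.C (⟨u, hu⟩ : v), MvPolynomial.isHomogeneous_C _ _, by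
    rw [MvPolynomial.aeval_C]
    rfl⟩

/-- A subring of `F` which contains `v`, in which `t` is not invertible, lies over `v`. -/
theorem WJ2_over (hv : Place k v) {t : K₀} (ht : t ≠ 0) (htv : t ∈ v) (hti : t⁻¹ ∉ v)
    {R : Subring F} (hR : Near K₀ v R) (h : (t : F)⁻¹ ∉ R) : OverPl K₀ v R := by
  intro u
  refine ⟨hR u, fun hu => ?_⟩
  by_contra huv
  have hd : IsDiscreteValuationRing v := hv.1
  have hu0 : u ≠ 0 := by
    rintro rfl
    exact huv (zero_mem v)
  have hui : u⁻¹ ∈ v := (v.mem_or_inv_mem u).resolve_left huv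
  have ho : 0 < ord v u⁻¹ := by
    have h1 : 0 ≤ ord v u⁻¹ := (ord_nonneg_iff hd (inv_ne_zero hu0)).2 hui
    have h2 : ¬ 0 ≤ ord v u := fun h3 => huv ((ord_nonneg_iff hd hu0).1 h3)
    rw [ord_inv hd hu0] at h1 ⊢
    omega
  have ht0 : 0 ≤ ord v t := (ord_nonneg_iff hd ht).2 htv
  obtain ⟨N, hN⟩ : ∃ N : ℕ, ord v t = N := ⟨(ord v t).toNat, by omega⟩
  have hne : (u⁻¹) ^ N / t ≠ 0 := div_ne_zero (pow_ne_zero _ (inv_ne_zero hu0)) ht
  have h3 : (u⁻¹) ^ N / t ∈ v := by
    rw [← ord_nonneg_iff hd hne, div_eq_mul_inv, ord_mul hd (pow_ne_zero _ (inv_ne_zero hu0))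
      (inv_ne_zero ht), ord_inv hd ht, ord_pow hd (inv_ne_zero hu0), hN]
    have h4 : (N : ℤ) * 1 ≤ N * ord v u⁻¹ := mul_le_mul_of_nonneg_left (by omega) (by omega)
    omega
  apply h
  have h4 := R.mul_mem (hR _ h3) (R.pow_mem hu N)
  have hu0' : (u : F) ≠ 0 := fun h0 => hu0 (Subtype.ext h0)
  have h5 : (((u⁻¹) ^ N / t : K₀) : F) * (u : F) ^ N = (t : F)⁻¹ := by
    push_cast
    rw [inv_pow]
    field_simp
  rwa [h5] at h4

/-- WJ2. PROOF: if `y = f / t ^ m` is not in `B = bring`, the ideal of the `d ∈ B` with `d y ∈ B` is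
proper and contains `t ^ m`; `𝔫` maximal over it, `t ∈ 𝔫`. By `bring_loc` `B_𝔫 = (cht k x i)_P`, `y` is
not in it. `exists_height_one`: `Q ≤ P` of height one with `y ∉ V = (cht k x i)_Q`, `prime_one`. `f ∈
V`, so `t` is not a unit of `V`; `V` contains `v`: `V ∈ Cmp k D x v`. -/
theorem norm_BX (hD : 2 ≤ D) (hF : FibX k D x K₀) (hv : Place k v) {t : K₀} (ht : t ≠ 0)
    (htv : t ∈ v) (hti : t⁻¹ ∉ v) (m : ℕ) {w w' : F}
    (hw : w ∈ Submodule.span k (Set.range x)) (hw0 : w ≠ 0)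
    (hw' : w' ∈ Submodule.span k (Set.range x)) (hw0' : w' ≠ 0) {f : F}
    (hf : ∃ p : ℕ, ∃ a ∈ sq v x (2 * p), f = a / (w * w') ^ p)
    (h : ∀ V ∈ Cmp k D x v, Gn x w V.toSubring → Gn x w' V.toSubring → f / (t : F) ^ m ∈ V) :
    ∃ p : ℕ, ∃ a ∈ sq v x (2 * p), f / (t : F) ^ m = a / (w * w') ^ p := by
  set B := bring x v w w' hw hw0 hw' hw0' hv.2 with hBdef
  have hfB : f ∈ B := hf
  by_contra hcon
  have hy : f / (t : F) ^ m ∉ B := hcon
  have htF : (t : F) ≠ 0 := fun h0 => ht (Subtype.ext h0)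
  -- the ideal of denominators
  let I : Ideal B :=
    { carrier := {d | (d : F) * (f / (t : F) ^ m) ∈ B}
      add_mem' := by
        intro a b ha hb
        change ((a + b : B) : F) * _ ∈ B
        have h1 : ((a + b : B) : F) * (f / (t : F) ^ m) = (a : F) * (f / (t : F) ^ m) +
          (b : F) * (f / (t : F) ^ m) := by
          push_cast
          ring
        rw [h1]
        exact B.add_mem ha hb
      zero_mem' := by
        change ((0 : B) : F) * _ ∈ B
        have h1 : ((0 : B) : F) * (f / (t : F) ^ m) = 0 := by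
          push_cast
          ring
        rw [h1]
        exact B.zero_mem
      smul_mem' := by
        intro c a ha
        change ((c * a : B) : F) * _ ∈ B
        have h1 : ((c * a : B) : F) * (f / (t : F) ^ m) = (c : F) * ((a : F) * (f / (t : F) ^ m)) := by
          push_cast
          ring
        rw [h1]
        exact B.mul_mem c.2 ha }
  have hI : ∀ d : B, d ∈ I ↔ (d : F) * (f / (t : F) ^ m) ∈ B := fun d => Iff.rfl
  have hI1 : I ≠ ⊤ := by
    intro h1
    have h2 : (1 : B) ∈ I := by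
      rw [h1]
      exact Submodule.mem_top
    rw [hI] at h2
    apply hy
    have h3 : ((1 : B) : F) * (f / (t : F) ^ m) = f / (t : F) ^ m := by
      push_cast
      ring
    rwa [h3] at h2
  obtain ⟨𝔫, h𝔫, hle⟩ := Ideal.exists_le_maximal I hI1
  haveI := h𝔫.isPrime
  obtain ⟨i, P, hP, heq, hg, hg'⟩ := bring_loc hF hv hw hw0 hw' hw0' 𝔫
  -- `y` is not in the local ring
  have hyO : f / (t : F) ^ m ∉ (LocalSubring.ofPrime _ P).toSubring := by
    rw [heq]
    intro h1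
    rw [xcen_mem] at h1
    obtain ⟨a, s, hs, h2⟩ := h1
    apply hs
    apply hle
    rw [hI, h2]
    have hs0 : (s : F) ≠ 0 := xcen_ne _ 𝔫 hs
    rw [mul_div_cancel₀ _ hs0]
    exact a.2
  haveI := hF.var.regular i
  haveI := hF.var.frac i
  haveI hic : IsIntegrallyClosed (cht k x i).toSubring :=
    (Pool.Agent.Lib.MP_b197b4_ntKE.isIntegrallyClosed_of_reg : IsIntegrallyClosed (cht k x i))
  haveI hno : IsNoetherianRing (cht k x i).toSubring := XP_noeth i
  haveI hfr : IsFractionRing (cht k x i).toSubring F := hF.var.frac i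
  obtain ⟨Q, hQ, hQP, hQ1, hQy⟩ := exists_height_one (F := F) P (f / (t : F) ^ m) (by
    intro a s hs h1
    apply hyO
    rw [xcen_mem]
    exact ⟨a, s, hs, h1⟩)
  obtain ⟨hQpts, V, hVd, hVQ⟩ := prime_one hF.var i Q hQ1
  have hPV : (LocalSubring.ofPrime _ P).toSubring ≤ V.toSubring := by
    rw [hVQ]
    intro z hz
    rw [xcen_mem] at hz ⊢
    obtain ⟨a, s, hs, h1⟩ := hz
    exact ⟨a, s, fun h2 => hs (hQP h2), h1⟩
  have hBV : B ≤ V.toSubring := by
    intro z hz
    apply hPV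
    rw [heq]
    exact LocalSubring.le_ofPrime B 𝔫 hz
  have hyV : f / (t : F) ^ m ∉ V.toSubring := by
    rw [hVQ, xcen_mem]
    rintro ⟨a, s, hs, h1⟩
    exact hQy a s hs h1
  have htV : (t : F)⁻¹ ∉ V.toSubring := by
    intro h1
    apply hyV
    rw [div_eq_mul_inv, ← inv_pow]
    exact V.toSubring.mul_mem (hBV hfB) (V.toSubring.pow_mem h1 m)
  have hOv : OverPl K₀ v V.toSubring :=
    WJ2_over hv ht htv hti (fun u hu => hBV (WJ2_const hv.2 hw hw0 hw' hw0' hu)) htV
  exact hyV (h V ⟨hVd, hOv, _, hQpts, hVQ.symm⟩ (fun j => hPV (hg j)) (fun j => hPV (hg' j)))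

end Pool.Agent.Lib.MP_b197b4_ntBW
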