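import Mathlib
import Pool.Agent.Lib.MP_b197b4_ntBW.Defs
import Pool.Agent.Lib.MP_b197b4_ntBW.WI
import Pool.Agent.Lib.MP_b197b4_ntA.XG2
import Pool.Agent.Lib.MP_b197b4_ntKE.Reg

/-!
# MP_b197b4_nt, project BW: points, components of the fibres and places of `K₀`
-/

set_option autoImplicit false
set_option linter.style.haveILetI false

namespace Pool.Agent.Lib.MP_b197b4_ntBW

open IsLocalRing Pool.Agent.Lib.MP_b197b4_ntK Pool.Agent.Lib.MP_b197b4_ntA
  Pool.Agent.Lib.MP_b197b4_ntBV Pool.Agent.Lib.MP_b197b4_ntD Pool.Agent.Lib.MP_b197b4_ntKE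

variable {k F : Type} [Field k] [Field F] [Algebra k F] {n D : ℕ} {x : Fin (n + 1) → F}
  {K₀ : IntermediateField k F} {v : ValuationSubring K₀}

/-- The height and the dimension of a prime of a chart. -/
theorem WK1_dim (hx : Var k D x) (i : Fin (n + 1)) (Q : Ideal (cht k x i).toSubring)
    [hQ : Q.IsPrime] : ∃ h t : ℕ, Q.height = h ∧ ringKrullDim ((cht k x i).toSubring ⧸ Q) = t ∧
      h + t = D := by
  haveI : Algebra.FiniteType k (cht k x i) := (Subalgebra.fg_iff_finiteType _).1 (XP_fg i)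
  obtain ⟨s, hs⟩ := exists_hasDim k (cht k x i)
  haveI : IsNoetherianRing (cht k x i) := Algebra.FiniteType.isNoetherianRing k (cht k x i)
  obtain ⟨m, hm⟩ := Ideal.exists_maximal (cht k x i)
  have h1 := hs.height m hm
  rw [hx.height i m hm] at h1
  have h2 : D = s := by exact_mod_cast h1
  obtain ⟨h, t, h3, h4, h5⟩ := hs.quotient (show Ideal (cht k x i) from Q)
  refine ⟨h, t, h3, ?_, by rw [h5, h2]⟩
  exact h4.ringKrullDim

/-- WK1. The prime divisors. PROOF: `isIntegrallyClosed_of_reg` (ntKE/Reg), `dvr_height_one`;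
`HasDim.quotient` (ntD/Dim) for the dimension `D - 1`. -/
theorem prime_one (hx : Var k D x) (i : Fin (n + 1)) (Q : Ideal (cht k x i).toSubring)
    [Q.IsPrime] (hQ : Q.height = 1) : LocalSubring.ofPrime _ Q ∈ Pts k x (D - 1) ∧
      ∃ V : ValuationSubring F, IsDiscreteValuationRing V ∧
        V.toSubring = (LocalSubring.ofPrime _ Q).toSubring := by
  constructor
  · obtain ⟨h, t, h1, h2, h3⟩ := WK1_dim hx i Q
    rw [hQ] at h1
    have h4 : 1 = h := by exact_mod_cast h1
    refine ⟨i, Q, inferInstance, ?_, rfl⟩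
    rw [h2]
    congr 1
    have h5 : t = D - 1 := by omega
    rw [h5]
  · haveI := XP_noeth (k := k) (x := x) i
    haveI : IsRegularRing (cht k x i) := hx.regular i
    exact dvr_height_one (cht k x i).toSubring
      (isIntegrallyClosed_of_reg (A := cht k x i)) (hx.frac i) Q hQ

/-- Elements of the function field are fractions in each chart. -/
theorem WK1_frac (hx : Var k D x) (i : Fin (n + 1)) (y : F) :
    ∃ a b : (cht k x i).toSubring, b ≠ 0 ∧ y = (a : F) / (b : F) := by
  haveI : IsFractionRing (cht k x i) F := hx.frac i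
  obtain ⟨a, b, hb, hy⟩ := IsFractionRing.div_surjective (A := cht k x i) y
  exact ⟨a, b, nonZeroDivisors.ne_zero hb, hy.symm⟩

/-- WK4. PROOF: `t` a uniformizer of `v`, `t = a / b` in the chart `i`: the prime of `V` contains `a`
and has height one (dimension `D - 1`, `HasDim.quotient`): minimal over `a`; finitely many. -/
theorem cmp_finite (hF : FibX k D x K₀) (hv : Place k v) : (Cmp k D x v).Finite := by
  classical
  obtain ⟨t, ht0, htv, hti, -⟩ := V0_unif hv
  have ht0' : (t : F) ≠ 0 := fun h0 => ht0 (Subtype.ext h0)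
  choose a b hb hab using fun i => WK1_frac hF.var i (t : F)
  have ha : ∀ i, a i ≠ 0 := by
    intro i h0
    apply ht0'
    rw [hab i, h0]
    simp
  let G : ∀ i : Fin (n + 1), Ideal (cht k x i).toSubring → Subring F := fun i Q =>
    if h : Q.IsPrime then (@LocalSubring.ofPrime F _ (cht k x i).toSubring Q h).toSubring else ⊤
  have hfin : ∀ i, (G i '' (Ideal.span {a i}).minimalPrimes).Finite := by
    intro i
    haveI := XP_noeth (k := k) (x := x) i
    exact ((Ideal.span {a i}).finite_minimalPrimes_of_isNoetherianRing).image _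
  refine Set.Finite.of_finite_image ((Set.finite_iUnion hfin).subset ?_)
    ValuationSubring.toSubring_injective.injOn
  rintro W ⟨V, ⟨hV, hVv, S, ⟨i, Q, hQ, hd, rfl⟩, hS⟩, rfl⟩
  refine Set.mem_iUnion.2 ⟨i, Q, ?_, ?_⟩
  · have haQ : a i ∈ Q := by
      by_contra hcon
      have h1 := (XP_unit (cht k x i).toSubring Q (a i)).2 hcon
      obtain ⟨u, hu⟩ := h1.exists_right_inv
      apply hti
      rw [hVv]
      rw [← hS]
      have h2 : (a i : F) * (u : F) = 1 := congrArg Subtype.val hu
      have h3 : ((t⁻¹ : K₀) : F) = (b i : F) * (u : F) := by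
        rw [IntermediateField.coe_inv, hab i, inv_div, div_eq_iff (left_ne_zero_of_mul_eq_one h2),
          mul_assoc, mul_comm (u : F), h2, mul_one]
      rw [h3]
      exact mul_mem (LocalSubring.le_ofPrime _ _ (b i).2) u.2
    obtain ⟨h, s, h1, h2, h3⟩ := WK1_dim hF.var i Q
    rw [hd] at h2
    have h4 : D - 1 = s := by exact_mod_cast h2
    have hle : Q.height ≤ 1 := by
      rw [h1]
      exact_mod_cast (by omega : h ≤ 1)
    refine ⟨⟨hQ, (Ideal.span_singleton_le_iff_mem _).2 haQ⟩, ?_⟩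
    rintro R ⟨hR, hRa⟩ hRQ
    by_contra hcon
    have h5 : R < Q := lt_of_le_not_ge hRQ hcon
    have h6 : (⊥ : Ideal (cht k x i).toSubring) < R := by
      refine lt_of_le_of_ne bot_le fun h => ha i ?_
      have h7 := (Ideal.span_singleton_le_iff_mem _).1 hRa
      rw [← h] at h7
      exact h7
    have h7 := Ideal.height_add_one_le_of_lt_of_isPrime h5
    have h8 := Ideal.height_add_one_le_of_lt_of_isPrime h6
    have h9 : (1 : ℕ∞) + 1 ≤ 1 := by
      refine le_trans ?_ (h7.trans hle)
      refine add_le_add_left (le_trans ?_ h8) 1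
      exact le_add_self
    exact absurd h9 (by decide)
  · rw [← hS]
    exact dif_pos hQ

/-- WK5. Every closed point over `v` is on a component. PROOF: `t ∈ O` is not a unit; a minimal prime
over `t` in `O` has height one (Krull); it comes from a prime `Q` of the chart; `prime_one`. -/
theorem exists_cmp (hF : FibX k D x K₀) (hv : Place k v) {O : LocalSubring F}
    (hO : O ∈ Pts k x 0) (hOv : OverPl K₀ v O.toSubring) :
    ∃ V ∈ Cmp k D x v, O.toSubring ≤ V.toSubring := by
  obtain ⟨t, ht0, htv, hti, htu⟩ := V0_unif hv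
  have ht0' : (t : F) ≠ 0 := fun h0 => ht0 (Subtype.ext h0)
  obtain ⟨i, P, hP, hd, rfl⟩ := hO
  haveI := XP_noeth (k := k) (x := x) i
  obtain ⟨a, s, hs, hts⟩ := XP_mem _ _ ((hOv t).1 htv)
  have hs0 : (s : F) ≠ 0 := by
    intro h0
    apply ht0'
    rw [hts, h0, div_zero]
  have ha0 : a ≠ 0 := by
    rintro rfl
    apply ht0'
    rw [hts]
    simp
  have haP : a ∈ P := by
    by_contra hcon
    obtain ⟨u, hu⟩ := ((XP_unit (cht k x i).toSubring P a).2 hcon).exists_right_inv
    apply hti
    rw [hOv]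
    have h2 : (a : F) * (u : F) = 1 := congrArg Subtype.val hu
    have h3 : ((t⁻¹ : K₀) : F) = (s : F) * (u : F) := by
      rw [IntermediateField.coe_inv, hts, inv_div, div_eq_iff (left_ne_zero_of_mul_eq_one h2),
        mul_assoc, mul_comm (u : F), h2, mul_one]
    rw [h3]
    exact mul_mem (LocalSubring.le_ofPrime _ _ s.2) u.2
  obtain ⟨Q, hQ, hQP⟩ := Ideal.exists_minimalPrimes_le ((Ideal.span_singleton_le_iff_mem _).2 haP)
  haveI hQp : Q.IsPrime := hQ.1.1
  have haQ : a ∈ Q := (Ideal.span_singleton_le_iff_mem _).1 hQ.1.2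
  have h1 : Q.height ≤ 1 := Ideal.height_le_one_of_isPrincipal_of_mem_minimalPrimes _ Q hQ
  have h2 : (⊥ : Ideal (cht k x i).toSubring) < Q := by
    refine lt_of_le_of_ne bot_le fun h => ha0 ?_
    rw [← h] at haQ
    exact haQ
  have h3 : Q.height = 1 := by
    refine le_antisymm h1 (le_trans ?_ (Ideal.height_add_one_le_of_lt_of_isPrime h2))
    exact le_add_self
  obtain ⟨hpt, V, hV, hVQ⟩ := prime_one hF.var i Q h3
  have hle : (LocalSubring.ofPrime _ P).toSubring ≤ V.toSubring := by
    intro y hy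
    obtain ⟨c, d, hd, rfl⟩ := XP_mem _ _ hy
    obtain ⟨u, hu⟩ := ((XP_unit (cht k x i).toSubring Q d).2 fun h => hd (hQP h)).exists_right_inv
    have h5 : (d : F) * (u : F) = 1 := congrArg Subtype.val hu
    have h6 : (c : F) / (d : F) = (c : F) * (u : F) := by
      rw [div_eq_iff (left_ne_zero_of_mul_eq_one h5), mul_assoc, mul_comm (u : F), h5, mul_one]
    rw [h6, hVQ]
    exact mul_mem (LocalSubring.le_ofPrime _ _ c.2) u.2
  have htV : (t : F)⁻¹ ∉ V.toSubring := by
    intro hcon
    rw [hVQ] at hcon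
    refine (XP_unit (cht k x i).toSubring Q a).1 ?_ haQ
    refine IsUnit.of_mul_eq_one ⟨(t : F)⁻¹ * (s : F)⁻¹, ?_⟩ ?_
    · refine mul_mem hcon ?_
      obtain ⟨u, hu⟩ := ((XP_unit (cht k x i).toSubring Q s).2
        fun h => hs (hQP h)).exists_right_inv
      have h5 : (s : F) * (u : F) = 1 := congrArg Subtype.val hu
      rw [← eq_inv_of_mul_eq_one_right h5]
      exact u.2
    · apply Subtype.ext
      change (a : F) * ((t : F)⁻¹ * (s : F)⁻¹) = 1
      have h5 : (a : F) = t * s := by rw [hts, div_mul_cancel₀ _ hs0]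
      rw [h5]
      field_simp
  refine ⟨V, ⟨hV, ?_, _, hpt, hVQ.symm⟩, hle⟩
  intro u
  constructor
  · intro hu
    exact hle ((hOv u).1 hu)
  · intro hu
    by_contra hcon
    have hu0 : u ≠ 0 := by
      rintro rfl
      exact hcon v.zero_mem
    have h5 : ord v u < 0 := by
      rw [← not_le, ord_nonneg_iff hv.1 hu0]
      exact hcon
    have h6 : u⁻¹ * t⁻¹ ∈ v := by
      rw [← ord_nonneg_iff hv.1 (mul_ne_zero (inv_ne_zero hu0) (inv_ne_zero ht0)),
        ord_mul hv.1 (inv_ne_zero hu0) (inv_ne_zero ht0), ord_inv hv.1 hu0, ord_inv hv.1 ht0, htu]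
      omega
    have h7 := hle ((hOv _).1 h6)
    apply htV
    have h8 := V.toSubring.mul_mem hu h7
    have h9 : (u : F) ≠ 0 := fun h0 => hu0 (Subtype.ext h0)
    have h10 : (u : F) * ((u⁻¹ * t⁻¹ : K₀) : F) = (t : F)⁻¹ := by
      push_cast
      rw [← mul_assoc, mul_inv_cancel₀ h9, one_mul]
    rw [h10] at h8
    exact h8

end Pool.Agent.Lib.MP_b197b4_ntBW
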