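import Mathlib
import Pool.Agent.Lib.MP_b197b4_ntBW.Defs
import Pool.Agent.Lib.MP_b197b4_ntD.Dim

/-!
# MP_b197b4_nt, project BW: regular points and curves through a point, algebra
-/

set_option autoImplicit false

namespace Pool.Agent.Lib.MP_b197b4_ntBW

open Pool.Agent.Lib.MP_b197b4_ntA

/-- In a noetherian domain: a prime `m` of height at least two, `f ≠ 0`: there is a non zero prime
`Q < m` which does not contain `f`. -/
theorem WL2_avoid {A : Type} [CommRing A] [IsDomain A] [IsNoetherianRing A] (m : Ideal A)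
    [m.IsPrime] (hm : 2 ≤ m.height) {f : A} (hf : f ≠ 0) :
    ∃ Q : Ideal A, Q.IsPrime ∧ Q ≠ ⊥ ∧ Q < m ∧ f ∉ Q := by
  classical
  have hfin : (Ideal.span {f}).minimalPrimes.Finite := Ideal.finite_minimalPrimes_of_isNoetherianRing A _
  obtain ⟨g, hgm, hg⟩ : ∃ g ∈ m, ∀ t ∈ insert ⊥ hfin.toFinset, g ∉ t := by
    by_contra hcon
    push Not at hcon
    have h1 : ((m : Set A) ⊆ ⋃ t ∈ (↑(insert ⊥ hfin.toFinset) : Set (Ideal A)), (t : Set A)) := by
      intro g hg
      obtain ⟨t, ht, hft⟩ := hcon g hg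
      exact Set.mem_biUnion ht hft
    have hpr : ∀ t ∈ insert ⊥ hfin.toFinset, t.IsPrime := by
      intro t ht
      rcases Finset.mem_insert.1 ht with rfl | ht
      · exact Ideal.isPrime_bot
      · exact (hfin.mem_toFinset.1 ht).1.1
    obtain ⟨t, ht, hmt⟩ := (Ideal.subset_union_prime (s := insert ⊥ hfin.toFinset) (f := fun t => t) ⊥ ⊥
      (fun t ht _ _ => hpr t ht)).1 h1
    have h2 : m.height ≤ t.height := Ideal.height_mono hmt
    have h3 : t.height ≤ 1 := by
      rcases Finset.mem_insert.1 ht with rfl | ht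
      · rw [Ideal.height_bot]; exact zero_le_one
      · exact Ideal.height_le_one_of_isPrincipal_of_mem_minimalPrimes _ t (hfin.mem_toFinset.1 ht)
    have h4 : (2 : ℕ∞) ≤ 1 := hm.trans (h2.trans h3)
    exact absurd h4 (by decide)
  obtain ⟨Q, hQ, hQm⟩ := Ideal.exists_minimalPrimes_le ((Ideal.span_singleton_le_iff_mem m).2 hgm)
  have hQp : Q.IsPrime := hQ.1.1
  have hQg : g ∈ Q := hQ.1.2 (Ideal.mem_span_singleton_self g)
  have hQh : Q.height ≤ 1 := Ideal.height_le_one_of_isPrincipal_of_mem_minimalPrimes _ Q hQ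
  have hg0 : g ≠ 0 := fun h => hg ⊥ (Finset.mem_insert_self _ _) (by rw [h]; exact Ideal.zero_mem _)
  refine ⟨Q, hQp, ?_, lt_of_le_of_ne hQm ?_, fun hfQ => ?_⟩
  · rintro rfl
    exact hg0 (by simpa using hQg)
  · rintro rfl
    have h4 : (2 : ℕ∞) ≤ 1 := hm.trans hQh
    exact absurd h4 (by decide)
  · obtain ⟨q, hq, hqQ⟩ := Ideal.exists_minimalPrimes_le ((Ideal.span_singleton_le_iff_mem Q).2 hfQ)
    have hqp : q.IsPrime := hq.1.1
    have hq0 : q ≠ ⊥ := by
      rintro rfl
      have h5 : f ∈ (⊥ : Ideal A) := hq.1.2 (Ideal.mem_span_singleton_self f)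
      exact hf (by simpa using h5)
    have hqQ' : q = Q := by
      by_contra hne
      have hlt : q < Q := lt_of_le_of_ne hqQ hne
      have := hqp
      have h6 : q.height < Q.height := Ideal.height_strict_mono_of_isPrime hlt
      have h7 : 0 < q.height := by
        rw [pos_iff_ne_zero]
        intro h0
        exact hq0 (Ideal.height_eq_zero_iff_eq_bot.1 h0)
      have h8 : (1 : ℕ∞) < Q.height := lt_of_le_of_lt (Order.one_le_iff_pos.2 h7) h6
      exact absurd (lt_of_lt_of_le h8 hQh) (lt_irrefl _)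
    subst hqQ'
    exact hg q (Finset.mem_insert_of_mem (hfin.mem_toFinset.2 hq)) hQg

/-- WL2. A curve through a given point which is not contained in `f = 0`. PROOF: choose `P ≤ m` prime,
`f ∉ P`, maximal with these properties (noetherian). Every prime strictly between `P` and `m` contains
`f`; if there were two primes `P < P₁ < m`, the noetherian ring `(A / P)_m` of dimension at least 2
would have infinitely many primes of height one, all minimal over `f` (see also `curveEx_avoid`). So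
the height of `m / P` is one and `ringKrullDim (A / P) = 1` (`HasDim.height`). -/
theorem curve_through {k A : Type} [Field k] [CommRing A] [IsDomain A] [Algebra k A]
    [Algebra.FiniteType k A] (m : Ideal A) (hm : m.IsMaximal) (hm0 : m ≠ ⊥) {f : A} (hf : f ≠ 0) :
    ∃ P : Ideal A, P.IsPrime ∧ ringKrullDim (A ⧸ P) = 1 ∧ P ≤ m ∧ f ∉ P := by
  classical
  have : IsNoetherianRing A := Algebra.FiniteType.isNoetherianRing k A
  let S : Set (Ideal A) := {P | P.IsPrime ∧ f ∉ P ∧ P < m}
  obtain ⟨P, hPS, hPmax⟩ := set_has_maximal_iff_noetherian.2 (inferInstance : IsNoetherian A A) S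
    ⟨⊥, Ideal.isPrime_bot, fun h => hf (by simpa using h), bot_lt_iff_ne_bot.2 hm0⟩
  obtain ⟨hPp, hPf, hPm⟩ := hPS
  refine ⟨P, hPp, ?_, hPm.le, hPf⟩
  obtain ⟨s, hs⟩ := MP_b197b4_ntD.exists_hasDim k (A ⧸ P)
  rw [hs.ringKrullDim]
  have hmk : (m.map (Ideal.Quotient.mk P)).comap (Ideal.Quotient.mk P) = m := by
    rw [Ideal.comap_map_of_surjective _ Ideal.Quotient.mk_surjective,
      ← RingHom.ker_eq_comap_bot, Ideal.mk_ker]
    exact sup_eq_left.2 hPm.le
  have hm' : (m.map (Ideal.Quotient.mk P)).IsMaximal :=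
    Ideal.IsMaximal.map_of_surjective_of_ker_le Ideal.Quotient.mk_surjective
      (by rw [Ideal.mk_ker]; exact hPm.le)
  have := hm'.isPrime
  have hh := hs.height _ hm'
  have hs0 : s ≠ 0 := by
    rintro rfl
    have h1 : m.map (Ideal.Quotient.mk P) = ⊥ := Ideal.height_eq_zero_iff_eq_bot.1 (by
      rw [hh]; rfl)
    rw [h1, ← RingHom.ker_eq_comap_bot, Ideal.mk_ker] at hmk
    exact hPm.ne hmk
  have hs1 : s < 2 := by
    by_contra hs2
    have h2 : (2 : ℕ∞) ≤ (m.map (Ideal.Quotient.mk P)).height := by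
      rw [hh]
      exact_mod_cast (by omega : 2 ≤ s)
    have hf' : Ideal.Quotient.mk P f ≠ 0 := fun h => hPf (Ideal.Quotient.eq_zero_iff_mem.1 h)
    obtain ⟨Q, hQ, hQ0, hQm, hfQ⟩ := WL2_avoid (m.map (Ideal.Quotient.mk P)) h2 hf'
    have hQp : (Q.comap (Ideal.Quotient.mk P)).IsPrime := hQ.comap _
    have hcm : ∀ I J : Ideal (A ⧸ P), I < J → I.comap (Ideal.Quotient.mk P) < J.comap (Ideal.Quotient.mk P) :=
      fun I J h => lt_of_le_of_ne (Ideal.comap_mono h.le) fun he => h.ne
        (Ideal.comap_injective_of_surjective _ Ideal.Quotient.mk_surjective he)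
    refine hPmax (Q.comap (Ideal.Quotient.mk P)) ⟨hQp, hfQ, ?_⟩ ?_
    · have h3 := hcm _ _ hQm
      rwa [hmk] at h3
    · have h3 := hcm _ _ (bot_lt_iff_ne_bot.2 hQ0)
      rwa [← RingHom.ker_eq_comap_bot, Ideal.mk_ker] at h3
  have hs2 : s = 1 := by omega
  rw [hs2]
  rfl

/-- WL3. PROOF: `A / P` is a Jacobson ring. -/
theorem exists_max {k A : Type} [Field k] [CommRing A] [Algebra k A] [Algebra.FiniteType k A]
    (P : Ideal A) [P.IsPrime] {f : A} (hf : f ∉ P) :
    ∃ m : Ideal A, m.IsMaximal ∧ P ≤ m ∧ f ∉ m := by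
  have hJ : IsJacobsonRing A := isJacobsonRing_of_finiteType (A := k)
  have h1 : P.radical = P.jacobson := Ideal.radical_eq_jacobson P
  rw [‹P.IsPrime›.isRadical.radical] at h1
  by_contra hcon
  push Not at hcon
  refine hf ?_
  rw [h1]
  refine Ideal.mem_sInf.2 fun {m} hm => ?_
  exact hcon m hm.2 hm.1

end Pool.Agent.Lib.MP_b197b4_ntBW
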