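import Mathlib
import Pool.Agent.Lib.MP_b197b4_ntBW.Defs
import Pool.Agent.Lib.MP_b197b4_ntD.Dim

/-!
# MP_b197b4_nt, project BW: regular points and curves through a point, algebra
-/

set_option autoImplicit false

namespace Pool.Agent.Lib.MP_b197b4_ntBW

open Pool.Agent.Lib.MP_b197b4_ntA IsLocalRing KaehlerDifferential TensorProduct

/-- The module of differentials of a function field has rank at most the transcendence degree. -/
theorem WL1_omega {k E : Type} [Field k] [PerfectField k] [Field E] [Algebra k E]
    [Algebra.EssFiniteType k E] :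
    ((Module.finrank E (Ω[E⁄k]) : ℕ) : Cardinal) ≤ Algebra.trdeg k E := by
  classical
  obtain ⟨s, hs, hsep⟩ := exists_isTranscendenceBasis_and_isSeparable_of_perfectField k E
  set K' := IntermediateField.adjoin k (s : Set E) with hK'
  set N : Submodule E (Ω[E⁄k]) := Submodule.span E ((s.image (D k E) : Finset _) : Set (Ω[E⁄k]))
    with hN
  let d : Derivation k E (Ω[E⁄k] ⧸ N) := N.mkQ.compDer (D k E)
  have hd0 : ∀ a ∈ K', d a = 0 := by
    intro a ha
    induction ha using IntermediateField.adjoin_induction with
    | mem x hx =>
      change N.mkQ (D k E x) = 0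
      rw [Submodule.mkQ_apply, Submodule.Quotient.mk_eq_zero]
      exact Submodule.subset_span (by
        rw [Finset.coe_image]
        exact ⟨x, hx, rfl⟩)
    | algebraMap x => exact d.map_algebraMap x
    | add x y _ _ hx hy => rw [map_add, hx, hy, add_zero]
    | inv x _ hx =>
      rw [Derivation.leibniz_inv, hx, smul_zero]
    | mul x y _ _ hx hy => rw [Derivation.leibniz, hx, hy, smul_zero, smul_zero, add_zero]
  haveI : Algebra.FormallyUnramified K' E := Algebra.FormallyUnramified.of_isSeparable K' E
  haveI : Subsingleton (Ω[E⁄K']) := inferInstance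
  have hd1 : ∀ a : E, d a = 0 := by
    let d' : Derivation K' E (Ω[E⁄k] ⧸ N) :=
      { toFun := d
        map_add' := map_add d
        map_smul' := by
          intro c a
          have h1 : c • a = (c : E) * a := rfl
          rw [h1, Derivation.leibniz, hd0 _ c.2, smul_zero, add_zero]
          rfl
        map_one_eq_zero' := d.map_one_eq_zero
        leibniz' := d.leibniz }
    intro a
    have h1 := Derivation.liftKaehlerDifferential_comp_D d' a
    have h2 : D K' E a = 0 := Subsingleton.elim _ _
    rw [h2, map_zero] at h1
    exact h1.symm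
  have hNt : N = ⊤ := by
    rw [eq_top_iff, ← KaehlerDifferential.span_range_derivation k E, Submodule.span_le]
    rintro _ ⟨a, rfl⟩
    have h1 := hd1 a
    change N.mkQ (D k E a) = 0 at h1
    rwa [Submodule.mkQ_apply, Submodule.Quotient.mk_eq_zero] at h1
  have hfr : Module.finrank E (Ω[E⁄k]) ≤ s.card := by
    have h1 : Module.finrank E N ≤ (s.image (D k E)).card := finrank_span_finset_le_card _
    rw [hNt, finrank_top] at h1
    exact h1.trans Finset.card_image_le
  have h3 := hs.cardinalMk_eq_trdeg
  rw [← h3]
  simp only [Cardinal.mk_fintype, Fintype.card_coe]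
  exact_mod_cast hfr

/-- The cotangent space of a local ring of a variety over a perfect field injects into the
differentials. -/
theorem WL1_cot {k L : Type} [Field k] [PerfectField k] [CommRing L] [IsLocalRing L]
    [Algebra k L] [Algebra.EssFiniteType k L] [Algebra.FormallySmooth k L] :
    ∃ f : CotangentSpace L →ₗ[ResidueField L] (ResidueField L) ⊗[L] Ω[L⁄k],
      Function.Injective f := by
  have hsurj : Function.Surjective (algebraMap L (ResidueField L)) := residue_surjective
  haveI : Algebra.FiniteType L (ResidueField L) :=
    Algebra.FiniteType.of_surjective (Algebra.ofId L (ResidueField L)) hsurj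
  haveI : Algebra.EssFiniteType k (ResidueField L) := Algebra.EssFiniteType.comp k L _
  haveI : Algebra.FormallySmooth k (ResidueField L) := inferInstance
  have hinj : Function.Injective (kerCotangentToTensor k L (ResidueField L)) :=
    (Algebra.FormallySmooth.kerCotangentToTensor_injective_iff hsurj).2 inferInstance
  have key : ∀ I : Ideal L, RingHom.ker (algebraMap L (ResidueField L)) = I →
      ∃ f : I.Cotangent →ₗ[L] (ResidueField L) ⊗[L] Ω[L⁄k], Function.Injective f := by
    rintro I rfl
    exact ⟨_, hinj⟩
  obtain ⟨f, hf⟩ := key (maximalIdeal L) (ker_residue (R := L))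
  exact ⟨LinearMap.extendScalarsOfSurjective hsurj f, hf⟩

/-- The rank of the differentials of a smooth local ring. -/
theorem WL1_rank {k L E : Type} [Field k] [PerfectField k] [CommRing L] [IsDomain L] [IsLocalRing L]
    [Algebra k L] [Algebra.EssFiniteType k L] [Algebra.FormallySmooth k L] [Field E] [Algebra k E]
    [Algebra L E] [IsScalarTower k L E] [IsFractionRing L E] :
    Module.finrank (ResidueField L) ((ResidueField L) ⊗[L] Ω[L⁄k]) = Module.finrank E (Ω[E⁄k]) := by
  haveI : Module.Free L (Ω[L⁄k]) := Module.free_of_flat_of_isLocalRing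
  let b := Module.Free.chooseBasis L (Ω[L⁄k])
  let b1 := Algebra.TensorProduct.basis (ResidueField L) b
  let b2 := b.ofIsLocalizedModule E (nonZeroDivisors L) (KaehlerDifferential.map k k L E)
  rw [Module.finrank_eq_card_basis b1, Module.finrank_eq_card_basis b2]

/-- WL1. The regular points contain a nonempty open set. PROOF: `E = Frac A` has a separating
transcendence basis `y₁, .., y_e` over the perfect field `k`, contained in `A`; `E = k(y)(θ)`, `θ ∈ A`
separable over `k(y)`, `Φ(y, θ) = 0` with `Φ ∈ k[y][T]` (a multiple of) the minimal polynomial. There is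
`g ≠ 0` in `k[y]` with `g a ∈ k[y][θ]` for the generators `a` of `A`. `f = g Φ'(θ)`. For `m` maximal,
`f ∉ m`, `c j`, `τ` the values of `y j`, `θ` at `m` (in `k`): `(θ - τ) Ψ = - Φ(y, τ) ∈ (y - c)` where `Ψ`
is a unit at `m`, so `m A_m = (y₁ - c₁, .., y_e - c_e) A_m`; the height of `m` is `e`
(`HasDim.height`), so `A_m` is regular. -/
theorem reg_open {k A : Type} [Field k] [IsAlgClosed k] [CommRing A] [IsDomain A] [Algebra k A]
    [Algebra.FiniteType k A] : ∃ f : A, f ≠ 0 ∧ ∀ m : Ideal A, m.IsMaximal → f ∉ m → RegMax m := by
  haveI : IsNoetherianRing A := Algebra.FiniteType.isNoetherianRing k A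
  haveI : Algebra.FinitePresentation k A := Algebra.FinitePresentation.of_finiteType.1 inferInstance
  let E := FractionRing A
  haveI : Algebra.EssFiniteType A E := Algebra.EssFiniteType.of_isLocalization E (nonZeroDivisors A)
  haveI : Algebra.EssFiniteType k E := Algebra.EssFiniteType.comp k A E
  haveI : Algebra.FormallySmooth k E := inferInstance
  have hbot : (⊥ : Ideal A).primeCompl = nonZeroDivisors A := by
    ext a
    rw [mem_nonZeroDivisors_iff_ne_zero]
    exact Iff.rfl
  haveI hsm : Algebra.IsSmoothAt k (⊥ : Ideal A) := by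
    haveI : IsLocalization (nonZeroDivisors A) (Localization.AtPrime (⊥ : Ideal A)) := by
      rw [← hbot]
      infer_instance
    exact Algebra.FormallySmooth.of_equiv
      ((IsLocalization.algEquiv (nonZeroDivisors A) E
        (Localization.AtPrime (⊥ : Ideal A))).restrictScalars k)
  obtain ⟨f, hf, hsmf⟩ := Algebra.IsSmoothAt.exists_notMem_smooth k (⊥ : Ideal A)
  have hsub := Algebra.basicOpen_subset_smoothLocus_iff_smooth.2 hsmf
  obtain ⟨e, he⟩ := Pool.Agent.Lib.MP_b197b4_ntD.exists_hasDim k A
  refine ⟨f, fun h => hf (by rw [h]; exact Submodule.zero_mem _), fun m hm hfm => ⟨hm, fun hmp => ?_⟩⟩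
  haveI : Algebra.FormallySmooth k (Localization.AtPrime m) :=
    hsub (show (⟨m, hmp⟩ : PrimeSpectrum A) ∈ (PrimeSpectrum.basicOpen f : Set _) from hfm)
  haveI : Algebra.EssFiniteType A (Localization.AtPrime m) :=
    Algebra.EssFiniteType.of_isLocalization _ m.primeCompl
  haveI : Algebra.EssFiniteType k (Localization.AtPrime m) := Algebra.EssFiniteType.comp k A _
  haveI : IsNoetherianRing (Localization.AtPrime m) :=
    IsLocalization.isNoetherianRing m.primeCompl _ inferInstance
  obtain ⟨φ, hφ⟩ := WL1_cot (k := k) (L := Localization.AtPrime m)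
  letI : Algebra (Localization.AtPrime m) E :=
    (IsLocalization.lift (M := m.primeCompl) (S := Localization.AtPrime m)
      (g := algebraMap A E) (fun s => by
        refine isUnit_iff_ne_zero.2 fun h => s.2 ?_
        rw [(IsFractionRing.injective A E) (h.trans (map_zero _).symm)]
        exact Submodule.zero_mem _)).toAlgebra
  haveI : IsScalarTower A (Localization.AtPrime m) E :=
    IsScalarTower.of_algebraMap_eq fun a => (IsLocalization.lift_eq _ a).symm
  haveI : IsScalarTower k (Localization.AtPrime m) E := IsScalarTower.of_algebraMap_eq fun a => by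
    rw [IsScalarTower.algebraMap_apply k A E, IsScalarTower.algebraMap_apply k A
      (Localization.AtPrime m), ← IsScalarTower.algebraMap_apply A (Localization.AtPrime m) E]
  haveI : IsFractionRing (Localization.AtPrime m) E :=
    IsFractionRing.isFractionRing_of_isDomain_of_isLocalization m.primeCompl _ E
  haveI : IsDomain (Localization.AtPrime m) :=
    IsLocalization.isDomain_of_local_atPrime hmp
  have h1 := LinearMap.finrank_le_finrank_of_injective hφ
  rw [WL1_rank (k := k) (L := Localization.AtPrime m) (E := E)] at h1
  have h2 := WL1_omega (k := k) (E := E)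
  rw [he.trdeg_frac E] at h2
  have h3 : Module.finrank E (Ω[E⁄k]) ≤ e := by exact_mod_cast h2
  refine IsRegularLocalRing.of_spanFinrank_maximalIdeal_le (Localization.AtPrime m) ?_
  rw [spanFinrank_maximalIdeal_eq_finrank_cotangentSpace (R := Localization.AtPrime m),
    IsLocalization.AtPrime.ringKrullDim_eq_height m, he.height m hm]
  exact_mod_cast h1.trans h3

end Pool.Agent.Lib.MP_b197b4_ntBW
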