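import Mathlib
import Pool.Agent.Lib.MP_b197b4_ntBW.Defs
import Pool.Agent.Lib.MP_b197b4_ntA.XG2

/-!
# MP_b197b4_nt, project BW: two closed points of a subvariety are connected by curves
-/

set_option autoImplicit false

namespace Pool.Agent.Lib.MP_b197b4_ntBW

open IsLocalRing Pool.Agent.Lib.MP_b197b4_ntK Pool.Agent.Lib.MP_b197b4_ntA

variable {k F : Type} [Field k] [Field F] [Algebra k F] {n : ℕ} {x : Fin (n + 1) → F}

/-- WM1. Curves of the chart `i` on the subvariety `S`. `B` is the image of the chart in the function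
field of `S`, `P` a prime of `B` with quotient of dimension one. PROOF: the kernel of
`cht k x i → B / P`. -/
theorem curve_of_prime (hne : ∀ i, x i ≠ 0) {S : LocalSubring F} [Algebra k (Kap S)]
    {i : Fin (n + 1)} {ψ : cht k x i →ₐ[k] Kap S} (h : XGD x S i ψ) (P : Ideal ψ.range)
    [P.IsPrime] (hP : ringKrullDim (ψ.range ⧸ P) = 1) :
    ∃ C ∈ Pts k x 1, C.toSubring ≤ S.toSubring ∧ ∀ (m : Ideal ψ.range), m.IsMaximal → P ≤ m →
      ∀ O ∈ Pts k x 0, ∀ hi : (cht k x i).toSubring ≤ O.toSubring,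
        (∀ a : cht k x i, ψ.rangeRestrict a ∈ m ↔
          (⟨a, a.2⟩ : (cht k x i).toSubring) ∈ XP_ker hi) → O.toSubring ≤ C.toSubring := by
  obtain ⟨φ, hφ⟩ : ∃ φ : (cht k x i).toSubring →+* ψ.range, φ = (ψ.rangeRestrict : _ →+* _) :=
    ⟨_, rfl⟩
  have hsurj : Function.Surjective φ := by
    rw [hφ]
    exact ψ.rangeRestrict_surjective
  obtain ⟨Q, hQ⟩ : ∃ Q : Ideal (cht k x i).toSubring, Q = P.comap φ := ⟨_, rfl⟩
  have hQp : Q.IsPrime := by
    rw [hQ]
    exact Ideal.comap_isPrime φ P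
  have hQm : ∀ a : (cht k x i).toSubring, a ∈ Q ↔ φ a ∈ P := by
    intro a
    rw [hQ, Ideal.mem_comap]
  refine ⟨LocalSubring.ofPrime (cht k x i).toSubring Q, ⟨i, Q, hQp, ?_, rfl⟩, ?_, ?_⟩
  · rw [← Nat.cast_one] at hP
    rw [← hP]
    have h1 : ∀ a ∈ Q, (Ideal.Quotient.mk P).comp φ a = 0 := by
      intro a ha
      rw [RingHom.comp_apply, Ideal.Quotient.eq_zero_iff_mem]
      exact (hQm a).1 ha
    refine ringKrullDim_eq_of_ringEquiv (RingEquiv.ofBijective
      (Ideal.Quotient.lift Q ((Ideal.Quotient.mk P).comp φ) h1) ⟨?_, ?_⟩)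
    · rw [injective_iff_map_eq_zero]
      intro a ha
      obtain ⟨a, rfl⟩ := Ideal.Quotient.mk_surjective a
      rw [Ideal.Quotient.lift_mk, RingHom.comp_apply, Ideal.Quotient.eq_zero_iff_mem, ← hQm] at ha
      exact Ideal.Quotient.eq_zero_iff_mem.2 ha
    · intro b
      obtain ⟨b, rfl⟩ := Ideal.Quotient.mk_surjective b
      obtain ⟨a, rfl⟩ := hsurj b
      exact ⟨Ideal.Quotient.mk Q a, by rw [Ideal.Quotient.lift_mk, RingHom.comp_apply]⟩
  · intro y hy
    obtain ⟨a, s, hs, rfl⟩ := XP_mem _ _ hy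
    have h1 : ψ s ≠ 0 := by
      intro h0
      apply hs
      rw [hQm]
      have h2 : φ s = 0 := by
        rw [hφ]
        exact Subtype.ext h0
      rw [h2]
      exact zero_mem P
    have h2 := (h.ne_iff s).1 h1
    rw [div_eq_mul_inv]
    exact mul_mem (h.sub a.2) (xcen_inv_mem _ _ h2)
  · intro m hm hPm O hO hi hmO y hy
    rw [← xg_ofPrime hne hO hi] at hy
    obtain ⟨a, s, hs, rfl⟩ := XP_mem _ _ hy
    have h1 : s ∉ Q := by
      intro h0
      apply hs
      refine (hmO s).1 (hPm ?_)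
      have h2 := (hQm s).1 h0
      rw [hφ] at h2
      exact h2
    have h2 := (XP_unit (cht k x i).toSubring Q s).2 h1
    rw [div_eq_mul_inv]
    exact mul_mem (LocalSubring.le_ofPrime _ _ a.2) (xcen_inv_mem _ _ h2)

end Pool.Agent.Lib.MP_b197b4_ntBW
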