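import Mathlib
import Pool.Agent.Lib.MP_b197b4_ntBW.WM1
import Pool.Agent.Lib.MP_b197b4_ntBW.WL
import Pool.Agent.Lib.MP_b197b4_ntA.CurveEx
import Pool.Agent.Lib.MP_b197b4_ntA.XG2

/-!
# MP_b197b4_nt, project BW: two closed points of a subvariety are connected by curves
-/

set_option autoImplicit false
set_option linter.style.haveILetI false

namespace Pool.Agent.Lib.MP_b197b4_ntBW

open IsLocalRing Pool.Agent.Lib.MP_b197b4_ntK Pool.Agent.Lib.MP_b197b4_ntA

variable {k F : Type} [Field k] [Field F] [Algebra k F] {n : ℕ} {x : Fin (n + 1) → F}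

/-- The image of a chart in the function field of `S` is a chart. -/
theorem WM2_dchart (hne : ∀ i, x i ≠ 0) {e : ℕ} {S : LocalSubring F} (hS : S ∈ Pts k x e)
    [Algebra k (Kap S)] {i : Fin (n + 1)} {ψ : cht k x i →ₐ[k] Kap S} (h : XGD x S i ψ) :
    DChart e ψ.range := by
  haveI : Algebra.FiniteType k (cht k x i) := (Subalgebra.fg_iff_finiteType _).1 (XP_fg i)
  haveI hft : Algebra.FiniteType k ψ.range :=
    Algebra.FiniteType.of_surjective ψ.rangeRestrict ψ.rangeRestrict_surjective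
  haveI : IsNoetherianRing ψ.range := Algebra.FiniteType.isNoetherianRing k _
  haveI hfr : IsFractionRing ψ.range (Kap S) := by
    refine IsFractionRing.of_field ψ.range (Kap S) fun z => ?_
    obtain ⟨a, b, _, hz⟩ := h.gen hne hS z
    exact ⟨⟨ψ a, a, rfl⟩, ⟨ψ b, b, rfl⟩, hz⟩
  refine ⟨(Subalgebra.fg_iff_finiteType _).2 hft, hfr, ?_⟩
  obtain ⟨s, hs⟩ := MP_b197b4_ntD.exists_hasDim k ψ.range
  have h1 := hs.trdeg_frac (Kap S)
  have h2 := (h.fun1 hne hS).2
  have h3 : s = e := by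
    rw [h1] at h2
    exact_mod_cast h2
  subst h3
  exact hs.height

/-- Two regular points are on a common curve. -/
theorem WM2_two [IsAlgClosed k] {K : Type} [Field K] [Algebra k K] {e : ℕ} (he : 2 ≤ e)
    {B : Subalgebra k K} (hB : DChart e B) {m m' : Ideal B} (hm : RegMax m) (hm' : RegMax m') :
    ∃ P : Ideal B, P.IsPrime ∧ ringKrullDim (B ⧸ P) = 1 ∧ P ≤ m ∧ P ≤ m' := by
  classical
  haveI : Algebra.FiniteType k B := B.fg_iff_finiteType.1 hB.fg
  haveI : IsNoetherianRing B := Algebra.FiniteType.isNoetherianRing k _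
  have hz : ∀ M : Ideal B, RegMax M → ∃ z : B, z ∈ M ∧ z ∉ M ^ 2 := by
    intro M hM
    by_contra hcon
    push Not at hcon
    have h1 : M = M ^ 2 := le_antisymm hcon (Ideal.pow_le_self two_ne_zero)
    have h2 : IsIdempotentElem M := by
      rw [pow_two] at h1
      exact h1.symm
    have h3 : M.FG := IsNoetherian.noetherian M
    rcases (Ideal.isIdempotentElem_iff_eq_bot_or_top M h3).1 h2 with h4 | h4
    · have h5 := hB.height M hM.1
      rw [h4] at h5
      have h6 : (⊥ : Ideal B).height = 0 := Ideal.height_eq_zero_iff_eq_bot.2 rfl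
      rw [h6] at h5
      have h7 : (0 : ℕ) = e := by exact_mod_cast h5
      omega
    · exact hM.1.ne_top h4
  let z : Ideal B → B := fun M => if h : RegMax M then (hz M h).choose else 0
  have hz' : ∀ M : Ideal B, RegMax M → z M ∈ M ∧ z M ∉ M ^ 2 := by
    intro M hM
    have h1 : z M = (hz M hM).choose := dif_pos hM
    rw [h1]
    exact (hz M hM).choose_spec
  obtain ⟨K', _, _, φ, hf1, hgen, hpl, -⟩ := exists_curveK he hB {m, m'} ∅ z
    (fun M hM => by
      have h1 : RegMax M := by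
        rcases Finset.mem_insert.1 hM with rfl | h2
        · exact hm
        · rw [Finset.mem_singleton.1 h2]
          exact hm'
      exact ⟨h1, hz' M h1⟩)
    (fun M hM => absurd hM (Finset.notMem_empty M)) (Finset.disjoint_empty_right _)
  refine ⟨RingHom.ker φ, RingHom.ker_isPrime _, ?_, ?_, ?_⟩
  · obtain ⟨s, h1, h2⟩ := XP_dim_ker φ fun y => by
      obtain ⟨a, b, _, hy⟩ := hgen y
      exact ⟨a, b, hy⟩
    rw [h2]
    have h3 := hf1.2
    rw [h1] at h3
    have h4 : s = 1 := by exact_mod_cast h3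
    rw [h4]
    rfl
  · obtain ⟨W, -, hc, -⟩ := hpl m (Finset.mem_insert_self _ _)
    intro a ha
    rw [(hc a).2, (RingHom.mem_ker).1 ha, map_zero]
    exact zero_lt_one
  · obtain ⟨W, -, hc, -⟩ := hpl m' (Finset.mem_insert_of_mem (Finset.mem_singleton_self _))
    intro a ha
    rw [(hc a).2, (RingHom.mem_ker).1 ha, map_zero]
    exact zero_lt_one

section

variable {S : LocalSubring F} [Algebra k (Kap S)] {i : Fin (n + 1)} {ψ : cht k x i →ₐ[k] Kap S}

/-- The closed point of a maximal ideal of the image of the chart. -/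
theorem WM2_point (h : XGD x S i ψ) {m : Ideal ψ.range} (hm : m.IsMaximal) :
    ∃ O ∈ Pts k x 0, O.toSubring ≤ S.toSubring ∧ ∃ hi : (cht k x i).toSubring ≤ O.toSubring,
      ∀ a : cht k x i, ψ.rangeRestrict a ∈ m ↔
        (⟨a, a.2⟩ : (cht k x i).toSubring) ∈ XP_ker hi := by
  let M : Ideal (cht k x i) := m.comap (ψ.rangeRestrict : cht k x i →ₐ[k] ψ.range)
  have hM : M.IsMaximal := Ideal.comap_isMaximal_of_surjective _ ψ.rangeRestrict_surjective
  have hMp := hM.isPrime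
  refine ⟨_, xg_pt_of_max hM, ?_, @LocalSubring.le_ofPrime F _ (cht k x i).toSubring M hMp, ?_⟩
  · intro y hy
    obtain ⟨a, s, hs, rfl⟩ := (@xcen_mem F _ (cht k x i).toSubring M hMp y).1 hy
    rw [div_eq_mul_inv]
    refine mul_mem (h.sub a.2) (xcen_inv_mem _ _ ((h.ne_iff s).1 ?_))
    intro h0
    apply hs
    change ψ.rangeRestrict s ∈ m
    have h1 : ψ.rangeRestrict s = 0 := Subtype.ext h0
    rw [h1]
    exact zero_mem _
  · intro a
    rw [@XP_ker_ofPrime F _ (cht k x i).toSubring M hMp]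
    exact Iff.rfl

/-- The maximal ideal of a closed point. -/
theorem WM2_ideal (hne : ∀ i, x i ≠ 0) (h : XGD x S i ψ) {O : LocalSubring F} (hO : O ∈ Pts k x 0)
    (hOS : O.toSubring ≤ S.toSubring) (hi : (cht k x i).toSubring ≤ O.toSubring) :
    ∃ m : Ideal ψ.range, m.IsMaximal ∧ ∀ a : cht k x i, ψ.rangeRestrict a ∈ m ↔
      (⟨a, a.2⟩ : (cht k x i).toSubring) ∈ XP_ker hi := by
  have hM := xg_max_of_pt hne hO hi
  let f : cht k x i →+* ψ.range := (ψ.rangeRestrict : cht k x i →ₐ[k] ψ.range).toRingHom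
  have hf : Function.Surjective f := ψ.rangeRestrict_surjective
  let M : Ideal (cht k x i) := XP_ker hi
  have hM' : M.IsMaximal := hM
  have hker : RingHom.ker f ≤ M := by
    intro a ha
    have h1 : ψ a = 0 := congrArg Subtype.val ((RingHom.mem_ker).1 ha)
    change (⟨a, a.2⟩ : (cht k x i).toSubring) ∈ XP_ker hi
    rw [XP_mem_ker]
    intro hu
    have hu' : IsUnit (Subring.inclusion hOS (⟨a, hi a.2⟩ : O.toSubring)) := hu.map _
    exact (h.ne_iff a).2 hu' h1
  refine ⟨M.map f, Ideal.IsMaximal.map_of_surjective_of_ker_le hf hker, ?_⟩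
  intro a
  have h1 : (M.map f).comap f = M := by
    rw [Ideal.comap_map_of_surjective f hf, ← RingHom.ker_eq_comap_bot]
    exact sup_eq_left.2 hker
  have h2 : f a ∈ M.map f ↔ a ∈ M := by
    rw [← Ideal.mem_comap, h1]
  exact h2

end

/-- WM2. A function on the closed points which is constant on the curves in `S` is constant on `S`. -/
theorem comp_const [IsAlgClosed k] (hne : ∀ i, x i ≠ 0) {e : ℕ} (he : 1 ≤ e) {S : LocalSubring F}
    (hS : S ∈ Pts k x e) (h : LocalSubring F → ℚ)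
    (hc : ∀ P ∈ Pts k x 1, P.toSubring ≤ S.toSubring → ∀ O ∈ Pts k x 0, ∀ O' ∈ Pts k x 0,
      O.toSubring ≤ P.toSubring → O'.toSubring ≤ P.toSubring → h O = h O') :
    ∀ O ∈ Pts k x 0, ∀ O' ∈ Pts k x 0, O.toSubring ≤ S.toSubring → O'.toSubring ≤ S.toSubring →
      h O = h O' := by
  rcases Nat.eq_or_lt_of_le he with he1 | he2
  · subst he1
    exact fun O hO O' hO' h1 h2 => hc S hS le_rfl O hO O' hO' h1 h2
  have he2' : 2 ≤ e := he2
  -- the function field of `S`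
  have hconst : ∀ c : k, algebraMap k F c ∈ S.toSubring := by
    obtain ⟨j, Q, hQ, _, rfl⟩ := hS
    exact fun c => LocalSubring.le_ofPrime _ _ ((cht k x j).algebraMap_mem c)
  letI : Algebra k (Kap S) := XP_alg hconst
  have hcom : ∀ (c : k) (h : algebraMap k F c ∈ S.toSubring),
      algebraMap k (Kap S) c = residue S.toSubring ⟨algebraMap k F c, h⟩ := fun c h => rfl
  -- one chart
  have key : ∀ i : Fin (n + 1), ∀ O ∈ Pts k x 0, ∀ O' ∈ Pts k x 0, O.toSubring ≤ S.toSubring →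
      O'.toSubring ≤ S.toSubring → (cht k x i).toSubring ≤ O.toSubring →
      (cht k x i).toSubring ≤ O'.toSubring → h O = h O' := by
    intro i O hO O' hO' hOS hOS' hi hi'
    obtain ⟨ψ, hψ⟩ := xg_exists hcom (hi.trans hOS)
    have hB : DChart e ψ.range := WM2_dchart hne hS hψ
    haveI : Algebra.FiniteType k ψ.range := (Subalgebra.fg_iff_finiteType _).1 hB.fg
    obtain ⟨f, hf0, hf⟩ := reg_open (k := k) (A := ψ.range)
    have hbot : ∀ m : Ideal ψ.range, m.IsMaximal → m ≠ ⊥ := by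
      rintro m hm rfl
      have h5 := hB.height ⊥ hm
      have h6 : (⊥ : Ideal ψ.range).height = 0 := Ideal.height_eq_zero_iff_eq_bot.2 rfl
      rw [h6] at h5
      have h7 : (0 : ℕ) = e := by exact_mod_cast h5
      omega
    -- every closed point is connected with one outside `f = 0`
    have step : ∀ O ∈ Pts k x 0, O.toSubring ≤ S.toSubring →
        ∀ hi : (cht k x i).toSubring ≤ O.toSubring, ∃ O₁ ∈ Pts k x 0, h O = h O₁ ∧
          ∃ (hi₁ : (cht k x i).toSubring ≤ O₁.toSubring) (m₁ : Ideal ψ.range), m₁.IsMaximal ∧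
            f ∉ m₁ ∧ ∀ a : cht k x i, ψ.rangeRestrict a ∈ m₁ ↔
              (⟨a, a.2⟩ : (cht k x i).toSubring) ∈ XP_ker hi₁ := by
      intro O hO hOS hi
      obtain ⟨m, hm, hmO⟩ := WM2_ideal hne hψ hO hOS hi
      obtain ⟨P, hP, hPd, hPm, hfP⟩ := curve_through (k := k) m hm (hbot m hm) hf0
      haveI := hP
      obtain ⟨m₁, hm₁, hPm₁, hfm₁⟩ := exists_max (k := k) P hfP
      obtain ⟨O₁, hO₁, hO₁S, hi₁, hmO₁⟩ := WM2_point hψ hm₁
      obtain ⟨C, hC, hCS, hCm⟩ := curve_of_prime hne hψ P hPd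
      refine ⟨O₁, hO₁, ?_, hi₁, m₁, hm₁, hfm₁, hmO₁⟩
      exact hc C hC hCS O hO O₁ hO₁ (hCm m hm hPm O hO hi hmO) (hCm m₁ hm₁ hPm₁ O₁ hO₁ hi₁ hmO₁)
    obtain ⟨O₁, hO₁, h1, hi₁, m₁, hm₁, hfm₁, hmO₁⟩ := step O hO hOS hi
    obtain ⟨O₂, hO₂, h2, hi₂, m₂, hm₂, hfm₂, hmO₂⟩ := step O' hO' hOS' hi'
    rw [h1, h2]
    obtain ⟨P, hP, hPd, hPm₁, hPm₂⟩ := WM2_two he2' hB (hf m₁ hm₁ hfm₁) (hf m₂ hm₂ hfm₂)
    haveI := hP
    obtain ⟨C, hC, hCS, hCm⟩ := curve_of_prime hne hψ P hPd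
    exact hc C hC hCS O₁ hO₁ O₂ hO₂ (hCm m₁ hm₁ hPm₁ O₁ hO₁ hi₁ hmO₁)
      (hCm m₂ hm₂ hPm₂ O₂ hO₂ hi₂ hmO₂)
  -- two charts
  intro O hO O' hO' hOS hOS'
  obtain ⟨i, hi⟩ : ∃ i, (cht k x i).toSubring ≤ O.toSubring := by
    obtain ⟨i, m, hm, hd, hOe⟩ := hO
    exact ⟨i, by rw [hOe]; exact LocalSubring.le_ofPrime _ m⟩
  obtain ⟨j, hj⟩ : ∃ j, (cht k x j).toSubring ≤ O'.toSubring := by
    obtain ⟨i, m, hm, hd, hOe⟩ := hO'
    exact ⟨i, by rw [hOe]; exact LocalSubring.le_ofPrime _ m⟩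
  obtain ⟨ψ, hψ⟩ := xg_exists hcom (hi.trans hOS)
  have hB : DChart e ψ.range := WM2_dchart hne hS hψ
  haveI : Algebra.FiniteType k ψ.range := (Subalgebra.fg_iff_finiteType _).1 hB.fg
  let g : cht k x i := ⟨x j / x i, xcen_coord i j⟩
  have hg : ψ.rangeRestrict g ∉ (⊥ : Ideal ψ.range) := by
    intro h0
    have h1 : ψ g = 0 := congrArg Subtype.val ((Submodule.mem_bot _).1 h0)
    refine (hψ.ne_iff g).2 ?_ h1
    refine IsUnit.of_mul_eq_one ⟨x i / x j, hOS' (hj (xcen_coord j i))⟩ (Subtype.ext ?_)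
    change x j / x i * (x i / x j) = 1
    rw [div_mul_div_cancel₀ (hne i), div_self (hne j)]
  obtain ⟨m₁, hm₁, -, hgm₁⟩ := exists_max (k := k) (⊥ : Ideal ψ.range) hg
  obtain ⟨O₁, hO₁, hO₁S, hi₁, hmO₁⟩ := WM2_point hψ hm₁
  have hu : IsUnit (⟨x j / x i, hi₁ (xcen_coord i j)⟩ : O₁.toSubring) := by
    by_contra hcon
    exact hgm₁ ((hmO₁ g).2 ((XP_mem_ker hi₁ _).2 hcon))
  have hinv : x i / x j ∈ O₁.toSubring := by
    have h1 := xcen_inv_mem O₁ _ hu
    rwa [inv_div] at h1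
  have hj₁ : (cht k x j).toSubring ≤ O₁.toSubring := xg_sub O₁ hne hi₁ hinv
  exact (key i O hO O₁ hO₁ hOS hO₁S hi hi₁).trans (key j O₁ hO₁ O' hO' hO₁S hOS' hj₁ hj)

end Pool.Agent.Lib.MP_b197b4_ntBW
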