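import Mathlib
import Pool.Agent.Lib.MP_b197b4_ntBW.WF
import Pool.Agent.Lib.MP_b197b4_ntBW.WH
import Pool.Agent.Lib.MP_b197b4_ntBW.WJ
import Pool.Agent.Lib.MP_b197b4_ntBW.WM

/-!
# MP_b197b4_nt, project BW: the fibres are connected
-/

set_option autoImplicit false
set_option linter.style.haveILetI false

namespace Pool.Agent.Lib.MP_b197b4_ntBW

open IsLocalRing Pool.Agent.Lib.MP_b197b4_ntK Pool.Agent.Lib.MP_b197b4_ntA
  Pool.Agent.Lib.MP_b197b4_ntBV

variable {k F : Type} [Field k] [Field F] [Algebra k F] {n D : ℕ} {x : Fin (n + 1) → F}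
  {K₀ : IntermediateField k F} {v : ValuationSubring K₀}

/-- The place `v` as an algebra over the constants. -/
@[reducible] noncomputable def WN_alg (hk : Over k v) : Algebra k v :=
  ((algebraMap k K₀).codRestrict v hk).toAlgebra

theorem WN_tower (hk : Over k v) : @IsScalarTower k v F (WN_alg hk).toSMul _ _ := by
  letI := WN_alg hk
  exact IsScalarTower.of_algebraMap_eq fun c => rfl

/-- Elements of `F` which are integral over `v` are in `v`. -/
theorem WN_closed (hF : FibX k D x K₀) (u : F) (hu : IsIntegral v u) :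
    ∃ r : v, algebraMap v F r = u := by
  have h1 : IsIntegral K₀ u := hu.tower_top
  have h2 : u ∈ K₀ := hF.closed u h1.isAlgebraic
  have h3 : IsIntegral v (⟨u, h2⟩ : K₀) := by
    have h4 : IsIntegral v (algebraMap K₀ F ⟨u, h2⟩) := hu
    exact (isIntegral_algebraMap_iff (algebraMap K₀ F).injective).1 h4
  obtain ⟨r, hr⟩ := (IsIntegrallyClosed.isIntegral_iff (R := v) (K := K₀)).1 h3
  refine ⟨r, ?_⟩
  rw [IsScalarTower.algebraMap_apply v K₀ F, hr]
  rfl

/-- A component of the fibre lies over `v`. -/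
theorem WN_val {V : ValuationSubring F} (hV : OverPl K₀ v V.toSubring) (r : v) :
    algebraMap v F r ∈ V ∧
      (V.valuation (algebraMap v F r) < 1 ↔ r ∈ IsLocalRing.maximalIdeal v) := by
  have h1 : algebraMap v F r = ((r : K₀) : F) := rfl
  have h2 : ((r : K₀) : F) ∈ V := (hV r).1 r.2
  refine ⟨h2, ?_⟩
  rw [h1]
  have h3 := V.valuation_lt_one_iff ⟨_, h2⟩
  have h4 := v.valuation_lt_one_iff r
  rw [h4]
  constructor
  · intro h
    by_contra h5
    rw [not_lt] at h5
    have hr0 : (r : K₀) ≠ 0 := by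
      intro h0
      rw [h0, map_zero] at h5
      exact absurd h5 (not_le.2 zero_lt_one)
    have h6 : (r : K₀)⁻¹ ∈ v := by
      rw [← ValuationSubring.valuation_le_one_iff, map_inv₀]
      exact inv_le_one_of_one_le₀ h5
    have h7 : (((r : K₀)⁻¹ : K₀) : F) ∈ V := (hV _).1 h6
    have h8 : (((r : K₀)⁻¹ : K₀) : F) = ((r : K₀) : F)⁻¹ := rfl
    rw [h8, ← ValuationSubring.valuation_le_one_iff, map_inv₀] at h7
    have hr0' : ((r : K₀) : F) ≠ 0 := fun h0 => hr0 (Subtype.ext h0)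
    have h9 : 0 < V.valuation ((r : K₀) : F) := by rw [Valuation.pos_iff]; exact hr0'
    exact absurd h (not_lt.2 ((inv_le_one₀ h9).1 h7))
  · intro h
    by_contra h5
    rw [not_lt] at h5
    have hr0' : ((r : K₀) : F) ≠ 0 := by
      intro h0
      rw [h0, map_zero] at h5
      exact absurd h5 (not_le.2 zero_lt_one)
    have h6 : ((r : K₀) : F)⁻¹ ∈ V := by
      rw [← ValuationSubring.valuation_le_one_iff, map_inv₀]
      exact inv_le_one_of_one_le₀ h5
    have h7 : (r : K₀)⁻¹ ∈ v := (hV _).2 h6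
    rw [← ValuationSubring.valuation_le_one_iff, map_inv₀] at h7
    have hr0 : (r : K₀) ≠ 0 := fun h0 => hr0' (by rw [h0]; rfl)
    have h9 : 0 < v.valuation (r : K₀) := by rw [Valuation.pos_iff]; exact hr0
    exact absurd h (not_lt.2 ((inv_le_one₀ h9).1 h7))

/-- The function `h` is constant on the components of the fibre over `v`. -/
theorem WN_const [IsAlgClosed k] (hD : 2 ≤ D) (hF : FibX k D x K₀) (h : LocalSubring F → ℚ)
    (hc : ∀ P ∈ Pts k x 1, ¬ HorX K₀ P → ∀ O ∈ Pts k x 0, ∀ O' ∈ Pts k x 0,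
      O.toSubring ≤ P.toSubring → O'.toSubring ≤ P.toSubring → h O = h O')
    (hv : Place k v) {V : ValuationSubring F} (hV : V ∈ Cmp k D x v) {O O' : LocalSubring F}
    (hO : O ∈ Pts k x 0) (hO' : O' ∈ Pts k x 0) (hOV : O.toSubring ≤ V.toSubring)
    (hOV' : O'.toSubring ≤ V.toSubring) : h O = h O' := by
  obtain ⟨-, hVv, S, hS, hSV⟩ := hV
  refine comp_const hF.var.ne (e := D - 1) (by omega) hS h ?_ O hO O' hO' (hSV ▸ hOV) (hSV ▸ hOV')
  intro P hP hPS
  refine hc P hP ?_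
  intro hH
  obtain ⟨t, -, -, ht, -⟩ := V0_unif hv
  apply ht
  rw [hVv]
  rw [← hSV]
  exact hPS (hH _ (t⁻¹).2)

/-- WN. PROOF: otherwise let `C₁` be the components `V` with a closed point `O₁ ≤ V`, `h O₁ = h O`,
`C₂` the others. By `comp_const` (for the point `S` of `V`; the curves `P ≤ S` are vertical) `h` is
constant on the closed points of every component, so no closed point is on components of both
kinds. `exists_cmp`: both are not empty. `conn_abs` with `R = v` (`he` by `exists_eX` and `sq_chart`,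
`hn` by `norm_BX`, `hcl` by `hF.closed` and `v` integrally closed in `K₀`). -/
theorem fib_connX [IsAlgClosed k] (hD : 2 ≤ D) (hF : FibX k D x K₀) (h : LocalSubring F → ℚ)
    (hc : ∀ P ∈ Pts k x 1, ¬ HorX K₀ P → ∀ O ∈ Pts k x 0, ∀ O' ∈ Pts k x 0,
      O.toSubring ≤ P.toSubring → O'.toSubring ≤ P.toSubring → h O = h O')
    (hv : Place k v) {O O' : LocalSubring F} (hO : O ∈ Pts k x 0) (hO' : O' ∈ Pts k x 0)
    (hOv : OverPl K₀ v O.toSubring) (hOv' : OverPl K₀ v O'.toSubring) : h O = h O' := by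
  by_contra hne
  set C₁ : Set (ValuationSubring F) :=
    {V | V ∈ Cmp k D x v ∧ ∃ O₁ ∈ Pts k x 0, O₁.toSubring ≤ V.toSubring ∧ h O₁ = h O} with hC₁
  set C₂ : Set (ValuationSubring F) :=
    {V | V ∈ Cmp k D x v ∧ ∀ O₁ ∈ Pts k x 0, O₁.toSubring ≤ V.toSubring → h O₁ ≠ h O} with hC₂
  have hfin := cmp_finite hF hv
  have hf₁ : C₁.Finite := hfin.subset fun V hV => hV.1
  have hf₂ : C₂.Finite := hfin.subset fun V hV => hV.1
  have hU : ∀ V ∈ Cmp k D x v, V ∈ C₁ ∪ C₂ := by
    intro V hV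
    by_cases h1 : ∃ O₁ ∈ Pts k x 0, O₁.toSubring ≤ V.toSubring ∧ h O₁ = h O
    · exact Or.inl ⟨hV, h1⟩
    · right
      refine ⟨hV, ?_⟩
      intro O₁ hO₁ h2 h3
      exact h1 ⟨O₁, hO₁, h2, h3⟩
  have hsub : ∀ V ∈ C₁ ∪ C₂, V ∈ Cmp k D x v := by
    rintro V (hV | hV)
    · exact hV.1
    · exact hV.1
  -- the constants
  have hk : Over k v := hv.2
  letI := WN_alg hk
  haveI : IsScalarTower k v F := WN_tower hk
  haveI : IsDiscreteValuationRing v := hv.1
  haveI : Infinite k := IsAlgClosed.instInfinite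
  have hinj : Function.Injective (algebraMap v F) := by
    intro a b hab
    exact Subtype.ext (Subtype.ext hab)
  haveI : FaithfulSMul v F := (faithfulSMul_iff_algebraMap_injective _ _).2 hinj
  obtain ⟨t, ht0, htv, hti, -⟩ := V0_unif hv
  have hov : ∀ V ∈ Cmp k D x v, IsDiscreteValuationRing V ∧ Over k V := by
    intro V hV
    refine ⟨hV.1, fun c => ?_⟩
    have h1 := (hV.2.1 (algebraMap k K₀ c)).1 (hk c)
    exact h1
  have hd : ∀ V ∈ C₁, ∀ V' ∈ C₂, ∀ O ∈ Pts k x 0, O.toSubring ≤ V.toSubring →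
      ¬ O.toSubring ≤ V'.toSubring := by
    intro V hV V' hV' O₂ hO₂ h1 h2
    obtain ⟨O₁, hO₁, h3, h4⟩ := hV.2
    apply hV'.2 O₂ hO₂ h2
    rw [← h4]
    exact WN_const hD hF h hc hv hV.1 hO₂ hO₁ h1 h3
  have hspan : ∀ w ∈ Submodule.span k (Set.range x), w ∈ sq v x 1 := by
    intro w hw
    obtain ⟨c, hc'⟩ := (Submodule.mem_span_range_iff_exists_fun k).1 hw
    have h1 : w = lf x c := by
      rw [← hc', lf]
      exact Finset.sum_congr rfl fun i _ => Algebra.smul_def _ _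
    rw [h1]
    exact sq_lf c
  have hcon := conn_abs (k := k) (R := v) (F := F) (fun u hu => WN_closed hF u hu) (x := x)
    hF.var.ne (t := ⟨t, htv⟩) (by
      intro h0
      exact ht0 (congrArg Subtype.val h0)) hf₁ hf₂
    (fun V hV r => WN_val (hsub V hV).2.1 r) (by
      rw [mem_maximalIdeal, mem_nonunits_iff]
      intro hu
      obtain ⟨b, hb⟩ := hu.exists_right_inv
      apply hti
      have h1 : t * (b : K₀) = 1 := congrArg Subtype.val hb
      rw [inv_eq_of_mul_eq_one_right h1]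
      exact b.2)
    (by
      intro m w hw hw0
      have ht0' : ((t : F)) ^ m ≠ 0 := pow_ne_zero _ fun h0 => ht0 (Subtype.ext h0)
      obtain ⟨e, he, he1, he2⟩ := exists_eX (k := k) hF.var.ne hw hw0 ht0' hf₁ hf₂
        (fun V hV => hov V hV.1) (fun V hV => hov V hV.1) hd
      exact ⟨e, sq_chart (hspan w hw) hw0 he, he1, he2⟩)
    (by
      intro m w hw hw0 w' hw' hw0' f hf hreg
      exact norm_BX hD hF hv ht0 htv hti m hw hw0 hw' hw0' hf
        (fun V hV h1 h2 => hreg V (hU V hV) h1 h2))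
  obtain ⟨V, hV, hOV⟩ := exists_cmp hF hv hO hOv
  obtain ⟨V', hV', hOV'⟩ := exists_cmp hF hv hO' hOv'
  have h1 : V ∈ C₁ := ⟨hV, O, hO, hOV, rfl⟩
  have h2 : V' ∈ C₂ := by
    refine ⟨hV', fun O₁ hO₁ h3 h4 => ?_⟩
    apply hne
    rw [← h4]
    exact WN_const hD hF h hc hv hV' hO₁ hO' h3 hOV'
  rcases hcon with h3 | h3
  · rw [h3] at h1
    exact h1
  · rw [h3] at h2
    exact h2

end Pool.Agent.Lib.MP_b197b4_ntBW
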