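import Mathlib
import Pool.Agent.Lib.MP_b197b4_ntBW.WK2
import Pool.Agent.Lib.MP_b197b4_ntBV.VD
import Pool.Agent.Lib.MP_b197b4_ntA.XG3

/-!
# MP_b197b4_nt, project BW: vertical and horizontal curves
-/

set_option autoImplicit false

namespace Pool.Agent.Lib.MP_b197b4_ntBW

open IsLocalRing Pool.Agent.Lib.MP_b197b4_ntK Pool.Agent.Lib.MP_b197b4_ntA
  Pool.Agent.Lib.MP_b197b4_ntBV

/-- The place of `K` induced by a place of `L`. -/
theorem WO2_comap {k K L : Type} [Field k] [IsAlgClosed k] [Field K] [Field L] [Algebra k K]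
    [Algebra k L] [Algebra K L] [IsScalarTower k K L] (hK : FunF k K 1) (hL : FunF k L 1)
    {W : ValuationSubring L} (hW : Place k W) : Place k (W.comap (algebraMap K L)) := by
  have hfin : Module.Finite K L := VD_finite hK hL
  have hk : Over k (W.comap (algebraMap K L)) := fun c => by
    change algebraMap K L (algebraMap k K c) ∈ W
    rw [← IsScalarTower.algebraMap_apply k K L]
    exact hW.2 c
  refine ⟨C1_dvr hK _ hk fun h => VD_ne_top hW.1 ?_, hk⟩
  rw [eq_top_iff]
  intro y _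
  refine cur3_integral (A := K) W (fun a => ?_) (Algebra.IsIntegral.isIntegral y)
  have h1 : a ∈ W.comap (algebraMap K L) := by
    rw [h]
    exact ValuationSubring.mem_top a
  exact h1

/-- Grouping of the places. -/
theorem WO2_group {k K L : Type} [Field k] [IsAlgClosed k] [Field K] [Field L] [Algebra k K]
    [Algebra k L] [Algebra K L] [IsScalarTower k K L] (hK : FunF k K 1) (hL : FunF k L 1)
    (H : ValuationSubring K → ℚ) {u : L} (hu : u ≠ 0) :
    ∑ᶠ (W : ValuationSubring L) (_ : Place k W), H (W.comap (algebraMap K L)) * ord W u =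
      ∑ᶠ (v : ValuationSubring K) (_ : Place k v), H v * ord v (Algebra.norm K u) := by
  classical
  have hT := C1_fin hL u hu
  obtain ⟨T, hTd⟩ : ∃ T, T = hT.toFinset := ⟨_, rfl⟩
  have hmT : ∀ W, W ∈ T ↔ Place k W ∧ ord W u ≠ 0 := fun W => by
    rw [hTd, Set.Finite.mem_toFinset]
    rfl
  have e1 : ∑ᶠ (W : ValuationSubring L) (_ : Place k W), H (W.comap (algebraMap K L)) * ord W u =
      ∑ W ∈ T, H (W.comap (algebraMap K L)) * ord W u := by
    refine finsum_mem_eq_sum_of_subset (s := {W : ValuationSubring L | Place k W}) _ ?_ ?_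
    · rintro W ⟨hW, hs⟩
      refine Finset.mem_coe.2 ((hmT W).2 ⟨hW, fun h0 => hs ?_⟩)
      change H (W.comap (algebraMap K L)) * ((ord W u : ℤ) : ℚ) = 0
      rw [h0, Int.cast_zero, mul_zero]
    · intro W hW
      exact ((hmT W).1 (Finset.mem_coe.1 hW)).1
  have e2 : ∀ v : ValuationSubring K, Place k v → ((ord v (Algebra.norm K u) : ℤ) : ℚ) =
      ∑ W ∈ T with W.comap (algebraMap K L) = v, (ord W u : ℚ) := by
    intro v hv
    rw [ord_norm hK hL v hv hu]
    have e3 : ∑ᶠ (W : ValuationSubring L) (_ : Place k W ∧ W.comap (algebraMap K L) = v),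
        ord W u = ∑ W ∈ T with W.comap (algebraMap K L) = v, ord W u := by
      refine finsum_mem_eq_sum_of_subset
        (s := {W : ValuationSubring L | Place k W ∧ W.comap (algebraMap K L) = v}) _ ?_ ?_
      · rintro W ⟨hW, hs⟩
        exact Finset.mem_coe.2 (Finset.mem_filter.2 ⟨(hmT W).2 ⟨hW.1, hs⟩, hW.2⟩)
      · intro W hW
        have h1 := Finset.mem_filter.1 (Finset.mem_coe.1 hW)
        exact ⟨((hmT W).1 h1.1).1, h1.2⟩
    rw [e3]
    push_cast
    rfl
  have e4 : ∑ᶠ (v : ValuationSubring K) (_ : Place k v), H v * ord v (Algebra.norm K u) =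
      ∑ v ∈ T.image (fun W => W.comap (algebraMap K L)), H v * ord v (Algebra.norm K u) := by
    refine finsum_mem_eq_sum_of_subset (s := {v : ValuationSubring K | Place k v}) _ ?_ ?_
    · rintro v ⟨hv, hs⟩
      by_contra hn
      apply hs
      change H v * ((ord v (Algebra.norm K u) : ℤ) : ℚ) = 0
      rw [e2 v hv, Finset.sum_eq_zero, mul_zero]
      intro W hW
      exfalso
      have h1 := Finset.mem_filter.1 hW
      exact hn (Finset.mem_coe.2 (Finset.mem_image.2 ⟨W, h1.1, h1.2⟩))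
    · intro v hv
      obtain ⟨W, hW, rfl⟩ := Finset.mem_image.1 (Finset.mem_coe.1 hv)
      exact WO2_comap hK hL ((hmT W).1 hW).1
  rw [e1, e4, ← Finset.sum_fiberwise_of_maps_to
    (t := T.image (fun W => W.comap (algebraMap K L)))
    (g := fun W => W.comap (algebraMap K L)) fun W hW => Finset.mem_image_of_mem _ hW]
  refine Finset.sum_congr rfl fun v hv => ?_
  have hvp : Place k v := by
    obtain ⟨W, hW, rfl⟩ := Finset.mem_image.1 hv
    exact WO2_comap hK hL ((hmT W).1 hW).1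
  rw [e2 v hvp, Finset.mul_sum]
  refine Finset.sum_congr rfl fun W hW => ?_
  rw [(Finset.mem_filter.1 hW).2]

open Classical in
/-- The sum over the points is a sum over the places. -/
theorem WO2_sum {k F : Type} [Field k] [Field F] [Algebra k F] {n : ℕ} {x : Fin (n + 1) → F}
    {P : LocalSubring F} [Algebra k (Kap P)] [IsAlgClosed k] (hne : ∀ i, x i ≠ 0)
    (hcom : ∀ (c : k) (h : algebraMap k F c ∈ P.toSubring),
      algebraMap k (Kap P) c = residue P.toSubring ⟨algebraMap k F c, h⟩)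
    (hP : P ∈ Pts k x 1) (hF : FunF k (Kap P) 1)
    {hK : ValuationSubring (Kap P) → ℚ} {h : LocalSubring F → ℚ}
    (hh : ∀ W, Place k W → ∀ O ∈ Pts k x 0, Cen O P W → hK W = h O) {u : Kap P}
    (hu : u ≠ 0) :
    ∑ᶠ (O : LocalSubring F) (_ : O ∈ Pts k x 0 ∧ O.toSubring ≤ P.toSubring),
        h O * len (locSub O P) u =
      ∑ᶠ (W : ValuationSubring (Kap P)) (_ : Place k W), hK W * ord W u := by
  have hfin := ord_finite hF u hu
  have hT : ∀ W, W ∈ hfin.toFinset ↔ Place k W ∧ ord W u ≠ 0 := fun W => by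
    rw [Set.Finite.mem_toFinset]
    rfl
  have hex : ∀ W : ValuationSubring (Kap P), ∃ O : LocalSubring F, Place k W → O ∈ Pts k x 0 ∧
      Cen O P W := by
    intro W
    by_cases hW : Place k W
    · obtain ⟨O, h1, h2⟩ := xg_cen_exists hne hcom hP hW
      exact ⟨O, fun _ => ⟨h1, h2⟩⟩
    · exact ⟨P, fun h => absurd h hW⟩
  choose cen hcen using hex
  have hlen : ∀ O, O ∈ Pts k x 0 → O.toSubring ≤ P.toSubring →
      len (locSub O P) u = ∑ W ∈ hfin.toFinset with cen W = O, ord W u := by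
    intro O hO hOP
    rw [xg_len hne hcom hP hO hOP hu]
    refine finsum_mem_eq_sum_of_inter_support_eq (fun W => ord W u)
      (s := {W | Place k W ∧ Cen O P W}) ?_
    ext W
    simp only [Set.mem_inter_iff, Set.mem_ofPred_eq, Function.mem_support, Finset.coe_filter, hT]
    constructor
    · rintro ⟨⟨h1, h2⟩, h3⟩
      exact ⟨⟨⟨h1, h3⟩, xcen_unique hne (hcen W h1).1 hO P W (hcen W h1).2 h2⟩, h3⟩
    · rintro ⟨⟨⟨h1, h2⟩, h3⟩, h4⟩
      refine ⟨⟨h1, ?_⟩, h4⟩
      rw [← h3]
      exact (hcen W h1).2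
  have hsub : ∀ O, O ∈ Pts k x 0 → O.toSubring ≤ P.toSubring → len (locSub O P) u ≠ 0 →
      O ∈ hfin.toFinset.image cen := by
    intro O hO hOP h1
    rw [hlen O hO hOP] at h1
    obtain ⟨W, hW, _⟩ := Finset.exists_ne_zero_of_sum_ne_zero h1
    rw [Finset.mem_filter] at hW
    exact Finset.mem_image.2 ⟨W, hW.1, hW.2⟩
  have himg : ∀ O ∈ hfin.toFinset.image cen, O ∈ Pts k x 0 ∧ O.toSubring ≤ P.toSubring := by
    intro O hO
    obtain ⟨W, hW, rfl⟩ := Finset.mem_image.1 hO
    have h1 := hcen W ((hT W).1 hW).1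
    exact ⟨h1.1, h1.2.1⟩
  have e1 : ∑ᶠ (W : ValuationSubring (Kap P)) (_ : Place k W), hK W * (ord W u : ℚ) =
      ∑ W ∈ hfin.toFinset, hK W * ord W u := by
    refine finsum_mem_eq_sum_of_inter_support_eq (fun W => hK W * (ord W u : ℚ))
      (s := {W | Place k W}) ?_
    ext W
    simp only [Set.mem_inter_iff, Set.mem_ofPred_eq, Function.mem_support, Finset.mem_coe, hT]
    constructor
    · rintro ⟨h1, h2⟩
      refine ⟨⟨h1, fun h3 => h2 ?_⟩, h2⟩
      rw [h3, Int.cast_zero, mul_zero]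
    · rintro ⟨⟨h1, _⟩, h3⟩
      exact ⟨h1, h3⟩
  have e3 : ∑ᶠ (O : LocalSubring F) (_ : O ∈ Pts k x 0 ∧ O.toSubring ≤ P.toSubring),
        h O * (len (locSub O P) u : ℚ) =
      ∑ O ∈ hfin.toFinset.image cen, h O * (len (locSub O P) u : ℚ) := by
    refine finsum_mem_eq_sum_of_inter_support_eq (fun O => h O * (len (locSub O P) u : ℚ))
      (s := {O | O ∈ Pts k x 0 ∧ O.toSubring ≤ P.toSubring}) ?_
    ext O
    simp only [Set.mem_inter_iff, Set.mem_ofPred_eq, Function.mem_support, Finset.mem_coe]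
    constructor
    · rintro ⟨h1, h2⟩
      refine ⟨hsub O h1.1 h1.2 fun h3 => h2 ?_, h2⟩
      rw [h3, Int.cast_zero, mul_zero]
    · rintro ⟨h1, h2⟩
      exact ⟨himg O h1, h2⟩
  rw [e3, e1]
  have e4 : ∑ W ∈ hfin.toFinset, hK W * (ord W u : ℚ) =
      ∑ W ∈ hfin.toFinset, h (cen W) * (ord W u : ℚ) := by
    refine Finset.sum_congr rfl fun W hW => ?_
    have h2 := ((hT W).1 hW).1
    rw [hh W h2 (cen W) (hcen W h2).1 (hcen W h2).2]
  rw [e4, ← Finset.sum_fiberwise_of_maps_to (g := cen) (t := hfin.toFinset.image cen)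
    fun W hW => Finset.mem_image_of_mem cen hW]
  refine Finset.sum_congr rfl fun O hO => ?_
  rw [hlen O (himg O hO).1 (himg O hO).2, Int.cast_sum, Finset.mul_sum]
  refine Finset.sum_congr rfl fun W hW => ?_
  rw [(Finset.mem_filter.1 hW).2]

variable {k F : Type} [Field k] [Field F] [Algebra k F] {n D : ℕ} {x : Fin (n + 1) → F}
  {K₀ : IntermediateField k F} {v : ValuationSubring K₀}

/-- WO2. MODEL: `ntBV/VE`. PROOF: `xg_sum` (or `xg_len`, `xg_cen_exists`): the sum is `∑ H (W ∩ K₀) *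
ord W u` over the places `W` of `Kap P`; group by `v = W ∩ K₀`; `ord_norm` (ntBV/VD) for
`Kap P / K₀`. -/
theorem norm_lenX [IsAlgClosed k] (hF : FibX k D x K₀) {P : LocalSubring F} (hP1 : P ∈ Pts k x 1)
    (hP : HorX K₀ P) (h : LocalSubring F → ℚ) (H : ValuationSubring K₀ → ℚ)
    (hh : ∀ O ∈ Pts k x 0, ∀ v, Place k v → OverPl K₀ v O.toSubring → h O = H v) {u : Kap P}
    (hu : u ≠ 0) :
    ∑ᶠ (O : LocalSubring F) (_ : O ∈ Pts k x 0 ∧ O.toSubring ≤ P.toSubring),
        h O * len (locSub O P) u =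
      ∑ᶠ (v : ValuationSubring K₀) (_ : Place k v), H v * ord v (nrmX K₀ P u) := by
  classical
  have hP1' := hP1
  obtain ⟨i, P₀, hP₀, hd, hPe⟩ := hP1'
  have hi : (cht k x i).toSubring ≤ P.toSubring := by
    rw [hPe]
    exact LocalSubring.le_ofPrime _ P₀
  have hc : ∀ c : k, algebraMap k F c ∈ P.toSubring := XP_const hi
  let _ : Algebra k (Kap P) := XP_alg hc
  let _ : Algebra K₀ (Kap P) := (toKap K₀ P hP).toAlgebra
  have _ : IsScalarTower k K₀ (Kap P) := IsScalarTower.of_algebraMap_eq fun c => rfl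
  have hcom : ∀ (c : k) (h : algebraMap k F c ∈ P.toSubring),
      algebraMap k (Kap P) c = residue P.toSubring ⟨algebraMap k F c, h⟩ := fun c h => rfl
  obtain ⟨ψ, hψ⟩ := xg_exists hcom hi
  have hne := hF.var.ne
  have hL : FunF k (Kap P) 1 := hψ.fun1 hne hP1
  have hn : nrmX K₀ P u = Algebra.norm K₀ u := dif_pos hP
  have hH : ∀ W, Place k W → ∀ O ∈ Pts k x 0, Cen O P W →
      H (W.comap (algebraMap K₀ (Kap P))) = h O := by
    intro W hW O hO hOW
    obtain ⟨w, hw, hwO⟩ := point_placeX hF hO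
    have hfin : Module.Finite K₀ (Kap P) := VD_finite hF.base hL
    have h1 : W.comap (algebraMap K₀ (Kap P)) = w := by
      refine VD_comap hw.1 (fun t ht => ?_) (VD_ne_top hW.1)
      have h2 : (t : F) ∈ O.toSubring := (hwO t).1 ht
      exact (hOW.2 (t : F) h2 (hP t t.2)).1
    rw [h1]
    exact (hh O hO w hw hwO).symm
  rw [WO2_sum hne hcom hP1 hL hH hu, hn]
  exact WO2_group hF.base hL H hu

end Pool.Agent.Lib.MP_b197b4_ntBW
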