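import Mathlib
import Pool.Agent.Lib.MP_b197b4_ntBW.Defs
import Pool.Agent.Lib.MP_b197b4_ntA.XG3

/-!
# MP_b197b4_nt, project BW: vertical and horizontal curves
-/

set_option autoImplicit false

namespace Pool.Agent.Lib.MP_b197b4_ntBW

open IsLocalRing Pool.Agent.Lib.MP_b197b4_ntK Pool.Agent.Lib.MP_b197b4_ntA
  Pool.Agent.Lib.MP_b197b4_ntBV

variable {k F : Type} [Field k] [Field F] [Algebra k F] {n D : ℕ} {x : Fin (n + 1) → F}
  {K₀ : IntermediateField k F} {v : ValuationSubring K₀}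

/-- WO1. MODEL: `ntBV/VC`. PROOF: `xg_place_exists` gives places `W`, `W'` of `Kap P` over `O`, `O'`
(with `XP_alg`), `W ≠ W'` if `O ≠ O'` (`xcen_unique`); `Pic` gives `c` with divisor `M (W - W')`;
`xg_len`: `len (locSub O P) c = M`, `len (locSub O' P) c = - M`, the other lengths are zero. -/
theorem vert_constX [IsAlgClosed k] (hP : Pic k) (hne : ∀ i, x i ≠ 0) {P : LocalSubring F}
    (hP1 : P ∈ Pts k x 1) (h : LocalSubring F → ℚ)
    (h0 : ∀ u : Kap P, u ≠ 0 → ∑ᶠ (O : LocalSubring F) (_ : O ∈ Pts k x 0 ∧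
      O.toSubring ≤ P.toSubring), h O * len (locSub O P) u = 0) {O O' : LocalSubring F}
    (hO : O ∈ Pts k x 0) (hO' : O' ∈ Pts k x 0) (hOP : O.toSubring ≤ P.toSubring)
    (hOP' : O'.toSubring ≤ P.toSubring) : h O = h O' := by
  classical
  have hP1' := hP1
  obtain ⟨i, P₀, hP₀, hd, hPe⟩ := hP1'
  have hi : (cht k x i).toSubring ≤ P.toSubring := by
    rw [hPe]
    exact LocalSubring.le_ofPrime _ P₀
  have hc : ∀ c : k, algebraMap k F c ∈ P.toSubring := XP_const hi
  let _ : Algebra k (Kap P) := XP_alg hc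
  have hcom : ∀ (c : k) (h : algebraMap k F c ∈ P.toSubring),
      algebraMap k (Kap P) c = residue P.toSubring ⟨algebraMap k F c, h⟩ := fun c h => rfl
  obtain ⟨ψ, hψ⟩ := xg_exists hcom hi
  have hF := hψ.fun1 hne hP1
  obtain ⟨W, hW, hWO⟩ := xg_place_exists hne hcom hP1 hO hOP
  obtain ⟨W', hW', hWO'⟩ := xg_place_exists hne hcom hP1 hO' hOP'
  by_cases hWW : W = W'
  · subst hWW
    rw [xcen_unique hne hO hO' P W hWO hWO']
  obtain ⟨u, M, hu, hM, h1, h2, h3⟩ := hP (Kap P) hF W W' hW hW' hWW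
  have hex : ∀ W : ValuationSubring (Kap P), ∃ q : ℚ, Place k W →
      ∀ O ∈ Pts k x 0, Cen O P W → q = h O := by
    intro W
    by_cases hW : Place k W
    · obtain ⟨O, hO, h1⟩ := xg_cen_exists hne hcom hP1 hW
      exact ⟨h O, fun _ O' hO' h1' => by rw [xcen_unique hne hO hO' P W h1 h1']⟩
    · exact ⟨0, fun h => absurd h hW⟩
  choose H hH using hex
  have hg : GivenK k (fun c : Kap P => ∑ᶠ (W : ValuationSubring (Kap P)) (_ : Place k W),
      H W * ord W c) H := fun c _ => rfl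
  have hs := (xg_sum hP hne hcom hP1 hF hg (h := h) (c := 0)
    (fun W hW O hO hc => by rw [add_zero]; exact hH W hW O hO hc) hu).2
  have h5 : ∑ᶠ (W : ValuationSubring (Kap P)) (_ : Place k W), H W * (ord W u : ℚ) =
      ∑ W ∈ {W, W'}, H W * (ord W u : ℚ) := by
    refine finsum_cond_eq_sum_of_cond_iff _ fun {W''} hne'' => ?_
    rw [Finset.mem_insert, Finset.mem_singleton]
    constructor
    · intro h6
      by_contra h7
      push Not at h7
      apply hne''
      rw [h3 W'' h6 h7.1 h7.2, Int.cast_zero, mul_zero]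
    · rintro (rfl | rfl)
      · exact hW
      · exact hW'
  have h4 : ∑ᶠ (W : ValuationSubring (Kap P)) (_ : Place k W), H W * (ord W u : ℚ) = 0 :=
    hs.trans (h0 u hu)
  rw [h5, Finset.sum_pair hWW, h1, h2, hH W hW O hO hWO, hH W' hW' O' hO' hWO'] at h4
  have h6 : (0 : ℚ) < M := by exact_mod_cast hM
  push_cast at h4
  have h7 : (h O - h O') * M = 0 := by linarith
  rcases mul_eq_zero.1 h7 with h8 | h8
  · linarith
  · exact absurd h8 h6.ne'

end Pool.Agent.Lib.MP_b197b4_ntBW
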