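import Mathlib
import Pool.Agent.Lib.MP_b197b4_ntBW.Defs
import Pool.Agent.Lib.MP_b197b4_ntA.XDual

/-!
# MP_b197b4_nt, project BW: forms on the horizontal curves, duality
-/

set_option autoImplicit false

namespace Pool.Agent.Lib.MP_b197b4_ntBW

open IsLocalRing Pool.Agent.Lib.MP_b197b4_ntK Pool.Agent.Lib.MP_b197b4_ntA

variable {k F : Type} [Field k] [Field F] [Algebra k F] {n D : ℕ} {x : Fin (n + 1) → F}
  {K₀ : IntermediateField k F}

/-- The boundaries of the symbols on the horizontal surfaces, restricted to the horizontal curves. -/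
theorem WP2_bd (hne : ∀ i, x i ≠ 0) (q : Σ S : LocalSubring F, Kap S × Kap S)
    (hS : q.1 ∈ Pts k x 2) (h1 : q.2.1 ≠ 0) (h2 : q.2.2 ≠ 0) :
    ∃ y : XGrp {P : LocalSubring F | P ∈ Pts k x 1 ∧ HorX K₀ P},
      ∀ P : {P : LocalSubring F | P ∈ Pts k x 1 ∧ HorX K₀ P}, y.val P = bd q P :=
  XGrp.exists_of (fun P => bd q P) (fun P _ => XD_bd_ne_zero q h1 h2 P)
    ((XD_bd_finite hne q hS h1 h2).subset fun _ hP => ⟨hP.1.1, hP.2⟩)

/-- WP2. MODEL: `ntA/XDual` (`XGrp D` with `D = {P | P ∈ Pts k x 1 ∧ HorX K₀ P}`). -/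
theorem dualH (hne : ∀ i, x i ≠ 0) (a : ∀ P : LocalSubring F, Kap P)
    (ha : ∀ P ∈ Pts k x 1, HorX K₀ P → a P ≠ 0)
    (hfin : {P | (P ∈ Pts k x 1 ∧ HorX K₀ P) ∧ a P ≠ 1}.Finite)
    (h : ∀ l : ∀ P : LocalSubring F, Kap P → ℚ, FormsH k x K₀ l →
      ∑ᶠ (P : LocalSubring F) (_ : P ∈ Pts k x 1 ∧ HorX K₀ P), l P (a P) = 0) :
    ∃ N : ℕ, 0 < N ∧ ∃ s : List (Σ S : LocalSubring F, Kap S × Kap S),
      (∀ q ∈ s, q.1 ∈ Pts k x 2 ∧ HorX K₀ q.1 ∧ q.2.1 ≠ 0 ∧ q.2.2 ≠ 0) ∧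
      ∀ P ∈ Pts k x 1, HorX K₀ P → a P ^ N = (s.map fun q => bd q P).prod := by
  classical
  let D : Set (LocalSubring F) := {P | P ∈ Pts k x 1 ∧ HorX K₀ P}
  obtain ⟨z, hz⟩ := XGrp.exists_of (D := D) a (fun P hP => ha P hP.1 hP.2) hfin
  let T : AddSubgroup (XGrp D) := AddSubgroup.closure
    {y | ∃ q : Σ S : LocalSubring F, Kap S × Kap S, q.1 ∈ Pts k x 2 ∧ HorX K₀ q.1 ∧
      q.2.1 ≠ 0 ∧ q.2.2 ≠ 0 ∧ ∀ P : D, y.val P = bd q P}
  obtain ⟨N, hN, hmem⟩ := exists_nsmul_mem T z (by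
    intro φ hφ
    rw [← XformOf_sum φ z a hz]
    apply h
    constructor
    · intro P hP hH c e hc he
      have hPD : P ∈ D := ⟨hP, hH⟩
      unfold XformOf
      rw [dif_pos ⟨hPD, mul_ne_zero hc he⟩, dif_pos ⟨hPD, hc⟩, dif_pos ⟨hPD, he⟩, ← map_add,
        ← DFinsupp.single_add]
      congr 2
      rw [← ofMul_mul]
      congr 1
      apply Units.ext
      simp
    · intro q hS hH h1 h2
      obtain ⟨y, hy⟩ := WP2_bd (K₀ := K₀) hne q hS h1 h2
      have h3 := XformOf_sum φ y (fun P => bd q P) hy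
      rw [hφ y (AddSubgroup.subset_closure ⟨q, hS, hH, h1, h2, hy⟩)] at h3
      exact h3)
  refine ⟨N, hN, ?_⟩
  have key : ∀ y ∈ T, ∃ s : List (Σ S : LocalSubring F, Kap S × Kap S),
      (∀ q ∈ s, q.1 ∈ Pts k x 2 ∧ HorX K₀ q.1 ∧ q.2.1 ≠ 0 ∧ q.2.2 ≠ 0) ∧
      ∀ P : D, y.val P = (s.map fun q => bd q P).prod := by
    intro y hy
    induction hy using AddSubgroup.closure_induction with
    | mem y hy =>
      obtain ⟨q, hS, hH, h1, h2, h3⟩ := hy
      refine ⟨[q], ?_, ?_⟩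
      · intro r hr
        rw [List.mem_singleton] at hr
        subst hr
        exact ⟨hS, hH, h1, h2⟩
      · intro P
        rw [h3]
        simp
    | zero => exact ⟨[], by simp, fun P => by simp [XGrp.val_zero]⟩
    | add y z _ _ hy hz =>
      obtain ⟨s, hs, hs2⟩ := hy
      obtain ⟨t, ht, ht2⟩ := hz
      refine ⟨s ++ t, ?_, ?_⟩
      · intro q hq
        rcases List.mem_append.1 hq with h1 | h1
        · exact hs q h1
        · exact ht q h1
      · intro P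
        rw [XGrp.val_add, hs2, ht2, List.map_append, List.prod_append]
    | neg y _ hy =>
      obtain ⟨s, hs, hs2⟩ := hy
      refine ⟨s.map fun q => ⟨q.1, q.2.swap⟩, ?_, ?_⟩
      · intro q hq
        obtain ⟨r, hr, rfl⟩ := List.mem_map.1 hq
        exact ⟨(hs r hr).1, (hs r hr).2.1, (hs r hr).2.2.2, (hs r hr).2.2.1⟩
      · intro P
        rw [XGrp.val_neg, hs2, List.map_map]
        clear hs2
        induction s with
        | nil => simp
        | cons q u ih =>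
          have hq := hs q (List.mem_cons_self ..)
          rw [List.map_cons, List.prod_cons, mul_inv,
            ih (fun r hr => hs r (List.mem_cons_of_mem _ hr)), List.map_cons, List.prod_cons,
            Function.comp_apply, XD_bd_swap q hq.2.2.1 hq.2.2.2]
  obtain ⟨s, hs, hs2⟩ := key _ hmem
  refine ⟨s, hs, ?_⟩
  intro P hP hH
  have h5 := hs2 ⟨P, hP, hH⟩
  rw [XGrp.val_nsmul, hz] at h5
  exact h5

end Pool.Agent.Lib.MP_b197b4_ntBW
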