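import Mathlib
import Pool.Agent.Lib.MP_b197b4_ntBW.Defs
import Pool.Agent.Lib.MP_b197b4_ntA.XDefs2

/-!
# MP_b197b4_nt, project BW: forms on the horizontal curves, duality
-/

set_option autoImplicit false

namespace Pool.Agent.Lib.MP_b197b4_ntBW

open IsLocalRing Pool.Agent.Lib.MP_b197b4_ntK Pool.Agent.Lib.MP_b197b4_ntA

variable {k F : Type} [Field k] [Field F] [Algebra k F] {n D : ℕ} {x : Fin (n + 1) → F}
  {K₀ : IntermediateField k F}

/-- A vertical point has no boundary at a horizontal one. -/
theorem WP1_bd {q : Σ S : LocalSubring F, Kap S × Kap S} {P : LocalSubring F}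
    (h : ¬ HorX K₀ q.1) (hP : HorX K₀ P) : bd q P = 1 := by
  unfold bd
  refine (finprod_congr fun V => ?_).trans finprod_one
  refine (finprod_congr_Prop rfl fun hV => ?_).trans finprod_one
  exact absurd (fun t ht => hV.2.1 (hP t ht)) h

open Classical in
/-- WP1. PROOF: on a horizontal surface this is `recip`; if `S` is vertical, `P` horizontal then no `V`
has the centre `P` (`P ≤ S`), so `bd q P = 1` and `l P 1 = 0`. -/
theorem formsX_of_H {l : ∀ P : LocalSubring F, Kap P → ℚ} (hl : FormsH k x K₀ l) :
    FormsX k x (fun P u => if HorX K₀ P then l P u else 0) := by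
  constructor
  · intro P hP a b ha hb
    by_cases h : HorX K₀ P
    · simp only [h, if_true]
      exact hl.mul P hP h a b ha hb
    · simp only [h, if_false, add_zero]
  · intro q hq h1 h2
    by_cases h : HorX K₀ q.1
    · refine Eq.trans (finsum_congr fun P => ?_) (hl.recip q hq h h1 h2)
      by_cases hP : P ∈ Pts k x 1
      · by_cases hh : HorX K₀ P
        · simp only [hP, hh, and_self, if_true]
        · simp only [hh, and_false, if_false, finsum_zero, finsum_false]
      · simp only [hP, false_and, finsum_false]
    · refine (finsum_congr fun P => ?_).trans finsum_zero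
      refine (finsum_congr_Prop rfl fun hP => ?_).trans finsum_zero
      by_cases hh : HorX K₀ P
      · rw [if_pos hh, WP1_bd h hh]
        have h3 := hl.mul P hP hh 1 1 one_ne_zero one_ne_zero
        rw [mul_one] at h3
        linarith
      · rw [if_neg hh]

end Pool.Agent.Lib.MP_b197b4_ntBW
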