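import Mathlib
import Pool.Agent.Lib.MP_b197b4_ntBW.WN
import Pool.Agent.Lib.MP_b197b4_ntBW.WO
import Pool.Agent.Lib.MP_b197b4_ntBW.WP
import Pool.Agent.Lib.MP_b197b4_ntA.XEnd

/-!
# MP_b197b4_nt, project BW: Bloch's group `V(Y)` is torsion, over the algebraic closure
-/

set_option autoImplicit false

namespace Pool.Agent.Lib.MP_b197b4_ntBW

open IsLocalRing Pool.Agent.Lib.MP_b197b4_ntK Pool.Agent.Lib.MP_b197b4_ntA
  Pool.Agent.Lib.MP_b197b4_ntBV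

variable {k F : Type} [Field k] [Field F] [Algebra k F] {n D : ℕ} {x : Fin (n + 1) → F}
  {K₀ : IntermediateField k F}

theorem nrmX_eq {P : LocalSubring F} (h : HorX K₀ P) (u : Kap P) :
    nrmX K₀ P u = @Algebra.norm K₀ (Kap P) _ _ (toKap K₀ P h).toAlgebra u := by
  unfold nrmX
  rw [dif_pos h]

theorem nrmX_one {P : LocalSubring F} : nrmX K₀ P 1 = 1 := by
  by_cases h : HorX K₀ P
  · rw [nrmX_eq h, map_one]
  · unfold nrmX
    rw [dif_neg h]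

theorem nrmX_ne {P : LocalSubring F} {u : Kap P} (hu : u ≠ 0) : nrmX K₀ P u ≠ 0 := by
  by_cases h : HorX K₀ P
  · rw [nrmX_eq h]
    intro h0
    have h1 := map_mul (@Algebra.norm K₀ (Kap P) _ _ (toKap K₀ P h).toAlgebra) u u⁻¹
    rw [mul_inv_cancel₀ hu, map_one, h0, zero_mul] at h1
    exact one_ne_zero h1
  · unfold nrmX
    rw [dif_neg h]
    exact one_ne_zero

/-- The forms on the variety are given by functions on the closed points. -/
theorem exists_h_pts [IsAlgClosed k]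
    (halg : ∃ p : ℕ, p.Prime ∧ ∀ a : k, ∃ m : ℕ, 0 < m ∧ a ^ p ^ m = a) (hP : Pic k) (hL : LTP k)
    (hd : 2 ≤ D) (hx : Var k D x) {l : ∀ P : LocalSubring F, Kap P → ℚ} (hl : FormsX k x l) :
    ∃ h : LocalSubring F → ℚ, ∀ P ∈ Pts k x 1, ∀ u : Kap P, u ≠ 0 →
      {O | O ∈ Pts k x 0 ∧ O.toSubring ≤ P.toSubring ∧ len (locSub O P) u ≠ 0}.Finite ∧
      l P u = ∑ᶠ (O : LocalSubring F) (_ : O ∈ Pts k x 0 ∧ O.toSubring ≤ P.toSubring),
        h O * len (locSub O P) u :=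
  exists_hX halg hd hx hl fun i =>
    gAll_exists halg hP hL hd (xEnd_dchart hx i) (xEnd_reg hx i) (lch k x l i) (lam_chart hx hl i)

/-- The forms on the closed points of the generic fibre factor through the norms. -/
theorem form_norm [IsAlgClosed k]
    (halg : ∃ p : ℕ, p.Prime ∧ ∀ a : k, ∃ m : ℕ, 0 < m ∧ a ^ p ^ m = a) (hP : Pic k) (hL : LTP k)
    (hd : 2 ≤ D) (hF : FibX k D x K₀) {l : ∀ P : LocalSubring F, Kap P → ℚ}
    (hl : FormsH k x K₀ l) :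
    ∃ H : ValuationSubring K₀ → ℚ, ∀ P ∈ Pts k x 1, HorX K₀ P → ∀ u : Kap P, u ≠ 0 →
      l P u = ∑ᶠ (v : ValuationSubring K₀) (_ : Place k v), H v * ord v (nrmX K₀ P u) := by
  classical
  obtain ⟨h, hh⟩ := exists_h_pts halg hP hL hd hF.var (formsX_of_H hl)
  -- constant on the vertical curves
  have hE : ∀ P ∈ Pts k x 1, ¬ HorX K₀ P → ∀ O ∈ Pts k x 0, ∀ O' ∈ Pts k x 0,
      O.toSubring ≤ P.toSubring → O'.toSubring ≤ P.toSubring → h O = h O' := by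
    intro P hP1 hn O hO O' hO' hOP hOP'
    refine vert_constX hP hF.var.ne hP1 h ?_ hO hO' hOP hOP'
    intro u hu
    rw [← (hh P hP1 u hu).2, if_neg hn]
  obtain ⟨H, hH⟩ : ∃ H : ValuationSubring K₀ → ℚ, ∀ v, H v =
      if hv : ∃ O ∈ Pts k x 0, OverPl K₀ v O.toSubring then h hv.choose else 0 := ⟨_, fun _ => rfl⟩
  refine ⟨H, fun P hP1 hPh u hu => ?_⟩
  rw [← norm_lenX hF hP1 hPh h H ?_ hu, ← (hh P hP1 u hu).2, if_pos hPh]
  intro O hO v hv hOv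
  have h1 : ∃ O ∈ Pts k x 0, OverPl K₀ v O.toSubring := ⟨O, hO, hOv⟩
  rw [hH, dif_pos h1]
  exact fib_connX hd hF h hE hv hO h1.choose_spec.1 hOv h1.choose_spec.2

theorem WQ_ord_prod {ι K : Type} [Field K] {v : ValuationSubring K}
    (hv : IsDiscreteValuationRing v) (s : Finset ι) (f : ι → K) (hf : ∀ i ∈ s, f i ≠ 0) :
    ∏ i ∈ s, f i ≠ 0 ∧ ord v (∏ i ∈ s, f i) = ∑ i ∈ s, ord v (f i) := by
  classical
  induction s using Finset.induction_on with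
  | empty =>
    rw [Finset.prod_empty, Finset.sum_empty]
    exact ⟨one_ne_zero, ord_one v hv⟩
  | insert a s ha ih =>
    have h1 := ih fun i hi => hf i (Finset.mem_insert_of_mem hi)
    have h2 := hf a (Finset.mem_insert_self a s)
    rw [Finset.prod_insert ha, Finset.sum_insert ha]
    exact ⟨mul_ne_zero h2 h1.1, by rw [ord_mul hv h2 h1.1, h1.2]⟩

theorem WQ_comm {ι α : Type} (T : Finset ι) (S : Set α) (f : ι → α → ℚ)
    (hf : ∀ i ∈ T, (S ∩ Function.support (f i)).Finite) :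
    (S ∩ Function.support fun a => ∑ i ∈ T, f i a).Finite ∧
      ∑ i ∈ T, ∑ᶠ (a) (_ : a ∈ S), f i a = ∑ᶠ (a) (_ : a ∈ S), ∑ i ∈ T, f i a := by
  classical
  induction T using Finset.induction_on with
  | empty =>
    refine ⟨?_, ?_⟩
    · refine Set.finite_empty.subset ?_
      rintro a ⟨-, h⟩
      exact h (Finset.sum_empty)
    · simp only [Finset.sum_empty, finsum_zero]
  | insert i T hi ih =>
    obtain ⟨h1, h2⟩ := ih fun j hj => hf j (Finset.mem_insert_of_mem hj)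
    have h3 := hf i (Finset.mem_insert_self i T)
    refine ⟨(h3.union h1).subset ?_, ?_⟩
    · rintro a ⟨ha, h⟩
      by_contra hc
      apply h
      change ∑ j ∈ insert i T, f j a = 0
      rw [Finset.sum_insert hi]
      have h4 : f i a = 0 := by
        by_contra h5
        exact hc (Or.inl ⟨ha, h5⟩)
      have h6 : ∑ j ∈ T, f j a = 0 := by
        by_contra h5
        exact hc (Or.inr ⟨ha, h5⟩)
      rw [h4, h6, add_zero]
    · rw [Finset.sum_insert hi, h2, ← finsum_mem_add_distrib' h3 h1]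
      refine finsum_mem_congr rfl fun a _ => ?_
      rw [Finset.sum_insert hi]

/-- The forms which factor through the norms kill the families of norm one. -/
theorem form_kill (hbase : FunF k K₀ 1) {l : ∀ P : LocalSubring F, Kap P → ℚ}
    (hl1 : ∀ P ∈ Pts k x 1, HorX K₀ P → l P 1 = 0) {H : ValuationSubring K₀ → ℚ}
    (hH : ∀ P ∈ Pts k x 1, HorX K₀ P → ∀ u : Kap P, u ≠ 0 →
      l P u = ∑ᶠ (v : ValuationSubring K₀) (_ : Place k v), H v * ord v (nrmX K₀ P u))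
    (hordf : ∀ u : K₀, u ≠ 0 → {v : ValuationSubring K₀ | Place k v ∧ ord v u ≠ 0}.Finite)
    (a : ∀ P : LocalSubring F, Kap P) (ha : ∀ P ∈ Pts k x 1, HorX K₀ P → a P ≠ 0)
    (hfin : {P | (P ∈ Pts k x 1 ∧ HorX K₀ P) ∧ a P ≠ 1}.Finite)
    (hN : ∏ᶠ (P : LocalSubring F) (_ : P ∈ Pts k x 1 ∧ HorX K₀ P), nrmX K₀ P (a P) = 1) :
    ∑ᶠ (P : LocalSubring F) (_ : P ∈ Pts k x 1 ∧ HorX K₀ P), l P (a P) = 0 := by
  classical
  obtain ⟨T, hT⟩ : ∃ T : Finset (LocalSubring F),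
      ∀ P, P ∈ T ↔ (P ∈ Pts k x 1 ∧ HorX K₀ P) ∧ a P ≠ 1 :=
    ⟨hfin.toFinset, fun P => by rw [Set.Finite.mem_toFinset]; rfl⟩
  have hsum : ∑ᶠ (P : LocalSubring F) (_ : P ∈ Pts k x 1 ∧ HorX K₀ P), l P (a P) =
      ∑ P ∈ T, l P (a P) := by
    apply finsum_mem_eq_sum_of_inter_support_eq (s := {P | P ∈ Pts k x 1 ∧ HorX K₀ P})
    ext P
    simp only [Set.mem_inter_iff, Function.mem_support, Finset.mem_coe, hT, Set.mem_setOf_eq]
    constructor
    · rintro ⟨hP, h⟩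
      refine ⟨⟨hP, fun h1 => h ?_⟩, h⟩
      rw [h1]
      exact hl1 P hP.1 hP.2
    · rintro ⟨⟨hP, -⟩, h⟩
      exact ⟨hP, h⟩
  have hprod : ∏ P ∈ T, nrmX K₀ P (a P) = 1 := by
    rw [← hN]
    symm
    apply finprod_mem_eq_prod_of_inter_mulSupport_eq (s := {P | P ∈ Pts k x 1 ∧ HorX K₀ P})
    ext P
    simp only [Set.mem_inter_iff, Function.mem_mulSupport, Finset.mem_coe, hT, Set.mem_setOf_eq]
    constructor
    · rintro ⟨hP, h⟩
      refine ⟨⟨hP, fun h1 => h ?_⟩, h⟩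
      rw [h1]
      exact nrmX_one
    · rintro ⟨⟨hP, -⟩, h⟩
      exact ⟨hP, h⟩
  have hne : ∀ P ∈ T, nrmX K₀ P (a P) ≠ 0 := fun P hP =>
    nrmX_ne (ha P ((hT P).1 hP).1.1 ((hT P).1 hP).1.2)
  have hfinv : ∀ P ∈ T, ({v : ValuationSubring K₀ | Place k v} ∩ Function.support fun v =>
      H v * (ord v (nrmX K₀ P (a P)) : ℚ)).Finite := by
    intro P hP
    refine (hordf _ (hne P hP)).subset ?_
    rintro v ⟨hv, h⟩
    refine ⟨hv, fun h0 => h ?_⟩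
    change H v * ((ord v (nrmX K₀ P (a P)) : ℤ) : ℚ) = 0
    rw [h0, Int.cast_zero, mul_zero]
  rw [hsum]
  have h1 : ∑ P ∈ T, l P (a P) = ∑ P ∈ T, ∑ᶠ (v : ValuationSubring K₀) (_ : Place k v),
      H v * (ord v (nrmX K₀ P (a P)) : ℚ) :=
    Finset.sum_congr rfl fun P hP => hH P ((hT P).1 hP).1.1 ((hT P).1 hP).1.2 _
      (ha P ((hT P).1 hP).1.1 ((hT P).1 hP).1.2)
  rw [h1]
  have h2 : ∑ P ∈ T, ∑ᶠ (v : ValuationSubring K₀) (_ : Place k v),
      H v * (ord v (nrmX K₀ P (a P)) : ℚ) =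
      ∑ᶠ (v : ValuationSubring K₀) (_ : Place k v), ∑ P ∈ T,
        H v * (ord v (nrmX K₀ P (a P)) : ℚ) :=
    (WQ_comm T {v : ValuationSubring K₀ | Place k v}
      (fun P v => H v * (ord v (nrmX K₀ P (a P)) : ℚ)) hfinv).2
  rw [h2]
  apply finsum_mem_eq_zero_of_forall_eq_zero
  intro v hv
  rw [← Finset.mul_sum]
  have h3 := (WQ_ord_prod (hv : Place k v).1 T _ hne).2
  rw [hprod, ord_one v (hv : Place k v).1] at h3
  have h4 : ∑ P ∈ T, (ord v (nrmX K₀ P (a P)) : ℚ) = 0 := by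
    rw [← Int.cast_sum, ← h3, Int.cast_zero]
  rw [h4, mul_zero]

/-- **Bloch's group `V(Y)` is torsion**, over algebraically closed fields of constants. -/
theorem bloch_all [IsAlgClosed k]
    (halg : ∃ p : ℕ, p.Prime ∧ ∀ a : k, ∃ m : ℕ, 0 < m ∧ a ^ p ^ m = a) (hP : Pic k) (hL : LTP k)
    (hd : 2 ≤ D) (hF : FibX k D x K₀) (a : ∀ P : LocalSubring F, Kap P)
    (ha : ∀ P ∈ Pts k x 1, HorX K₀ P → a P ≠ 0)
    (hfin : {P | (P ∈ Pts k x 1 ∧ HorX K₀ P) ∧ a P ≠ 1}.Finite)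
    (hN : ∏ᶠ (P : LocalSubring F) (_ : P ∈ Pts k x 1 ∧ HorX K₀ P), nrmX K₀ P (a P) = 1) :
    ∃ N : ℕ, 0 < N ∧ ∃ s : List (Σ S : LocalSubring F, Kap S × Kap S),
      (∀ q ∈ s, q.1 ∈ Pts k x 2 ∧ HorX K₀ q.1 ∧ q.2.1 ≠ 0 ∧ q.2.2 ≠ 0) ∧
      ∀ P ∈ Pts k x 1, HorX K₀ P → a P ^ N = (s.map fun q => bd q P).prod := by
  refine dualH hF.var.ne a ha hfin fun l hl => ?_
  obtain ⟨H, hH⟩ := form_norm halg hP hL hd hF hl
  have hl1 : ∀ P ∈ Pts k x 1, HorX K₀ P → l P 1 = 0 := by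
    intro P hP1 hPh
    have := hl.mul P hP1 hPh 1 1 one_ne_zero one_ne_zero
    rw [mul_one] at this
    linarith
  exact form_kill hF.base hl1 hH (fun u hu => ord_finite hF.base _ hu) a ha hfin hN

end Pool.Agent.Lib.MP_b197b4_ntBW
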