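import Mathlib
import Pool.Agent.Lib.MP_b197b4_ntF.LTn
import Pool.Agent.Lib.MP_b197b4_ntC.CF
import Pool.Agent.Lib.MP_b197b4_ntP.BertOne
import Pool.Agent.Lib.MP_b197b4_ntQ.PenE
import Pool.Agent.Lib.MP_b197b4_ntA.Sur
import Pool.Agent.Lib.MP_b197b4_ntBW.Stmt
import Pool.Agent.Lib.MP_b197b4_ntBW.WQ

/-!
# MP_b197b4_nt, project BW: the theorem over the algebraic closure of a finite field
-/

set_option autoImplicit false

namespace Pool.Agent.Lib.MP_b197b4_ntBW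

open IsLocalRing Pool.Agent.Lib.MP_b197b4_ntK Pool.Agent.Lib.MP_b197b4_ntA

/-- The inputs `Pic` and `LTP` over algebraically closed fields which are algebraic over a finite
field. -/
theorem inputs_closed (p : ℕ) [Fact p.Prime] (k : Type) [Field k] [CharP k p] [IsAlgClosed k]
    (halg : ∀ a : k, ∃ m : ℕ, 0 < m ∧ a ^ p ^ m = a) :
    (∃ p : ℕ, p.Prime ∧ ∀ a : k, ∃ m : ℕ, 0 < m ∧ a ^ p ^ m = a) ∧ Pic k ∧ LTP k := by
  have hL : LTnorm k := ltnorm_closed p k halg (MPb197b4P.core p k halg)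
    fun F _ _ n x hx => pencil (MPb197b4P.bert_one k) hx
  have ha : ∃ p : ℕ, p.Prime ∧ ∀ a : k, ∃ m : ℕ, 0 < m ∧ a ^ p ^ m = a := ⟨p, Fact.out, halg⟩
  exact ⟨ha, pic ha, ltp_of_ltnorm ha (pic ha) hL⟩

/-- **Bloch's group `V(Y)` is torsion**, over algebraically closed fields which are algebraic over a
finite field. -/
theorem bloch_closed (p : ℕ) [Fact p.Prime] (k : Type) [Field k] [CharP k p] [IsAlgClosed k]
    (halg : ∀ a : k, ∃ m : ℕ, 0 < m ∧ a ^ p ^ m = a) : BlochX k := by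
  obtain ⟨ha, hP, hL⟩ := inputs_closed p k halg
  intro F _ _ n D x K₀ hd hF a h0 hfin hN
  exact bloch_all ha hP hL hd hF a h0 hfin hN

/-- The forms on the closed points of the generic fibre factor through the norms. -/
theorem form_norm_closed (p : ℕ) [Fact p.Prime] {k F : Type} [Field k] [Field F] [Algebra k F]
    [CharP k p] [IsAlgClosed k] (halg : ∀ a : k, ∃ m : ℕ, 0 < m ∧ a ^ p ^ m = a) {n D : ℕ}
    {x : Fin (n + 1) → F} {K₀ : IntermediateField k F} (hd : 2 ≤ D) (hF : FibX k D x K₀)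
    {l : ∀ P : LocalSubring F, Kap P → ℚ} (hl : FormsH k x K₀ l) :
    ∃ H : ValuationSubring K₀ → ℚ, ∀ P ∈ Pts k x 1, HorX K₀ P → ∀ u : Kap P, u ≠ 0 →
      l P u = ∑ᶠ (v : ValuationSubring K₀) (_ : Place k v), H v * ord v (nrmX K₀ P u) := by
  obtain ⟨ha, hP, hL⟩ := inputs_closed p k halg
  exact form_norm ha hP hL hd hF hl

end Pool.Agent.Lib.MP_b197b4_ntBW
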