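import Mathlib
import Pool.Agent.Lib.MP_b197b4_ntBW.Defs
import Pool.Agent.Lib.MP_b197b4_ntKR.Chart
import Pool.Agent.Lib.MP_b197b4_ntKE.Defs

/-!
# MP_b197b4_nt, project BW, descent: the function field of the curve over `k'`
-/

set_option autoImplicit false

namespace Pool.Agent.Lib.MP_b197b4_ntBW

open IsLocalRing Pool.Agent.Lib.MP_b197b4_ntK Pool.Agent.Lib.MP_b197b4_ntA
  Pool.Agent.Lib.MP_b197b4_ntBV Pool.Agent.Lib.MP_b197b4_ntKD Pool.Agent.Lib.MP_b197b4_ntKE

/-- The subfield of `K` generated by `K₀` and the constants `k'`. -/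
noncomputable def upK (k' : Type) {k F : Type} (K : Type) [Field k] [Field k'] [Field F] [Field K]
    [Algebra k F] [Algebra k' K] [Algebra F K] (K₀ : IntermediateField k F) :
    IntermediateField k' K :=
  IntermediateField.adjoin k' (algebraMap F K '' (K₀ : Set F))

section

variable {k k' F K : Type} [Field k] [Field k'] [Field F] [Field K] [Algebra k F]
  [Algebra k' K] [Algebra F K] {K₀ : IntermediateField k F}

theorem mem_upK {t : F} (ht : t ∈ K₀) : algebraMap F K t ∈ upK k' K K₀ :=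
  IntermediateField.subset_adjoin k' _ ⟨t, ht, rfl⟩

variable (k' K K₀) in
/-- The inclusion of `K₀`. -/
noncomputable def upHom : K₀ →+* upK k' K K₀ :=
  ((algebraMap F K).comp (algebraMap K₀ F)).codRestrict (upK k' K K₀) fun t => mem_upK t.2

theorem upHom_coe (t : K₀) : ((upHom k' K K₀ t : upK k' K K₀) : K) = algebraMap F K (t : F) := rfl

variable [Algebra k k']

theorem XA_field (h : BC k k' F K) : IsField (bc k' K K₀.toSubalgebra) := by
  let _ := Pool.Agent.Lib.MP_b197b4_ntKR.bcAlg k' K K₀.toSubalgebra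
  have h1 : Algebra.IsIntegral K₀.toSubalgebra (bc k' K K₀.toSubalgebra) :=
    Pool.Agent.Lib.MP_b197b4_ntKD.BC.isIntegral h K₀.toSubalgebra
  have hA : IsField K₀.toSubalgebra := (inferInstance : Field K₀).toIsField
  exact isField_of_isIntegral_of_isField' hA

theorem XA_le (h : BC k k' F K) {z : K} (hz : z ∈ upK k' K K₀) : z ∈ bc k' K K₀.toSubalgebra := by
  have h1 : upK k' K K₀ ≤ (bc k' K K₀.toSubalgebra).toIntermediateField' (XA_field h) := by
    unfold upK
    rw [IntermediateField.adjoin_le_iff]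
    rintro _ ⟨t, ht, rfl⟩
    exact Pool.Agent.Lib.MP_b197b4_ntKR.mem_bc (A := K₀.toSubalgebra) ht
  exact h1 hz

/-- XA. Every element of `upK` is `p(θ)`, with a constant `θ` and coefficients in `K₀`. -/
theorem upK_form (h : BC k k' F K) {z : K} (hz : z ∈ upK k' K K₀) :
    ∃ (θ : k') (p : Polynomial K₀),
      z = p.eval₂ ((algebraMap F K).comp (algebraMap K₀ F)) (algebraMap k' K θ) := by
  have hsep := h.sep
  let _ : Algebra k K := ((algebraMap k' K).comp (algebraMap k k')).toAlgebra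
  have : IsScalarTower k k' K := IsScalarTower.of_algebraMap_eq fun _ => rfl
  have : IsScalarTower k F K := IsScalarTower.of_algebraMap_eq fun c => h.comm c
  let _ := Pool.Agent.Lib.MP_b197b4_ntKR.bcAlg k' K K₀.toSubalgebra
  obtain ⟨θ, p, hp⟩ := Pool.Agent.Lib.MP_b197b4_ntKR.bc_form (⟨z, XA_le h hz⟩ : bc k' K K₀.toSubalgebra)
  refine ⟨θ, p, ?_⟩
  have h1 : ((Polynomial.aeval (algebraMap k' (bc k' K K₀.toSubalgebra) θ) p :
      bc k' K K₀.toSubalgebra) : K) = z := congrArg Subtype.val hp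
  rw [← h1, Polynomial.aeval_def]
  exact Polynomial.hom_eval₂ p _ (bc k' K K₀.toSubalgebra).val.toRingHom _

/-- XA. -/
theorem bcK (h : BC k k' F K) :
    @BC k k' K₀ (upK k' K K₀) _ _ _ _ _ _ _ (upHom k' K K₀).toAlgebra := by
  let _ := (upHom k' K K₀).toAlgebra
  refine @BC.mk k k' K₀ (upK k' K K₀) _ _ _ _ _ _ _ (upHom k' K K₀).toAlgebra h.sep
    (fun c => Subtype.ext (h.comm c)) fun z => ?_
  obtain ⟨θ, p, hp⟩ := upK_form h z.2
  have h1 : z = Polynomial.aeval (algebraMap k' (upK k' K K₀) θ) p := by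
    apply Subtype.ext
    rw [hp, Polynomial.aeval_def]
    exact (Polynomial.hom_eval₂ p (upHom k' K K₀) (algebraMap (upK k' K K₀) K)
      (algebraMap k' (upK k' K K₀) θ)).symm
  rw [h1]
  rw [Polynomial.aeval_eq_sum_range]
  refine Subalgebra.sum_mem _ fun i _ => Subalgebra.smul_mem _ (Subalgebra.pow_mem _ ?_ _) _
  exact Algebra.subset_adjoin ⟨θ, rfl⟩

end

end Pool.Agent.Lib.MP_b197b4_ntBW
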