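import Mathlib
import Pool.Agent.Lib.MP_b197b4_ntBW.XA
import Pool.Agent.Lib.MP_b197b4_ntKE.Dg

/-!
# MP_b197b4_nt, project BW, descent: `upK` is algebraically closed in `K`
-/

set_option autoImplicit false

namespace Pool.Agent.Lib.MP_b197b4_ntBW

open IsLocalRing Pool.Agent.Lib.MP_b197b4_ntK Pool.Agent.Lib.MP_b197b4_ntA
  Pool.Agent.Lib.MP_b197b4_ntBV Pool.Agent.Lib.MP_b197b4_ntKD Pool.Agent.Lib.MP_b197b4_ntKE

section XB_core

variable {E F K : Type} [Field E] [Field F] [Field K] [Algebra E F] [Algebra F K] [Algebra E K]
  [IsScalarTower E F K]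

/-- The minimal polynomials over `E` and `F` agree. -/
theorem XB_min (hmin : ∀ z : K, IsIntegral E z →
      ∃ q : Polynomial E, q.map (algebraMap E F) = minpoly F z) {z : K} (hz : IsIntegral E z) :
    (minpoly E z).map (algebraMap E F) = minpoly F z := by
  obtain ⟨q, hq⟩ := hmin z hz
  have hzF : IsIntegral F z := hz.tower_top
  have hm : q.Monic := by
    have h0 := minpoly.monic hzF
    rw [← hq] at h0
    exact Polynomial.monic_of_injective (algebraMap E F).injective h0
  have h1 : Polynomial.aeval z q = 0 := by
    have h2 := minpoly.aeval F z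
    rw [← hq, Polynomial.aeval_map_algebraMap] at h2
    exact h2
  have h3 : minpoly E z ∣ q := minpoly.dvd E z h1
  have h4 : minpoly F z ∣ (minpoly E z).map (algebraMap E F) :=
    minpoly.dvd_map_of_isScalarTower E F z
  have h5 : q ∣ minpoly E z := by
    rw [← hq] at h4
    exact (Polynomial.map_dvd_map' _).1 h4
  have h6 : minpoly E z = q :=
    Polynomial.eq_of_monic_of_associated (minpoly.monic hz) hm (associated_of_dvd_dvd h3 h5)
  rw [h6, hq]

/-- Linear disjointness, for elements of `F(θ)`. -/
theorem XB_core (hmin : ∀ z : K, IsIntegral E z →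
      ∃ q : Polynomial E, q.map (algebraMap E F) = minpoly F z) (hsep : Algebra.IsSeparable F K)
    {θ u : K} (hθ : IsIntegral E θ) (hu : IsIntegral E u)
    (hmem : u ∈ IntermediateField.adjoin F {θ}) : u ∈ IntermediateField.adjoin E {θ} := by
  have hsepE : ∀ z : K, IsIntegral E z → IsSeparable E z := by
    intro z hz
    have h1 : (minpoly F z).Separable := Algebra.IsSeparable.isSeparable F z
    rw [← XB_min hmin hz, Polynomial.separable_map] at h1
    exact h1
  have hdeg : ∀ z : K, IsIntegral E z → Module.finrank E (IntermediateField.adjoin E {z}) =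
      Module.finrank F (IntermediateField.adjoin F {z}) := by
    intro z hz
    rw [IntermediateField.adjoin.finrank hz, IntermediateField.adjoin.finrank hz.tower_top,
      ← XB_min hmin hz, Polynomial.natDegree_map]
  have hfd : FiniteDimensional E (IntermediateField.adjoin E {θ, u}) := by
    refine IntermediateField.finiteDimensional_adjoin ?_
    rintro z (rfl | rfl)
    · exact hθ
    · exact hu
  have hsN : Algebra.IsSeparable E (IntermediateField.adjoin E {θ, u}) := by
    rw [IntermediateField.isSeparable_adjoin_iff_isSeparable]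
    rintro z (rfl | rfl)
    · exact hsepE _ hθ
    · exact hsepE _ hu
  obtain ⟨α, hα⟩ := Field.exists_primitive_element E (IntermediateField.adjoin E {θ, u})
  have h1 : IntermediateField.adjoin E {(α : K)} = IntermediateField.adjoin E {θ, u} := by
    rw [← IntermediateField.lift_adjoin_simple, hα, IntermediateField.lift_top]
  have hαint : IsIntegral E (α : K) := by
    have h2 : IsIntegral E α := Algebra.IsIntegral.isIntegral α
    exact h2.map (IntermediateField.adjoin E {θ, u}).val
  have hle : ∀ (S T : Set K), IntermediateField.adjoin E S ≤ IntermediateField.adjoin E T →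
      IntermediateField.adjoin F S ≤ IntermediateField.adjoin F T := by
    intro S T hST
    rw [IntermediateField.adjoin_le_iff]
    intro z hz
    have h2 : z ∈ IntermediateField.adjoin E T := hST (IntermediateField.subset_adjoin E S hz)
    have h3 : IntermediateField.adjoin E T ≤
        (IntermediateField.adjoin F T).restrictScalars E := by
      rw [IntermediateField.adjoin_le_iff]
      exact IntermediateField.subset_adjoin F T
    exact h3 h2
  have h2 : IntermediateField.adjoin F {(α : K)} = IntermediateField.adjoin F {θ} := by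
    apply le_antisymm
    · refine (hle _ _ h1.le).trans ?_
      rw [IntermediateField.adjoin_le_iff]
      rintro z (rfl | rfl)
      · exact IntermediateField.subset_adjoin F _ rfl
      · exact hmem
    · refine (hle {θ} {θ, u} ?_).trans (hle _ _ h1.ge)
      exact IntermediateField.adjoin.mono E _ _ (by simp)
  have h3 : IntermediateField.adjoin E {θ} ≤ IntermediateField.adjoin E {(α : K)} := by
    rw [h1]
    exact IntermediateField.adjoin.mono E _ _ (by simp)
  have hfα : FiniteDimensional E (IntermediateField.adjoin E {(α : K)}) :=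
    IntermediateField.adjoin.finiteDimensional hαint
  have h4 : IntermediateField.adjoin E {θ} = IntermediateField.adjoin E {(α : K)} := by
    refine IntermediateField.eq_of_le_of_finrank_eq h3 ?_
    rw [hdeg _ hθ, hdeg _ hαint, h2]
  rw [h4, h1]
  exact IntermediateField.subset_adjoin E _ (by simp)

end XB_core

variable {k k' F K : Type} [Field k] [Field k'] [Field F] [Field K] [Algebra k F]
  [Algebra k' K] [Algebra F K] {K₀ : IntermediateField k F}

/-- XB. PROOF: `minpoly F z` divides the monic polynomial `p` over `K₀` in `F[X]`, so its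
coefficients are integral over `K₀` (`integralClosure.mem_lifts_of_monic_of_dvd_map`), in `K₀`. -/
theorem min_coeff (hcl : ∀ u : F, IsAlgebraic K₀ u → u ∈ K₀) {z : K} {p : Polynomial K₀}
    (hp : p.Monic) (hz : p.eval₂ ((algebraMap F K).comp (algebraMap K₀ F)) z = 0) :
    ∃ q : Polynomial K₀, q.map (algebraMap K₀ F) = minpoly F z := by
  have hd : minpoly F z ∣ p.map (algebraMap K₀ F) := by
    refine minpoly.dvd F z ?_
    rw [Polynomial.aeval_def, Polynomial.eval₂_map]
    exact hz
  have hint : IsIntegral F z := by
    refine ⟨p.map (algebraMap K₀ F), hp.map _, ?_⟩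
    rw [Polynomial.eval₂_map]
    exact hz
  have h1 := integralClosure.mem_lifts_of_monic_of_dvd_map F hp (minpoly.monic hint) hd
  have h2 : minpoly F z ∈ Polynomial.lifts (algebraMap K₀ F) := by
    rw [Polynomial.lifts_iff_coeff_lifts] at h1 ⊢
    intro n
    obtain ⟨c, hc⟩ := h1 n
    have h3 : IsIntegral K₀ ((minpoly F z).coeff n) := by
      rw [← hc]
      exact c.2
    exact ⟨⟨_, hcl _ h3.isAlgebraic⟩, rfl⟩
  obtain ⟨q, hq⟩ := (Polynomial.mem_lifts _).1 h2
  exact ⟨q, hq⟩

variable [Algebra k k']

/-- The compositum of `F` and `k'` is `K`. -/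
theorem XB_top (h : BC k k' F K) (u : K) : u ∈ upK k' K (⊤ : IntermediateField k F) := by
  have hgen := h.gen u
  induction hgen using Algebra.adjoin_induction with
  | mem y hy =>
    obtain ⟨c, rfl⟩ := hy
    exact IntermediateField.algebraMap_mem _ c
  | algebraMap r => exact mem_upK IntermediateField.mem_top
  | add a b _ _ iha ihb => exact add_mem iha ihb
  | mul a b _ _ iha ihb => exact mul_mem iha ihb

omit [Algebra k k'] in
theorem XB_le (θ : k') {u : K} (hu : u ∈ IntermediateField.adjoin K₀ {algebraMap k' K θ}) :
    u ∈ upK k' K K₀ := by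
  induction hu using IntermediateField.adjoin_induction with
  | mem y hy =>
    rw [Set.mem_singleton_iff] at hy
    rw [hy]
    exact IntermediateField.algebraMap_mem _ θ
  | algebraMap c => exact mem_upK c.2
  | add a b _ _ iha ihb => exact add_mem iha ihb
  | mul a b _ _ iha ihb => exact mul_mem iha ihb
  | inv a _ iha => exact inv_mem iha

/-- XB. PROOF: `u` is algebraic over `K₀` (`upK / K₀` is algebraic). `K / F` is separable
(`Dg_sep`). Let `u ∈ F(θ)`, `θ ∈ k'` (primitive element; `h.gen`). Let `α` be a primitive element of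
`K₀(θ, u) / K₀` (separable by `min_coeff`). By `min_coeff` `[F(α) : F] = [K₀(α) : K₀]` and
`[F(θ) : F] = [K₀(θ) : K₀]`; `F(α) = F(θ, u) = F(θ)`; so `K₀(α) = K₀(θ)`. -/
theorem closed_up (h : BC k k' F K) (hcl : ∀ u : F, IsAlgebraic K₀ u → u ∈ K₀) {u : K}
    (hu : IsAlgebraic (upK k' K K₀) u) : u ∈ upK k' K K₀ := by
  let iU : Algebra K₀ (upK k' K K₀) := (upHom k' K K₀).toAlgebra
  have t2 : IsScalarTower K₀ (upK k' K K₀) K := IsScalarTower.of_algebraMap_eq fun _ => rfl
  have hs : Algebra.IsSeparable K₀ (upK k' K K₀) := Dg_sep (bcK h)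
  have ha : Algebra.IsAlgebraic K₀ (upK k' K K₀) := inferInstance
  have hui : IsIntegral K₀ u := (hu.restrictScalars K₀).isIntegral
  obtain ⟨θ, p, hp⟩ := upK_form h (XB_top h u)
  have hmem : u ∈ IntermediateField.adjoin F {algebraMap k' K θ} := by
    rw [hp, Polynomial.eval₂_eq_sum_range]
    refine sum_mem fun i _ => mul_mem ?_
      (pow_mem (IntermediateField.subset_adjoin F _ (Set.mem_singleton _)) i)
    exact IntermediateField.algebraMap_mem _ _
  have hθ : IsIntegral K₀ (algebraMap k' K θ) := by
    have hsep := h.sep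
    obtain ⟨f, hf, hf0⟩ := Algebra.IsSeparable.isIntegral k θ
    refine ⟨f.map (algebraMap k K₀), hf.map _, ?_⟩
    rw [Polynomial.eval₂_map]
    have e : (algebraMap K₀ K).comp (algebraMap k K₀) =
        (algebraMap k' K).comp (algebraMap k k') := by
      ext c
      exact (h.comm c).symm
    rw [e, ← Polynomial.hom_eval₂, hf0, map_zero]
  exact XB_le θ (XB_core (fun z hz => by
    obtain ⟨f, hf, hf0⟩ := hz
    exact min_coeff hcl hf hf0) (Dg_sep h) hθ hui hmem)

end Pool.Agent.Lib.MP_b197b4_ntBW
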