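import Mathlib
import Pool.Agent.Lib.MP_b197b4_ntBW.XA

/-!
# MP_b197b4_nt, project BW, descent: `upK` is a function field of one variable over `k'`
-/

set_option autoImplicit false

namespace Pool.Agent.Lib.MP_b197b4_ntBW

open IsLocalRing Pool.Agent.Lib.MP_b197b4_ntK Pool.Agent.Lib.MP_b197b4_ntA
  Pool.Agent.Lib.MP_b197b4_ntBV Pool.Agent.Lib.MP_b197b4_ntKD Pool.Agent.Lib.MP_b197b4_ntKE

variable {k k' F K : Type} [Field k] [Field k'] [Field F] [Field K] [Algebra k k'] [Algebra k F]
  [Algebra k' K] [Algebra F K] {K₀ : IntermediateField k F}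

theorem XC_fg (h : BC k k' F K) (hb : (⊤ : IntermediateField k K₀).FG) :
    (⊤ : IntermediateField k' (upK k' K K₀)).FG := by
  rw [IntermediateField.fg_top_iff, IntermediateField.essFiniteType_iff] at hb ⊢
  classical
  obtain ⟨s, hs⟩ := hb
  refine ⟨s.image (algebraMap F K), le_antisymm ?_ ?_⟩
  · rw [IntermediateField.adjoin_le_iff]
    intro y hy
    rw [Finset.coe_image] at hy
    obtain ⟨t, ht, rfl⟩ := hy
    refine mem_upK ?_
    rw [← hs]
    exact IntermediateField.subset_adjoin k _ ht
  · rw [upK, IntermediateField.adjoin_le_iff]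
    rintro y ⟨t, ht, rfl⟩
    set S : IntermediateField k' K :=
      IntermediateField.adjoin k' ((s.image (algebraMap F K) : Finset K) : Set K) with hS
    have h1 : ∀ c : k, algebraMap k F c ∈ S.toSubfield.comap (algebraMap F K) := by
      intro c
      rw [Subfield.mem_comap, ← h.comm c]
      exact S.algebraMap_mem _
    have h2 : K₀ ≤ (S.toSubfield.comap (algebraMap F K)).toIntermediateField h1 := by
      rw [← hs, IntermediateField.adjoin_le_iff]
      intro u hu
      change algebraMap F K u ∈ S
      refine IntermediateField.subset_adjoin k' _ ?_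
      rw [Finset.coe_image]
      exact ⟨u, hu, rfl⟩
    exact h2 ht

/-- XC. PROOF: `upK` is generated over `k'` by the generators of `K₀` over `k`; the transcendence
degree does not change in algebraic extensions (`k' / k`, `upK / K₀`, `bcK`). -/
theorem base_up (h : BC k k' F K) (hb : FunF k K₀ 1) : FunF k' (upK k' K K₀) 1 := by
  refine ⟨XC_fg h hb.1, ?_⟩
  have hsep := h.sep
  let i1 : Algebra k (upK k' K K₀) :=
    ((algebraMap k' (upK k' K K₀)).comp (algebraMap k k')).toAlgebra
  let i2 : Algebra K₀ (upK k' K K₀) := (upHom k' K K₀).toAlgebra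
  have i3 : IsScalarTower k k' (upK k' K K₀) := IsScalarTower.of_algebraMap_eq fun _ => rfl
  have i4 : IsScalarTower k K₀ (upK k' K K₀) := by
    refine IsScalarTower.of_algebraMap_eq fun c => ?_
    refine Subtype.ext ?_
    change algebraMap k' K (algebraMap k k' c) = algebraMap F K (algebraMap k F c)
    exact h.comm c
  have h0 : Algebra.IsAlgebraic K₀ (upK k' K K₀) := by
    refine ⟨fun x => ?_⟩
    have h1 := (bcK h).gen x
    refine IsIntegral.isAlgebraic (Algebra.adjoin_induction (R := K₀) (hx := h1)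
      (p := fun x _ => IsIntegral K₀ x) ?_ ?_ ?_ ?_)
    · rintro y ⟨c, rfl⟩
      have h2 : IsIntegral k c := (Algebra.IsAlgebraic.isAlgebraic (R := k) c).isIntegral
      have h3 : IsIntegral k (algebraMap k' (upK k' K K₀) c) := h2.algebraMap
      exact h3.tower_top
    · intro r
      exact isIntegral_algebraMap
    · intro a b _ _ ha hb
      exact ha.add hb
    · intro a b _ _ ha hb
      exact ha.mul hb
  have h1 : Algebra.trdeg k k' + Algebra.trdeg k' (upK k' K K₀) =
      Algebra.trdeg k (upK k' K K₀) := trdeg_add_eq k k' (A := upK k' K K₀)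
  have h2 : Algebra.trdeg k K₀ + Algebra.trdeg K₀ (upK k' K K₀) =
      Algebra.trdeg k (upK k' K K₀) := trdeg_add_eq k K₀ (A := upK k' K K₀)
  have h3 : Algebra.trdeg k k' = 0 := trdeg_eq_zero_iff.2 inferInstance
  have h4 : Algebra.trdeg K₀ (upK k' K K₀) = 0 := trdeg_eq_zero_iff.2 h0
  rw [h3, zero_add] at h1
  rw [h4, add_zero, hb.2] at h2
  rw [h1, ← h2]

end Pool.Agent.Lib.MP_b197b4_ntBW
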