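import Mathlib
import Pool.Agent.Lib.MP_b197b4_ntBW.XA
import Pool.Agent.Lib.MP_b197b4_ntKE.Pts
import Pool.Agent.Lib.MP_b197b4_ntKE.Var

/-!
# MP_b197b4_nt, project BW, descent: the morphism to the curve over `k'`
-/

set_option autoImplicit false

namespace Pool.Agent.Lib.MP_b197b4_ntBW

open IsLocalRing Pool.Agent.Lib.MP_b197b4_ntK Pool.Agent.Lib.MP_b197b4_ntA
  Pool.Agent.Lib.MP_b197b4_ntBV Pool.Agent.Lib.MP_b197b4_ntKD Pool.Agent.Lib.MP_b197b4_ntKE

variable {k k' F K : Type} [Field k] [Field k'] [Field F] [Field K] [Algebra k k'] [Algebra k F]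
  [Algebra k' K] [Algebra F K] {K₀ : IntermediateField k F} {n D : ℕ} {x : Fin (n + 1) → F}

/-- XD2. PROOF: `upK_form`, and the constants are in `P'`. -/
theorem hor_iff (h : BC k k' F K) {e : ℕ} {P' : LocalSubring K}
    (hP' : P' ∈ Pts k' (fun i => algebraMap F K (x i)) e) :
    HorX (upK k' K K₀) P' ↔ HorX K₀ (dn (algebraMap F K) P') := by
  constructor
  · intro hH t ht
    rw [mem_dn]
    exact hH _ (mem_upK ht)
  · intro hH z hz
    obtain ⟨θ, p, rfl⟩ := upK_form h hz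
    rw [Polynomial.eval₂_eq_sum_range]
    refine Subring.sum_mem _ fun i _ => Subring.mul_mem _ ?_ (Subring.pow_mem _ ?_ _)
    · exact mem_dn.1 (hH _ (p.coeff i).2)
    · obtain ⟨j, Q', hQ', _, rfl⟩ := hP'
      exact LocalSubring.le_ofPrime _ Q'
        (Subalgebra.algebraMap_mem (cht k' (fun i => algebraMap F K (x i)) j) θ)

end Pool.Agent.Lib.MP_b197b4_ntBW
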