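import Mathlib
import Pool.Agent.Lib.MP_b197b4_ntBW.XA
import Pool.Agent.Lib.MP_b197b4_ntKE.Pts
import Pool.Agent.Lib.MP_b197b4_ntKE.Var

/-!
# MP_b197b4_nt, project BW, descent: the morphism to the curve over `k'`
-/

set_option autoImplicit false

namespace Pool.Agent.Lib.MP_b197b4_ntBW

open IsLocalRing Pool.Agent.Lib.MP_b197b4_ntK Pool.Agent.Lib.MP_b197b4_ntA
  Pool.Agent.Lib.MP_b197b4_ntBV Pool.Agent.Lib.MP_b197b4_ntKD Pool.Agent.Lib.MP_b197b4_ntKE

/-- XD1. A root of a polynomial with a unit coefficient over an integrally closed local ring `R`, in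
its field of fractions. PROOF: induction on the degree `m` of `f`. `b = a_m t` is integral over `R`,
so it is in `R`. If `a_m` is a unit: `t ∈ R`. If not, `f₁ = (b + a_{m-1}) X^{m-1} + ... + a_0` has
the root `t`: induction if it has a unit coefficient; if not, `a_{m-1}` is a unit and `b + a_{m-1}`
is not, so `b` is a unit and `t⁻¹ = a_m b⁻¹ ∈ R`. -/
theorem root_or_inv {L : Type} [Field L] (R : Subring L) [IsLocalRing R]
    (hint : ∀ z : L, IsIntegral R z → z ∈ R) (f : Polynomial R) (hf : ∃ i, IsUnit (f.coeff i))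
    {t : L} (ht : Polynomial.aeval t f = 0) : t ∈ R ∨ t⁻¹ ∈ R := by
  classical
  obtain ⟨m, hm⟩ : ∃ m, f.natDegree ≤ m := ⟨_, le_rfl⟩
  induction m generalizing f with
  | zero =>
    exfalso
    obtain ⟨i, hi⟩ := hf
    have h1 : f = Polynomial.C (f.coeff 0) := Polynomial.eq_C_of_natDegree_le_zero hm
    have hi0 : i = 0 := by
      by_contra h0
      rw [Polynomial.coeff_eq_zero_of_natDegree_lt (lt_of_le_of_lt hm (Nat.pos_of_ne_zero h0))] at hi
      exact not_isUnit_zero hi
    subst hi0
    rw [h1, Polynomial.aeval_C] at ht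
    have h2 : f.coeff 0 = 0 := Subtype.ext ht
    rw [h2] at hi
    exact not_isUnit_zero hi
  | succ m ih =>
    by_cases hlt : f.natDegree ≤ m
    · exact ih f hf ht hlt
    have hdeg : f.natDegree = m + 1 := by omega
    obtain ⟨a, ha⟩ : ∃ a, a = f.coeff (m + 1) := ⟨_, rfl⟩
    have hlc : f.leadingCoeff = a := by
      rw [Polynomial.leadingCoeff, hdeg, ha]
    have hbmem : (a : L) * t ∈ R := by
      refine hint _ ?_
      have h1 := isIntegral_leadingCoeff_smul f t ht
      rw [hlc] at h1
      exact h1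
    by_cases hau : IsUnit a
    · left
      obtain ⟨u, hu⟩ := hau
      have h1 : ((u⁻¹ : Rˣ) : R) * a = 1 := by
        rw [← hu]
        exact u.inv_mul
      have h2 : ((((u⁻¹ : Rˣ) : R) : L)) * (a : L) = 1 := congrArg Subtype.val h1
      have h3 : t = ((((u⁻¹ : Rˣ) : R) : L)) * ((a : L) * t) := by
        rw [← mul_assoc, h2, one_mul]
      rw [h3]
      exact mul_mem ((u⁻¹ : Rˣ) : R).2 hbmem
    · obtain ⟨b, hb⟩ : ∃ b : R, b = ⟨(a : L) * t, hbmem⟩ := ⟨_, rfl⟩
      have hbL : (b : L) = (a : L) * t := by rw [hb]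
      obtain ⟨g, hg⟩ : ∃ g : Polynomial R, g = f - Polynomial.C a * Polynomial.X ^ (m + 1) +
        Polynomial.C b * Polynomial.X ^ m := ⟨_, rfl⟩
      have hgc : ∀ i, g.coeff i = f.coeff i - (if i = m + 1 then a else 0) +
          (if i = m then b else 0) := by
        intro i
        rw [hg, Polynomial.coeff_add, Polynomial.coeff_sub, Polynomial.coeff_C_mul_X_pow,
          Polynomial.coeff_C_mul_X_pow]
      have hg0 : Polynomial.aeval t g = 0 := by
        rw [hg, map_add, map_sub, ht, map_mul, map_mul, Polynomial.aeval_C, Polynomial.aeval_C,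
          map_pow, map_pow, Polynomial.aeval_X]
        change 0 - (a : L) * t ^ (m + 1) + (b : L) * t ^ m = 0
        rw [hbL]
        ring
      have hgd : g.natDegree ≤ m := by
        rw [Polynomial.natDegree_le_iff_coeff_eq_zero]
        intro i hi
        rw [hgc]
        by_cases h1 : i = m + 1
        · rw [if_pos h1, if_neg (by omega), h1, ha]
          simp
        · rw [if_neg h1, if_neg (by omega), sub_zero, add_zero]
          exact Polynomial.coeff_eq_zero_of_natDegree_lt (by omega)
      by_cases hgu : ∃ i, IsUnit (g.coeff i)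
      · exact ih g hgu hg0 hgd
      · obtain ⟨i, hi⟩ := hf
        have hi1 : i ≠ m + 1 := by
          rintro rfl
          exact hau (by rw [ha]; exact hi)
        have him : i = m := by
          by_contra hne
          apply hgu
          refine ⟨i, ?_⟩
          rw [hgc, if_neg hi1, if_neg hne, sub_zero, add_zero]
          exact hi
        subst him
        have hbu : IsUnit b := by
          by_contra hbn
          have h1 : ¬ IsUnit (g.coeff i) := fun h => hgu ⟨i, h⟩
          have h2 : g.coeff i + -b ∈ nonunits R := IsLocalRing.nonunits_add h1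
            (by rw [mem_nonunits_iff, IsUnit.neg_iff]; exact hbn)
          rw [hgc, if_neg hi1, if_pos rfl, sub_zero, add_neg_cancel_right] at h2
          exact h2 hi
        right
        obtain ⟨u, hu⟩ := hbu
        have h1 : ((u⁻¹ : Rˣ) : R) * b = 1 := by
          rw [← hu]
          exact u.inv_mul
        have h2 : ((((u⁻¹ : Rˣ) : R) : L)) * (b : L) = 1 := congrArg Subtype.val h1
        have h3 : t⁻¹ = ((((u⁻¹ : Rˣ) : R) : L)) * (a : L) := by
          refine inv_eq_of_mul_eq_one_left ?_
          rw [mul_assoc, ← hbL, h2]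
        rw [h3]
        exact mul_mem ((u⁻¹ : Rˣ) : R).2 a.2

variable {k k' F K : Type} [Field k] [Field k'] [Field F] [Field K] [Algebra k k'] [Algebra k F]
  [Algebra k' K] [Algebra F K] {K₀ : IntermediateField k F} {n D : ℕ} {x : Fin (n + 1) → F}

/-- The local rings of the points of the variety over `k'` are integrally closed in `K`. -/
theorem XD1_closed (h : BC k k' F K) (hx : Var k D x) {O' : LocalSubring K} {e : ℕ}
    (hO' : O' ∈ Pts k' (fun i => algebraMap F K (x i)) e) (z : K)
    (hz : IsIntegral O'.toSubring z) : z ∈ O'.toSubring := by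
  obtain ⟨i, Q, hQ, -, rfl⟩ := hO'
  have hA := Var_isIntegrallyClosed (var_up h hx) i
  have hfr := (var_up h hx).frac i
  obtain ⟨s, hs⟩ := IsIntegral.exists_multiple_integral_of_isLocalization
    (R := (cht k' (fun i => algebraMap F K (x i)) i).toSubring) Q.primeCompl z hz
  have h1 : ∃ y : cht k' (fun i => algebraMap F K (x i)) i, algebraMap _ K y = s • z :=
    (IsIntegrallyClosed.isIntegral_iff (R := cht k' (fun i => algebraMap F K (x i)) i)
      (K := K)).mp hs
  obtain ⟨y, hy⟩ := h1
  have hs0 : ((s : (cht k' (fun i => algebraMap F K (x i)) i).toSubring) : K) ≠ 0 := by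
    intro h0
    apply s.2
    have : (s : (cht k' (fun i => algebraMap F K (x i)) i).toSubring) = 0 := Subtype.ext h0
    rw [this]
    exact zero_mem _
  have hyz : (y : K) = ((s : (cht k' (fun i => algebraMap F K (x i)) i).toSubring) : K) * z := hy
  obtain ⟨u, hu⟩ := (XP_unit _ Q (s : (cht k' (fun i => algebraMap F K (x i)) i).toSubring)).mpr s.2
  have h2 : ((((u⁻¹ : (LocalSubring.ofPrime _ Q).toSubringˣ) :
      (LocalSubring.ofPrime _ Q).toSubring) : K)) *
      ((s : (cht k' (fun i => algebraMap F K (x i)) i).toSubring) : K) = 1 := by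
    have h3 := congrArg Subtype.val u.inv_mul
    rw [hu] at h3
    exact h3
  have h4 : z = ((((u⁻¹ : (LocalSubring.ofPrime _ Q).toSubringˣ) :
      (LocalSubring.ofPrime _ Q).toSubring) : K)) * (y : K) := by
    rw [hyz, ← mul_assoc, h2, one_mul]
  rw [h4]
  exact mul_mem ((u⁻¹ : (LocalSubring.ofPrime _ Q).toSubringˣ) :
    (LocalSubring.ofPrime _ Q).toSubring).2 (LocalSubring.le_ofPrime _ Q y.2)

/-- The elements of `upK` are algebraic over `K₀`. -/
theorem XD1_alg (h : BC k k' F K) {t : K} (ht : t ∈ upK k' K K₀) :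
    ∃ g : Polynomial K₀, g ≠ 0 ∧
      g.eval₂ ((algebraMap F K).comp (algebraMap K₀ F)) t = 0 := by
  let _ : Algebra K₀ K := ((algebraMap F K).comp (algebraMap K₀ F)).toAlgebra
  have hsep := h.sep
  suffices hs : IsAlgebraic K₀ t by
    obtain ⟨g, hg, hg0⟩ := hs
    exact ⟨g, hg, hg0⟩
  refine IntermediateField.adjoin_induction k' (p := fun t _ => IsAlgebraic K₀ t) ?_ ?_ ?_ ?_ ?_ ht
  · rintro _ ⟨y, hy, rfl⟩
    exact isAlgebraic_algebraMap (A := K) (⟨y, hy⟩ : K₀)
  · intro c
    have h1 : IsAlgebraic k c := Algebra.IsAlgebraic.isAlgebraic c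
    obtain ⟨p, hp, hp0⟩ := h1
    refine ⟨p.map (algebraMap k K₀), (Polynomial.map_ne_zero_iff (algebraMap k K₀).injective).mpr hp, ?_⟩
    rw [Polynomial.aeval_def, Polynomial.eval₂_map]
    have h2 : (algebraMap K₀ K).comp (algebraMap k K₀) = (algebraMap k' K).comp (algebraMap k k') := by
      ext c
      exact (h.comm c).symm
    rw [h2, ← Polynomial.hom_eval₂]
    have h3 : p.eval₂ (algebraMap k k') c = 0 := hp0
    rw [h3, map_zero]
  · intro a b _ _ ha hb
    exact ha.add hb
  · intro a _ ha
    exact ha.inv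
  · intro a b _ _ ha hb
    exact ha.mul hb

/-- XD1. PROOF: `O' ∈ Pts k' x' 0` is integrally closed (regular charts: `Var_isIntegrallyClosed`
with `var_up`, localization), so `R = O' ∩ upK` is local and integrally closed in `upK`, and contains
`v = dn O' ∩ K₀`, a valuation ring of `K₀` (`hmor`). `t ∈ upK` is algebraic over `K₀`: it is a root
of a polynomial over `v` with a coefficient `1` (divide by the coefficient of maximal value);
`root_or_inv` (with `L = upK` or `L = K`). -/
theorem mor_up (h : BC k k' F K) (hx : Var k D x)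
    (hmor : ∀ O ∈ Pts k x 0, ∀ t ∈ K₀, t ∈ O.toSubring ∨ t⁻¹ ∈ O.toSubring) :
    ∀ O' ∈ Pts k' (fun i => algebraMap F K (x i)) 0, ∀ t ∈ upK k' K K₀,
      t ∈ O'.toSubring ∨ t⁻¹ ∈ O'.toSubring := by
  classical
  intro O' hO' t ht
  have hO := pts_dn h hx hO'
  have hloc := O'.isLocalRing
  obtain ⟨g, hg, hg0⟩ := XD1_alg h ht
  -- the valuation ring of `K₀`
  let v : ValuationSubring K₀ :=
    { (dn (algebraMap F K) O').toSubring.comap (algebraMap K₀ F) with
      mem_or_inv_mem' := fun u => by
        have h1 := hmor _ hO (u : F) u.2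
        exact h1 }
  have hv : ∀ u : K₀, u ∈ v → algebraMap F K (u : F) ∈ O'.toSubring := fun u hu => hu
  obtain ⟨i, hi, hmax⟩ := g.support.exists_max_image (fun j => v.valuation (g.coeff j))
    (Polynomial.support_nonempty.mpr hg)
  have hi0 : g.coeff i ≠ 0 := Polynomial.mem_support_iff.mp hi
  have hle : ∀ j, g.coeff j / g.coeff i ∈ v := by
    intro j
    rw [← v.valuation_le_one_iff, map_div₀]
    by_cases hj : j ∈ g.support
    · exact (div_le_one₀ ((v.valuation.pos_iff).mpr hi0)).mpr (hmax j hj)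
    · rw [Polynomial.notMem_support_iff.mp hj, map_zero, zero_div]
      exact zero_le_one
  -- the polynomial over the local ring
  let φ : v.toSubring →+* O'.toSubring :=
    (((algebraMap F K).comp (algebraMap K₀ F)).comp v.toSubring.subtype).codRestrict O'.toSubring
      fun u => hv u u.2
  obtain ⟨g₁, hg₁⟩ : ∃ g₁ : Polynomial K₀, g₁ = Polynomial.C (g.coeff i)⁻¹ * g := ⟨_, rfl⟩
  have hc : ∀ j, g₁.coeff j ∈ v.toSubring := by
    intro j
    rw [hg₁, Polynomial.coeff_C_mul, mul_comm, ← div_eq_mul_inv]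
    exact hle j
  have hlift : g₁ ∈ Polynomial.lifts v.toSubring.subtype := by
    rw [Polynomial.lifts_iff_coeff_lifts]
    intro j
    exact ⟨⟨_, hc j⟩, rfl⟩
  obtain ⟨f₀, hf₀⟩ := hlift
  have hf₀' : f₀.map v.toSubring.subtype = g₁ := hf₀
  refine root_or_inv O'.toSubring (XD1_closed h hx hO') (f₀.map φ) ⟨i, ?_⟩ ?_
  · rw [Polynomial.coeff_map]
    refine IsUnit.map φ ?_
    have h1 : f₀.coeff i = 1 := by
      apply Subtype.ext
      have h2 : v.toSubring.subtype (f₀.coeff i) = g₁.coeff i := by
        rw [← hf₀', Polynomial.coeff_map]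
      refine h2.trans ?_
      rw [hg₁, Polynomial.coeff_C_mul, inv_mul_cancel₀ hi0]
      rfl
    rw [h1]
    exact isUnit_one
  · rw [Polynomial.aeval_def, Polynomial.eval₂_map]
    have h1 : (algebraMap O'.toSubring K).comp φ =
        ((algebraMap F K).comp (algebraMap K₀ F)).comp v.toSubring.subtype := rfl
    rw [h1, ← Polynomial.eval₂_map, hf₀', hg₁, Polynomial.eval₂_mul, hg0, mul_zero]

end Pool.Agent.Lib.MP_b197b4_ntBW
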