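import Mathlib
import Pool.Agent.Lib.MP_b197b4_ntKE.Tn

/-!
# MP_b197b4_nt, project BW, descent: norms and composites
-/

set_option autoImplicit false

namespace Pool.Agent.Lib.MP_b197b4_ntBW

open TensorProduct Pool.Agent.Lib.MP_b197b4_ntKE

private theorem XE_det {J K : Type} [Field K] [LinearOrder J] [Fintype J] (m : J → Type)
    [∀ j, Fintype (m j)] [∀ j, DecidableEq (m j)] (d : ∀ j, Matrix (m j) (m j) K) :
    (Matrix.blockDiagonal' d).det = ∏ j, (d j).det := by
  rw [(Matrix.blockTriangular_blockDiagonal' d).det_fintype]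
  refine Finset.prod_congr rfl fun k _ => ?_
  let E : m k ≃ {a : Σ j, m j // a.1 = k} := Equiv.ofBijective (fun c => ⟨⟨k, c⟩, rfl⟩)
    ⟨fun c c' h => by
      have h1 : (⟨k, c⟩ : Σ j, m j) = ⟨k, c'⟩ := congrArg Subtype.val h
      exact eq_of_heq (Sigma.mk.inj h1).2, fun ⟨⟨j, c⟩, h⟩ => by
      subst h
      exact ⟨c, rfl⟩⟩
  rw [← Matrix.det_submatrix_equiv_self E]
  congr 1
  ext c c'
  exact Matrix.blockDiagonal'_apply_eq d k c c'

/-- The norm on a finite product. -/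
private theorem XE_norm_pi {K J : Type} [Field K] [Fintype J] (S : J → Type)
    [∀ j, CommRing (S j)] [∀ j, Algebra K (S j)] [∀ j, FiniteDimensional K (S j)]
    (x : ∀ j, S j) : Algebra.norm K x = ∏ j, Algebra.norm K (x j) := by
  let : LinearOrder J := LinearOrder.lift' (Fintype.equivFin J) (Fintype.equivFin J).injective
  let : ∀ j, DecidableEq (Module.Free.ChooseBasisIndex K (S j)) := fun j => Classical.decEq _
  let s := fun j => Module.Free.chooseBasis K (S j)
  rw [Algebra.norm_eq_matrix_det (Pi.basis s) x]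
  have h : Algebra.leftMulMatrix (Pi.basis s) x =
      Matrix.blockDiagonal' fun j => Algebra.leftMulMatrix (s j) (x j) := by
    ext ⟨i, a⟩ ⟨j, c⟩
    rw [Algebra.leftMulMatrix_eq_repr_mul, Pi.basis_repr, Pi.basis_apply]
    by_cases hij : i = j
    · subst hij
      rw [Matrix.blockDiagonal'_apply_eq, Algebra.leftMulMatrix_eq_repr_mul, Pi.mul_apply,
        Pi.single_eq_same]
    · rw [Matrix.blockDiagonal'_apply_ne _ _ _ hij, Pi.mul_apply, Pi.single_eq_of_ne hij, mul_zero,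
        map_zero, Finsupp.zero_apply]
  rw [h, XE_det]
  exact Finset.prod_congr rfl fun j _ => (Algebra.norm_eq_matrix_det (s j) (x j)).symm

private theorem XE_norm_base {κ κV κ' : Type} [Field κ] [Field κV] [Field κ'] [Algebra κ κV]
    [Algebra κ κ'] [FiniteDimensional κ κV] (u : κV) :
    Algebra.norm κ' ((1 : κ') ⊗ₜ[κ] u : κ' ⊗[κ] κV) = algebraMap κ κ' (Algebra.norm κ u) := by
  rw [Algebra.norm_apply, Algebra.norm_apply, ← LinearMap.det_baseChange]
  congr 1
  refine TensorProduct.AlgebraTensorModule.ext fun a b => ?_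
  change (1 : κ') ⊗ₜ[κ] u * (a ⊗ₜ[κ] b) = (LinearMap.baseChange κ' (LinearMap.mul κ κV u))
    (a ⊗ₜ[κ] b)
  rw [Algebra.TensorProduct.tmul_mul_tmul, one_mul, LinearMap.baseChange_tmul]
  rfl

private theorem XE_equiv {κ κV κ' : Type} [Field κ] [Field κV] [Field κ'] [Algebra κ κV]
    [Algebra κ κ']
    {I : Type} (M : I → Type) [∀ i, Field (M i)] (α : ∀ i, κ' →+* M i) (β : ∀ i, κV →+* M i)
    (hαβ : ∀ i (c : κ), α i (algebraMap κ κ' c) = β i (algebraMap κ κV c))
    (hgen : ∀ i (z : M i), z ∈ Subring.closure (Set.range (α i) ∪ Set.range (β i)))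
    (hinj : ∀ i j (θ : M i ≃+* M j), (∀ u, θ (α i u) = α j u) → (∀ u, θ (β i u) = β j u) → i = j)
    (hsurj : ∀ (N : Type) [Field N] (a : κ' →+* N) (b : κV →+* N),
      (∀ c : κ, a (algebraMap κ κ' c) = b (algebraMap κ κV c)) →
      ∃ i, ∃ γ : M i →+* N, (∀ u, γ (α i u) = a u) ∧ ∀ u, γ (β i u) = b u) :
    ∃ e : I ≃ MaximalSpectrum (κ' ⊗[κ] κV),
      ∀ i, (e i).asIdeal = RingHom.ker (Tn_hom (α i) (β i) (hαβ i)) := by
  have hs : ∀ i, Function.Surjective (Tn_hom (α i) (β i) (hαβ i)) := fun i =>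
    Tn_surj _ _ _ (hgen i)
  let F : I → MaximalSpectrum (κ' ⊗[κ] κV) := fun i =>
    ⟨RingHom.ker (Tn_hom (α i) (β i) (hαβ i)), RingHom.ker_isMaximal_of_surjective _ (hs i)⟩
  have hFi : Function.Injective F := by
    intro i j hij
    have hk : RingHom.ker (Tn_hom (α i) (β i) (hαβ i)) =
        RingHom.ker (Tn_hom (α j) (β j) (hαβ j)) := congrArg MaximalSpectrum.asIdeal hij
    let e1 := RingHom.quotientKerEquivOfSurjective (hs i)
    let e2 := RingHom.quotientKerEquivOfSurjective (hs j)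
    let θ : M i ≃+* M j := (e1.symm.trans (Ideal.quotEquivOfEq hk)).trans e2
    have hθ : ∀ z, θ (Tn_hom (α i) (β i) (hαβ i) z) = Tn_hom (α j) (β j) (hαβ j) z := by
      intro z
      have h1 : e1.symm (Tn_hom (α i) (β i) (hαβ i) z) = Ideal.Quotient.mk _ z := by
        rw [RingEquiv.symm_apply_eq]
        rfl
      change e2 (Ideal.quotEquivOfEq hk (e1.symm (Tn_hom (α i) (β i) (hαβ i) z))) = _
      rw [h1]
      rfl
    refine hinj i j θ (fun u => ?_) fun u => ?_
    · have := hθ (u ⊗ₜ 1)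
      rwa [Tn_hom_tmul, Tn_hom_tmul, map_one, map_one, mul_one, mul_one] at this
    · have := hθ (1 ⊗ₜ u)
      rwa [Tn_hom_tmul, Tn_hom_tmul, map_one, map_one, one_mul, one_mul] at this
  have hFs : Function.Surjective F := by
    intro m
    have hm := m.isMaximal
    let : Field ((κ' ⊗[κ] κV) ⧸ m.asIdeal) := Ideal.Quotient.field m.asIdeal
    obtain ⟨i, γ, h1, h2⟩ := hsurj ((κ' ⊗[κ] κV) ⧸ m.asIdeal)
      ((Ideal.Quotient.mk m.asIdeal).comp (algebraMap κ' (κ' ⊗[κ] κV)))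
      ((Ideal.Quotient.mk m.asIdeal).comp
        (Algebra.TensorProduct.includeRight (R := κ) (A := κ') (B := κV)).toRingHom) (by
          intro c
          change Ideal.Quotient.mk m.asIdeal (algebraMap κ κ' c ⊗ₜ 1) =
            Ideal.Quotient.mk m.asIdeal (1 ⊗ₜ algebraMap κ κV c)
          rw [Algebra.algebraMap_eq_smul_one, Algebra.algebraMap_eq_smul_one,
            TensorProduct.smul_tmul])
    refine ⟨i, ?_⟩
    have h3 : γ.comp (Tn_hom (α i) (β i) (hαβ i)) = Ideal.Quotient.mk m.asIdeal := by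
      refine Tn_hom_unique (fun a => ?_) fun b => ?_
      · rw [RingHom.comp_apply, Tn_hom_tmul, map_one, mul_one, h1]
        rfl
      · rw [RingHom.comp_apply, Tn_hom_tmul, map_one, one_mul, h2]
        rfl
    have h4 : RingHom.ker (Tn_hom (α i) (β i) (hαβ i)) = m.asIdeal := by
      ext z
      have h6 : γ (Tn_hom (α i) (β i) (hαβ i) z) = Ideal.Quotient.mk m.asIdeal z :=
        RingHom.congr_fun h3 z
      rw [RingHom.mem_ker, ← Ideal.Quotient.eq_zero_iff_mem, ← h6]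
      exact (map_eq_zero_iff γ γ.injective).symm
    exact MaximalSpectrum.ext h4
  exact ⟨Equiv.ofBijective F ⟨hFi, hFs⟩, fun _ => rfl⟩

private theorem XE_norm_comp {κ κV κ' : Type} [Field κ] [Field κV] [Field κ'] [Algebra κ κV]
    [Algebra κ κ'] {M : Type} [Field M] (α : κ' →+* M) (β : κV →+* M)
    (h : ∀ c : κ, α (algebraMap κ κ' c) = β (algebraMap κ κV c))
    (hs : Function.Surjective (Tn_hom α β h)) (m : Ideal (κ' ⊗[κ] κV))
    (hm : m = RingHom.ker (Tn_hom α β h)) (u : κV) :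
    @Algebra.norm κ' M _ _ α.toAlgebra (β u) =
      Algebra.norm κ' (Ideal.Quotient.mk m ((1 : κ') ⊗ₜ[κ] u)) := by
  subst hm
  let : Algebra κ' M := α.toAlgebra
  let f : κ' ⊗[κ] κV →ₐ[κ'] M :=
    { Tn_hom α β h with
      commutes' := fun c => by
        change Tn_hom α β h (c ⊗ₜ 1) = α c
        rw [Tn_hom_tmul, map_one, mul_one] }
  let g := Ideal.quotientKerAlgEquivOfSurjective (f := f) hs
  have h1 : g (Ideal.Quotient.mk _ ((1 : κ') ⊗ₜ[κ] u)) = β u := by
    change Tn_hom α β h ((1 : κ') ⊗ₜ[κ] u) = β u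
    rw [Tn_hom_tmul, map_one, one_mul]
  rw [← h1]
  exact Algebra.norm_eq_of_algEquiv g _

/-- XE. MODEL: `ntKE/Tn` (`sum_composites`, the same hypotheses). PROOF: `κ' ⊗ κV` is reduced and
artinian, so it is the product of its residue fields, the composites `M i` (`Tn`); the norm of
`1 ⊗ u` over `κ'` is the norm of `u` over `κ` (base change of the determinant) and the product of
the norms of the components (the determinant of a block diagonal map). -/
theorem norm_composites {κ κV κ' : Type} [Field κ] [Field κV] [Field κ'] [Algebra κ κV]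
    [Algebra κ κ'] [FiniteDimensional κ κV] [Algebra.IsAlgebraic κ κ'] [Algebra.IsSeparable κ κ']
    {I : Type} (M : I → Type) [∀ i, Field (M i)] (α : ∀ i, κ' →+* M i) (β : ∀ i, κV →+* M i)
    (hαβ : ∀ i (c : κ), α i (algebraMap κ κ' c) = β i (algebraMap κ κV c))
    (hgen : ∀ i (z : M i), z ∈ Subring.closure (Set.range (α i) ∪ Set.range (β i)))
    (hinj : ∀ i j (θ : M i ≃+* M j), (∀ u, θ (α i u) = α j u) → (∀ u, θ (β i u) = β j u) → i = j)
    (hsurj : ∀ (N : Type) [Field N] (a : κ' →+* N) (b : κV →+* N),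
      (∀ c : κ, a (algebraMap κ κ' c) = b (algebraMap κ κV c)) →
      ∃ i, ∃ γ : M i →+* N, (∀ u, γ (α i u) = a u) ∧ ∀ u, γ (β i u) = b u) (u : κV) :
    ∏ᶠ i, @Algebra.norm κ' (M i) _ _ (α i).toAlgebra (β i u) =
      algebraMap κ κ' (Algebra.norm κ u) := by
  classical
  have hred : IsReduced (κ' ⊗[κ] κV) := Tn_reduced
  have hart : IsArtinianRing (κ' ⊗[κ] κV) := IsArtinianRing.of_finite κ' _
  obtain ⟨e, he⟩ := XE_equiv M α β hαβ hgen hinj hsurj
  have : Fintype (MaximalSpectrum (κ' ⊗[κ] κV)) := Fintype.ofFinite _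
  have h5 : ∀ i, @Algebra.norm κ' (M i) _ _ (α i).toAlgebra (β i u) =
      Algebra.norm κ' (Ideal.Quotient.mk (e i).asIdeal ((1 : κ') ⊗ₜ[κ] u)) := fun i =>
    XE_norm_comp (α i) (β i) (hαβ i) (Tn_surj _ _ _ (hgen i)) _ (he i) u
  rw [finprod_congr h5, finprod_comp_equiv (f := fun m : MaximalSpectrum (κ' ⊗[κ] κV) =>
    Algebra.norm κ' (Ideal.Quotient.mk m.asIdeal ((1 : κ') ⊗ₜ[κ] u))) e,
    finprod_eq_prod_of_fintype, ← XE_norm_base (κ' := κ') u]
  have h6 := XE_norm_pi (K := κ') (fun m : MaximalSpectrum (κ' ⊗[κ] κV) =>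
    (κ' ⊗[κ] κV) ⧸ m.asIdeal) (fun m => Ideal.Quotient.mk m.asIdeal ((1 : κ') ⊗ₜ[κ] u))
  rw [← h6]
  let g : (κ' ⊗[κ] κV) ≃ₐ[κ'] (∀ m : MaximalSpectrum (κ' ⊗[κ] κV), (κ' ⊗[κ] κV) ⧸ m.asIdeal) :=
    (IsArtinianRing.equivPi (κ' ⊗[κ] κV)).restrictScalars κ'
  exact Algebra.norm_eq_of_algEquiv g ((1 : κ') ⊗ₜ[κ] u)

end Pool.Agent.Lib.MP_b197b4_ntBW
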