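import Mathlib
import Pool.Agent.Lib.MP_b197b4_ntBW.Defs
import Pool.Agent.Lib.MP_b197b4_ntKE.Fs

/-!
# MP_b197b4_nt, project BW, descent: residue fields of horizontal curves are finite over `K₀`
-/

set_option autoImplicit false

namespace Pool.Agent.Lib.MP_b197b4_ntBW

open IsLocalRing Pool.Agent.Lib.MP_b197b4_ntK Pool.Agent.Lib.MP_b197b4_ntA
  Pool.Agent.Lib.MP_b197b4_ntBV Algebra

/-- A finitely generated extension of the same finite transcendence degree is finite. -/
theorem XF_finite {k K E : Type} [Field k] [Field K] [Field E] [Algebra k K] [Algebra k E]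
    [Algebra K E] [IsScalarTower k K E] {e : ℕ} (h1 : Algebra.trdeg k K = e)
    (h2 : (⊤ : IntermediateField k E).FG) (h3 : Algebra.trdeg k E = e) : Module.Finite K E := by
  have h4 : Algebra.trdeg k K + Algebra.trdeg K E = Algebra.trdeg k E := trdeg_add_eq k K
  have h5 : Algebra.trdeg K E = 0 := by
    rw [h1, h3] at h4
    refine Cardinal.eq_of_add_eq_add_left (a := (e : Cardinal)) ?_ (Cardinal.natCast_lt_aleph0)
    rw [h4, add_zero]
  have h6 : Algebra.IsAlgebraic K E := trdeg_eq_zero_iff.mp h5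
  have h7 : Algebra.EssFiniteType k E := IntermediateField.fg_top_iff.mp h2
  have h8 : Algebra.EssFiniteType K E := Algebra.EssFiniteType.of_comp k K E
  exact Algebra.finite_of_essFiniteType_of_isAlgebraic

variable {k F : Type} [Field k] [Field F] [Algebra k F] {K₀ : IntermediateField k F} {n : ℕ}
  {x : Fin (n + 1) → F}

/-- XF. PROOF: `Kap P` is finitely generated of transcendence degree `1` over `k`
(`XPts`, `ntKE/Fs.fs_kap`), `K₀` has transcendence degree `1`, so `Kap P / K₀` is algebraic and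
finitely generated. -/
theorem fin_hor (hb : FunF k K₀ 1) (hne : ∀ i, x i ≠ 0) {P : LocalSubring F}
    (hP : P ∈ Pts k x 1) (h : HorX K₀ P) :
    @Module.Finite K₀ (Kap P) _ _ (toKap K₀ P h).toAlgebra.toModule := by
  obtain ⟨i, I, hI, hd, rfl⟩ := hP
  have hc : ∀ c : k, algebraMap k F c ∈
      (LocalSubring.ofPrime (cht k x i).toSubring I).toSubring := fun c =>
    LocalSubring.le_ofPrime _ I (Subalgebra.algebraMap_mem _ c)
  let iE : Algebra k (Kap (LocalSubring.ofPrime (cht k x i).toSubring I)) :=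
    (Pool.Agent.Lib.MP_b197b4_ntKE.conK k _ hc).toAlgebra
  obtain ⟨hE, -⟩ := Pool.Agent.Lib.MP_b197b4_ntKE.fs_kap (cht k x i)
    (Subalgebra.fg_def.mpr ⟨_, Set.finite_range _, rfl⟩) I hd iE (fun c hc => rfl)
  let iK : Algebra K₀ (Kap (LocalSubring.ofPrime (cht k x i).toSubring I)) :=
    (toKap K₀ _ h).toAlgebra
  have hT : IsScalarTower k K₀ (Kap (LocalSubring.ofPrime (cht k x i).toSubring I)) :=
    IsScalarTower.of_algebraMap_eq fun c => rfl
  exact XF_finite hb.2 hE.1 hE.2

end Pool.Agent.Lib.MP_b197b4_ntBW
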