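import Mathlib
import Pool.Agent.Lib.MP_b197b4_ntBW.XA
import Pool.Agent.Lib.MP_b197b4_ntKE.Kap
import Pool.Agent.Lib.MP_b197b4_ntKE.Pts

/-!
# MP_b197b4_nt, project BW, descent: the residue field of a point is a composite
-/

set_option autoImplicit false

namespace Pool.Agent.Lib.MP_b197b4_ntBW

open IsLocalRing Pool.Agent.Lib.MP_b197b4_ntK Pool.Agent.Lib.MP_b197b4_ntA
  Pool.Agent.Lib.MP_b197b4_ntBV Pool.Agent.Lib.MP_b197b4_ntKD Pool.Agent.Lib.MP_b197b4_ntKE

variable {k k' F K : Type} [Field k] [Field k'] [Field F] [Field K] [Algebra k k'] [Algebra k F]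
  [Algebra k' K] [Algebra F K] {K₀ : IntermediateField k F} {n D e : ℕ} {x : Fin (n + 1) → F}

/-- XG. PROOF: `Kap_gen` (`kap_bc`): `Kap P'` is generated as a ring by `Kap (dn P')` and `k'`, and
`k'` is in `upK`. -/
theorem comp_gen (h : BC k k' F K) (hx : Var k D x) {P' : LocalSubring K}
    (hP' : P' ∈ Pts k' (fun i => algebraMap F K (x i)) e) (hH : HorX (upK k' K K₀) P')
    (z : Kap P') :
    z ∈ Subring.closure (Set.range (toKap (upK k' K K₀) P' hH) ∪
      Set.range (kmap (algebraMap F K) P')) := by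
  have h2 : ∀ c : k', algebraMap k' K c ∈ P'.toSubring := Kap_mem hP'
  have h3 := Kap_gen h hP' h2 z
  refine @Algebra.adjoin_induction (Kap (dn (algebraMap F K) P')) (Kap P') _ _
    (kmap (algebraMap F K) P').toAlgebra (Set.range (conK k' P' h2))
    (p := fun z _ => z ∈ Subring.closure (Set.range (toKap (upK k' K K₀) P' hH) ∪
      Set.range (kmap (algebraMap F K) P'))) ?_ ?_ ?_ ?_ z h3
  · rintro _ ⟨c, rfl⟩
    exact Subring.subset_closure (Or.inl ⟨algebraMap k' (upK k' K K₀) c, rfl⟩)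
  · intro r
    exact Subring.subset_closure (Or.inr ⟨r, rfl⟩)
  · intro a b _ _ ha hb
    exact Subring.add_mem _ ha hb
  · intro a b _ _ ha hb
    exact Subring.mul_mem _ ha hb

omit [Algebra k k'] in
/-- A homomorphism of the residue fields over `upK` and `F` maps the class of a function on the
chart to its class. -/
theorem XG_chart {P₁ P₂ : LocalSubring K}
    (H1 : HorX (upK k' K K₀) P₁)
    (H2 : HorX (upK k' K K₀) P₂) (θ : Kap P₁ →+* Kap P₂)
    (hθ : ∀ t, θ (toKap (upK k' K K₀) P₁ H1 t) = toKap (upK k' K K₀) P₂ H2 t)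
    (hθ' : ∀ (y : F) (y1 : algebraMap F K y ∈ P₁.toSubring)
      (y2 : algebraMap F K y ∈ P₂.toSubring),
      θ (residue _ ⟨algebraMap F K y, y1⟩) = residue _ ⟨algebraMap F K y, y2⟩)
    {i : Fin (n + 1)}
    (hi1 : (cht k' (fun i => algebraMap F K (x i)) i).toSubring ≤ P₁.toSubring)
    (hi2 : (cht k' (fun i => algebraMap F K (x i)) i).toSubring ≤ P₂.toSubring) {a : K}
    (ha : a ∈ cht k' (fun i => algebraMap F K (x i)) i) :
    θ (residue _ ⟨a, hi1 ha⟩) = residue _ ⟨a, hi2 ha⟩ := by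
  refine Algebra.adjoin_induction (p := fun a ha => ∀ (h1 : a ∈ P₁.toSubring)
    (h2 : a ∈ P₂.toSubring), θ (residue _ ⟨a, h1⟩) = residue _ ⟨a, h2⟩) ?_ ?_ ?_ ?_ ha (hi1 ha)
    (hi2 ha)
  · rintro _ ⟨j, rfl⟩ h1 h2
    have h3 : algebraMap F K (x j) / algebraMap F K (x i) = algebraMap F K (x j / x i) :=
      (map_div₀ (algebraMap F K) _ _).symm
    have h4 : ∀ (b : K) (hb : b = algebraMap F K (x j / x i)) (h1 : b ∈ P₁.toSubring)
        (h2 : b ∈ P₂.toSubring), θ (residue _ ⟨b, h1⟩) = residue _ ⟨b, h2⟩ := by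
      intro b hb h1 h2
      subst hb
      exact hθ' _ h1 h2
    exact h4 _ h3 h1 h2
  · intro c h1 h2
    exact hθ (algebraMap k' (upK k' K K₀) c)
  · intro a b ha hb iha ihb h1 h2
    have e1 : residue _ (⟨a + b, h1⟩ : P₁.toSubring) = residue _ ⟨a, hi1 ha⟩ +
        residue _ ⟨b, hi1 hb⟩ := by
      rw [← map_add]
      rfl
    have e2 : residue _ (⟨a + b, h2⟩ : P₂.toSubring) = residue _ ⟨a, hi2 ha⟩ +
        residue _ ⟨b, hi2 hb⟩ := by
      rw [← map_add]
      rfl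
    rw [e1, e2, map_add, iha, ihb]
  · intro a b ha hb iha ihb h1 h2
    have e1 : residue _ (⟨a * b, h1⟩ : P₁.toSubring) = residue _ ⟨a, hi1 ha⟩ *
        residue _ ⟨b, hi1 hb⟩ := by
      rw [← map_mul]
      rfl
    have e2 : residue _ (⟨a * b, h2⟩ : P₂.toSubring) = residue _ ⟨a, hi2 ha⟩ *
        residue _ ⟨b, hi2 hb⟩ := by
      rw [← map_mul]
      rfl
    rw [e1, e2, map_mul, iha, ihb]

/-- XG. PROOF: both points are on one chart `A'_i` (D3b, `pts_chart`), `P₁ = ofPrime A'_i Q₁`,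
`P₂ = ofPrime A'_i Q₂`; `z ∈ A'_i` is `∑ a_j c_j` (`a_j ∈ A_i`, `c_j ∈ k'`: `bc_form`), so `θ` maps
its class in `Kap P₁` to its class in `Kap P₂` and `Q₁ = Q₂`. -/
theorem comp_inj (h : BC k k' F K) (hx : Var k D x) {P₁ P₂ : LocalSubring K}
    (h1 : P₁ ∈ Pts k' (fun i => algebraMap F K (x i)) e)
    (h2 : P₂ ∈ Pts k' (fun i => algebraMap F K (x i)) e)
    (hd : dn (algebraMap F K) P₁ = dn (algebraMap F K) P₂) (H1 : HorX (upK k' K K₀) P₁)
    (H2 : HorX (upK k' K K₀) P₂) (θ : Kap P₁ →+* Kap P₂)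
    (hθ : ∀ t, θ (toKap (upK k' K K₀) P₁ H1 t) = toKap (upK k' K K₀) P₂ H2 t)
    (hθ' : ∀ (y : F) (y1 : algebraMap F K y ∈ P₁.toSubring)
      (y2 : algebraMap F K y ∈ P₂.toSubring),
      θ (residue _ ⟨algebraMap F K y, y1⟩) = residue _ ⟨algebraMap F K y, y2⟩) : P₁ = P₂ := by
  have hne : ∀ i, algebraMap F K (x i) ≠ 0 := fun i =>
    (map_ne_zero (algebraMap F K)).2 (hx.ne i)
  have hi : ∃ i : Fin (n + 1),
      (cht k' (fun i => algebraMap F K (x i)) i).toSubring ≤ P₁.toSubring := by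
    obtain ⟨i, Q, hQ, -, rfl⟩ := h1
    exact ⟨i, LocalSubring.le_ofPrime _ Q⟩
  obtain ⟨i, hi1⟩ := hi
  have hi2 : (cht k' (fun i => algebraMap F K (x i)) i).toSubring ≤ P₂.toSubring := by
    have hle : cht k' (fun i => algebraMap F K (x i)) i ≤
        { P₂.toSubring with algebraMap_mem' := Kap_mem h2 } := by
      refine Algebra.adjoin_le ?_
      rintro _ ⟨j, rfl⟩
      have h3 : x j / x i ∈ (dn (algebraMap F K) P₁).toSubring := by
        rw [mem_dn, map_div₀]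
        exact hi1 (XP_gen i j)
      rw [hd, mem_dn, map_div₀] at h3
      exact h3
    exact fun a ha => hle ha
  have hun : ∀ {b : K} (hb : b ∈ (cht k' (fun i => algebraMap F K (x i)) i).toSubring),
      IsUnit (⟨b, hi1 hb⟩ : P₁.toSubring) ↔ IsUnit (⟨b, hi2 hb⟩ : P₂.toSubring) := by
    intro b hb
    rw [← residue_ne_zero_iff_isUnit, ← residue_ne_zero_iff_isUnit,
      ← XG_chart H1 H2 θ hθ hθ' hi1 hi2 hb, map_ne_zero θ]
  apply LocalSubring.toSubring_injective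
  refine le_antisymm (fun y hy => ?_) fun y hy => ?_
  · obtain ⟨a, b, ha, hb, hu, rfl⟩ := XP_frac hne h1 hi1 hy
    have hu2 := (hun hb).1 hu
    obtain ⟨u, hu2⟩ := hu2
    have h5 : a / b = a * ((u⁻¹ : P₂.toSubringˣ) : P₂.toSubring) := by
      have h6 : b * (((u⁻¹ : P₂.toSubringˣ) : P₂.toSubring) : K) = 1 := by
        have h7 := congrArg Subtype.val u.mul_inv
        rw [hu2] at h7
        exact h7
      rw [div_eq_mul_inv, inv_eq_of_mul_eq_one_right h6]
    rw [h5]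
    exact P₂.toSubring.mul_mem (hi2 ha) (SetLike.coe_mem _)
  · obtain ⟨a, b, ha, hb, hu, rfl⟩ := XP_frac hne h2 hi2 hy
    have hu2 := (hun hb).2 hu
    obtain ⟨u, hu2⟩ := hu2
    have h5 : a / b = a * ((u⁻¹ : P₁.toSubringˣ) : P₁.toSubring) := by
      have h6 : b * (((u⁻¹ : P₁.toSubringˣ) : P₁.toSubring) : K) = 1 := by
        have h7 := congrArg Subtype.val u.mul_inv
        rw [hu2] at h7
        exact h7
      rw [div_eq_mul_inv, inv_eq_of_mul_eq_one_right h6]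
    rw [h5]
    exact P₁.toSubring.mul_mem (hi1 ha) (SetLike.coe_mem _)

end Pool.Agent.Lib.MP_b197b4_ntBW
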