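import Mathlib
import Pool.Agent.Lib.MP_b197b4_ntBW.XB
import Pool.Agent.Lib.MP_b197b4_ntKE.Kap
import Pool.Agent.Lib.MP_b197b4_ntKE.Pts
import Pool.Agent.Lib.MP_b197b4_ntKE.Chi

/-!
# MP_b197b4_nt, project BW, descent: every composite comes from a point
-/

set_option autoImplicit false

namespace Pool.Agent.Lib.MP_b197b4_ntBW

open IsLocalRing Pool.Agent.Lib.MP_b197b4_ntK Pool.Agent.Lib.MP_b197b4_ntA
  Pool.Agent.Lib.MP_b197b4_ntBV Pool.Agent.Lib.MP_b197b4_ntKD Pool.Agent.Lib.MP_b197b4_ntKE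
  Pool.Agent.Lib.MP_b197b4_ntKR

/-- A homomorphism to a field with kernel `Q` extends to the residue field at `Q`. -/
theorem XH_lift {K : Type} [Field K] (A : Subring K) (Q : Ideal A) [Q.IsPrime] {N : Type} [Field N]
    (f : A →+* N) (hf : ∀ a : A, f a = 0 ↔ a ∈ Q) :
    ∃ γ : Kap (LocalSubring.ofPrime A Q) →+* N, ∀ (z : A)
      (hz' : (z : K) ∈ (LocalSubring.ofPrime A Q).toSubring),
      γ (residue _ ⟨z, hz'⟩) = f z := by
  have hu : ∀ y : Q.primeCompl, IsUnit (f y) := fun y =>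
    isUnit_iff_ne_zero.2 (fun h => y.2 ((hf y).1 h))
  let g : (LocalSubring.ofPrime A Q).toSubring →+* N := IsLocalization.lift (M := Q.primeCompl) hu
  have hg : ∀ z : A, g (algebraMap A _ z) = f z := fun z => IsLocalization.lift_eq hu z
  have hloc : IsLocalHom g := ⟨fun z hz => by
    obtain ⟨⟨a, s⟩, h⟩ := IsLocalization.surj Q.primeCompl z
    have h1 : g z * f s = f a := by
      rw [← hg, ← hg, ← map_mul]
      exact congrArg g h
    have ha : a ∉ Q := by
      intro ha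
      rw [(hf a).2 ha] at h1
      rcases mul_eq_zero.1 h1 with h2 | h2
      · exact hz.ne_zero h2
      · exact s.2 ((hf s).1 h2)
    have h3 : IsUnit (z * algebraMap A (LocalSubring.ofPrime A Q).toSubring s) := by
      rw [h]
      exact IsLocalization.map_units (M := Q.primeCompl) _ (⟨a, ha⟩ : Q.primeCompl)
    exact isUnit_of_mul_isUnit_left h3⟩
  refine ⟨ResidueField.lift g, fun z hz' => ?_⟩
  rw [ResidueField.lift_residue_apply]
  exact hg z

variable {k k' F K : Type} [Field k] [Field k'] [Field F] [Field K] [Algebra k k'] [Algebra k F]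
  [Algebra k' K] [Algebra F K] {K₀ : IntermediateField k F} {n D e : ℕ} {x : Fin (n + 1) → F}

/-- XH. Every composite of `upK` and of the residue field of a horizontal point `P` comes from a point
over `P`. Proof: `χ : P k' → N`, `∑ t_j c_j ↦ ∑ b [t_j] a (c_j)` (`Chi_exists_aux` for the ring
`P`; the minimal polynomials over `F` of the constants have coefficients in `K₀`). `Q'` = the kernel
of `χ` on `A'_i`, `Q' ∩ A_i = Q`, `P' = ofPrime A'_i Q'` (`Pt1_all`). -/
theorem comp_surj (h : BC k k' F K) (hx : Var k D x) (hcl : ∀ u : F, IsAlgebraic K₀ u → u ∈ K₀)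
    {P : LocalSubring F} (hP : P ∈ Pts k x e) (H : HorX K₀ P) {N : Type} [Field N]
    (a : upK k' K K₀ →+* N) (b : Kap P →+* N)
    (hab : ∀ t : K₀, a (upHom k' K K₀ t) = b (toKap K₀ P H t)) :
    ∃ P' ∈ Pts k' (fun i => algebraMap F K (x i)) e, dn (algebraMap F K) P' = P ∧
      ∃ (H' : HorX (upK k' K K₀) P') (γ : Kap P' →+* N),
        (∀ t, γ (toKap (upK k' K K₀) P' H' t) = a t) ∧
        ∀ (y : F) (y1 : algebraMap F K y ∈ P'.toSubring) (y2 : y ∈ P.toSubring),
          γ (residue _ ⟨algebraMap F K y, y1⟩) = b (residue _ ⟨y, y2⟩) := by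
  have hsep := h.sep
  let _ : Algebra k K := ((algebraMap k' K).comp (algebraMap k k')).toAlgebra
  have : IsScalarTower k k' K := IsScalarTower.of_algebraMap_eq fun _ => rfl
  have : IsScalarTower k F K := IsScalarTower.of_algebraMap_eq fun c => h.comm c
  obtain ⟨i, Q, hQ, hd, rfl⟩ := hP
  -- the ring `T`
  obtain ⟨T, hT⟩ : ∃ T : Subalgebra k F, ∀ y : F, y ∈ T ↔
      y ∈ (LocalSubring.ofPrime (cht k x i).toSubring Q).toSubring :=
    ⟨{ (LocalSubring.ofPrime (cht k x i).toSubring Q).toSubring with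
        algebraMap_mem' := fun c =>
          LocalSubring.le_ofPrime _ Q ((cht k x i).algebraMap_mem c) }, fun _ => Iff.rfl⟩
  have hAT : cht k x i ≤ T := fun y hy => (hT y).2 (LocalSubring.le_ofPrime _ Q hy)
  have hk' : ∀ c : k', algebraMap k' K c ∈ (upK k' K K₀).toSubfield.toSubring := fun c =>
    (upK k' K K₀).algebraMap_mem c
  have hOT : ∀ y ∈ K₀.toSubfield.toSubring, y ∈ T := fun y hy => (hT y).2 (H y hy)
  have hO : ∀ y : F, IsIntegral k y → y ∈ K₀.toSubfield.toSubring := fun y hy =>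
    hcl y (hy.tower_top (A := K₀)).isAlgebraic
  have hOO : ∀ y ∈ K₀.toSubfield.toSubring, algebraMap F K y ∈ (upK k' K K₀).toSubfield.toSubring :=
    fun y hy => mem_upK hy
  let τ : T →+* N := (b.comp (residue (LocalSubring.ofPrime (cht k x i).toSubring Q).toSubring)).comp
    (T.toSubring.subtype.codRestrict _ fun y => (hT y).1 y.2)
  let a' : (upK k' K K₀).toSubfield.toSubring →+* N :=
    a.comp ((upK k' K K₀).toSubfield.toSubring.subtype.codRestrict (upK k' K K₀) fun z => z.2)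
  obtain ⟨χ, hχ1, hχ2⟩ := Chi_exists_aux (k := k) (k' := k') (K := K) T hOT hO hOO hk' τ a'
    (fun y hy => (hab ⟨y, hy⟩).symm)
  have hle : bc k' K (cht k x i) ≤ bc k' K T := Algebra.adjoin_mono (Set.image_mono hAT)
  let f : (bc k' K (cht k x i)).toSubring →+* N :=
    χ.comp ((bc k' K (cht k x i)).toSubring.subtype.codRestrict (bc k' K T) fun z => hle z.2)
  have hf : ∀ (z : K) (hz : z ∈ (bc k' K (cht k x i)).toSubring), f ⟨z, hz⟩ = χ ⟨z, hle hz⟩ :=
    fun _ _ => rfl
  have hfy : ∀ (y : F) (hy : y ∈ cht k x i)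
      (hy2 : y ∈ (LocalSubring.ofPrime (cht k x i).toSubring Q).toSubring),
      f ⟨algebraMap F K y, mem_bc hy⟩ = b (residue _ ⟨y, hy2⟩) := fun y hy hy2 =>
    hχ1 ⟨y, hAT hy⟩
  have hQ'' : (RingHom.ker f).IsPrime := RingHom.ker_isPrime f
  obtain ⟨Q₂, hQ₂, h5, h6, h7⟩ := Pt1_all h hx i (bc k' K (cht k x i)) rfl (RingHom.ker f) hQ''
  have hQQ : Q₂ = Q := by
    ext ⟨y, hy⟩
    rw [h6 y hy (mem_bc hy), RingHom.mem_ker, hfy y hy (LocalSubring.le_ofPrime _ Q hy),
      map_eq_zero, residue_eq_zero_iff, mem_maximalIdeal, mem_nonunits_iff]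
    have h8 := xcen_unit (cht k x i).toSubring Q ⟨y, hy⟩
    rw [← not_iff_not, not_not]
    exact h8
  subst hQQ
  obtain ⟨γ, hγ⟩ := XH_lift (bc k' K (cht k x i)).toSubring (RingHom.ker f) f
    (fun a => (RingHom.mem_ker (f := f)).symm)
  have hdn : ∀ y : F, algebraMap F K y ∈
      (LocalSubring.ofPrime (bc k' K (cht k x i)).toSubring (RingHom.ker f)).toSubring ↔
      y ∈ (LocalSubring.ofPrime (cht k x i).toSubring Q₂).toSubring := by
    intro y
    rw [← h5]
    exact Iff.rfl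
  have hγ3 : ∀ (y : F) (y1 : algebraMap F K y ∈
      (LocalSubring.ofPrime (bc k' K (cht k x i)).toSubring (RingHom.ker f)).toSubring)
      (y2 : y ∈ (LocalSubring.ofPrime (cht k x i).toSubring Q₂).toSubring),
          γ (residue _ ⟨algebraMap F K y, y1⟩) = b (residue _ ⟨y, y2⟩) := by
    intro y y1 y2
    obtain ⟨c, s, hs, hy⟩ := (xcen_mem (cht k x i).toSubring Q₂ y).1 y2
    have hs0 : (s : F) ≠ 0 := xcen_ne _ _ hs
    have hys : y * (s : F) = c := by
      rw [hy, div_mul_cancel₀ _ hs0]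
    have s2 := LocalSubring.le_ofPrime _ Q₂ s.2
    have c2 := LocalSubring.le_ofPrime _ Q₂ c.2
    have s1 := (hdn s).2 s2
    have c1 := (hdn c).2 c2
    have e1 : γ (residue _ ⟨algebraMap F K s, s1⟩) = b (residue _ ⟨(s : F), s2⟩) :=
      (hγ ⟨algebraMap F K s, mem_bc s.2⟩ s1).trans (hfy s s.2 s2)
    have e2 : γ (residue _ ⟨algebraMap F K c, c1⟩) = b (residue _ ⟨(c : F), c2⟩) :=
      (hγ ⟨algebraMap F K c, mem_bc c.2⟩ c1).trans (hfy c c.2 c2)
    have hsb : b (residue _ ⟨(s : F), s2⟩) ≠ 0 := by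
      rw [Ne, map_eq_zero, residue_eq_zero_iff, mem_maximalIdeal, mem_nonunits_iff, not_not]
      exact (xcen_unit (cht k x i).toSubring Q₂ s).2 hs
    refine mul_right_cancel₀ hsb ?_
    rw [← map_mul, ← map_mul]
    have e3 : (⟨y, y2⟩ : (LocalSubring.ofPrime (cht k x i).toSubring Q₂).toSubring) * ⟨s, s2⟩ =
        ⟨c, c2⟩ := Subtype.ext hys
    rw [e3, ← e2, ← e1, ← map_mul, ← map_mul]
    refine congrArg (fun z => γ (residue _ z)) (Subtype.ext ?_)
    change algebraMap F K y * algebraMap F K s = algebraMap F K c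
    rw [← map_mul, hys]
  have hcon : ∀ c : k', algebraMap k' K c ∈
      (LocalSubring.ofPrime (bc k' K (cht k x i)).toSubring (RingHom.ker f)).toSubring := fun c =>
    LocalSubring.le_ofPrime _ _ ((bc k' K (cht k x i)).algebraMap_mem c)
  have hcong : ∀ (c : k'), γ (residue _ ⟨algebraMap k' K c, hcon c⟩) =
      a ⟨algebraMap k' K c, hk' c⟩ := fun c =>
    (hγ ⟨algebraMap k' K c, (bc k' K (cht k x i)).algebraMap_mem c⟩ (hcon c)).trans (hχ2 c)
  have H' : HorX (upK k' K K₀)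
      (LocalSubring.ofPrime (bc k' K (cht k x i)).toSubring (RingHom.ker f)) := by
    intro t ht
    obtain ⟨θ, p, rfl⟩ := upK_form h ht
    let j : K₀ →+*
        (LocalSubring.ofPrime (bc k' K (cht k x i)).toSubring (RingHom.ker f)).toSubring :=
      ((algebraMap F K).comp (algebraMap K₀ F)).codRestrict _ fun s => (hdn s).2 (H s s.2)
    have hj := Polynomial.hom_eval₂ p j
      (LocalSubring.ofPrime (bc k' K (cht k x i)).toSubring (RingHom.ker f)).toSubring.subtype
      ⟨algebraMap k' K θ, hcon θ⟩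
    have hj2 : p.eval₂ ((algebraMap F K).comp (algebraMap K₀ F)) (algebraMap k' K θ) =
      (LocalSubring.ofPrime (bc k' K (cht k x i)).toSubring (RingHom.ker f)).toSubring.subtype
        (p.eval₂ j ⟨algebraMap k' K θ, hcon θ⟩) := hj.symm
    rw [hj2]
    exact (p.eval₂ j ⟨algebraMap k' K θ, hcon θ⟩).2
  refine ⟨LocalSubring.ofPrime (bc k' K (cht k x i)).toSubring (RingHom.ker f), ?_, h5, H', γ, ?_, hγ3⟩
  · have h8 : ∀ C : Subalgebra k' K, bc k' K (cht k x i) = C → ∃ (P : Ideal C.toSubring)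
        (_ : P.IsPrime), ringKrullDim (C.toSubring ⧸ P) = (e : ℕ) ∧
          LocalSubring.ofPrime (bc k' K (cht k x i)).toSubring (RingHom.ker f) =
            LocalSubring.ofPrime C.toSubring P := by
      rintro _ rfl
      exact ⟨RingHom.ker f, hQ'', h7.symm.trans hd, rfl⟩
    exact ⟨i, h8 _ (Var_cht_eq h x i).symm⟩
  · intro t
    obtain ⟨θ, p, hp⟩ := upK_form h t.2
    have ht : t = p.eval₂ (upHom k' K K₀) ⟨algebraMap k' K θ, hk' θ⟩ := by
      apply Subtype.ext
      rw [hp]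
      exact (Polynomial.hom_eval₂ p (upHom k' K K₀)
        (upK k' K K₀).toSubfield.toSubring.subtype ⟨algebraMap k' K θ, hk' θ⟩).symm
    have e1 := Polynomial.hom_eval₂ p (upHom k' K K₀) (γ.comp (toKap (upK k' K K₀) _ H'))
      ⟨algebraMap k' K θ, hk' θ⟩
    have e2 := Polynomial.hom_eval₂ p (upHom k' K K₀) a ⟨algebraMap k' K θ, hk' θ⟩
    have e3 : (γ.comp (toKap (upK k' K K₀) _ H')).comp (upHom k' K K₀) =
        a.comp (upHom k' K K₀) := by
      refine RingHom.ext fun s => ?_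
      have e4 : γ (residue _ ⟨algebraMap F K (s : F), (hdn s).2 (H s s.2)⟩) =
          b (residue _ ⟨(s : F), H s s.2⟩) := hγ3 s _ _
      exact e4.trans (hab s).symm
    have e5 : (γ.comp (toKap (upK k' K K₀) _ H')) ⟨algebraMap k' K θ, hk' θ⟩ =
        a ⟨algebraMap k' K θ, hk' θ⟩ := hcong θ
    rw [ht]
    rw [e3, e5, ← e2] at e1
    exact e1

end Pool.Agent.Lib.MP_b197b4_ntBW
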