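import Mathlib
import Pool.Agent.Lib.MP_b197b4_ntBW.XC
import Pool.Agent.Lib.MP_b197b4_ntBW.XD
import Pool.Agent.Lib.MP_b197b4_ntBW.XE
import Pool.Agent.Lib.MP_b197b4_ntBW.XF
import Pool.Agent.Lib.MP_b197b4_ntBW.XG
import Pool.Agent.Lib.MP_b197b4_ntBW.XH

/-!
# MP_b197b4_nt, project BW, descent: norms over a larger field of constants
-/

set_option autoImplicit false

namespace Pool.Agent.Lib.MP_b197b4_ntBW

open IsLocalRing Pool.Agent.Lib.MP_b197b4_ntK Pool.Agent.Lib.MP_b197b4_ntA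
  Pool.Agent.Lib.MP_b197b4_ntBV Pool.Agent.Lib.MP_b197b4_ntKD Pool.Agent.Lib.MP_b197b4_ntKE

/-- The homomorphism of the residue fields for a point over `P`. -/
theorem XI_beta {F K : Type} [Field F] [Field K] (ι : F →+* K) (P' : LocalSubring K)
    (P : LocalSubring F) (h : dn ι P' = P) (a : ∀ P : LocalSubring F, Kap P) :
    (∀ y : F, y ∈ P.toSubring ↔ ι y ∈ P'.toSubring) ∧
    ∃ β : Kap P →+* Kap P', (∀ (y : F) (s1 : y ∈ P.toSubring) (s2 : ι y ∈ P'.toSubring),
      β (residue _ ⟨y, s1⟩) = residue _ ⟨ι y, s2⟩) ∧ β (a P) = kmap ι P' (a (dn ι P')) := by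
  subst h
  exact ⟨fun y => Iff.rfl, kmap ι P', fun y s1 s2 => kmap_residue ι P' y s1 s2, rfl⟩

variable {k k' F K : Type} [Field k] [Field k'] [Field F] [Field K] [Algebra k k'] [Algebra k F]
  [Algebra k' K] [Algebra F K] {K₀ : IntermediateField k F} {n D : ℕ} {x : Fin (n + 1) → F}

/-- XI. PROOF: `norm_composites` with `κ = K₀`, `κ' = upK` (`bcK`, `Dg_sep`), `κV = Kap P`
(`fin_hor`), `I = Ov P` as a subtype, `M P' = Kap P'` (`comp_gen`, `comp_inj`, `comp_surj`,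
`hor_iff`). -/
theorem norm_up (h : BC k k' F K) (hx : Var k D x) (hb : FunF k K₀ 1)
    (hcl : ∀ u : F, IsAlgebraic K₀ u → u ∈ K₀) {P : LocalSubring F} (hP : P ∈ Pts k x 1)
    (H : HorX K₀ P) (a : ∀ P : LocalSubring F, Kap P) :
    ∏ᶠ (P' : LocalSubring K) (_ : P' ∈ Ov k' (fun i => algebraMap F K (x i)) (algebraMap F K) 1 P),
      nrmX (upK k' K K₀) P' (kmap (algebraMap F K) P' (a (dn (algebraMap F K) P'))) =
      upHom k' K K₀ (nrmX K₀ P (a P)) := by
  let iV : Algebra K₀ (Kap P) := (toKap K₀ P H).toAlgebra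
  let iK : Algebra K₀ (upK k' K K₀) := (upHom k' K K₀).toAlgebra
  have hfin : FiniteDimensional K₀ (Kap P) := fin_hor hb hx.ne hP H
  have hbc : BC k k' K₀ (upK k' K K₀) := bcK h
  have hsep : Algebra.IsSeparable K₀ (upK k' K K₀) := Dg_sep hbc
  have halg : Algebra.IsAlgebraic K₀ (upK k' K K₀) := Algebra.IsSeparable.isAlgebraic _ _
  let I : Type := {P' : LocalSubring K //
    P' ∈ Ov k' (fun i => algebraMap F K (x i)) (algebraMap F K) 1 P}
  have hH : ∀ i : I, HorX (upK k' K K₀) i.1 := by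
    intro i
    refine (hor_iff h i.2.1).2 ?_
    rw [i.2.2]
    exact H
  have hm := fun i : I => (XI_beta (algebraMap F K) i.1 P i.2.2 a).1
  have hβ' := fun i : I => (XI_beta (algebraMap F K) i.1 P i.2.2 a).2
  choose β hβ hβa using hβ'
  have hc := norm_composites (κ := K₀) (κV := Kap P) (κ' := upK k' K K₀) (I := I)
    (fun i => Kap i.1) (fun i => toKap (upK k' K K₀) i.1 (hH i)) β
    (by
      intro i c
      have e1 : algebraMap K₀ (Kap P) c = residue _ ⟨(c : F), H c c.2⟩ := rfl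
      have s2 : algebraMap F K (c : F) ∈ i.1.toSubring := (hm i _).1 (H c c.2)
      have e2 : toKap (upK k' K K₀) i.1 (hH i) (algebraMap K₀ (upK k' K K₀) c) =
        residue _ ⟨algebraMap F K (c : F), s2⟩ := rfl
      rw [e1, e2, hβ i])
    (by
      intro i z
      have h3 := comp_gen h hx i.2.1 (hH i) z
      refine Subring.closure_mono ?_ h3
      refine Set.union_subset_union_right _ ?_
      rintro _ ⟨u, rfl⟩
      obtain ⟨⟨y, hy⟩, rfl⟩ := residue_surjective u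
      exact ⟨residue _ ⟨y, (hm i y).2 hy⟩, hβ i y _ hy⟩)
    (by
      intro i j θ hθ1 hθ2
      refine Subtype.ext (comp_inj h hx i.2.1 j.2.1 (i.2.2.trans j.2.2.symm) (hH i) (hH j)
        (θ : Kap i.1 →+* Kap j.1) hθ1 ?_)
      intro y y1 y2
      have h4 := hθ2 (residue _ ⟨y, (hm i y).2 y1⟩)
      rw [hβ i y _ y1, hβ j y _ y2] at h4
      exact h4)
    (by
      intro N _ a' b hab
      obtain ⟨P', hP', hd, H', γ, hγ1, hγ2⟩ := comp_surj h hx hcl hP H a' b hab
      refine ⟨⟨P', hP', hd⟩, γ, hγ1, fun u => ?_⟩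
      obtain ⟨⟨y, hy⟩, rfl⟩ := residue_surjective u
      have s2 : algebraMap F K y ∈ P'.toSubring := (hm ⟨P', hP', hd⟩ y).1 hy
      rw [hβ ⟨P', hP', hd⟩ y hy s2]
      exact hγ2 y s2 hy) (a P)
  have e3 : nrmX K₀ P (a P) = Algebra.norm K₀ (a P) := dif_pos H
  rw [e3]
  refine Eq.trans ?_ hc
  rw [← finprod_set_coe_eq_finprod_mem]
  refine finprod_congr fun i => ?_
  rw [hβa i]
  exact dif_pos (hH i)

end Pool.Agent.Lib.MP_b197b4_ntBW
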