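import Mathlib
import Pool.Agent.Lib.MP_b197b4_ntBW.XI

/-!
# MP_b197b4_nt, project BW, descent: families of norm one over a larger field of constants
-/

set_option autoImplicit false

namespace Pool.Agent.Lib.MP_b197b4_ntBW

open IsLocalRing Pool.Agent.Lib.MP_b197b4_ntK Pool.Agent.Lib.MP_b197b4_ntA
  Pool.Agent.Lib.MP_b197b4_ntBV Pool.Agent.Lib.MP_b197b4_ntKD Pool.Agent.Lib.MP_b197b4_ntKE

variable {k k' F K : Type} [Field k] [Field k'] [Field F] [Field K] [Algebra k k'] [Algebra k F]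
  [Algebra k' K] [Algebra F K] {K₀ : IntermediateField k F} {n D : ℕ} {x : Fin (n + 1) → F}

/-- Grouping of a finite product. -/
theorem XJ_group {α β M : Type*} [CommMonoid M] (A : Set α) (T : Set β) (hT : T.Finite) (π : α → β)
    (f : α → M) (hA : ∀ a ∈ A, f a ≠ 1 → π a ∈ T)
    (hfin : ∀ b ∈ T, {a | a ∈ A ∧ π a = b}.Finite) :
    ∏ᶠ (a : α) (_ : a ∈ A), f a =
      ∏ᶠ (b : β) (_ : b ∈ T), ∏ᶠ (a : α) (_ : a ∈ {a | a ∈ A ∧ π a = b}), f a := by
  have h2 : ∏ᶠ (a : α) (_ : a ∈ A), f a =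
      ∏ᶠ (a : α) (_ : a ∈ ⋃ b ∈ T, {a | a ∈ A ∧ π a = b}), f a := by
    refine finprod_mem_inter_mulSupport_eq _ _ _ ?_
    ext a
    simp only [Set.mem_inter_iff, Function.mem_mulSupport, Set.mem_iUnion]
    constructor
    · rintro ⟨ha, hfa⟩
      exact ⟨⟨π a, hA a ha hfa, ha, rfl⟩, hfa⟩
    · rintro ⟨⟨b, -, ha, -⟩, hfa⟩
      exact ⟨ha, hfa⟩
  rw [h2, finprod_mem_biUnion _ hT hfin]
  intro b hb c hc hbc
  refine Set.disjoint_left.mpr ?_
  rintro a ⟨-, h5⟩ ⟨-, h6⟩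
  exact hbc (h5.symm.trans h6)

/-- The norm of one. -/
theorem XJ_one {E : Type} [Field E] {k₁ : Type} [Field k₁] [Algebra k₁ E]
    (L : IntermediateField k₁ E) (P : LocalSubring E) : nrmX L P 1 = 1 := by
  unfold nrmX
  split_ifs with h
  · exact map_one _
  · rfl

/-- XJ. PROOF: `ov_finite`. -/
theorem fin_up (h : BC k k' F K) (hx : Var k D x) (a : ∀ P : LocalSubring F, Kap P)
    (hfin : {P | (P ∈ Pts k x 1 ∧ HorX K₀ P) ∧ a P ≠ 1}.Finite) :
    {P' | (P' ∈ Pts k' (fun i => algebraMap F K (x i)) 1 ∧ HorX (upK k' K K₀) P') ∧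
      kmap (algebraMap F K) P' (a (dn (algebraMap F K) P')) ≠ 1}.Finite := by
  refine (hfin.biUnion (t := fun P =>
    Ov k' (fun i => algebraMap F K (x i)) (algebraMap F K) 1 P)
    fun P hP => ov_finite h hx hP.1.1).subset ?_
  rintro P' ⟨⟨hP', hH⟩, hne⟩
  refine Set.mem_iUnion₂.2 ⟨dn (algebraMap F K) P', ⟨⟨pts_dn h hx hP', (hor_iff h hP').1 hH⟩,
    fun h1 => hne ?_⟩, hP', rfl⟩
  rw [h1, map_one]

/-- XJ. PROOF: group the product over `dn P' = P` (multiplicative version of `Cyc_group` in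
`ntKE/Cyc`), `norm_up`, `hor_iff`. -/
theorem prod_up (h : BC k k' F K) (hx : Var k D x) (hb : FunF k K₀ 1)
    (hcl : ∀ u : F, IsAlgebraic K₀ u → u ∈ K₀) (a : ∀ P : LocalSubring F, Kap P)
    (hfin : {P | (P ∈ Pts k x 1 ∧ HorX K₀ P) ∧ a P ≠ 1}.Finite) :
    ∏ᶠ (P' : LocalSubring K) (_ : P' ∈ Pts k' (fun i => algebraMap F K (x i)) 1 ∧
      HorX (upK k' K K₀) P'),
      nrmX (upK k' K K₀) P' (kmap (algebraMap F K) P' (a (dn (algebraMap F K) P'))) =
    upHom k' K K₀ (∏ᶠ (P : LocalSubring F) (_ : P ∈ Pts k x 1 ∧ HorX K₀ P), nrmX K₀ P (a P)) := by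
  have h1 := XJ_group {P' : LocalSubring K | P' ∈ Pts k' (fun i => algebraMap F K (x i)) 1 ∧
      HorX (upK k' K K₀) P'} _ hfin (fun P' => dn (algebraMap F K) P')
      (fun P' => nrmX (upK k' K K₀) P' (kmap (algebraMap F K) P' (a (dn (algebraMap F K) P'))))
      ?_ ?_
  · refine Eq.trans h1 ?_
    have h2 : ∀ P ∈ {P : LocalSubring F | (P ∈ Pts k x 1 ∧ HorX K₀ P) ∧ a P ≠ 1},
        ∏ᶠ (P' : LocalSubring K) (_ : P' ∈ {P' : LocalSubring K |
          P' ∈ {P' : LocalSubring K | P' ∈ Pts k' (fun i => algebraMap F K (x i)) 1 ∧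
            HorX (upK k' K K₀) P'} ∧ dn (algebraMap F K) P' = P}),
          nrmX (upK k' K K₀) P' (kmap (algebraMap F K) P' (a (dn (algebraMap F K) P'))) =
        upHom k' K K₀ (nrmX K₀ P (a P)) := by
      rintro P ⟨⟨hP, hH⟩, -⟩
      rw [← norm_up h hx hb hcl hP hH a]
      refine finprod_congr fun P' => ?_
      refine finprod_congr_Prop (propext ?_) fun _ => rfl
      constructor
      · rintro ⟨⟨h3, h4⟩, h5⟩
        exact ⟨h3, h5⟩
      · rintro ⟨h3, h5⟩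
        refine ⟨⟨h3, (hor_iff h h3).2 ?_⟩, h5⟩
        rw [h5]
        exact hH
    rw [finprod_mem_congr rfl h2]
    have h3 := MonoidHom.map_finprod_mem (fun P : LocalSubring F => nrmX K₀ P (a P))
      (upHom k' K K₀ : K₀ →* upK k' K K₀) hfin
    refine Eq.trans h3.symm ?_
    refine congrArg (upHom k' K K₀) ?_
    refine finprod_mem_inter_mulSupport_eq' (fun P : LocalSubring F => nrmX K₀ P (a P))
      {P | (P ∈ Pts k x 1 ∧ HorX K₀ P) ∧ a P ≠ 1} {P | P ∈ Pts k x 1 ∧ HorX K₀ P} ?_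
    intro P hP
    constructor
    · intro h4
      exact h4.1
    · intro h4
      refine ⟨h4, fun h5 => hP ?_⟩
      simp only [h5]
      exact XJ_one K₀ P
  · rintro P' ⟨hP', hH⟩ hne
    refine ⟨⟨pts_dn h hx hP', (hor_iff h hP').1 hH⟩, fun h1 => hne ?_⟩
    simp only [h1, map_one]
    exact XJ_one _ P'
  · rintro P ⟨⟨hP, -⟩, -⟩
    refine (ov_finite h hx hP).subset ?_
    rintro P' ⟨⟨h3, -⟩, h5⟩
    exact ⟨h3, h5⟩

end Pool.Agent.Lib.MP_b197b4_ntBW
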