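import Mathlib
import Pool.Agent.Lib.MP_b197b4_ntBW.WQ
import Pool.Agent.Lib.MP_b197b4_ntBW.XB
import Pool.Agent.Lib.MP_b197b4_ntBW.XC
import Pool.Agent.Lib.MP_b197b4_ntBW.XD
import Pool.Agent.Lib.MP_b197b4_ntBW.XJ
import Pool.Agent.Lib.MP_b197b4_ntKD.Big
import Pool.Agent.Lib.MP_b197b4_ntKE.Fx
import Pool.Agent.Lib.MP_b197b4_ntKE.Var

/-!
# MP_b197b4_nt, project BW, descent: Bloch's group `V(Y)` is torsion over perfect fields which are
algebraic over a finite field
-/

set_option autoImplicit false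

namespace Pool.Agent.Lib.MP_b197b4_ntBW

open IsLocalRing Pool.Agent.Lib.MP_b197b4_ntK Pool.Agent.Lib.MP_b197b4_ntA
  Pool.Agent.Lib.MP_b197b4_ntBV Pool.Agent.Lib.MP_b197b4_ntKD Pool.Agent.Lib.MP_b197b4_ntKE

open Classical in
/-- The form `l` extended by zero to the vertical curves. -/
noncomputable def hz {k F : Type} [Field k] [Field F] [Algebra k F] (K₀ : IntermediateField k F)
    (l : ∀ P : LocalSubring F, Kap P → ℚ) (P : LocalSubring F) (u : Kap P) : ℚ :=
  if HorX K₀ P then l P u else 0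

section

variable {k k' F K : Type} [Field k] [Field k'] [Field F] [Field K] [Algebra k F]
  [Algebra k' K] [Algebra F K] {n D : ℕ} {x : Fin (n + 1) → F} {K₀ : IntermediateField k F}

theorem hz_of {l : ∀ P : LocalSubring F, Kap P → ℚ} {P : LocalSubring F} (h : HorX K₀ P)
    (u : Kap P) : hz K₀ l P u = l P u := by
  unfold hz
  rw [if_pos h]

theorem hz_not {l : ∀ P : LocalSubring F, Kap P → ℚ} {P : LocalSubring F} (h : ¬ HorX K₀ P) :
    hz K₀ l P = fun _ => 0 := by
  funext u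
  unfold hz
  rw [if_neg h]

variable [Algebra k k']

/-- The form over `k'` is zero on the vertical curves. -/
theorem lX_vert (h : BC k k' F K) (l : ∀ P : LocalSubring F, Kap P → ℚ) {P' : LocalSubring K}
    (hP' : P' ∈ Pts k' (fun i => algebraMap F K (x i)) 1) (hn : ¬ HorX (upK k' K K₀) P')
    (u : Kap P') :
    lX k' (fun i => algebraMap F K (x i)) (algebraMap F K) (hz K₀ l) P' u = 0 := by
  have h1 : ¬ HorX K₀ (dn (algebraMap F K) P') := fun h2 => hn ((hor_iff h hP').2 h2)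
  unfold lX lup
  rw [hz_not h1]
  unfold lam
  rw [zero_div, zero_div]

/-- The forms on the horizontal curves over `k'`. -/
theorem formsH_up [IsAlgClosed k'] [IsGalois F K] (h : BC k k' F K) (hx : Var k D x)
    {l : ∀ P : LocalSubring F, Kap P → ℚ} (hl : FormsH k x K₀ l) :
    FormsH k' (fun i => algebraMap F K (x i)) (upK k' K K₀)
      (lX k' (fun i => algebraMap F K (x i)) (algebraMap F K) (hz K₀ l)) := by
  classical
  have h0 : FormsX k x (hz K₀ l) := formsX_of_H hl
  have h1 := forms_up h hx h0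
  refine ⟨fun P' hP' _ a b ha hb => h1.mul P' hP' a b ha hb, fun q hq _ hf hg => ?_⟩
  rw [← h1.recip q hq hf hg]
  refine finsum_congr fun P' => ?_
  by_cases hP' : P' ∈ Pts k' (fun i => algebraMap F K (x i)) 1
  · by_cases hh : HorX (upK k' K K₀) P'
    · rw [finsum_eq_if, finsum_eq_if, if_pos hP', if_pos ⟨hP', hh⟩]
    · rw [finsum_eq_if, finsum_eq_if, if_pos hP', if_neg fun h2 => hh h2.2, lX_vert h l hP' hh]
  · rw [finsum_eq_if, finsum_eq_if, if_neg hP', if_neg fun h2 => hP' h2.1]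

/-- The fibration over the larger field of constants. -/
theorem fib_up (h : BC k k' F K) (hF : FibX k D x K₀) :
    FibX k' D (fun i => algebraMap F K (x i)) (upK k' K K₀) where
  var := var_up h hF.var
  base := base_up h hF.base
  closed _ hu := closed_up h hF.closed hu
  mor := mor_up h hF.var hF.mor

end

/-- **The descent.** -/
theorem bloch_desc (k k' : Type) [Field k] [Field k'] [Algebra k k'] [PerfectField k]
    [IsAlgClosed k'] [Algebra.IsAlgebraic k k']
    (halg : ∃ p : ℕ, p.Prime ∧ ∀ a : k', ∃ m : ℕ, 0 < m ∧ a ^ p ^ m = a) (hP : Pic k')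
    (hL : LTP k') {F : Type} [Field F] [Algebra k F] {n D : ℕ} {x : Fin (n + 1) → F}
    {K₀ : IntermediateField k F} (hd : 2 ≤ D) (hF : FibX k D x K₀)
    (a : ∀ P : LocalSubring F, Kap P) (ha : ∀ P ∈ Pts k x 1, HorX K₀ P → a P ≠ 0)
    (hfin : {P | (P ∈ Pts k x 1 ∧ HorX K₀ P) ∧ a P ≠ 1}.Finite)
    (hN : ∏ᶠ (P : LocalSubring F) (_ : P ∈ Pts k x 1 ∧ HorX K₀ P), nrmX K₀ P (a P) = 1) :
    ∃ N : ℕ, 0 < N ∧ ∃ s : List (Σ S : LocalSubring F, Kap S × Kap S),
      (∀ q ∈ s, q.1 ∈ Pts k x 2 ∧ HorX K₀ q.1 ∧ q.2.1 ≠ 0 ∧ q.2.2 ≠ 0) ∧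
      ∀ P ∈ Pts k x 1, HorX K₀ P → a P ^ N = (s.map fun q => bd q P).prod := by
  classical
  obtain ⟨K, _, _, _, hBC, hGal⟩ := exists_big k k' F
  refine dualH hF.var.ne a ha hfin fun l hl => ?_
  have hF' := fib_up hBC hF
  have hl' := formsH_up hBC hF.var hl
  obtain ⟨H, hH⟩ := form_norm halg hP hL hd hF' hl'
  have hx := hF.var
  have hdn : ∀ P' ∈ Pts k' (fun i => algebraMap F K (x i)) 1, (HorX (upK k' K K₀) P' ↔
      HorX K₀ (dn (algebraMap F K) P')) := fun P' hP' => hor_iff hBC hP'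
  have hl1 : ∀ P' ∈ Pts k' (fun i => algebraMap F K (x i)) 1, HorX (upK k' K K₀) P' →
      lX k' (fun i => algebraMap F K (x i)) (algebraMap F K) (hz K₀ l) P' 1 = 0 := by
    intro P' hP1 hPh
    have := hl'.mul P' hP1 hPh 1 1 one_ne_zero one_ne_zero
    rw [mul_one] at this
    linarith
  have h1 := form_kill hF'.base hl1 hH (fun u hu => ord_finite hF'.base _ hu)
    (fun P' => kmap (algebraMap F K) P' (a (dn (algebraMap F K) P'))) ?_
    (fin_up hBC hx a hfin) ?_
  · have h0 : FormsX k x (hz K₀ l) := formsX_of_H hl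
    have h2 := fib_sum (Pts k' (fun i => algebraMap F K (x i)) 1) (Pts k x 1)
      (fun P' => dn (algebraMap F K) P') (fun P' hP' => pts_dn hBC hx hP')
      (fun P hP => ov_finite hBC hx hP) (fun P hP => ov_nonempty hBC hx hP)
      (fun P => hz K₀ l P (a P))
    have h3 : ∑ᶠ (P : LocalSubring F) (_ : P ∈ Pts k x 1 ∧ HorX K₀ P), l P (a P) =
        ∑ᶠ (P : LocalSubring F) (_ : P ∈ Pts k x 1), hz K₀ l P (a P) := by
      refine finsum_congr fun P => ?_
      by_cases hP : P ∈ Pts k x 1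
      · by_cases hh : HorX K₀ P
        · rw [finsum_eq_if, finsum_eq_if, if_pos hP, if_pos ⟨hP, hh⟩, hz_of hh]
        · rw [finsum_eq_if, finsum_eq_if, if_pos hP, if_neg fun h4 => hh h4.2, hz_not hh]
      · rw [finsum_eq_if, finsum_eq_if, if_neg hP, if_neg fun h4 => hP h4.1]
    rw [h3, ← h2, ← h1]
    refine finsum_congr fun P' => ?_
    by_cases hP' : P' ∈ Pts k' (fun i => algebraMap F K (x i)) 1
    · by_cases hh : HorX (upK k' K K₀) P'
      · rw [finsum_eq_if, finsum_eq_if, if_pos hP', if_pos ⟨hP', hh⟩]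
        have h4 := h0.mul _ (pts_dn hBC hx hP')
        have h5 : lup (algebraMap F K) (hz K₀ l) P'
            (kmap (algebraMap F K) P' (a (dn (algebraMap F K) P'))) =
            hz K₀ l (dn (algebraMap F K) P') (a (dn (algebraMap F K) P')) :=
          lup_kmap P' h4 (ha _ (pts_dn hBC hx hP') ((hdn P' hP').1 hh))
        unfold lX
        rw [h5]
        rfl
      · rw [finsum_eq_if, finsum_eq_if, if_pos hP', if_neg fun h4 => hh h4.2,
          hz_not fun h4 => hh ((hdn P' hP').2 h4), zero_div]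
    · rw [finsum_eq_if, finsum_eq_if, if_neg hP', if_neg fun h4 => hP' h4.1]
  · intro P' hP' hh'
    have h4 := ha _ (pts_dn hBC hx hP') ((hdn P' hP').1 hh')
    change kmap (algebraMap F K) P' (a (dn (algebraMap F K) P')) ≠ 0
    rw [ne_eq, map_eq_zero]
    exact h4
  · rw [prod_up hBC hx hF.base hF.closed a hfin, hN, map_one]

end Pool.Agent.Lib.MP_b197b4_ntBW
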