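import Mathlib
import Pool.Agent.Lib.MP_b197b4_ntBW.WR
import Pool.Agent.Lib.MP_b197b4_ntBW.XK
import Pool.Agent.Lib.MP_b197b4_ntF.Alg

/-!
# MP_b197b4_nt, project BW: Bloch's group `V(Y)` is torsion over all algebraic extensions of finite
fields
-/

set_option autoImplicit false

namespace Pool.Agent.Lib.MP_b197b4_ntBW

open IsLocalRing Pool.Agent.Lib.MP_b197b4_ntK Pool.Agent.Lib.MP_b197b4_ntA

/-- **Bloch's group `V(Y)` is torsion**, over fields which are algebraic over a finite field. -/
theorem bloch_main (p : ℕ) [Fact p.Prime] (k : Type) [Field k] [CharP k p]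
    (halg : ∀ a : k, ∃ m : ℕ, 0 < m ∧ a ^ p ^ m = a) : BlochX k := by
  have _ := perfect_of_pow p k halg
  have _ : CharP (AlgebraicClosure k) p := charP_of_injective_algebraMap
    (algebraMap k (AlgebraicClosure k)).injective p
  obtain ⟨h1, h2, h3⟩ := inputs_closed p (AlgebraicClosure k)
    (pow_eq_of_tower p k (AlgebraicClosure k) halg)
  intro F _ _ n D x K₀ hd hF a ha hfin hN
  exact bloch_desc k (AlgebraicClosure k) h1 h2 h3 hd hF a ha hfin hN

end Pool.Agent.Lib.MP_b197b4_ntBW
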